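import Pool.Agent.KSX.St

/-!
# KSX, module ALG: the matrix of a query algorithm
-/

set_option autoImplicit false

open Finset Matrix

namespace Pool.Agent.KSX

namespace ALG_aux

variable {S w : ℕ}

/-- the addresses along a sequence of contents -/
def addr (c0 : Fin S) : (T : ℕ) → Alg S w → (Fin T → Fin (2 ^ w)) → Fin T → Fin S
  | 0, _, _ => Fin.elim0
  | _ + 1, .answer _, _ => fun _ => c0
  | T + 1, .probe c next, v => Fin.cons c (addr c0 T (next (v 0)) (Fin.tail v))

/-- the remaining algorithm after a sequence of contents -/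
def cont : (T : ℕ) → Alg S w → (Fin T → Fin (2 ^ w)) → Alg S w
  | _, .answer b, _ => .answer b
  | 0, .probe c next, _ => .probe c next
  | T + 1, .probe _ next, v => cont T (next (v 0)) (Fin.tail v)

/-- the answer along a sequence of contents -/
def out : (T : ℕ) → Alg S w → (Fin T → Fin (2 ^ w)) → Bool
  | _, .answer b, _ => b
  | 0, .probe _ _, _ => false
  | T + 1, .probe _ next, v => out T (next (v 0)) (Fin.tail v)

theorem path (c0 : Fin S) (M : Fin S → Fin (2 ^ w)) (T : ℕ) : ∀ a : Alg S w,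
    ∃ v0 : Fin T → Fin (2 ^ w), (∀ v, (∀ r, M (addr c0 T a v r) = v r) ↔ v = v0) ∧
      (cont T a v0).run M = a.run M ∧ (a.Within T → out T a v0 = a.run M) := by
  induction T with
  | zero =>
    intro a
    cases a with
    | answer b =>
      exact ⟨Fin.elim0, fun v => ⟨fun _ => funext fun i => i.elim0, fun _ i => i.elim0⟩, rfl,
        fun _ => rfl⟩
    | probe c next =>
      exact ⟨Fin.elim0, fun v => ⟨fun _ => funext fun i => i.elim0, fun _ i => i.elim0⟩, rfl,
        fun h => absurd h id⟩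
  | succ T ih =>
    intro a
    cases a with
    | answer b =>
      refine ⟨fun _ => M c0, fun v => ⟨fun h => funext fun i => (h i).symm, fun h i => ?_⟩, rfl,
        fun _ => rfl⟩
      rw [h]
      rfl
    | probe c next =>
      obtain ⟨v1, h1, h2, h2'⟩ := ih (next (M c))
      refine ⟨Fin.cons (M c) v1, fun v => ?_, ?_, fun hW => ?_⟩
      · rw [Fin.forall_fin_succ]
        have h3 : addr c0 (T + 1) (.probe c next) v =
          Fin.cons c (addr c0 T (next (v 0)) (Fin.tail v)) := rfl
        rw [h3, Fin.cons_zero]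
        simp only [Fin.cons_succ]
        constructor
        · rintro ⟨h4, h5⟩
          rw [← h4] at h5
          have h6 := (h1 (Fin.tail v)).1 h5
          rw [← Fin.cons_self_tail v, h6, ← h4]
        · intro h4
          have h5 : v 0 = M c := by rw [h4, Fin.cons_zero]
          have h6 : Fin.tail v = v1 := by rw [h4, Fin.tail_cons]
          refine ⟨h5.symm, ?_⟩
          rw [h5]
          exact (h1 (Fin.tail v)).2 h6
      · have h3 : cont (T + 1) (.probe c next) (Fin.cons (M c) v1 : Fin (T + 1) → Fin (2 ^ w)) =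
            cont T (next ((Fin.cons (M c) v1 : Fin (T + 1) → Fin (2 ^ w)) 0))
              (Fin.tail (Fin.cons (M c) v1 : Fin (T + 1) → Fin (2 ^ w))) := rfl
        rw [h3, Fin.cons_zero, Fin.tail_cons, h2]
        rfl
      · have h3 : out (T + 1) (.probe c next) (Fin.cons (M c) v1 : Fin (T + 1) → Fin (2 ^ w)) =
            out T (next ((Fin.cons (M c) v1 : Fin (T + 1) → Fin (2 ^ w)) 0))
              (Fin.tail (Fin.cons (M c) v1 : Fin (T + 1) → Fin (2 ^ w))) := rfl
        rw [h3, Fin.cons_zero, Fin.tail_cons, h2' (hW (M c))]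
        rfl

theorem cont_within (T T' : ℕ) : ∀ (a : Alg S w) (v : Fin T → Fin (2 ^ w)),
    a.Within (T + T') → (cont T a v).Within T' := by
  induction T with
  | zero =>
    intro a v ha
    rw [Nat.zero_add] at ha
    cases a with
    | answer b => exact ha
    | probe c next => exact ha
  | succ T ih =>
    intro a v ha
    cases a with
    | answer b => cases T' <;> trivial
    | probe c next =>
      rw [show T + 1 + T' = (T + T') + 1 by omega] at ha
      exact ih (next (v 0)) (Fin.tail v) (ha (v 0))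

/-- sum over a graph -/
theorem sum_graph {t : ℕ} (f : (Fin t → Fin (2 ^ w)) → (Fin t → Fin S))
    (g : Idx t S w → ℝ) :
    ∑ p : Idx t S w, (if p.1 = f p.2 then g p else 0) = ∑ v, g (f v, v) := by
  rw [Fintype.sum_prod_type_right]
  refine Finset.sum_congr rfl fun v _ => ?_
  simp only
  rw [Finset.sum_ite_eq' univ (f v) (fun x => g (x, v)), if_pos (mem_univ _)]

/-- sum over a unique solution -/
theorem sum_unique {ι : Type*} [Fintype ι] (P : ι → Prop) [DecidablePred P] (i0 : ι)
    (h : ∀ i, P i ↔ i = i0) (g : ι → ℝ) : ∑ i, (if P i then g i else 0) = g i0 := by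
  classical
  rw [Finset.sum_eq_single i0]
  · rw [if_pos ((h i0).2 rfl)]
  · intro i _ hi
    rw [if_neg fun h' => hi ((h i).1 h')]
  · intro h'
    exact absurd (mem_univ _) h'

end ALG_aux

open ALG_aux in
theorem t_ALG : S_ALG := by
  classical
  intro t S w hS a ha
  obtain ⟨c0⟩ : Nonempty (Fin S) := ⟨⟨0, hS⟩⟩
  obtain ⟨m, hm⟩ : ∃ m : Matrix (Idx t S w) (Idx t S w) ℝ, ∀ p q, m p q =
      if p.1 = addr c0 t a p.2 then
        (if q.1 = addr c0 t (cont t a p.2) q.2 then sgn (out t (cont t a p.2) q.2) else 0)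
      else 0 :=
    ⟨fun p q => if p.1 = addr c0 t a p.2 then
        (if q.1 = addr c0 t (cont t a p.2) q.2 then sgn (out t (cont t a p.2) q.2) else 0)
      else 0, fun _ _ => rfl⟩
  refine ⟨Matrix.fromBlocks 0 m mᵀ 0, ?_, fun M => ?_⟩
  · rw [Matrix.fromBlocks_transpose]
    simp
  obtain ⟨x, hx⟩ : ∃ x : Idx t S w → ℝ, ∀ p, x p = if ∀ i, M (p.1 i) = p.2 i then 1 else 0 :=
    ⟨fun p => if ∀ i, M (p.1 i) = p.2 i then 1 else 0, fun _ => rfl⟩
  have hxv : xv t M = Sum.elim x x := by
    have h1 : x = fun p => if ∀ i, M (p.1 i) = p.2 i then 1 else 0 := by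
      funext p
      rw [hx]
    rw [h1]
    rfl
  -- paths
  choose pth hp1 hp2 hp3 using path (w := w) c0 M t
  have hmx : ∀ p : Idx t S w, (m *ᵥ x) p =
      if p.1 = addr c0 t a p.2 then
        sgn (out t (cont t a p.2) (pth (cont t a p.2))) else 0 := by
    intro p
    have h1 : (m *ᵥ x) p = ∑ q, m p q * x q := rfl
    rw [h1]
    by_cases h2 : p.1 = addr c0 t a p.2
    · rw [if_pos h2]
      have h3 : ∀ q : Idx t S w, m p q * x q =
          if q.1 = addr c0 t (cont t a p.2) q.2 then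
            (if ∀ i, M (q.1 i) = q.2 i then sgn (out t (cont t a p.2) q.2) else 0) else 0 := by
        intro q
        rw [hm, if_pos h2, hx]
        by_cases h4 : q.1 = addr c0 t (cont t a p.2) q.2
        · rw [if_pos h4, if_pos h4, mul_ite, mul_one, mul_zero]
        · rw [if_neg h4, if_neg h4, zero_mul]
      rw [Finset.sum_congr rfl fun q _ => h3 q,
        sum_graph (fun v => addr c0 t (cont t a p.2) v)
          (fun q => if ∀ i, M (q.1 i) = q.2 i then sgn (out t (cont t a p.2) q.2) else 0)]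
      exact sum_unique _ _ (hp1 (cont t a p.2)) (fun v => sgn (out t (cont t a p.2) v))
    · rw [if_neg h2]
      refine Finset.sum_eq_zero fun q _ => ?_
      rw [hm, if_neg h2, zero_mul]
  have hmtx : ∀ q : Idx t S w, (mᵀ *ᵥ x) q =
      if q.1 = addr c0 t (cont t a (pth a)) q.2 then
        sgn (out t (cont t a (pth a)) q.2) else 0 := by
    intro q
    have h1 : (mᵀ *ᵥ x) q = ∑ p, m p q * x p := rfl
    rw [h1]
    have h3 : ∀ p : Idx t S w, m p q * x p =
        if p.1 = addr c0 t a p.2 then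
          (if ∀ i, M (p.1 i) = p.2 i then
            (if q.1 = addr c0 t (cont t a p.2) q.2 then sgn (out t (cont t a p.2) q.2) else 0)
            else 0) else 0 := by
      intro p
      rw [hm, hx, ite_mul, zero_mul, mul_ite, mul_one, mul_zero]
    rw [Finset.sum_congr rfl fun p _ => h3 p,
      sum_graph (fun v => addr c0 t a v)
        (fun p => if ∀ i, M (p.1 i) = p.2 i then
            (if q.1 = addr c0 t (cont t a p.2) q.2 then sgn (out t (cont t a p.2) q.2) else 0)
            else 0)]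
    exact sum_unique _ _ (hp1 a)
      (fun v => if q.1 = addr c0 t (cont t a v) q.2 then sgn (out t (cont t a v) q.2) else 0)
  have hxm : x ⬝ᵥ (m *ᵥ x) = sgn (a.run M) := by
    have h1 : x ⬝ᵥ (m *ᵥ x) = ∑ p, x p * (m *ᵥ x) p := rfl
    rw [h1]
    have h3 : ∀ p : Idx t S w, x p * (m *ᵥ x) p =
        if p.1 = addr c0 t a p.2 then
          (if ∀ i, M (p.1 i) = p.2 i then
            sgn (out t (cont t a p.2) (pth (cont t a p.2))) else 0) else 0 := by
      intro p
      rw [hmx, hx, mul_ite, mul_zero, ite_mul, one_mul, zero_mul]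
    rw [Finset.sum_congr rfl fun p _ => h3 p,
      sum_graph (fun v => addr c0 t a v)
        (fun p => if ∀ i, M (p.1 i) = p.2 i then
            sgn (out t (cont t a p.2) (pth (cont t a p.2))) else 0),
      sum_unique _ _ (hp1 a) (fun v => sgn (out t (cont t a v) (pth (cont t a v)))),
      hp3 _ (cont_within t t a (pth a) ha), hp2]
  have hcard : ∑ _v : Fin t → Fin (2 ^ w), (1 : ℝ) = ((2 : ℝ) ^ w) ^ t := by
    simp
  have hn1 : (m *ᵥ x) ⬝ᵥ (m *ᵥ x) = ((2 : ℝ) ^ w) ^ t := by
    have h1 : (m *ᵥ x) ⬝ᵥ (m *ᵥ x) = ∑ p, (m *ᵥ x) p * (m *ᵥ x) p := rfl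
    rw [h1, ← hcard]
    have h3 : ∀ p : Idx t S w, (m *ᵥ x) p * (m *ᵥ x) p =
        if p.1 = addr c0 t a p.2 then 1 else 0 := by
      intro p
      rw [hmx]
      split_ifs
      · exact sgn_mul_self _
      · exact mul_zero _
    rw [Finset.sum_congr rfl fun p _ => h3 p]
    exact sum_graph (fun v => addr c0 t a v) (fun _ => (1 : ℝ))
  have hn2 : (mᵀ *ᵥ x) ⬝ᵥ (mᵀ *ᵥ x) = ((2 : ℝ) ^ w) ^ t := by
    have h1 : (mᵀ *ᵥ x) ⬝ᵥ (mᵀ *ᵥ x) = ∑ p, (mᵀ *ᵥ x) p * (mᵀ *ᵥ x) p := rfl
    rw [h1, ← hcard]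
    have h3 : ∀ p : Idx t S w, (mᵀ *ᵥ x) p * (mᵀ *ᵥ x) p =
        if p.1 = addr c0 t (cont t a (pth a)) p.2 then 1 else 0 := by
      intro p
      rw [hmtx]
      split_ifs
      · exact sgn_mul_self _
      · exact mul_zero _
    rw [Finset.sum_congr rfl fun p _ => h3 p]
    exact sum_graph (fun v => addr c0 t (cont t a (pth a)) v) (fun _ => (1 : ℝ))
  have hxmt : x ⬝ᵥ (mᵀ *ᵥ x) = sgn (a.run M) := by
    rw [Matrix.dotProduct_mulVec, Matrix.vecMul_transpose, dotProduct_comm, hxm]
  have hA : Matrix.fromBlocks 0 m mᵀ 0 *ᵥ xv t M = Sum.elim (m *ᵥ x) (mᵀ *ᵥ x) := by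
    rw [hxv, Matrix.fromBlocks_mulVec]
    simp
  rw [hA, hxv, sumElim_dotProduct_sumElim, sumElim_dotProduct_sumElim, hxm, hxmt, hn1, hn2]
  constructor <;> ring

end Pool.Agent.KSX
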