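import Pool.Agent.KSX.St2

set_option autoImplicit false

open Finset Matrix

namespace Pool.Agent.KSX

/-- a scheme with error `δ` is a scheme with error `max δ 0` -/
def ALL_aux.pos {k N S w T : ℕ} {δ : ℝ} (D : Scheme k N S w T δ) :
    Scheme k N S w T (max δ 0) where
  R := D.R
  pos := D.pos
  mem := D.mem
  alg := D.alg
  within := D.within
  correct := fun F hF q hq => by
    refine le_trans ?_ (D.correct F hF q hq)
    have h : (0 : ℝ) ≤ D.R := Nat.cast_nonneg _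
    exact mul_le_mul_of_nonneg_right (by linarith [le_max_left δ 0]) h

theorem t_ALL (hFIN : S_FIN) (hPR3 : S_PR3) (hGR3 : S_GR3) : S_ALL := by
  intro k ε hk hε
  obtain ⟨C1, h1⟩ := hFIN k (ε / 2) hk (by linarith)
  obtain ⟨L, C3, hC3, h3⟩ := hGR3 k ε (by omega) hε
  set C := max (C1 ^ 2) (max C1 C3) with hC
  have hC1 : C1 ≤ C := le_trans (le_max_left _ _) (le_max_right _ _)
  have hC2 : C1 ^ 2 ≤ C := le_max_left _ _
  have hC3' : C3 ≤ C := le_trans (le_max_right _ _) (le_max_right _ _)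
  refine ⟨C, fun N S w T δ hN hS hT hδ ⟨D0⟩ => ?_⟩
  have hN1 : (1 : ℝ) ≤ N := by exact_mod_cast hN
  have hN0 : (0 : ℝ) < N := by linarith
  have hS1 : (1 : ℝ) ≤ S := by exact_mod_cast hS
  have D := ALL_aux.pos D0
  set δ' := max δ 0 with hδ'
  have hδ0 : 0 ≤ δ' := le_max_right _ _
  have hCN : C * (N : ℝ) ^ ε * δ' ≤ 1 := by
    rcases le_total 0 δ with h | h
    · rw [hδ', max_eq_left h]
      exact hδ
    · rw [hδ', max_eq_right h]
      simp
  have hNε : (0 : ℝ) < (N : ℝ) ^ ε := Real.rpow_pos_of_pos hN0 _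
  rcases Nat.even_or_odd' T with ⟨t, ht | ht⟩
  · -- even
    have hNe : (N : ℝ) ^ (ε / 2) ≤ (N : ℝ) ^ ε :=
      Real.rpow_le_rpow_of_exponent_le hN1 (by linarith)
    have hNe0 : (0 : ℝ) < (N : ℝ) ^ (ε / 2) := Real.rpow_pos_of_pos hN0 _
    have hC0 : 0 ≤ C := le_trans (by linarith) hC3'
    have hb : C1 * (N : ℝ) ^ (ε / 2) * δ' ≤ 1 := by
      refine le_trans ?_ hCN
      refine mul_le_mul_of_nonneg_right ?_ hδ0
      calc C1 * (N : ℝ) ^ (ε / 2) ≤ C * (N : ℝ) ^ (ε / 2) :=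
            mul_le_mul_of_nonneg_right hC1 hNe0.le
        _ ≤ C * (N : ℝ) ^ ε := mul_le_mul_of_nonneg_left hNe hC0
    have h := h1 N S w T δ' hN hS hb ⟨D⟩
    have e1 : (T + 1) / 2 = t := by omega
    rw [e1] at h ⊢
    have hX : (0 : ℝ) ≤ (N : ℝ) ^ ((k : ℝ) - ε / 2) := (Real.rpow_pos_of_pos hN0 _).le
    have e2 : (N : ℝ) ^ (2 * (k : ℝ) - ε) = ((N : ℝ) ^ ((k : ℝ) - ε / 2)) ^ 2 := by
      rw [← Real.rpow_natCast, ← Real.rpow_mul hN0.le]
      congr 1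
      push_cast
      ring
    have e3 : (C1 * ((2 : ℝ) ^ w * S) ^ t) ^ 2 = C1 ^ 2 * (((4 : ℝ) ^ w) ^ t * (S : ℝ) ^ T) := by
      have e4 : (4 : ℝ) ^ w = (2 : ℝ) ^ w * (2 : ℝ) ^ w := by
        rw [← mul_pow]; norm_num
      rw [ht, e4]
      ring
    rw [e2]
    refine (pow_le_pow_left₀ hX h 2).trans ?_
    rw [e3]
    exact mul_le_mul_of_nonneg_right hC2 (by positivity)
  · -- odd
    have ht1 : 1 ≤ t := by omega
    obtain ⟨r', hr1, hr2, hr3⟩ := h3 N hN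
    have hb : 2 * 2 ^ (2 * k * r') * δ' ≤ 1 := by
      refine le_trans (mul_le_mul_of_nonneg_right (hr2.trans ?_) hδ0) hCN
      exact mul_le_mul_of_nonneg_right hC3' hNε.le
    have h := hPR3 k N S w T t L r' δ' (by omega) hN hS ht1 (by omega) hr1 hb D
    have e1 : (T + 1) / 2 = t + 1 := by omega
    rw [e1]
    have e4 : (((2 : ℝ) ^ w) ^ (2 * t + 2) * (S : ℝ) ^ (2 * t + 1)) =
        ((4 : ℝ) ^ w) ^ (t + 1) * (S : ℝ) ^ T := by
      have e5 : (4 : ℝ) ^ w = (2 : ℝ) ^ w * (2 : ℝ) ^ w := by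
        rw [← mul_pow]; norm_num
      rw [ht, e5]
      ring
    rw [e4] at h
    have hY : 0 ≤ ((4 : ℝ) ^ w) ^ (t + 1) * (S : ℝ) ^ T := by positivity
    have h5 : (N : ℝ) ^ (2 * k) ≤ C * (N : ℝ) ^ ε * (((4 : ℝ) ^ w) ^ (t + 1) * (S : ℝ) ^ T) := by
      refine h.trans (mul_le_mul_of_nonneg_right (hr3.trans ?_) hY)
      exact mul_le_mul_of_nonneg_right hC3' hNε.le
    rw [Real.rpow_sub hN0, div_le_iff₀ hNε]
    have e6 : (N : ℝ) ^ (2 * (k : ℝ)) = (N : ℝ) ^ (2 * k) := by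
      rw [← Real.rpow_natCast]
      push_cast
      rfl
    rw [e6]
    linarith

end Pool.Agent.KSX
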