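import Pool.Agent.KSX.St

set_option autoImplicit false

open Finset Matrix

namespace Pool.Agent.KSX

theorem ALX_half (t S w : ℕ) (M : Fin S → Fin (2 ^ w)) :
    ∑ a : Idx t S w, (if ∀ i, M (a.1 i) = a.2 i then (1 : ℝ) else 0) *
      (if ∀ i, M (a.1 i) = a.2 i then (1 : ℝ) else 0) = (S : ℝ) ^ t := by
  have h1 : ∀ a : Idx t S w, (if ∀ i, M (a.1 i) = a.2 i then (1 : ℝ) else 0) *
      (if ∀ i, M (a.1 i) = a.2 i then (1 : ℝ) else 0) =
      if (fun i => M (a.1 i)) = a.2 then (1 : ℝ) else 0 := by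
    intro a
    by_cases h : ∀ i, M (a.1 i) = a.2 i
    · rw [if_pos h, if_pos (funext h), mul_one]
    · rw [if_neg h, if_neg fun h' => h fun i => congrFun h' i, mul_zero]
  rw [Finset.sum_congr rfl fun a _ => h1 a, Fintype.sum_prod_type]
  simp

theorem t_ALX : S_ALX := by
  intro t S w M
  unfold xv dotProduct
  rw [Fintype.sum_sum_type]
  simp only [Sum.elim_inl, Sum.elim_inr]
  rw [ALX_half]
  ring

end Pool.Agent.KSX
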