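import Pool.Agent.KSX.St

/-!
# COR: the correlation of the parity with the answers
-/

set_option autoImplicit false

open Finset Matrix

namespace Pool.Agent.KSX

noncomputable section

namespace COR_aux

/-- The sum over all Boolean functions of a product over different points. -/
theorem sum_prod_points {P : Type} [Fintype P] [DecidableEq P] (r : ℕ) (pts : Fin r → P)
    (hpts : Function.Injective pts) (h : Bool → ℝ) :
    (∑ f : P → Bool, ∏ b, h (f (pts b))) * 2 ^ r =
      (Fintype.card (P → Bool) : ℝ) * (h true + h false) ^ r := by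
  classical
  let g : P → Bool → ℝ := fun p c => if p ∈ univ.image pts then h c else 1
  have h1 : ∀ f : P → Bool, ∏ b, h (f (pts b)) = ∏ p, g p (f p) := by
    intro f
    have h2 : ∏ p, g p (f p) = ∏ p ∈ univ.image pts, h (f p) := by
      rw [← Finset.prod_filter_mul_prod_filter_not univ (fun p => p ∈ univ.image pts)
        (fun p => g p (f p))]
      have h3 : ∏ p ∈ univ.filter (fun p => p ∉ univ.image pts), g p (f p) = 1 := by
        refine Finset.prod_eq_one fun p hp => ?_
        exact if_neg (Finset.mem_filter.mp hp).2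
      rw [h3, mul_one]
      have h4 : univ.filter (fun p => p ∈ univ.image pts) = univ.image pts := by
        ext p
        simp
      rw [h4]
      refine Finset.prod_congr rfl fun p hp => ?_
      exact if_pos hp
    rw [h2, Finset.prod_image fun a _ b _ hab => hpts hab]
  have h5 : ∑ f : P → Bool, ∏ p, g p (f p) = ∏ p, ∑ c, g p c := by
    rw [Finset.prod_univ_sum, Fintype.piFinset_univ]
  have h6 : ∀ p, ∑ c, g p c = if p ∈ univ.image pts then h true + h false else 2 := by
    intro p
    by_cases hp : p ∈ univ.image pts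
    · rw [if_pos hp, Fintype.sum_bool]
      simp only [g, if_pos hp]
    · rw [if_neg hp, Fintype.sum_bool]
      simp only [g, if_neg hp]
      norm_num
  have hcard : (univ.image pts).card = r := by
    rw [Finset.card_image_of_injective _ hpts, Finset.card_univ, Fintype.card_fin]
  have h7 : ∏ p, ∑ c, g p c = (h true + h false) ^ r * 2 ^ (Fintype.card P - r) := by
    rw [Finset.prod_congr rfl fun p _ => h6 p, Finset.prod_ite, Finset.prod_const,
      Finset.prod_const]
    have h8 : univ.filter (fun p => p ∈ univ.image pts) = univ.image pts := by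
      ext p
      simp
    have h9 : univ.filter (fun p => p ∉ univ.image pts) = (univ.image pts)ᶜ := by
      ext p
      simp
    rw [h8, h9, Finset.card_compl, hcard]
  have hle : r ≤ Fintype.card P := by
    rw [← hcard, ← Finset.card_univ]
    exact Finset.card_le_card (Finset.subset_univ _)
  rw [Finset.sum_congr rfl fun f _ => h1 f, h5, h7, Fintype.card_fun, Fintype.card_bool]
  push_cast
  rw [mul_assoc, ← pow_add, Nat.sub_add_cancel hle]
  ring

/-- The answer on the instance. -/
def ans {k n s r : ℕ} (x : Fin r → Fin n → Fin s) (f : Fin r × (Fin k → Fin s) → Bool)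
    (e : Fin k → Fin n) : Bool := decide (∀ b, f (b, fun j => x b (e j)) = false)

theorem abs_yy {k n s r : ℕ} (x : Fin r → Fin n → Fin s) (f : Fin r × (Fin k → Fin s) → Bool)
    (e : Fin k → Fin n) : |(-1 : ℝ) ^ r * yy x f e| = 1 := by
  unfold yy
  rw [abs_mul, abs_pow, abs_neg, abs_one, one_pow, one_mul, Finset.abs_prod]
  exact Finset.prod_eq_one fun b _ => abs_sgn _

theorem neg_pow_mul_yy {k n s r : ℕ} (x : Fin r → Fin n → Fin s)
    (f : Fin r × (Fin k → Fin s) → Bool) (e : Fin k → Fin n) :
    (-1 : ℝ) ^ r * yy x f e = ∏ b : Fin r, (fun c => - sgn c) (f (b, fun j => x b (e j))) := by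
  unfold yy
  have h1 : ∏ b : Fin r, (fun c => - sgn c) (f (b, fun j => x b (e j))) =
      ∏ b : Fin r, ((-1) * sgn (f (b, fun j => x b (e j)))) :=
    Finset.prod_congr rfl fun b _ => by ring
  rw [h1, Finset.prod_mul_distrib, Finset.prod_const, Finset.card_univ, Fintype.card_fin]

theorem sgn_ans {k n s r : ℕ} (x : Fin r → Fin n → Fin s)
    (f : Fin r × (Fin k → Fin s) → Bool) (e : Fin k → Fin n) :
    ((-1 : ℝ) ^ r * yy x f e) * sgn (ans x f e) =
      2 * ∏ b : Fin r, (fun c : Bool => if c then (0 : ℝ) else 1) (f (b, fun j => x b (e j))) -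
        ∏ b : Fin r, (fun c => - sgn c) (f (b, fun j => x b (e j))) := by
  rw [neg_pow_mul_yy]
  by_cases h : ∀ b, f (b, fun j => x b (e j)) = false
  · have h1 : ans x f e = true := decide_eq_true h
    have h2 : ∏ b : Fin r, (fun c => - sgn c) (f (b, fun j => x b (e j))) = 1 := by
      refine Finset.prod_eq_one fun b _ => ?_
      simp only [h b, sgn_false, neg_neg]
    have h3 : ∏ b : Fin r, (fun c : Bool => if c then (0 : ℝ) else 1)
        (f (b, fun j => x b (e j))) = 1 := by
      refine Finset.prod_eq_one fun b _ => ?_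
      simp only [h b, Bool.false_eq_true, if_false]
    rw [h1, h2, h3, sgn_true]
    norm_num
  · have h1 : ans x f e = false := decide_eq_false h
    have h3 : ∏ b : Fin r, (fun c : Bool => if c then (0 : ℝ) else 1)
        (f (b, fun j => x b (e j))) = 0 := by
      push Not at h
      obtain ⟨b, hb⟩ := h
      refine Finset.prod_eq_zero (Finset.mem_univ b) ?_
      have hb' : f (b, fun j => x b (e j)) = true := by simpa using hb
      simp only [hb', if_true]
    rw [h1, h3, sgn_false]
    ring

/-- The correlation of the parity with the correct answers. -/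
theorem corr {k n s r : ℕ} (x : Fin r → Fin n → Fin s) (hr : 0 < r) (e : Fin k → Fin n) :
    ∑ f : Fin r × (Fin k → Fin s) → Bool, ((-1 : ℝ) ^ r * yy x f e) * sgn (ans x f e) =
      2 / 2 ^ r * (Fintype.card (Fin r × (Fin k → Fin s) → Bool) : ℝ) := by
  have hinj : Function.Injective fun b : Fin r => ((b, fun j => x b (e j)) :
      Fin r × (Fin k → Fin s)) := fun a b hab => congrArg Prod.fst hab
  have h1 := sum_prod_points r _ hinj (fun c : Bool => if c then (0 : ℝ) else 1)
  have h2 := sum_prod_points r _ hinj (fun c => - sgn c)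
  rw [Finset.sum_congr rfl fun f _ => sgn_ans x f e, Finset.sum_sub_distrib, ← Finset.mul_sum]
  have hp : (0 : ℝ) < 2 ^ r := by positivity
  have h3 : (fun c => - sgn c) true + (fun c => - sgn c) false = 0 := by
    simp only [sgn_true, sgn_false]
    norm_num
  rw [h3, zero_pow hr.ne', mul_zero] at h2
  have h4 := (mul_eq_zero.mp h2).resolve_right hp.ne'
  have h5 : (fun c : Bool => if c then (0 : ℝ) else 1) true +
      (fun c : Bool => if c then (0 : ℝ) else 1) false = 1 := by
    norm_num
  rw [h5, one_pow, mul_one] at h1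
  rw [h4, sub_zero]
  have h6 := eq_div_of_mul_eq hp.ne' h1
  rw [h6]
  ring

end COR_aux

open COR_aux in
theorem t_COR (hINS : S_INS) : S_COR := by
  intro k n s r N S w T x δ hk hr h1 h2 h3 D
  obtain ⟨fam, qry, hfam, hqry, hcor⟩ := hINS k n s r N x hk h1 h2 h3
  have hR : (0 : ℝ) < D.R := by exact_mod_cast D.pos
  -- the estimate for one instance and one query
  have key : ∀ (f : Fin r × (Fin k → Fin s) → Bool) (e : Fin k → Fin n),
      (D.R : ℝ) * (((-1) ^ r * yy x f e) * sgn (ans x f e)) - 2 * δ * D.R ≤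
        ∑ ρ : Fin D.R, ((-1) ^ r * yy x f e) * sgn ((D.alg ρ (qry e)).run (D.mem ρ (fam f))) := by
    intro f e
    set c : ℝ := (-1) ^ r * yy x f e with hc
    have hcabs : |c| = 1 := abs_yy x f e
    have hright := D.correct (fam f) (hfam f) (qry e) (hqry e)
    set A : Finset (Fin D.R) := univ.filter fun ρ =>
        ((D.alg ρ (qry e)).run (D.mem ρ (fam f)) = true ↔ ∀ y, ¬ ∀ i, y ∈ fam f (qry e i)) with hA
    have hterm : ∀ ρ : Fin D.R, c * sgn (ans x f e) - (if ρ ∈ A then 0 else 2) ≤
        c * sgn ((D.alg ρ (qry e)).run (D.mem ρ (fam f))) := by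
      intro ρ
      by_cases hρ : ρ ∈ A
      · rw [if_pos hρ, sub_zero]
        have h4 := (Finset.mem_filter.mp hρ).2
        rw [hcor f e] at h4
        have h5 : (D.alg ρ (qry e)).run (D.mem ρ (fam f)) = ans x f e := by
          rw [Bool.eq_iff_iff, h4]
          unfold ans
          rw [decide_eq_true_iff]
        rw [h5]
      · rw [if_neg hρ]
        have h4 : |c * sgn (ans x f e)| = 1 := by rw [abs_mul, hcabs, abs_sgn, one_mul]
        have h5 : |c * sgn ((D.alg ρ (qry e)).run (D.mem ρ (fam f)))| = 1 := by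
          rw [abs_mul, hcabs, abs_sgn, one_mul]
        have h6 := le_abs_self (c * sgn (ans x f e))
        have h7 := neg_abs_le (c * sgn ((D.alg ρ (qry e)).run (D.mem ρ (fam f))))
        linarith
    have hsum := Finset.sum_le_sum fun ρ (_ : ρ ∈ (univ : Finset (Fin D.R))) => hterm ρ
    rw [Finset.sum_sub_distrib, Finset.sum_const, Finset.card_univ, Fintype.card_fin,
      nsmul_eq_mul] at hsum
    have hwrong : ∑ ρ : Fin D.R, (if ρ ∈ A then (0 : ℝ) else 2) = 2 * ((D.R : ℝ) - A.card) := by
      rw [Finset.sum_ite, Finset.sum_const_zero, zero_add, Finset.sum_const, nsmul_eq_mul]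
      have h4 : univ.filter (fun ρ : Fin D.R => ρ ∉ A) = Aᶜ := by
        ext ρ
        simp
      rw [h4, Finset.card_compl, Fintype.card_fin, Nat.cast_sub]
      · ring
      · have h5 := Finset.card_le_univ A
        rwa [Fintype.card_fin] at h5
    rw [hwrong] at hsum
    have h8 : (D.R : ℝ) * (c * sgn (ans x f e)) - 2 * δ * D.R ≤
        (D.R : ℝ) * (c * sgn (ans x f e)) - 2 * ((D.R : ℝ) - A.card) := by
      nlinarith [hright]
    exact h8.trans hsum
  -- summation
  set Ω : ℝ := (Fintype.card (Fin r × (Fin k → Fin s) → Bool) : ℝ) with hΩ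
  set Q : ℝ := (Fintype.card (Fin k → Fin n) : ℝ) with hQ
  have htot : ∑ _ρ : Fin D.R, (2 / 2 ^ r - 2 * δ) * (Ω * Q) ≤
      ∑ ρ : Fin D.R, ∑ f : Fin r × (Fin k → Fin s) → Bool, ∑ e : Fin k → Fin n,
        ((-1) ^ r * yy x f e) * sgn ((D.alg ρ (qry e)).run (D.mem ρ (fam f))) := by
    have h4 : ∑ ρ : Fin D.R, ∑ f : Fin r × (Fin k → Fin s) → Bool, ∑ e : Fin k → Fin n,
        ((-1) ^ r * yy x f e) * sgn ((D.alg ρ (qry e)).run (D.mem ρ (fam f))) =
        ∑ e : Fin k → Fin n, ∑ f : Fin r × (Fin k → Fin s) → Bool, ∑ ρ : Fin D.R,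
        ((-1) ^ r * yy x f e) * sgn ((D.alg ρ (qry e)).run (D.mem ρ (fam f))) := by
      refine Finset.sum_comm.trans ?_
      refine (Finset.sum_congr rfl fun f _ => Finset.sum_comm).trans ?_
      exact Finset.sum_comm
    rw [h4]
    have h5 : ∑ e : Fin k → Fin n, ∑ f : Fin r × (Fin k → Fin s) → Bool,
        ((D.R : ℝ) * (((-1) ^ r * yy x f e) * sgn (ans x f e)) - 2 * δ * D.R) ≤
        ∑ e : Fin k → Fin n, ∑ f : Fin r × (Fin k → Fin s) → Bool, ∑ ρ : Fin D.R,
        ((-1) ^ r * yy x f e) * sgn ((D.alg ρ (qry e)).run (D.mem ρ (fam f))) :=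
      Finset.sum_le_sum fun e _ => Finset.sum_le_sum fun f _ => key f e
    refine le_trans (le_of_eq ?_) h5
    have h6 : ∀ e : Fin k → Fin n, ∑ f : Fin r × (Fin k → Fin s) → Bool,
        ((D.R : ℝ) * (((-1) ^ r * yy x f e) * sgn (ans x f e)) - 2 * δ * D.R) =
        (D.R : ℝ) * (2 / 2 ^ r * Ω) - Ω * (2 * δ * D.R) := by
      intro e
      rw [Finset.sum_sub_distrib, ← Finset.mul_sum, corr x hr e, Finset.sum_const,
        Finset.card_univ, nsmul_eq_mul]
    rw [Finset.sum_congr rfl fun e _ => h6 e, Finset.sum_const, Finset.sum_const,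
      Finset.card_univ, Finset.card_univ, nsmul_eq_mul, nsmul_eq_mul, Fintype.card_fin]
    ring
  obtain ⟨ρ, _, hρ⟩ := Finset.exists_le_of_sum_le (s := (univ : Finset (Fin D.R)))
    ⟨⟨0, D.pos⟩, Finset.mem_univ _⟩ htot
  exact ⟨fun f => D.mem ρ (fam f), fun e => D.alg ρ (qry e), fun e => D.within ρ (qry e), hρ⟩

end

end Pool.Agent.KSX
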