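import Pool.Agent.KSX.St

/-!
# Project KSX: the main inequality (`S_CRE`)
-/

set_option autoImplicit false

open Finset Matrix

namespace Pool.Agent.KSX

namespace CRE_aux

/-- The final arithmetic: divide, and take a root of order `p`. -/
lemma arith {Q W X : ℝ} {p r : ℕ} (hQ : 0 < Q) (hW : 0 < W) (hX : 0 < X) (hp : 1 ≤ p)
    (h2 : 2 * X ≤ 2 ^ p)
    (h : (Q / 2 ^ r) ^ (2 * p) * W ≤ (2 * Q) ^ (2 * p) * (W * (2 * X) * (2 * p * (X / Q)) ^ p)) :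
    Q ≤ 16 * p * 4 ^ r * X := by
  have hp0 : (0 : ℝ) < p := by exact_mod_cast hp
  have h1 : (Q / 2 ^ r) ^ (2 * p) ≤ (2 * Q) ^ (2 * p) * ((2 * X) * (2 * p * (X / Q)) ^ p) := by
    have : (Q / 2 ^ r) ^ (2 * p) * W ≤
        ((2 * Q) ^ (2 * p) * ((2 * X) * (2 * p * (X / Q)) ^ p)) * W := by
      calc _ ≤ _ := h
        _ = _ := by ring
    exact le_of_mul_le_mul_right this hW
  have h3 : (2 * X) * (2 * p * (X / Q)) ^ p ≤ (2 * (2 * p * (X / Q))) ^ p := by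
    rw [mul_pow 2 (2 * (p : ℝ) * (X / Q)) p]
    exact mul_le_mul_of_nonneg_right h2 (by positivity)
  have h4 : (Q / 2 ^ r) ^ (2 * p) ≤ ((2 * Q) ^ 2 * (2 * (2 * p * (X / Q)))) ^ p := by
    calc (Q / 2 ^ r) ^ (2 * p) ≤ (2 * Q) ^ (2 * p) * ((2 * X) * (2 * p * (X / Q)) ^ p) := h1
      _ ≤ (2 * Q) ^ (2 * p) * (2 * (2 * p * (X / Q))) ^ p :=
          mul_le_mul_of_nonneg_left h3 (by positivity)
      _ = _ := by rw [pow_mul, ← mul_pow]
  have h5 : (Q / 2 ^ r) ^ 2 ≤ (2 * Q) ^ 2 * (2 * (2 * p * (X / Q))) := by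
    rw [pow_mul] at h4
    exact le_of_pow_le_pow_left₀ (by omega) (by positivity) h4
  have h6 : (4 : ℝ) ^ r = 2 ^ r * 2 ^ r := by rw [← mul_pow]; norm_num
  have h7 : (Q / 2 ^ r) ^ 2 * (2 ^ r * 2 ^ r) = Q * Q := by field_simp
  have h8 : (2 * Q) ^ 2 * (2 * (2 * p * (X / Q))) = Q * (16 * p * X) := by
    field_simp; ring
  have h9 : Q * Q ≤ Q * (16 * p * X) * 4 ^ r := by
    calc Q * Q = (Q / 2 ^ r) ^ 2 * (2 ^ r * 2 ^ r) := h7.symm
      _ ≤ ((2 * Q) ^ 2 * (2 * (2 * p * (X / Q)))) * (2 ^ r * 2 ^ r) :=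
          mul_le_mul_of_nonneg_right h5 (by positivity)
      _ = Q * (16 * p * X) * 4 ^ r := by rw [h8, h6]
  have h10 : Q * Q ≤ Q * (16 * p * 4 ^ r * X) := by
    calc Q * Q ≤ Q * (16 * p * X) * 4 ^ r := h9
      _ = _ := by ring
  exact le_of_mul_le_mul_left h10 hQ

end CRE_aux

theorem t_CRE (hFRM : S_FRM) (hPME : S_PME) (hCOR : S_COR) (hWIT : S_WIT) : S_CRE := by
  intro k n s r m p t N S w T x δ hk hn hS hp hpm hgood hT hkn hrs hkrs h2 hδ sch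
  -- `r ≥ 1`
  have hr : 0 < r := by
    obtain ⟨u, _, hu⟩ := hgood {⟨0, hn⟩} (Finset.singleton_nonempty _)
      (by rw [Finset.card_singleton]; omega)
    omega
  obtain ⟨mem, alg, hwith, hcor⟩ := hCOR k n s r N S w T x δ hk hr hkn hrs hkrs sch
  have hn' : (0 : ℝ) < n := by exact_mod_cast hn
  have hS' : (0 : ℝ) < S := by exact_mod_cast hS
  have hQ : (0 : ℝ) < (n : ℝ) ^ k := by positivity
  have hcE : (Fintype.card (Fin k → Fin n) : ℝ) = (n : ℝ) ^ k := by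
    simp
  have hcΩ : (0 : ℝ) < Fintype.card (Fin r × (Fin k → Fin s) → Bool) := by
    exact_mod_cast Fintype.card_pos
  have hδ' : 1 / 2 ^ r ≤ 2 / 2 ^ r - 2 * δ := by
    have h1 : (0 : ℝ) < 2 ^ r := by positivity
    have h2 : 2 * δ ≤ 1 / 2 ^ r := by
      rw [le_div_iff₀ h1]; linarith [hδ]
    have h3 : (2 : ℝ) / 2 ^ r = 1 / 2 ^ r + 1 / 2 ^ r := by ring
    rw [h3]; linarith
  have hF : (n : ℝ) ^ k / 2 ^ r * Fintype.card (Fin r × (Fin k → Fin s) → Bool) ≤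
      ∑ f : Fin r × (Fin k → Fin s) → Bool, ∑ e : Fin k → Fin n,
          ((-1) ^ r * yy x f e) * sgn ((alg e).run (mem f)) := by
    refine le_trans ?_ hcor
    rw [hcE]
    calc (n : ℝ) ^ k / 2 ^ r * Fintype.card (Fin r × (Fin k → Fin s) → Bool)
        = 1 / 2 ^ r * (Fintype.card (Fin r × (Fin k → Fin s) → Bool) * (n : ℝ) ^ k) := by ring
      _ ≤ _ := mul_le_mul_of_nonneg_right hδ' (by positivity)
  have hpme := hPME (Fin r × (Fin k → Fin s) → Bool)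
    (fun f => ∑ e : Fin k → Fin n, ((-1) ^ r * yy x f e) * sgn ((alg e).run (mem f))) p
    ((n : ℝ) ^ k / 2 ^ r) (by positivity) hF
  have hfrm := hFRM k n s r m p t S w x hk hn hS hp hpm hgood mem alg
    (fun e => hWIT S w T (t + t) (alg e) hT (hwith e))
  have hX : (((2 : ℝ) ^ w) ^ t * S ^ t) = ((2 : ℝ) ^ w * S) ^ t := by rw [mul_pow]
  rw [hX] at hfrm
  refine CRE_aux.arith hQ hcΩ (by positivity) hp ?_ (le_trans hpme hfrm)
  exact_mod_cast h2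

end Pool.Agent.KSX
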