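import Pool.Agent.KSX.St

set_option autoImplicit false

namespace Pool.Agent.KSX

theorem t_FIN (hPAR : S_PAR) (hGRO : S_GRO) : S_FIN := by
  intro k ε hk hε
  obtain ⟨L, C, hC, h⟩ := hGRO k ε (by omega) hε
  refine ⟨C, fun N S w T δ hN hS hδ ⟨D⟩ => ?_⟩
  obtain ⟨r', h1, h2, h3⟩ := h N hN
  have hN0 : (0 : ℝ) < N := by exact_mod_cast hN
  have hNε : 0 < (N : ℝ) ^ ε := Real.rpow_pos_of_pos hN0 ε
  have h4 : (2 : ℝ) * 2 ^ (2 * k * r') * δ ≤ 1 := by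
    rcases le_or_gt 0 δ with hd | hd
    · exact (mul_le_mul_of_nonneg_right h2 hd).trans hδ
    · have h5 : (0 : ℝ) < 2 * 2 ^ (2 * k * r') := by positivity
      have h6 : (2 : ℝ) * 2 ^ (2 * k * r') * δ ≤ 0 := mul_nonpos_of_nonneg_of_nonpos h5.le hd.le
      linarith
  have h5 := hPAR k N S w T ((T + 1) / 2) L r' δ (by omega) hN hS (by omega) h1 h4 D
  have h6 : (N : ℝ) ^ k ≤ C * (N : ℝ) ^ ε * ((2 : ℝ) ^ w * S) ^ ((T + 1) / 2) :=
    h5.trans (mul_le_mul_of_nonneg_right h3 (by positivity))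
  rw [Real.rpow_sub hN0, Real.rpow_natCast, div_le_iff₀ hNε]
  linarith

end Pool.Agent.KSX
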