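import Pool.Agent.KSX.St

/-!
# Project KSX, module FRM: the moment of the form
-/

set_option autoImplicit false

open Finset Matrix

namespace Pool.Agent.KSX

namespace FRM_aux

theorem card_I (t S w : ℕ) :
    ((Fintype.card (Idx t S w ⊕ Idx t S w) : ℕ) : ℝ) = 2 * ((2 : ℝ) ^ w * S) ^ t := by
  rw [Fintype.card_sum]
  have h : Fintype.card (Idx t S w) = S ^ t * (2 ^ w) ^ t := by
    simp [Idx, Fintype.card_prod]
  rw [h]
  push_cast
  rw [mul_pow]
  ring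

theorem card_E (k n : ℕ) : ((Fintype.card (Fin k → Fin n) : ℕ) : ℝ) = (n : ℝ) ^ k := by
  rw [Fintype.card_fun, Fintype.card_fin, Fintype.card_fin]
  push_cast
  rfl

/-- the value of the form at one point -/
theorem quad {E I : Type} [Fintype E] [Fintype I] [DecidableEq I] (B : E → Matrix I I ℝ)
    (y : E → ℝ) (u : I → ℝ) :
    ∑ e, y e * (u ⬝ᵥ (B e *ᵥ u)) = u ⬝ᵥ ((∑ e, y e • B e) *ᵥ u) := by
  rw [Matrix.sum_mulVec, dotProduct_sum]
  refine sum_congr rfl fun e _ => ?_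
  rw [Matrix.smul_mulVec, dotProduct_smul, smul_eq_mul]

theorem symm_sum {E I : Type} [Fintype E] [Fintype I] [DecidableEq I] (B : E → Matrix I I ℝ)
    (hB : ∀ e, (B e)ᵀ = B e) (y : E → ℝ) : (∑ e, y e • B e)ᵀ = ∑ e, y e • B e := by
  rw [Matrix.transpose_sum]
  refine sum_congr rfl fun e _ => ?_
  rw [Matrix.transpose_smul, hB e]

theorem sign_out {E I : Type} [Fintype E] [Fintype I] [DecidableEq I] (B : E → Matrix I I ℝ)
    (y : E → ℝ) (r p : ℕ) :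
    (∑ e, ((-1 : ℝ) ^ r * y e) • B e) ^ (2 * p) = (∑ e, y e • B e) ^ (2 * p) := by
  have h : ∑ e, ((-1 : ℝ) ^ r * y e) • B e = ((-1 : ℝ) ^ r) • ∑ e, y e • B e := by
    rw [Finset.smul_sum]
    refine sum_congr rfl fun e _ => ?_
    rw [smul_smul]
  have h2 : ((-1 : ℝ) ^ r) ^ (2 * p) = 1 := by
    rw [← pow_mul, mul_comm r, mul_assoc, pow_mul, neg_one_sq, one_pow]
  rw [h, smul_pow, h2, one_smul]

end FRM_aux

theorem t_FRM (hLIN : S_LIN) (hTRP : S_TRP) (hKHI : S_KHI) (hTRF : S_TRF) (hMOM : S_MOM)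
    (hALG : S_ALG) (hALX : S_ALX) : S_FRM := by
  intro k n s r m p t S w x hk hn hS hp hpm hG mem alg halg
  choose A hAs hA using fun e => hALG t S w hS (alg e) (halg e)
  have hn' : (0 : ℝ) < n := by exact_mod_cast hn
  have hS' : (0 : ℝ) < S := by exact_mod_cast hS
  obtain ⟨Q, hQ⟩ : ∃ Q : ℝ, Q = (n : ℝ) ^ k := ⟨_, rfl⟩
  have hQ0 : 0 < Q := by
    rw [hQ]
    positivity
  obtain ⟨q, hq⟩ : ∃ q : ℝ, q = ((2 : ℝ) ^ w) ^ t := ⟨_, rfl⟩
  have hq0 : 0 < q := by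
    rw [hq]
    positivity
  have hSt : (0 : ℝ) < (S : ℝ) ^ t := by positivity
  obtain ⟨D, hD⟩ : ∃ D : ℝ, D = Q / (S : ℝ) ^ t := ⟨_, rfl⟩
  have hD0 : 0 < D := by
    rw [hD]
    positivity
  obtain ⟨B, R, hBs, hB, hR, hRB⟩ := hLIN (Fin k → Fin n) (Idx t S w ⊕ Idx t S w) A q D hq0 hD0 hAs
  -- the norm of the vector
  have hu : ∀ f, (R *ᵥ xv t (mem f)) ⬝ᵥ (R *ᵥ xv t (mem f)) = 4 * Q := by
    intro f
    rw [hR, hALX]
    have h1 : ∑ e, (A e *ᵥ xv t (mem f)) ⬝ᵥ (A e *ᵥ xv t (mem f)) = Q * (2 * q) := by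
      have h2 : ∀ e, (A e *ᵥ xv t (mem f)) ⬝ᵥ (A e *ᵥ xv t (mem f)) = 2 * q := fun e => by
        rw [(hA e (mem f)).2, hq]
      rw [sum_congr rfl fun e _ => h2 e, sum_const, card_univ, nsmul_eq_mul, FRM_aux.card_E, hQ]
    rw [h1, hD]
    field_simp
    ring
  -- one point
  have hone : ∀ f, (∑ e : Fin k → Fin n,
      ((-1) ^ r * yy x f e) * sgn ((alg e).run (mem f))) ^ (2 * p) ≤
        (2 * Q) ^ (2 * p) * ((∑ e, yy x f e • B e) ^ (2 * p)).trace := by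
    intro f
    have h1 : ∑ e : Fin k → Fin n, ((-1) ^ r * yy x f e) * sgn ((alg e).run (mem f)) =
        1 / 2 * ((R *ᵥ xv t (mem f)) ⬝ᵥ ((∑ e, ((-1) ^ r * yy x f e) • B e) *ᵥ
          (R *ᵥ xv t (mem f)))) := by
      rw [← FRM_aux.quad, mul_sum]
      refine sum_congr rfl fun e _ => ?_
      rw [hRB, (hA e (mem f)).1]
      ring
    have h2 := hTRP (Idx t S w ⊕ Idx t S w) (∑ e, ((-1) ^ r * yy x f e) • B e)
      (R *ᵥ xv t (mem f)) p hp (FRM_aux.symm_sum B hBs _)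
    rw [FRM_aux.sign_out, hu] at h2
    rw [h1, mul_pow]
    calc _ ≤ (1 / 2 : ℝ) ^ (2 * p) * ((4 * Q) ^ (2 * p) *
          ((∑ e, yy x f e • B e) ^ (2 * p)).trace) :=
          mul_le_mul_of_nonneg_left h2 (by positivity)
      _ = (2 * Q) ^ (2 * p) * ((∑ e, yy x f e • B e) ^ (2 * p)).trace := by
          rw [← mul_assoc, ← mul_pow]
          congr 2
          ring
  -- the moments
  have hmom := hTRF (Fin k → Fin n) (Idx t S w ⊕ Idx t S w)
    (Fin r × (Fin k → Fin s) → Bool) ((Fin k → Fin n) → Bool) B (fun f e => yy x f e)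
    (fun g e => sgn (g e)) (Fintype.card (Fin r × (Fin k → Fin s) → Bool) : ℝ)
    (Fintype.card ((Fin k → Fin n) → Bool) : ℝ) (2 * p)
    (fun φ => hMOM k n s r m x hk hG (2 * p) hpm φ)
  have hkh := hKHI (Fin k → Fin n) (Idx t S w ⊕ Idx t S w) B (q / D) (by positivity) hBs hB p
  have hc : (0 : ℝ) < (Fintype.card ((Fin k → Fin n) → Bool) : ℝ) := by
    exact_mod_cast Fintype.card_pos
  have htr : ∑ f : Fin r × (Fin k → Fin s) → Bool, ((∑ e, yy x f e • B e) ^ (2 * p)).trace ≤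
      Fintype.card (Fin r × (Fin k → Fin s) → Bool) *
          (2 * ((2 : ℝ) ^ w * S) ^ t) * (2 * p * (((2 : ℝ) ^ w) ^ t * S ^ t / n ^ k)) ^ p := by
    refine le_of_mul_le_mul_right ?_ hc
    rw [hmom]
    have hqD : q / D = ((2 : ℝ) ^ w) ^ t * S ^ t / n ^ k := by
      rw [hD, hq, hQ]
      field_simp
    rw [hqD, FRM_aux.card_I] at hkh
    calc _ ≤ ((Fintype.card ((Fin k → Fin n) → Bool) : ℝ) * (2 * ((2 : ℝ) ^ w * S) ^ t) *
          (2 * p * (((2 : ℝ) ^ w) ^ t * S ^ t / n ^ k)) ^ p) *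
            (Fintype.card (Fin r × (Fin k → Fin s) → Bool) : ℝ) :=
          mul_le_mul_of_nonneg_right hkh (Nat.cast_nonneg _)
      _ = _ := by ring
  calc _ ≤ ∑ f : Fin r × (Fin k → Fin s) → Bool,
        (2 * Q) ^ (2 * p) * ((∑ e, yy x f e • B e) ^ (2 * p)).trace :=
        sum_le_sum fun f _ => hone f
    _ = (2 * Q) ^ (2 * p) * ∑ f : Fin r × (Fin k → Fin s) → Bool,
          ((∑ e, yy x f e • B e) ^ (2 * p)).trace := by rw [mul_sum]
    _ ≤ _ := by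
        rw [hQ]
        exact mul_le_mul_of_nonneg_left htr (by positivity)

end Pool.Agent.KSX
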