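import Pool.Agent.KSX.St

/-!
# KSX, module INS: the instances
-/

set_option autoImplicit false

open Finset

namespace Pool.Agent.KSX

namespace INS_aux

theorem exists_emb (A : Type) [Fintype A] (N : ℕ) (h : Fintype.card A ≤ N) :
    ∃ g : A → Fin N, Function.Injective g := by
  have h2 : Fintype.card A ≤ Fintype.card (Fin N) := by simpa using h
  obtain ⟨g⟩ := Function.Embedding.nonempty_of_card_le h2
  exact ⟨g, g.injective⟩

theorem card_slice {k s : ℕ} (j : Fin k) (a : Fin s) :
    (univ.filter fun z : Fin k → Fin s => z j = a).card = s ^ (k - 1) := by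
  have h : (univ.filter fun z : Fin k → Fin s => z j = a) =
      Fintype.piFinset (Function.update (fun _ : Fin k => (univ : Finset (Fin s))) j
        ({a} : Finset (Fin s))) := by
    ext z
    rw [mem_filter, Fintype.mem_piFinset]
    constructor
    · intro h1 i
      by_cases hi : i = j
      · subst hi
        rw [Function.update_self, mem_singleton]
        exact h1.2
      · rw [Function.update_of_ne hi]
        exact mem_univ _
    · intro h1
      have h2 := h1 j
      rw [Function.update_self, mem_singleton] at h2
      exact ⟨mem_univ _, h2⟩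
  rw [h, Fintype.card_piFinset, ← mul_prod_erase univ _ (mem_univ j), Function.update_self,
    card_singleton, one_mul]
  rw [prod_congr rfl (g := fun _ => s) fun i hi => by
    rw [Function.update_of_ne (ne_of_mem_erase hi), card_univ, Fintype.card_fin]]
  rw [prod_const, card_erase_of_mem (mem_univ j), card_univ, Fintype.card_fin]

end INS_aux

open INS_aux in
theorem t_INS : S_INS := by
  classical
  intro k n s r N x hk hkn hrs htot
  obtain ⟨idx, hidx⟩ := exists_emb (Fin k × Fin n) N (by simpa using hkn)
  obtain ⟨elt, helt⟩ := exists_emb (Fin r × (Fin k → Fin s)) N (by simpa using hrs)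
  let fam : (Fin r × (Fin k → Fin s) → Bool) → Fin N → Finset (Fin N) := fun f a =>
    (univ.filter fun q : Fin r × (Fin k → Fin s) =>
      f q = true ∧ ∃ p : Fin k × Fin n, idx p = a ∧ q.2 p.1 = x q.1 p.2).image elt
  refine ⟨fam, fun e j => idx (j, e j), ?_, ?_, ?_⟩
  · intro f
    refine le_trans ?_ htot
    have h1 : ∀ a, (fam f a).card ≤
        ∑ p : Fin k × Fin n, if idx p = a then r * s ^ (k - 1) else 0 := by
      intro a
      refine card_image_le.trans ?_
      by_cases ha : ∃ p, idx p = a
      · obtain ⟨p, hp⟩ := ha
        have h2 : (if idx p = a then r * s ^ (k - 1) else 0) ≤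
            ∑ p : Fin k × Fin n, if idx p = a then r * s ^ (k - 1) else 0 :=
          single_le_sum (f := fun p => if idx p = a then r * s ^ (k - 1) else 0)
            (fun _ _ => Nat.zero_le _) (mem_univ p)
        refine le_trans ?_ h2
        rw [if_pos hp]
        have h3 : (univ.filter fun q : Fin r × (Fin k → Fin s) =>
            f q = true ∧ ∃ p : Fin k × Fin n, idx p = a ∧ q.2 p.1 = x q.1 p.2) ⊆
            (univ : Finset (Fin r)).biUnion fun b =>
              (univ.filter fun z : Fin k → Fin s => z p.1 = x b p.2).image fun z => (b, z) := by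
          rintro ⟨b, z⟩ hz
          rw [mem_filter] at hz
          obtain ⟨p', hp', hz'⟩ := hz.2.2
          have h4 : p' = p := hidx (hp'.trans hp.symm)
          rw [h4] at hz'
          rw [mem_biUnion]
          refine ⟨b, mem_univ _, ?_⟩
          rw [mem_image]
          exact ⟨z, by rw [mem_filter]; exact ⟨mem_univ _, hz'⟩, rfl⟩
        refine (card_le_card h3).trans (card_biUnion_le.trans ?_)
        refine (sum_le_sum (g := fun _ => s ^ (k - 1)) fun b _ =>
          card_image_le.trans (card_slice p.1 (x b p.2)).le).trans ?_
        rw [sum_const, card_univ, Fintype.card_fin, smul_eq_mul]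
      · rw [filter_eq_empty_iff.2]
        · simp
        · rintro z - ⟨-, p, hp, -⟩
          exact ha ⟨p, hp⟩
    refine (sum_le_sum fun a _ => h1 a).trans ?_
    rw [sum_comm]
    simp [Fintype.card_prod, Fintype.card_fin]
  · intro e i j h
    exact congrArg Prod.fst (hidx h)
  · intro f e
    have key : (∃ y, ∀ i, y ∈ fam f (idx (i, e i))) ↔
        ∃ b, f (b, fun j => x b (e j)) = true := by
      constructor
      · rintro ⟨y, hy⟩
        have h0 := hy ⟨0, hk⟩
        simp only [fam, mem_image, mem_filter, mem_univ, true_and] at h0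
        obtain ⟨⟨b, z⟩, ⟨hf, -⟩, hyz⟩ := h0
        refine ⟨b, ?_⟩
        have hz : z = fun j => x b (e j) := by
          funext i
          have hi := hy i
          simp only [fam, mem_image, mem_filter, mem_univ, true_and] at hi
          obtain ⟨⟨b', z'⟩, ⟨-, p, hp, hz'⟩, hyz'⟩ := hi
          have h1 : ((b', z') : Fin r × (Fin k → Fin s)) = (b, z) := helt (hyz'.trans hyz.symm)
          have h2 : p = (i, e i) := hidx hp
          rw [h2] at hz'
          obtain ⟨rfl, rfl⟩ := Prod.mk.inj h1
          exact hz'
        rw [← hz]
        exact hf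
      · rintro ⟨b, hb⟩
        refine ⟨elt (b, fun j => x b (e j)), fun i => ?_⟩
        simp only [fam, mem_image, mem_filter, mem_univ, true_and]
        exact ⟨(b, fun j => x b (e j)), ⟨hb, (i, e i), rfl, rfl⟩, rfl⟩
    constructor
    · intro h b
      by_contra hb
      rw [Bool.not_eq_false] at hb
      obtain ⟨y, hy⟩ := key.2 ⟨b, hb⟩
      exact h y hy
    · intro h y hy
      obtain ⟨b, hb⟩ := key.1 ⟨y, hy⟩
      rw [h b] at hb
      exact Bool.noConfusion hb

end Pool.Agent.KSX
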