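import Pool.Agent.KSX.St

set_option autoImplicit false

open Finset

namespace Pool.Agent.KSX

theorem KHA_term (a b : ℝ) (i j : ℕ) (ha : 0 ≤ a) (hb : 0 ≤ b) :
    a ^ i * b ^ j + a ^ j * b ^ i ≤ a ^ (i + j) + b ^ (i + j) := by
  have h : 0 ≤ (a ^ i - b ^ i) * (a ^ j - b ^ j) := by
    rcases le_total a b with hab | hab
    · have h1 := pow_le_pow_left₀ ha hab i
      have h2 := pow_le_pow_left₀ ha hab j
      exact mul_nonneg_of_nonpos_of_nonpos (sub_nonpos.2 h1) (sub_nonpos.2 h2)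
    · have h1 := pow_le_pow_left₀ hb hab i
      have h2 := pow_le_pow_left₀ hb hab j
      exact mul_nonneg (sub_nonneg.2 h1) (sub_nonneg.2 h2)
  have h3 : (a ^ i - b ^ i) * (a ^ j - b ^ j) =
      a ^ (i + j) + b ^ (i + j) - (a ^ i * b ^ j + a ^ j * b ^ i) := by
    rw [pow_add, pow_add]
    ring
  linarith

theorem t_KHA : S_KHA := by
  intro a b m
  have h1 : ∑ i ∈ range (2 * m + 1), a ^ i * b ^ (2 * m - i) =
      ∑ i ∈ range (2 * m + 1), a ^ (2 * m - i) * b ^ i := by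
    rw [← sum_range_reflect]
    refine sum_congr rfl fun i hi => ?_
    rw [mem_range] at hi
    have e1 : 2 * m + 1 - 1 - i = 2 * m - i := by omega
    have e2 : 2 * m - (2 * m - i) = i := by omega
    rw [e1, e2]
  have h2 : 2 * ∑ i ∈ range (2 * m + 1), a ^ i * b ^ (2 * m - i) =
      ∑ i ∈ range (2 * m + 1), (a ^ i * b ^ (2 * m - i) + a ^ (2 * m - i) * b ^ i) := by
    rw [sum_add_distrib, ← h1]
    ring
  have h3 : ∀ i ∈ range (2 * m + 1), a ^ i * b ^ (2 * m - i) + a ^ (2 * m - i) * b ^ i ≤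
      a ^ (2 * m) + b ^ (2 * m) := by
    intro i hi
    rw [mem_range] at hi
    have e1 : i + (2 * m - i) = 2 * m := by omega
    have h4 := KHA_term |a| |b| i (2 * m - i) (abs_nonneg a) (abs_nonneg b)
    rw [e1] at h4
    have h5 : |a| ^ (2 * m) = a ^ (2 * m) := by rw [pow_mul, pow_mul, sq_abs]
    have h6 : |b| ^ (2 * m) = b ^ (2 * m) := by rw [pow_mul, pow_mul, sq_abs]
    rw [h5, h6] at h4
    have h7 : a ^ i * b ^ (2 * m - i) ≤ |a| ^ i * |b| ^ (2 * m - i) := by
      rw [← abs_pow, ← abs_pow, ← abs_mul]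
      exact le_abs_self _
    have h8 : a ^ (2 * m - i) * b ^ i ≤ |a| ^ (2 * m - i) * |b| ^ i := by
      rw [← abs_pow, ← abs_pow, ← abs_mul]
      exact le_abs_self _
    linarith
  have h4 := sum_le_sum h3
  rw [← h2, sum_const, card_range, nsmul_eq_mul] at h4
  push_cast at h4
  linarith

end Pool.Agent.KSX
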