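import Pool.Agent.KSX.St

/-!
# Module KHB of project KSX: a trace inequality
-/

set_option autoImplicit false

open Finset Matrix

namespace Pool.Agent.KSX

namespace KHB_aux

lemma diag_form {I : Type} [Fintype I] [DecidableEq I] (X : Matrix I I ℝ) (hX : Xᵀ = X) :
    ∃ (U : Matrix I I ℝ) (d : I → ℝ), Uᵀ * U = 1 ∧ U * Uᵀ = 1 ∧ X = U * diagonal d * Uᵀ := by
  have hH : X.IsHermitian := by
    rw [Matrix.IsHermitian, Matrix.conjTranspose_eq_transpose_of_trivial]
    exact hX
  refine ⟨(hH.eigenvectorUnitary : Matrix I I ℝ), hH.eigenvalues, ?_, ?_, ?_⟩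
  · have h := Unitary.coe_star_mul_self hH.eigenvectorUnitary
    rw [Matrix.star_eq_conjTranspose, Matrix.conjTranspose_eq_transpose_of_trivial] at h
    exact h
  · have h := Unitary.coe_mul_star_self hH.eigenvectorUnitary
    rw [Unitary.coe_star, Matrix.star_eq_conjTranspose,
      Matrix.conjTranspose_eq_transpose_of_trivial] at h
    exact h
  · have h := hH.spectral_theorem
    rw [Unitary.conjStarAlgAut_apply, Matrix.star_eq_conjTranspose,
      Matrix.conjTranspose_eq_transpose_of_trivial] at h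
    exact h

lemma pow_form {I : Type} [Fintype I] [DecidableEq I] (X U : Matrix I I ℝ) (d : I → ℝ)
    (h1 : Uᵀ * U = 1) (h2 : U * Uᵀ = 1) (hX : X = U * diagonal d * Uᵀ) (i : ℕ) :
    X ^ i = U * diagonal (fun a => d a ^ i) * Uᵀ := by
  induction i with
  | zero => simp [h2]
  | succ i ih =>
    rw [pow_succ, ih]
    conv_lhs => rw [hX]
    calc U * diagonal (fun a => d a ^ i) * Uᵀ * (U * diagonal d * Uᵀ)
        = U * diagonal (fun a => d a ^ i) * (Uᵀ * U) * diagonal d * Uᵀ := by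
          simp only [Matrix.mul_assoc]
      _ = U * (diagonal (fun a => d a ^ i) * diagonal d) * Uᵀ := by
          rw [h1, Matrix.mul_one]
          simp only [Matrix.mul_assoc]
      _ = _ := by
          rw [Matrix.diagonal_mul_diagonal]
          simp only [pow_succ]

lemma tr_diag {I : Type} [Fintype I] [DecidableEq I] (C : Matrix I I ℝ) (x y : I → ℝ) :
    (Cᵀ * diagonal x * C * diagonal y).trace = ∑ b, ∑ a, x a * y b * C a b ^ 2 := by
  rw [Matrix.trace]
  refine Finset.sum_congr rfl fun b _ => ?_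
  rw [Matrix.diag_apply, Matrix.mul_diagonal, Matrix.mul_apply, Finset.sum_mul]
  refine Finset.sum_congr rfl fun a _ => ?_
  rw [Matrix.mul_diagonal, Matrix.transpose_apply]
  ring

lemma tr_pow {I : Type} [Fintype I] [DecidableEq I] (A X Y U V : Matrix I I ℝ) (d e : I → ℝ)
    (hA : Aᵀ = A)
    (h1 : Uᵀ * U = 1) (h2 : U * Uᵀ = 1) (hX : X = U * diagonal d * Uᵀ)
    (h3 : Vᵀ * V = 1) (h4 : V * Vᵀ = 1) (hY : Y = V * diagonal e * Vᵀ) (i j : ℕ) :
    (A * X ^ i * A * Y ^ j).trace =
      ∑ b, ∑ a, d a ^ i * e b ^ j * (Uᵀ * A * V) a b ^ 2 := by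
  have hC : (Uᵀ * A * V)ᵀ = Vᵀ * A * U := by
    rw [Matrix.transpose_mul, Matrix.transpose_mul, Matrix.transpose_transpose, hA,
      Matrix.mul_assoc]
  rw [← tr_diag, hC, pow_form X U d h1 h2 hX i, pow_form Y V e h3 h4 hY j]
  calc (A * (U * diagonal (fun a => d a ^ i) * Uᵀ) * A *
        (V * diagonal (fun a => e a ^ j) * Vᵀ)).trace
      = ((A * (U * diagonal (fun a => d a ^ i) * Uᵀ) * A *
        V * diagonal (fun a => e a ^ j)) * Vᵀ).trace := by
        simp only [Matrix.mul_assoc]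
    _ = _ := by
        rw [Matrix.trace_mul_comm]
        simp only [Matrix.mul_assoc]

end KHB_aux

open KHB_aux

theorem t_KHB (hKHA : S_KHA) : S_KHB := by
  intro I _ _ A X Y m hA hX hY
  obtain ⟨U, d, h1, h2, hXd⟩ := diag_form X hX
  obtain ⟨V, e, h3, h4, hYd⟩ := diag_form Y hY
  have key := tr_pow A X Y U V d e hA h1 h2 hXd h3 h4 hYd
  have hx : (A * A * X ^ (2 * m)).trace =
      ∑ b, ∑ a, d a ^ (2 * m) * (Uᵀ * A * V) a b ^ 2 := by
    have h := key (2 * m) 0
    rw [pow_zero, Matrix.mul_one, Matrix.trace_mul_comm, ← Matrix.mul_assoc] at h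
    rw [h]
    simp
  have hy : (A * A * Y ^ (2 * m)).trace =
      ∑ b, ∑ a, e b ^ (2 * m) * (Uᵀ * A * V) a b ^ 2 := by
    have h := key 0 (2 * m)
    simpa using h
  rw [hx, hy, ← Finset.sum_add_distrib, Finset.mul_sum]
  simp only [key]
  rw [Finset.sum_comm]
  refine Finset.sum_le_sum fun b _ => ?_
  rw [Finset.sum_comm, ← Finset.sum_add_distrib, Finset.mul_sum]
  refine Finset.sum_le_sum fun a _ => ?_
  rw [← Finset.sum_mul]
  have hk := mul_le_mul_of_nonneg_right (hKHA (d a) (e b) m) (sq_nonneg ((Uᵀ * A * V) a b))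
  linarith

end Pool.Agent.KSX
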