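import Pool.Agent.KSX.St

/-!
# Project KSX, module KHC: flipping one sign
-/

set_option autoImplicit false

open Finset Matrix

namespace Pool.Agent.KSX

namespace KHC_aux

/-- telescoping of a difference of powers of two matrices -/
lemma tele {I : Type} [Fintype I] [DecidableEq I] (X Y : Matrix I I ℝ) (n : ℕ) :
    X ^ (n + 1) - Y ^ (n + 1) = ∑ i ∈ range (n + 1), X ^ i * (X - Y) * Y ^ (n - i) := by
  induction n with
  | zero => simp
  | succ n ih =>
    rw [Finset.sum_range_succ]
    have h1 : ∑ i ∈ range (n + 1), X ^ i * (X - Y) * Y ^ (n + 1 - i) =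
        (∑ i ∈ range (n + 1), X ^ i * (X - Y) * Y ^ (n - i)) * Y := by
      rw [Finset.sum_mul]
      refine Finset.sum_congr rfl fun i hi => ?_
      have h2 : n + 1 - i = (n - i) + 1 := by
        have := Finset.mem_range.1 hi
        omega
      rw [h2, pow_succ]
      simp only [mul_assoc]
    rw [h1, ← ih, Nat.sub_self, pow_zero, mul_one, pow_succ X (n + 1), pow_succ Y (n + 1),
      sub_mul, mul_sub]
    abel

end KHC_aux

/-- Flipping one sign. -/
theorem t_KHC (hKHB : S_KHB) : S_KHC := by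
  intro I _ _ A X Y m hA hX hY hXY
  have h1 := hKHB I A X Y m hA hX hY
  have h2 : (A * X ^ (2 * m + 1)).trace - (A * Y ^ (2 * m + 1)).trace =
      2 * ∑ i ∈ range (2 * m + 1), (A * X ^ i * A * Y ^ (2 * m - i)).trace := by
    rw [← Matrix.trace_sub, ← mul_sub, KHC_aux.tele, hXY, Finset.mul_sum, Matrix.trace_sum,
      Finset.mul_sum]
    refine Finset.sum_congr rfl fun i _ => ?_
    have h3 : A * (X ^ i * ((2 : ℝ) • A) * Y ^ (2 * m - i)) =
        (2 : ℝ) • (A * X ^ i * A * Y ^ (2 * m - i)) := by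
      simp only [Matrix.mul_smul, Matrix.smul_mul, mul_assoc]
    rw [h3, Matrix.trace_smul, smul_eq_mul]
  rw [h2]
  calc 2 * ∑ i ∈ range (2 * m + 1), (A * X ^ i * A * Y ^ (2 * m - i)).trace
      ≤ 2 * ((2 * m + 1) / 2 * ((A * A * X ^ (2 * m)).trace + (A * A * Y ^ (2 * m)).trace)) := by
        linarith
    _ = _ := by ring

end Pool.Agent.KSX
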