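import Pool.Agent.KSX.St

/-!
# KHI: matrix Khintchine inequality for trace moments (helper34)
-/

set_option autoImplicit false
set_option linter.unusedSectionVars false

open Finset Matrix

namespace Pool.Agent.KSX

noncomputable section

namespace KHI_aux

variable {E I : Type} [Fintype E] [DecidableEq E] [Fintype I] [DecidableEq I]

/-- the signed sum -/
def XX (A : E → Matrix I I ℝ) (g : E → Bool) : Matrix I I ℝ := ∑ e, sgn (g e) • A e

/-- change of one sign -/
def fl (e : E) (g : E → Bool) : E → Bool := Function.update g e (!(g e))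

lemma fl_same (e : E) (g : E → Bool) : fl e g e = !(g e) := by simp [fl]

lemma fl_ne (e e' : E) (g : E → Bool) (h : e' ≠ e) : fl e g e' = g e' := by
  simp [fl, h]

lemma fl_fl (e : E) (g : E → Bool) : fl e (fl e g) = g := by
  funext e'
  by_cases h : e' = e
  · subst h
    rw [fl_same, fl_same, Bool.not_not]
  · rw [fl_ne _ _ _ h, fl_ne _ _ _ h]

/-- the change as a permutation -/
def flE (e : E) : (E → Bool) ≃ (E → Bool) :=
  ⟨fl e, fl e, fl_fl e, fl_fl e⟩

lemma sum_fl (e : E) (F : (E → Bool) → ℝ) : ∑ g, F (fl e g) = ∑ g, F g :=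
  Equiv.sum_comp (flE e) F

lemma XX_symm (A : E → Matrix I I ℝ) (hA : ∀ e, (A e)ᵀ = A e) (g : E → Bool) :
    (XX A g)ᵀ = XX A g := by
  unfold XX
  rw [Matrix.transpose_sum]
  apply Finset.sum_congr rfl
  intro e _
  rw [Matrix.transpose_smul, hA]

lemma XX_sub (A : E → Matrix I I ℝ) (e : E) (g : E → Bool) (h : g e = true) :
    XX A g - XX A (fl e g) = (2 : ℝ) • A e := by
  unfold XX
  rw [← Finset.sum_sub_distrib, Finset.sum_eq_single e]
  · rw [fl_same, h, ← sub_smul]
    congr 1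
    rw [Bool.not_true, sgn_true, sgn_false]
    norm_num
  · intro e' _ he
    rw [fl_ne _ _ _ he, sub_self]
  · intro h0
    exact absurd (Finset.mem_univ e) h0

lemma XX_sub' (A : E → Matrix I I ℝ) (e : E) (g : E → Bool) (h : g e = false) :
    XX A (fl e g) - XX A g = (2 : ℝ) • A e := by
  have h1 : fl e g e = true := by rw [fl_same, h]; rfl
  have h2 := XX_sub A e (fl e g) h1
  rw [fl_fl] at h2
  exact h2

lemma trace_sq (M : Matrix I I ℝ) :
    (Mᵀ * M).trace = ∑ c, (fun i => M i c) ⬝ᵥ (fun i => M i c) := by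
  unfold Matrix.trace
  apply Finset.sum_congr rfl
  intro c _
  rw [Matrix.diag_apply, Matrix.mul_apply]
  rfl

lemma weight (A : E → Matrix I I ℝ) (σ : ℝ) (hA : ∀ e, (A e)ᵀ = A e)
    (hs : ∀ u : I → ℝ, ∑ e, (A e *ᵥ u) ⬝ᵥ (A e *ᵥ u) ≤ σ * (u ⬝ᵥ u)) (X : Matrix I I ℝ)
    (hX : Xᵀ = X) (p : ℕ) :
    ∑ e, (A e * A e * X ^ (2 * p)).trace ≤ σ * (X ^ (2 * p)).trace := by
  set Z := X ^ p with hZ
  have hZs : Zᵀ = Z := by rw [hZ, Matrix.transpose_pow, hX]
  have hpow : X ^ (2 * p) = Z * Z := by rw [hZ, two_mul, pow_add]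
  have h1 : ∀ e, (A e * A e * (Z * Z)).trace =
      ∑ c, (A e *ᵥ fun i => Z i c) ⬝ᵥ (A e *ᵥ fun i => Z i c) := by
    intro e
    have h2 : (A e * A e * (Z * Z)).trace = ((A e * Z)ᵀ * (A e * Z)).trace := by
      rw [Matrix.transpose_mul, hA, hZs, ← Matrix.mul_assoc (A e * A e) Z Z,
        Matrix.trace_mul_comm (A e * A e * Z) Z, Matrix.mul_assoc Z (A e) (A e * Z),
        Matrix.mul_assoc (A e) (A e) Z]
    rw [h2, trace_sq]
    rfl
  have h3 : (Z * Z).trace = ∑ c, (fun i => Z i c) ⬝ᵥ (fun i => Z i c) := by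
    have := trace_sq Z
    rw [hZs] at this
    exact this
  rw [hpow, h3, Finset.sum_congr rfl fun e _ => h1 e, Finset.sum_comm, Finset.mul_sum]
  exact Finset.sum_le_sum fun c _ => hs _

lemma step (hKHC : S_KHC) (A : E → Matrix I I ℝ) (σ : ℝ) (hA : ∀ e, (A e)ᵀ = A e)
    (hs : ∀ u : I → ℝ, ∑ e, (A e *ᵥ u) ⬝ᵥ (A e *ᵥ u) ≤ σ * (u ⬝ᵥ u)) (p : ℕ) :
    ∑ g : E → Bool, (XX A g ^ (2 * p + 2)).trace ≤
      (2 * p + 1) * σ * ∑ g : E → Bool, (XX A g ^ (2 * p)).trace := by
  have h1 : ∀ g : E → Bool, (XX A g ^ (2 * p + 2)).trace =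
      ∑ e, sgn (g e) * (A e * XX A g ^ (2 * p + 1)).trace := by
    intro g
    have h2 : XX A g ^ (2 * p + 2) = XX A g * XX A g ^ (2 * p + 1) := by
      rw [← pow_succ']
    rw [h2]
    have h3 : XX A g * XX A g ^ (2 * p + 1) = ∑ e, sgn (g e) • (A e * XX A g ^ (2 * p + 1)) := by
      conv_lhs => rw [XX]
      rw [Finset.sum_mul]
      apply Finset.sum_congr rfl
      intro e _
      rw [Matrix.smul_mul]
      rfl
    rw [h3, Matrix.trace_sum]
    apply Finset.sum_congr rfl
    intro e _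
    rw [Matrix.trace_smul, smul_eq_mul]
  have h4 : ∀ e : E, ∑ g : E → Bool, sgn (g e) * (A e * XX A g ^ (2 * p + 1)).trace ≤
      (2 * p + 1) * ∑ g : E → Bool, (A e * A e * XX A g ^ (2 * p)).trace := by
    intro e
    set F : (E → Bool) → ℝ := fun g => (A e * XX A g ^ (2 * p + 1)).trace with hF
    set Gt : (E → Bool) → ℝ := fun g => (A e * A e * XX A g ^ (2 * p)).trace with hGt
    have h5 : ∀ g : E → Bool, sgn (g e) * (F g - F (fl e g)) ≤
        (2 * p + 1) * (Gt g + Gt (fl e g)) := by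
      intro g
      cases hg : g e with
      | true =>
        have := hKHC I (A e) (XX A g) (XX A (fl e g)) p (hA e) (XX_symm A hA _)
          (XX_symm A hA _) (XX_sub A e g hg)
        rw [sgn_true, one_mul]
        exact this
      | false =>
        have := hKHC I (A e) (XX A (fl e g)) (XX A g) p (hA e) (XX_symm A hA _)
          (XX_symm A hA _) (XX_sub' A e g hg)
        rw [sgn_false]
        have e1 : (-1 : ℝ) * (F g - F (fl e g)) = F (fl e g) - F g := by ring
        rw [e1, add_comm (Gt g)]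
        exact this
    have h6 : ∑ g, sgn (g e) * F (fl e g) = - ∑ g, sgn (g e) * F g := by
      rw [← sum_fl e fun g => sgn (g e) * F (fl e g), ← Finset.sum_neg_distrib]
      apply Finset.sum_congr rfl
      intro g _
      rw [fl_fl, fl_same, sgn_not]
      ring
    have h7 : ∑ g, sgn (g e) * (F g - F (fl e g)) = 2 * ∑ g, sgn (g e) * F g := by
      have : ∀ g : E → Bool, sgn (g e) * (F g - F (fl e g)) =
          sgn (g e) * F g - sgn (g e) * F (fl e g) := fun g => by ring
      rw [Finset.sum_congr rfl fun g _ => this g, Finset.sum_sub_distrib, h6]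
      ring
    have h8 : ∑ g, (2 * (p : ℝ) + 1) * (Gt g + Gt (fl e g)) = 2 * ((2 * p + 1) * ∑ g, Gt g) := by
      rw [← Finset.mul_sum, Finset.sum_add_distrib, sum_fl]
      ring
    have h9 := Finset.sum_le_sum fun g (_ : g ∈ (Finset.univ : Finset (E → Bool))) => h5 g
    rw [h7, h8] at h9
    linarith
  rw [Finset.sum_congr rfl fun g _ => h1 g, Finset.sum_comm]
  calc ∑ e, ∑ g : E → Bool, sgn (g e) * (A e * XX A g ^ (2 * p + 1)).trace
      ≤ ∑ e, (2 * p + 1) * ∑ g : E → Bool, (A e * A e * XX A g ^ (2 * p)).trace :=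
        Finset.sum_le_sum fun e _ => h4 e
    _ = (2 * p + 1) * ∑ g : E → Bool, ∑ e, (A e * A e * XX A g ^ (2 * p)).trace := by
        rw [← Finset.mul_sum, Finset.sum_comm]
    _ ≤ (2 * p + 1) * ∑ g : E → Bool, σ * (XX A g ^ (2 * p)).trace := by
        apply mul_le_mul_of_nonneg_left _ (by positivity)
        exact Finset.sum_le_sum fun g _ => weight A σ hA hs _ (XX_symm A hA g) p
    _ = (2 * p + 1) * σ * ∑ g : E → Bool, (XX A g ^ (2 * p)).trace := by
        rw [← Finset.mul_sum]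
        ring

end KHI_aux

open KHI_aux in
theorem t_KHI (hKHC : S_KHC) : S_KHI := by
  intro E I _ _ _ _ A σ hσ hA hs p
  change ∑ g : E → Bool, (XX A g ^ (2 * p)).trace ≤ _
  induction p with
  | zero =>
    simp
  | succ p ih =>
    have h1 := step hKHC A σ hA hs p
    have h2 : 2 * (p + 1) = 2 * p + 2 := by ring
    rw [h2]
    refine h1.trans ?_
    have h3 : (2 * (p : ℝ) + 1) * σ * ∑ g : E → Bool, (XX A g ^ (2 * p)).trace ≤
        (2 * p + 1) * σ * ((Fintype.card (E → Bool) : ℝ) * Fintype.card I * (2 * p * σ) ^ p) :=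
      mul_le_mul_of_nonneg_left ih (by positivity)
    refine h3.trans ?_
    have h4 : (2 * (p : ℝ) + 1) * σ * (2 * p * σ) ^ p ≤ (2 * ((p : ℝ) + 1) * σ) ^ (p + 1) := by
      rw [pow_succ']
      apply mul_le_mul
      · apply mul_le_mul_of_nonneg_right _ hσ
        linarith
      · apply pow_le_pow_left₀ (by positivity)
        apply mul_le_mul_of_nonneg_right _ hσ
        linarith
      · positivity
      · positivity
    calc (2 * (p : ℝ) + 1) * σ * ((Fintype.card (E → Bool) : ℝ) * Fintype.card I * (2 * p * σ) ^ p)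
        = (Fintype.card (E → Bool) : ℝ) * Fintype.card I *
            ((2 * (p : ℝ) + 1) * σ * (2 * p * σ) ^ p) := by ring
      _ ≤ (Fintype.card (E → Bool) : ℝ) * Fintype.card I *
            (2 * ((p : ℝ) + 1) * σ) ^ (p + 1) :=
          mul_le_mul_of_nonneg_left h4 (by positivity)
      _ = (Fintype.card (E → Bool) : ℝ) * Fintype.card I *
            (2 * ((p + 1 : ℕ) : ℝ) * σ) ^ (p + 1) := by push_cast; rfl

end

end Pool.Agent.KSX
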