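import Pool.Agent.KSX.St

/-!
# KSX, module LAB: existence of good labels
-/

set_option autoImplicit false

open Finset

namespace Pool.Agent.KSX

namespace LAB_aux

/-- a set all of whose elements share their label in many blocks has many coincidences -/
lemma coincidences (hLBB : S_LBB) {k n s r' : ℕ} (hk : 0 < k)
    (x : Fin (2 * k * r') → Fin n → Fin s) (Y : Finset (Fin n))
    (hbad : ∀ u ∈ Y, 2 * k * r' ≤
      k * (univ.filter fun b => ∃ u' ∈ Y, u' ≠ u ∧ x b u' = x b u).card) :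
    r' * Y.card ≤ ∑ b, (Y.card - (Y.image (x b)).card) := by
  have h1 : ∀ u ∈ Y, 2 * r' ≤ (univ.filter fun b => ∃ u' ∈ Y, u' ≠ u ∧ x b u' = x b u).card := by
    intro u hu
    have h2 := hbad u hu
    have h3 : k * (2 * r') ≤ k * (univ.filter fun b => ∃ u' ∈ Y, u' ≠ u ∧ x b u' = x b u).card := by
      calc k * (2 * r') = 2 * k * r' := by ring
        _ ≤ _ := h2
    exact Nat.le_of_mul_le_mul_left h3 hk
  have h2 : Y.card * (2 * r') ≤
      ∑ u ∈ Y, (univ.filter fun b => ∃ u' ∈ Y, u' ≠ u ∧ x b u' = x b u).card := by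
    rw [← smul_eq_mul]
    exact Finset.card_nsmul_le_sum _ _ _ h1
  have h3 : ∑ u ∈ Y, (univ.filter fun b => ∃ u' ∈ Y, u' ≠ u ∧ x b u' = x b u).card =
      ∑ b, (Y.filter fun u => ∃ u' ∈ Y, u' ≠ u ∧ x b u' = x b u).card := by
    simp only [Finset.card_filter]
    exact Finset.sum_comm
  have h4 : ∑ b, (Y.filter fun u => ∃ u' ∈ Y, u' ≠ u ∧ x b u' = x b u).card ≤
      ∑ b, 2 * (Y.card - (Y.image (x b)).card) :=
    Finset.sum_le_sum fun b _ => hLBB n s (x b) Y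
  rw [← Finset.mul_sum] at h4
  have h5 : 2 * (r' * Y.card) ≤ 2 * ∑ b, (Y.card - (Y.image (x b)).card) := by
    calc 2 * (r' * Y.card) = Y.card * (2 * r') := by ring
      _ ≤ _ := h2
      _ = _ := h3
      _ ≤ _ := h4
  omega

/-- the labels which are bad for a set -/
def Bad {k n s r' : ℕ} (m : ℕ) (Y : Finset (Fin n)) :
    Finset (Fin (2 * k * r') → Fin n → Fin s) :=
  univ.filter fun x => Y.card ≤ m ∧ ∀ u ∈ Y, 2 * k * r' ≤
      k * (univ.filter fun b => ∃ u' ∈ Y, u' ≠ u ∧ x b u' = x b u).card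

lemma count (hLBA : S_LBA) (hLBB : S_LBB) {k n s m r' : ℕ} (hk : 0 < k) (hm : 0 < m)
    (hs : m ≤ s) (Y : Finset (Fin n)) (hY : Y.card ≤ m) :
    ((s : ℝ) / m) ^ (r' * Y.card) * ((Bad m Y : Finset (Fin (2 * k * r') → Fin n → Fin s)).card : ℝ) ≤
      ((s : ℝ) ^ n * 2 ^ Y.card) ^ (2 * k * r') := by
  have hm' : (0 : ℝ) < m := by exact_mod_cast hm
  have hs0 : 0 < s := lt_of_lt_of_le hm hs
  have hs' : (0 : ℝ) < s := by exact_mod_cast hs0
  have hθ : (1 : ℝ) ≤ (s : ℝ) / m := by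
    rw [le_div_iff₀ hm', one_mul]
    exact_mod_cast hs
  set θ : ℝ := (s : ℝ) / m with hθdef
  have hθ0 : (0 : ℝ) ≤ θ := le_trans zero_le_one hθ
  have h1 : θ ^ (r' * Y.card) * ((Bad m Y : Finset (Fin (2 * k * r') → Fin n → Fin s)).card : ℝ) ≤
      ∑ x : Fin (2 * k * r') → Fin n → Fin s, θ ^ (∑ b, (Y.card - (Y.image (x b)).card)) := by
    calc θ ^ (r' * Y.card) * ((Bad m Y : Finset (Fin (2 * k * r') → Fin n → Fin s)).card : ℝ)
        = ∑ x ∈ (Bad m Y : Finset (Fin (2 * k * r') → Fin n → Fin s)), θ ^ (r' * Y.card) := by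
          rw [Finset.sum_const, nsmul_eq_mul, mul_comm]
      _ ≤ ∑ x ∈ (Bad m Y : Finset (Fin (2 * k * r') → Fin n → Fin s)),
            θ ^ (∑ b, (Y.card - (Y.image (x b)).card)) := by
          apply Finset.sum_le_sum
          intro x hx
          have hx' := (Finset.mem_filter.1 hx).2
          exact pow_le_pow_right₀ hθ (coincidences hLBB hk x Y hx'.2)
      _ ≤ _ := by
          apply Finset.sum_le_sum_of_subset_of_nonneg (Finset.subset_univ _)
          intro x _ _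
          exact pow_nonneg hθ0 _
  refine h1.trans ?_
  have h2 : ∑ x : Fin (2 * k * r') → Fin n → Fin s, θ ^ (∑ b, (Y.card - (Y.image (x b)).card)) =
      (∑ y : Fin n → Fin s, θ ^ (Y.card - (Y.image y).card)) ^ (2 * k * r') := by
    rw [Fintype.sum_pow]
    apply Finset.sum_congr rfl
    intro x _
    rw [Finset.prod_pow_eq_pow_sum]
  rw [h2]
  apply pow_le_pow_left₀ (Finset.sum_nonneg fun y _ => pow_nonneg hθ0 _)
  refine (hLBA n s m θ hθ hs0 Y hY).trans ?_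
  apply mul_le_mul_of_nonneg_left _ (pow_nonneg hs'.le _)
  have h3 : (0 : ℝ) ≤ 1 + (θ - 1) * ((m : ℝ) / s) := by
    have h4 : (0 : ℝ) ≤ (θ - 1) * ((m : ℝ) / s) :=
      mul_nonneg (by linarith) (div_nonneg hm'.le hs'.le)
    linarith
  apply pow_le_pow_left₀ h3
  have h4 : (θ - 1) * ((m : ℝ) / s) = 1 - (m : ℝ) / s := by
    rw [hθdef]
    field_simp
  rw [h4]
  have h5 : (0 : ℝ) ≤ (m : ℝ) / s := div_nonneg hm'.le hs'.le
  linarith

lemma count' (hLBA : S_LBA) (hLBB : S_LBB) {k n s m r' L : ℕ} (hk : 0 < k) (hm : 0 < m) (hn : 0 < n)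
    (hs : m * 4 ^ k * 2 ^ L ≤ s) (hn' : 4 * n ≤ 2 ^ (L * r')) (Y : Finset (Fin n)) :
    ((Bad m Y : Finset (Fin (2 * k * r') → Fin n → Fin s)).card : ℝ) ≤
      ((s : ℝ) ^ n) ^ (2 * k * r') * (1 / (4 * (n : ℝ))) ^ Y.card := by
  have hm' : (0 : ℝ) < m := by exact_mod_cast hm
  have hn0 : (0 : ℝ) < 4 * (n : ℝ) := by
    have : (0 : ℝ) < n := by exact_mod_cast hn
    linarith
  have hms : m ≤ s := by
    refine le_trans ?_ hs
    have h1 : 1 ≤ 4 ^ k * 2 ^ L := Nat.one_le_iff_ne_zero.2 (by positivity)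
    calc m = m * 1 := (mul_one m).symm
      _ ≤ m * (4 ^ k * 2 ^ L) := Nat.mul_le_mul_left m h1
      _ = m * 4 ^ k * 2 ^ L := by ring
  by_cases hY : Y.card ≤ m
  · have h1 := count hLBA hLBB (r' := r') hk hm hms Y hY
    have h2 : (4 : ℝ) ^ k * 2 ^ L ≤ (s : ℝ) / m := by
      rw [le_div_iff₀ hm']
      have h3 : ((m * 4 ^ k * 2 ^ L : ℕ) : ℝ) ≤ (s : ℝ) := by exact_mod_cast hs
      push_cast at h3
      linarith [h3]
    have h3 : ((4 : ℝ) ^ k * 2 ^ L) ^ (r' * Y.card) ≤ ((s : ℝ) / m) ^ (r' * Y.card) :=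
      pow_le_pow_left₀ (by positivity) h2 _
    have h4 : ((4 : ℝ) ^ k) ^ (r' * Y.card) * (4 * (n : ℝ)) ^ Y.card ≤
        ((4 : ℝ) ^ k * 2 ^ L) ^ (r' * Y.card) := by
      rw [mul_pow ((4 : ℝ) ^ k)]
      apply mul_le_mul_of_nonneg_left _ (by positivity)
      rw [pow_mul, ← pow_mul (2 : ℝ) L r']
      apply pow_le_pow_left₀ hn0.le
      exact_mod_cast hn'
    have h5 : ((s : ℝ) ^ n * 2 ^ Y.card) ^ (2 * k * r') =
        ((4 : ℝ) ^ k) ^ (r' * Y.card) * ((s : ℝ) ^ n) ^ (2 * k * r') := by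
      rw [mul_pow, mul_comm]
      congr 1
      have h6 : (4 : ℝ) = 2 ^ 2 := by norm_num
      rw [h6, ← pow_mul, ← pow_mul, ← pow_mul]
      congr 1
      ring
    have h6 : ((4 : ℝ) ^ k) ^ (r' * Y.card) * ((4 * (n : ℝ)) ^ Y.card *
        ((Bad m Y : Finset (Fin (2 * k * r') → Fin n → Fin s)).card : ℝ)) ≤
        ((4 : ℝ) ^ k) ^ (r' * Y.card) * ((s : ℝ) ^ n) ^ (2 * k * r') := by
      rw [← h5]
      refine le_trans ?_ h1
      rw [← mul_assoc]
      exact mul_le_mul_of_nonneg_right (h4.trans h3) (Nat.cast_nonneg _)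
    have h7 := le_of_mul_le_mul_left h6 (by positivity)
    rw [one_div, inv_pow, ← div_eq_mul_inv, le_div_iff₀ (by positivity), mul_comm]
    exact h7
  · have h1 : (Bad m Y : Finset (Fin (2 * k * r') → Fin n → Fin s)) = ∅ := by
      unfold Bad
      rw [Finset.filter_eq_empty_iff]
      intro x _ h
      exact hY h.1
    rw [h1, Finset.card_empty, Nat.cast_zero]
    positivity

lemma exp_quarter : Real.exp (1 / 4) < 2 := by
  by_contra hcon
  push Not at hcon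
  have h1 : (2 : ℝ) ^ 4 ≤ Real.exp (1 / 4) ^ 4 := pow_le_pow_left₀ (by norm_num) hcon 4
  have h2 : Real.exp (1 / 4) ^ 4 = Real.exp 1 := by
    rw [← Real.exp_nat_mul]
    norm_num
  have h3 := Real.exp_one_lt_d9
  rw [h2] at h1
  norm_num at h1
  linarith

lemma small_sum {n : ℕ} (hn : 0 < n) : (1 + 1 / (4 * (n : ℝ))) ^ n < 2 := by
  have hn' : (0 : ℝ) < n := by exact_mod_cast hn
  have h1 : 1 + 1 / (4 * (n : ℝ)) ≤ Real.exp (1 / (4 * (n : ℝ))) := by
    have := Real.add_one_le_exp (1 / (4 * (n : ℝ)))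
    linarith
  have h2 : (1 + 1 / (4 * (n : ℝ))) ^ n ≤ Real.exp (1 / (4 * (n : ℝ))) ^ n :=
    pow_le_pow_left₀ (by positivity) h1 n
  have h3 : Real.exp (1 / (4 * (n : ℝ))) ^ n = Real.exp (1 / 4) := by
    rw [← Real.exp_nat_mul]
    congr 1
    field_simp
  rw [h3] at h2
  exact lt_of_le_of_lt h2 exp_quarter

end LAB_aux

open LAB_aux in
theorem t_LAB (hLBA : S_LBA) (hLBB : S_LBB) : S_LAB := by
  intro k n m s L r' hk hm hs hn'
  rcases Nat.eq_zero_or_pos n with hn | hn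
  · subst hn
    refine ⟨fun _ => Fin.elim0, ?_⟩
    intro Y hY
    obtain ⟨u, -⟩ := hY
    exact u.elim0
  have hs0 : 0 < s := by
    refine lt_of_lt_of_le ?_ hs
    positivity
  by_contra hcon
  push Not at hcon
  have hcover : (univ : Finset (Fin (2 * k * r') → Fin n → Fin s)) ⊆
      ((univ : Finset (Finset (Fin n))).erase ∅).biUnion fun Y => Bad m Y := by
    intro x _
    have h1 := hcon x
    unfold Good at h1
    push Not at h1
    obtain ⟨Y, hY, hYm, h2⟩ := h1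
    rw [Finset.mem_biUnion]
    refine ⟨Y, ?_, ?_⟩
    · rw [Finset.mem_erase]
      exact ⟨hY.ne_empty, Finset.mem_univ _⟩
    · unfold Bad
      rw [Finset.mem_filter]
      exact ⟨Finset.mem_univ _, hYm, h2⟩
  have h1 : ((s : ℝ) ^ n) ^ (2 * k * r') ≤
      ∑ Y ∈ (univ : Finset (Finset (Fin n))).erase ∅,
        ((s : ℝ) ^ n) ^ (2 * k * r') * (1 / (4 * (n : ℝ))) ^ Y.card := by
    have h2 := (Finset.card_le_card hcover).trans Finset.card_biUnion_le
    rw [Finset.card_univ, Fintype.card_fun, Fintype.card_fun, Fintype.card_fin, Fintype.card_fin,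
      Fintype.card_fin] at h2
    have h3 : ((s : ℝ) ^ n) ^ (2 * k * r') ≤ ∑ Y ∈ (univ : Finset (Finset (Fin n))).erase ∅,
        ((Bad m Y : Finset (Fin (2 * k * r') → Fin n → Fin s)).card : ℝ) := by
      exact_mod_cast h2
    exact h3.trans (Finset.sum_le_sum fun Y _ => count' hLBA hLBB hk hm hn hs hn' Y)
  have h2 : ∑ Y : Finset (Fin n), (1 / (4 * (n : ℝ))) ^ Y.card = (1 + 1 / (4 * (n : ℝ))) ^ n := by
    have h3 := Finset.sum_pow_mul_eq_add_pow (1 / (4 * (n : ℝ))) 1 (univ : Finset (Fin n))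
    simp only [one_pow, mul_one, Finset.powerset_univ, Finset.card_univ, Fintype.card_fin] at h3
    rw [h3, add_comm]
  have h3 : ∑ Y ∈ (univ : Finset (Finset (Fin n))).erase ∅, (1 / (4 * (n : ℝ))) ^ Y.card =
      (1 + 1 / (4 * (n : ℝ))) ^ n - 1 := by
    have h4 := Finset.sum_erase_eq_sub (s := (univ : Finset (Finset (Fin n))))
      (f := fun Y => (1 / (4 * (n : ℝ))) ^ Y.card) (Finset.mem_univ ∅)
    rw [h4, h2, Finset.card_empty, pow_zero]
  rw [← Finset.mul_sum, h3] at h1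
  have h4 := small_sum hn
  have h5 : (0 : ℝ) < ((s : ℝ) ^ n) ^ (2 * k * r') := by positivity
  nlinarith

end Pool.Agent.KSX
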