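import Pool.Agent.KSX.St

set_option autoImplicit false

open Finset

namespace Pool.Agent.KSX

theorem t_LBB : S_LBB := by
  classical
  intro n s x Y
  -- the shared elements and the shared labels
  set A := Y.filter fun u => ∃ u' ∈ Y, u' ≠ u ∧ x u' = x u with hA
  set A' := Y.filter fun u => ¬ ∃ u' ∈ Y, u' ≠ u ∧ x u' = x u with hA'
  have h1 : A.card + A'.card = Y.card := card_filter_add_card_filter_not _
  have h2 : (Y.image x).card ≤ (A.image x).card + (A'.image x).card := by
    have h3 : Y.image x = A.image x ∪ A'.image x := by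
      rw [← image_union, hA, hA', filter_union_filter_not_eq]
    rw [h3]
    exact card_union_le _ _
  have h3 : (A'.image x).card ≤ A'.card := card_image_le
  have h4 : 2 * (A.image x).card ≤ A.card := by
    have h5 : ∀ l ∈ A.image x, 2 ≤ (A.filter fun u => x u = l).card := by
      intro l hl
      obtain ⟨u, hu, rfl⟩ := mem_image.1 hl
      rw [hA, mem_filter] at hu
      obtain ⟨hu1, u', hu', hne, hx⟩ := hu
      have hu2 : u ∈ A.filter fun v => x v = x u := by
        rw [mem_filter, hA, mem_filter]
        exact ⟨⟨hu1, u', hu', hne, hx⟩, rfl⟩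
      have hu3 : u' ∈ A.filter fun v => x v = x u := by
        rw [mem_filter, hA, mem_filter]
        exact ⟨⟨hu', u, hu1, hne.symm, hx.symm⟩, hx⟩
      exact one_lt_card.2 ⟨u, hu2, u', hu3, hne.symm⟩
    have h6 := card_eq_sum_card_image x A
    rw [h6, mul_comm, ← smul_eq_mul]
    exact card_nsmul_le_sum _ _ _ h5
  omega

end Pool.Agent.KSX
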