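import Pool.Agent.KSX.St

/-!
# Module LIN of project KSX (helper92): matrix weights
-/

set_option autoImplicit false

open Finset Matrix

namespace Pool.Agent.KSX

noncomputable section

namespace LIN_aux

open scoped MatrixOrder

variable {I : Type} [Fintype I] [DecidableEq I]

lemma root {W : Matrix I I ℝ} (h1 : Wᵀ = W) (h2 : ∀ u : I → ℝ, 0 ≤ u ⬝ᵥ (W *ᵥ u)) :
    ∃ R : Matrix I I ℝ, W = Rᵀ * R := by
  have hP : W.PosSemidef := PosSemidef.of_dotProduct_mulVec_nonneg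
    (by rw [Matrix.IsHermitian, conjTranspose_eq_transpose_of_trivial, h1])
    (fun u => by simpa using h2 u)
  obtain ⟨R, hR⟩ := CStarAlgebra.nonneg_iff_eq_star_mul_self.mp hP.nonneg
  refine ⟨R, ?_⟩
  rw [hR, star_eq_conjTranspose, conjTranspose_eq_transpose_of_trivial]

lemma transpose_dot (R : Matrix I I ℝ) (a b : I → ℝ) :
    (R *ᵥ a) ⬝ᵥ b = a ⬝ᵥ (Rᵀ *ᵥ b) := by
  rw [dotProduct_comm, dotProduct_mulVec, ← mulVec_transpose, dotProduct_comm]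

lemma dot_self_nonneg (a : I → ℝ) : 0 ≤ a ⬝ᵥ a :=
  Finset.sum_nonneg fun i _ => mul_self_nonneg (a i)

lemma cauchy (a b : I → ℝ) : (a ⬝ᵥ b) ^ 2 ≤ (a ⬝ᵥ a) * (b ⬝ᵥ b) := by
  have h := Finset.sum_mul_sq_le_sq_mul_sq (Finset.univ : Finset I) a b
  simpa only [dotProduct, pow_two] using h

end LIN_aux

open LIN_aux in
theorem t_LIN : S_LIN := by
  intro E I _ _ _ A q D hq hD hA
  set W : Matrix I I ℝ := (1 / q) • (∑ e, A e * A e) + D • (1 : Matrix I I ℝ) with hW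
  -- the quadratic form of `W`
  have hform : ∀ z : I → ℝ, z ⬝ᵥ (W *ᵥ z) =
      1 / q * (∑ e, (A e *ᵥ z) ⬝ᵥ (A e *ᵥ z)) + D * (z ⬝ᵥ z) := by
    intro z
    rw [hW, add_mulVec, smul_mulVec, smul_mulVec, one_mulVec, dotProduct_add, dotProduct_smul,
      dotProduct_smul, smul_eq_mul, smul_eq_mul, Matrix.sum_mulVec, dotProduct_sum]
    congr 2
    refine Finset.sum_congr rfl fun e _ => ?_
    rw [← mulVec_mulVec, transpose_dot (A e) z (A e *ᵥ z), hA]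
  have hWt : Wᵀ = W := by
    rw [hW, transpose_add, transpose_smul, transpose_smul, transpose_one, transpose_sum]
    congr 2
    refine Finset.sum_congr rfl fun e _ => ?_
    rw [transpose_mul, hA]
  have hsum : ∀ z : I → ℝ, 0 ≤ ∑ e, (A e *ᵥ z) ⬝ᵥ (A e *ᵥ z) := fun z =>
    Finset.sum_nonneg fun e _ => dot_self_nonneg _
  have hge : ∀ z : I → ℝ, D * (z ⬝ᵥ z) ≤ z ⬝ᵥ (W *ᵥ z) := by
    intro z
    rw [hform]
    have := mul_nonneg (one_div_pos.2 hq).le (hsum z)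
    linarith
  obtain ⟨R, hR⟩ := root hWt fun u => (mul_nonneg hD.le (dot_self_nonneg u)).trans (hge u)
  have hRR : ∀ z : I → ℝ, (R *ᵥ z) ⬝ᵥ (R *ᵥ z) = z ⬝ᵥ (W *ᵥ z) := by
    intro z
    rw [transpose_dot, mulVec_mulVec, ← hR]
  -- `R` is invertible
  have hdet : IsUnit R.det := by
    rw [isUnit_iff_ne_zero]
    intro h0
    obtain ⟨v, hv, hv0⟩ := Matrix.exists_mulVec_eq_zero_iff.2 h0
    have h1 := hge v
    rw [← hRR, hv0, dotProduct_zero] at h1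
    have h2 : v ⬝ᵥ v = 0 := by
      have := dot_self_nonneg v
      nlinarith
    exact hv (dotProduct_self_eq_zero.1 h2)
  set S := R⁻¹ with hS
  have hRS : R * S = 1 := Matrix.mul_nonsing_inv R hdet
  have hSR : S * R = 1 := Matrix.nonsing_inv_mul R hdet
  have hRSv : ∀ z : I → ℝ, R *ᵥ (S *ᵥ z) = z := fun z => by
    rw [mulVec_mulVec, hRS, one_mulVec]
  have hSRv : ∀ z : I → ℝ, S *ᵥ (R *ᵥ z) = z := fun z => by
    rw [mulVec_mulVec, hSR, one_mulVec]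
  have hB : ∀ (e : E) (z : I → ℝ), (Sᵀ * A e * S) *ᵥ z = Sᵀ *ᵥ (A e *ᵥ (S *ᵥ z)) := by
    intro e z
    rw [← mulVec_mulVec, ← mulVec_mulVec]
  -- the bound for `Sᵀ`
  have hc : ∀ c : I → ℝ, (Sᵀ *ᵥ c) ⬝ᵥ (Sᵀ *ᵥ c) ≤ 1 / D * (c ⬝ᵥ c) := by
    intro c
    set g := (Sᵀ *ᵥ c) ⬝ᵥ (Sᵀ *ᵥ c) with hg
    set d := S *ᵥ (Sᵀ *ᵥ c) with hd
    have h1 : g = c ⬝ᵥ d := by
      rw [hg, transpose_dot, transpose_transpose]
    have h2 : R *ᵥ d = Sᵀ *ᵥ c := hRSv _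
    have h3 : D * (d ⬝ᵥ d) ≤ g := by
      have := hge d
      rwa [← hRR, h2] at this
    have h4 := cauchy c d
    rw [← h1] at h4
    have h5 : 0 ≤ g := dot_self_nonneg _
    have h6 : 0 ≤ c ⬝ᵥ c := dot_self_nonneg _
    rcases h5.eq_or_lt with h7 | h7
    · rw [← h7]
      exact mul_nonneg (one_div_pos.2 hD).le h6
    · have h8 : D * g ^ 2 ≤ (c ⬝ᵥ c) * g := by
        calc D * g ^ 2 ≤ D * ((c ⬝ᵥ c) * (d ⬝ᵥ d)) := mul_le_mul_of_nonneg_left h4 hD.le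
          _ = (c ⬝ᵥ c) * (D * (d ⬝ᵥ d)) := by ring
          _ ≤ (c ⬝ᵥ c) * g := mul_le_mul_of_nonneg_left h3 h6
      have h9 : g * D ≤ c ⬝ᵥ c := by
        refine le_of_mul_le_mul_right ?_ h7
        calc g * D * g = D * g ^ 2 := by ring
          _ ≤ _ := h8
      rw [one_div, inv_mul_eq_div, le_div_iff₀ hD]
      exact h9
  refine ⟨fun e => Sᵀ * A e * S, R, fun e => ?_, fun u => ?_, fun z => ?_, fun z e => ?_⟩
  · show (Sᵀ * A e * S)ᵀ = Sᵀ * A e * S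
    rw [transpose_mul, transpose_mul, transpose_transpose, hA, Matrix.mul_assoc]
  · show ∑ e, ((Sᵀ * A e * S) *ᵥ u) ⬝ᵥ ((Sᵀ * A e * S) *ᵥ u) ≤ q / D * (u ⬝ᵥ u)
    set v := S *ᵥ u with hv
    have h1 : u ⬝ᵥ u = 1 / q * (∑ e, (A e *ᵥ v) ⬝ᵥ (A e *ᵥ v)) + D * (v ⬝ᵥ v) := by
      rw [← hform, ← hRR, hv, hRSv]
    have h2 : ∑ e, ((Sᵀ * A e * S) *ᵥ u) ⬝ᵥ ((Sᵀ * A e * S) *ᵥ u) ≤
        ∑ e, 1 / D * ((A e *ᵥ v) ⬝ᵥ (A e *ᵥ v)) :=
      Finset.sum_le_sum fun e _ => by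
        rw [hB]
        exact hc _
    refine h2.trans ?_
    rw [← Finset.mul_sum, h1, mul_add]
    have h3 : q / D * (1 / q * ∑ e, (A e *ᵥ v) ⬝ᵥ (A e *ᵥ v)) =
        1 / D * ∑ e, (A e *ᵥ v) ⬝ᵥ (A e *ᵥ v) := by
      field_simp
    rw [h3]
    have h4 : 0 ≤ q / D * (D * (v ⬝ᵥ v)) := by
      have := dot_self_nonneg v
      positivity
    linarith
  · rw [hRR, hform]
  · show (R *ᵥ z) ⬝ᵥ ((Sᵀ * A e * S) *ᵥ (R *ᵥ z)) = z ⬝ᵥ (A e *ᵥ z)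
    rw [hB, hSRv, dotProduct_comm, transpose_dot, transpose_transpose, hSRv, dotProduct_comm]

end

end Pool.Agent.KSX
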