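import Pool.Agent.KSX.St

/-!
# Module MOM: the parities have the moments of independent signs
-/

set_option autoImplicit false

namespace Pool.Agent.KSX

open Finset

namespace MOM_aux

theorem sgn_not (b : Bool) : sgn (!b) = - sgn b := by
  cases b <;> simp [sgn]

theorem sgn_sq (b : Bool) : sgn b ^ 2 = 1 := by
  cases b <;> simp [sgn]

/-- flip one value -/
theorem prod_flip {Z ι : Type*} [DecidableEq Z] [Fintype ι] (f : Z → Bool) (z : Z) (ψ : ι → Z) :
    ∏ i, sgn (Function.update f z (!(f z)) (ψ i)) =
      (-1) ^ (univ.filter fun i => ψ i = z).card * ∏ i, sgn (f (ψ i)) := by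
  have h : ∀ i, sgn (Function.update f z (!(f z)) (ψ i)) =
      (if ψ i = z then (-1 : ℝ) else 1) * sgn (f (ψ i)) := by
    intro i
    by_cases h : ψ i = z
    · rw [if_pos h, h, Function.update_self, sgn_not]
      ring
    · rw [if_neg h, Function.update_of_ne h, one_mul]
  rw [prod_congr rfl fun i _ => h i, prod_mul_distrib, prod_ite, prod_const, prod_const_one,
    mul_one]

theorem sum_zero {Z ι : Type*} [DecidableEq Z] [Fintype Z] [Fintype ι] (z : Z) (ψ : ι → Z)
    (hz : Odd (univ.filter fun i => ψ i = z).card) :
    ∑ f : Z → Bool, ∏ i, sgn (f (ψ i)) = 0 := by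
  have h : ∑ f : Z → Bool, ∏ i, sgn (f (ψ i)) =
      ∑ f : Z → Bool, ∏ i, sgn (Function.update f z (!(f z)) (ψ i)) := by
    have hinv : Function.Involutive (fun f : Z → Bool => Function.update f z (!(f z))) := by
      intro f
      simp
    exact (Equiv.sum_comp hinv.toPerm fun f : Z → Bool => ∏ i, sgn (f (ψ i))).symm
  have h2 : ∑ f : Z → Bool, ∏ i, sgn (Function.update f z (!(f z)) (ψ i)) =
      - ∑ f : Z → Bool, ∏ i, sgn (f (ψ i)) := by
    rw [← sum_neg_distrib]
    refine sum_congr rfl fun f _ => ?_
    rw [prod_flip, Odd.neg_one_pow hz]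
    ring
  linarith

/-- an even word of signs -/
theorem prod_even {E : Type*} [DecidableEq E] {M : ℕ} (φ : Fin M → E) (v : E → ℝ)
    (hv : ∀ e, v e ^ 2 = 1) (h : ∀ e, Even (univ.filter fun i => φ i = e).card) :
    ∏ i, v (φ i) = 1 := by
  rw [prod_comp v φ]
  refine prod_eq_one fun e _ => ?_
  obtain ⟨c, hc⟩ := h e
  rw [hc, ← two_mul, pow_mul, hv, one_pow]

end MOM_aux

open MOM_aux

theorem t_MOM (hODD : S_ODD) : S_MOM := by
  classical
  intro k n s r m x hk hG M hM φ
  set T := univ.filter fun e : Fin k → Fin n => Odd (univ.filter fun i => φ i = e).card with hT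
  have hyy : ∀ f : Fin r × (Fin k → Fin s) → Bool, ∏ i, yy x f (φ i) =
      ∏ p : Fin M × Fin r, sgn (f (p.2, fun j => x p.2 (φ p.1 j))) := by
    intro f
    rw [Fintype.prod_prod_type]
    rfl
  by_cases hTe : T = ∅
  · have hev : ∀ e, Even (univ.filter fun i => φ i = e).card := by
      intro e
      by_contra hne
      have : e ∈ T := by
        rw [hT, mem_filter]
        exact ⟨mem_univ _, Nat.not_even_iff_odd.1 hne⟩
      rw [hTe] at this
      exact notMem_empty _ this
    have h1 : ∀ f : Fin r × (Fin k → Fin s) → Bool, ∏ i, yy x f (φ i) = 1 := by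
      intro f
      refine prod_even φ (yy x f) (fun e => ?_) hev
      unfold yy
      rw [← prod_pow]
      exact prod_eq_one fun b _ => sgn_sq _
    have h2 : ∀ g : (Fin k → Fin n) → Bool, ∏ i, sgn (g (φ i)) = 1 := by
      intro g
      exact prod_even φ (fun e => sgn (g e)) (fun e => sgn_sq _) hev
    simp only [h1, h2, sum_const, card_univ, nsmul_eq_mul, mul_one]
    ring
  · have hne : T.Nonempty := nonempty_iff_ne_empty.2 hTe
    have hcard : T.card ≤ m := by
      have h1 : T ⊆ univ.image φ := by
        intro e he
        rw [hT, mem_filter] at he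
        have h2 : 0 < (univ.filter fun i => φ i = e).card := he.2.pos
        obtain ⟨i, hi⟩ := card_pos.1 h2
        rw [mem_filter] at hi
        exact mem_image.2 ⟨i, mem_univ _, hi.2⟩
      calc T.card ≤ (univ.image φ).card := card_le_card h1
        _ ≤ (univ : Finset (Fin M)).card := card_image_le
        _ = M := by rw [card_univ, Fintype.card_fin]
        _ ≤ m := hM
    obtain ⟨e0, he0⟩ := hne
    have h2 : ∑ g : (Fin k → Fin n) → Bool, ∏ i, sgn (g (φ i)) = 0 := by
      rw [hT, mem_filter] at he0
      exact sum_zero e0 φ he0.2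
    obtain ⟨b, z, hbz⟩ := hODD k n s r m x hk hG T ⟨e0, he0⟩ hcard
    have h1 : ∑ f : Fin r × (Fin k → Fin s) → Bool, ∏ i, yy x f (φ i) = 0 := by
      rw [sum_congr rfl fun f _ => hyy f]
      refine sum_zero (b, z) (fun p : Fin M × Fin r => (p.2, fun j => x p.2 (φ p.1 j))) ?_
      have h3 : (univ.filter fun p : Fin M × Fin r =>
          (p.2, fun j => x p.2 (φ p.1 j)) = (b, z)).card =
          (univ.filter fun i : Fin M => (fun j => x b (φ i j)) = z).card := by
        refine card_bij' (fun p _ => p.1) (fun i _ => (i, b)) ?_ ?_ ?_ ?_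
        · intro p hp
          rw [mem_filter, Prod.mk.injEq] at hp
          rw [mem_filter]
          refine ⟨mem_univ _, ?_⟩
          rw [← hp.2.1]
          exact hp.2.2
        · intro i hi
          rw [mem_filter] at hi
          rw [mem_filter, Prod.mk.injEq]
          exact ⟨mem_univ _, rfl, hi.2⟩
        · intro p hp
          rw [mem_filter, Prod.mk.injEq] at hp
          exact Prod.ext rfl hp.2.1.symm
        · intro i _
          rfl
      rw [h3]
      have h4 : (univ.filter fun i : Fin M => (fun j => x b (φ i j)) = z).card =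
          ∑ e ∈ univ.filter (fun e : Fin k → Fin n => (fun j => x b (e j)) = z),
            (univ.filter fun i => φ i = e).card := by
        rw [card_eq_sum_card_fiberwise (f := φ)
          (t := univ.filter (fun e : Fin k → Fin n => (fun j => x b (e j)) = z))]
        · refine sum_congr rfl fun e he => ?_
          congr 1
          rw [filter_filter]
          refine filter_congr fun i _ => ?_
          rw [mem_filter] at he
          constructor
          · exact fun h => h.2
          · intro h
            refine ⟨?_, h⟩
            rw [h]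
            exact he.2
        · intro i hi
          have hi' := (mem_filter.1 (Finset.mem_coe.1 hi)).2
          exact Finset.mem_coe.2 (mem_filter.2 ⟨mem_univ _, hi'⟩)
      rw [h4, odd_sum_iff_odd_card_odd]
      have h5 : (univ.filter (fun e : Fin k → Fin n => (fun j => x b (e j)) = z)).filter
          (fun e => Odd (univ.filter fun i => φ i = e).card) =
          T.filter fun e => (fun j => x b (e j)) = z := by
        rw [hT, filter_filter, filter_filter]
        exact filter_congr fun e _ => and_comm
      rw [h5]
      exact hbz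
    rw [h1, h2, zero_mul, zero_mul]

end Pool.Agent.KSX
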