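import Pool.Agent.KSX.St

set_option autoImplicit false

open Finset Matrix

namespace Pool.Agent.KSX

namespace ODD_aux

/-- the induction claim -/
theorem claim {k n s r m : ℕ} (x : Fin r → Fin n → Fin s) (hG : Good x k m)
    (T : Finset (Fin k → Fin n)) (hT : T.Nonempty) (hTm : T.card ≤ m)
    (hev : ∀ (b : Fin r) (z : Fin k → Fin s),
      Even (T.filter fun e => (fun j => x b (e j)) = z).card) :
    ∀ i : ℕ, i ≤ k → ∃ T' : Finset (Fin k → Fin n), T' ⊆ T ∧ T'.Nonempty ∧
      (∀ e ∈ T', ∀ e' ∈ T', ∀ j : Fin k, j.val < i → e j = e' j) ∧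
      ∃ B : Finset (Fin r), k * Bᶜ.card ≤ i * (r - 1) ∧
        ∀ b ∈ B, ∀ z : Fin k → Fin s,
          Even (T'.filter fun e => (fun j => x b (e j)) = z).card := by
  intro i
  induction i with
  | zero =>
    intro _
    refine ⟨T, Finset.Subset.refl _, hT, ?_, Finset.univ, ?_, ?_⟩
    · intro e _ e' _ j hj
      exact absurd hj (Nat.not_lt_zero _)
    · simp
    · intro b _ z
      exact hev b z
  | succ i ih =>
    intro hi
    obtain ⟨T', hsub, hne, hsame, B, hB, hevB⟩ := ih (Nat.le_of_succ_le hi)
    have hik : i < k := hi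
    set i' : Fin k := ⟨i, hik⟩ with hi'
    set Y : Finset (Fin n) := T'.image (fun e => e i') with hY
    have hYne : Y.Nonempty := hne.image _
    have hYc : Y.card ≤ m :=
      (Finset.card_image_le.trans (Finset.card_le_card hsub)).trans hTm
    obtain ⟨u, huY, hu⟩ := hG Y hYne hYc
    set bad : Finset (Fin r) :=
      univ.filter fun b => ∃ u' ∈ Y, u' ≠ u ∧ x b u' = x b u with hbad
    have hr : 0 < r := lt_of_le_of_lt (Nat.zero_le _) hu
    refine ⟨T'.filter (fun e => e i' = u), (Finset.filter_subset _ _).trans hsub, ?_, ?_,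
      B \ bad, ?_, ?_⟩
    · obtain ⟨e, he, heu⟩ := Finset.mem_image.1 huY
      exact ⟨e, Finset.mem_filter.2 ⟨he, heu⟩⟩
    · intro e he e' he' j hj
      obtain ⟨he1, he2⟩ := Finset.mem_filter.1 he
      obtain ⟨he1', he2'⟩ := Finset.mem_filter.1 he'
      rcases Nat.lt_succ_iff_lt_or_eq.1 hj with h | h
      · exact hsame e he1 e' he1' j h
      · have : j = i' := Fin.ext h
        rw [this, he2, he2']
    · have h1 : (B \ bad)ᶜ ⊆ Bᶜ ∪ bad := by
        intro b hb
        rw [Finset.mem_compl, Finset.mem_sdiff, not_and, not_not] at hb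
        rw [Finset.mem_union, Finset.mem_compl]
        by_cases h : b ∈ B
        · exact Or.inr (hb h)
        · exact Or.inl h
      have h2 : (B \ bad)ᶜ.card ≤ Bᶜ.card + bad.card :=
        (Finset.card_le_card h1).trans (Finset.card_union_le _ _)
      have h3 : k * bad.card ≤ r - 1 := Nat.le_sub_one_of_lt hu
      calc k * (B \ bad)ᶜ.card ≤ k * (Bᶜ.card + bad.card) := Nat.mul_le_mul_left _ h2
        _ = k * Bᶜ.card + k * bad.card := Nat.mul_add _ _ _
        _ ≤ i * (r - 1) + (r - 1) := Nat.add_le_add hB h3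
        _ = (i + 1) * (r - 1) := (Nat.succ_mul _ _).symm
    · intro b hb z
      obtain ⟨hbB, hbb⟩ := Finset.mem_sdiff.1 hb
      by_cases hz : z i' = x b u
      · have : ((T'.filter (fun e => e i' = u)).filter fun e => (fun j => x b (e j)) = z) =
            T'.filter fun e => (fun j => x b (e j)) = z := by
          ext e
          simp only [Finset.mem_filter]
          constructor
          · rintro ⟨⟨h1, _⟩, h3⟩
            exact ⟨h1, h3⟩
          · rintro ⟨h1, h3⟩
            refine ⟨⟨h1, ?_⟩, h3⟩
            by_contra hne'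
            apply hbb
            rw [hbad, Finset.mem_filter]
            refine ⟨Finset.mem_univ _, e i', Finset.mem_image_of_mem _ h1, hne', ?_⟩
            have h4 : x b (e i') = z i' := congrFun h3 i'
            rw [h4, hz]
        rw [this]
        exact hevB b hbB z
      · have : ((T'.filter (fun e => e i' = u)).filter fun e => (fun j => x b (e j)) = z) = ∅ := by
          rw [Finset.eq_empty_iff_forall_notMem]
          intro e he
          simp only [Finset.mem_filter] at he
          obtain ⟨⟨_, h2⟩, h3⟩ := he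
          apply hz
          have h4 : x b (e i') = z i' := congrFun h3 i'
          rw [← h4, h2]
        rw [this]
        simp

end ODD_aux

theorem t_ODD : S_ODD := by
  intro k n s r m x hk hG T hT hTm
  by_contra hcon
  have hev : ∀ (b : Fin r) (z : Fin k → Fin s),
      Even (T.filter fun e => (fun j => x b (e j)) = z).card := by
    intro b z
    by_contra h
    exact hcon ⟨b, z, Nat.not_even_iff_odd.1 h⟩
  obtain ⟨T', hsub, ⟨e, he⟩, hsame, B, hB, hevB⟩ := ODD_aux.claim x hG T hT hTm hev k le_rfl
  have hT' : ∀ e' ∈ T', e' = e := by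
    intro e' he'
    funext j
    exact hsame e' he' e he j j.2
  have hm : 1 ≤ m := (Finset.card_pos.2 hT).trans_le hTm
  have hr : 0 < r := by
    obtain ⟨u, _, hu⟩ := hG {e ⟨0, hk⟩} (Finset.singleton_nonempty _) (by simpa using hm)
    exact lt_of_le_of_lt (Nat.zero_le _) hu
  have hBc : Bᶜ.card ≤ r - 1 := Nat.le_of_mul_le_mul_left hB hk
  have hBne : B.Nonempty := by
    rw [Finset.nonempty_iff_ne_empty]
    intro h0
    rw [h0, Finset.compl_empty, Finset.card_univ, Fintype.card_fin] at hBc
    omega
  obtain ⟨b, hb⟩ := hBne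
  have h1 := hevB b hb (fun j => x b (e j))
  have h2 : (T'.filter fun e' => (fun j => x b (e' j)) = fun j => x b (e j)) = {e} := by
    ext e'
    simp only [Finset.mem_filter, Finset.mem_singleton]
    constructor
    · rintro ⟨h, _⟩
      exact hT' e' h
    · rintro rfl
      exact ⟨he, rfl⟩
  rw [h2, Finset.card_singleton] at h1
  exact absurd h1 (by decide)

end Pool.Agent.KSX
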