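import Pool.Agent.KSX.Defs

/-!
# Project KSX (MP_d985bf_lc, architect helper81): `(2 ^ w S) ^ ⌈T / 2⌉ ≥ N ^ (k - ε) / C`

THEOREM.  For `k ≥ 2` and `ε > 0` there is `C` such that every cell-probe data structure for `k`-set
disjointness on families of total size at most `N`, with `S` cells of `w` bits and `T` adaptive
probes (and error at most `1 / (C N ^ ε)` per query) satisfies `N ^ (k - ε) ≤ C (2 ^ w S) ^ ⌈T / 2⌉`.

IDEA.  The instance: `k` parts with `n` sets each, `r` blocks.  The set `(j, i)` consists of all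
`(b, z)`, `b < r`, `z ∈ [s] ^ k`, with `f (b, z) = true` and `z j = x b i`; `f` is random, the labels
`x b i ∈ [s]` are fixed.  The query `e ∈ [n] ^ k` asks for the sets `(j, e j)`; they are disjoint iff
`f (b, lab_b e) = false` for all `b`, `lab_b e = (x b (e j))_j`.  The parities
`y_e = ∏_b sgn f (b, lab_b e)` have correlation `± 2 ^ (1 - r)` with the (signed) answers, and for good labels
they behave exactly like independent signs in all moments of order `≤ m` (`S_LAB`, `S_ODD`,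
`S_MOM`); good labels exist with `s` of order `m` and `r` of order `(log n) / L`, `L` any constant.
With `2 t ≥ T` the signed answer of the data structure is `x ⬝ (M_e x)`, where `x` is the indicator
vector of the pairs (`t` addresses, their contents) and `M_e` is a matrix that depends only on the
query algorithm (`S_ALG`).  The form `∑_e y_e x ⬝ (M_e x)` is bounded by a weighted operator norm
(`S_LIN`), which is bounded by the matrix Khintchine inequality (`S_KHI`) for moments of order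
`2 p ≤ m`.

Each statement `S_X` below is a module, with its complete proof in the doc string: file
`Pool/Agent/KSX/X.lean`, theorem `t_X : S_X`, or `t_X : S_Y → S_Z → S_X` if the doc string says that
it uses `S_Y`, `S_Z` (take them as hypotheses, do not import the other modules of KSX).  Several
proofs can be adapted from `Pool/Agent/Lib_helper81/KSW/*.lean`; you may import these files (use
full names, their namespace is `Pool.Agent.Lib_helper81.KSW`).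
-/

set_option autoImplicit false

open Finset Matrix

namespace Pool.Agent.KSX

noncomputable section

/-- the sign of a Boolean -/
def sgn (b : Bool) : ℝ := if b then 1 else -1

lemma sgn_true : sgn true = 1 := rfl

lemma sgn_false : sgn false = -1 := rfl

lemma sgn_not (b : Bool) : sgn (!b) = - sgn b := by cases b <;> simp [sgn]

lemma abs_sgn (b : Bool) : |sgn b| = 1 := by cases b <;> simp [sgn]

lemma sgn_mul_self (b : Bool) : sgn b * sgn b = 1 := by cases b <;> simp [sgn]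

/-! ## A. Labels and limited independence -/

/-- Good labels: in every nonempty set `Y` of at most `m` indices there is an index which shares
its label with another element of `Y` in less than `r / k` of the `r` blocks. -/
def Good {r n s : ℕ} (x : Fin r → Fin n → Fin s) (k m : ℕ) : Prop :=
  ∀ Y : Finset (Fin n), Y.Nonempty → Y.card ≤ m → ∃ u ∈ Y,
    k * (univ.filter fun b => ∃ u' ∈ Y, u' ≠ u ∧ x b u' = x b u).card < r

/-- LBA.  One block: few labels coincide.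
PROOF.  Induction on `Y` (`Finset.induction_on`).  For `u ∉ Y`: `image` grows by one iff
`x u ∉ Y.image x`, so `θ ^ (|insert u Y| - |image|) = θ ^ (|Y| - |image|) (1 + (θ - 1) 1[x u ∈ Y.image x])`
(`|image| ≤ |Y|`, natural subtraction).  Resample the label of `u` (as in `sum_resample` of
`KSW/Signs.lean`: `∑ x, ∑ a, F (update x u a) = s ∑ x, F x`): `Y.image x` does not depend on it, so
`∑_x g(x) 1[x u ∈ Y.image x] = ∑_x g(x) |Y.image x| / s ≤ (m / s) ∑_x g(x)` for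
`g(x) = θ ^ (|Y| - |Y.image x|)`.  (`n = 0` or `Y = ∅`: trivial.) -/
def S_LBA : Prop :=
  ∀ (n s m : ℕ) (θ : ℝ), 1 ≤ θ → 0 < s → ∀ Y : Finset (Fin n), Y.card ≤ m →
    ∑ x : Fin n → Fin s, θ ^ (Y.card - (Y.image x).card) ≤
      (s : ℝ) ^ n * (1 + (θ - 1) * (m / s)) ^ Y.card

/-- LBB.  Combinatorics of coincidences.
PROOF.  Let `a` be the number of the labels in `Y.image x` which are the label of exactly one element
of `Y`, and `a'` the number of the other labels.  The number of elements of `Y` which share their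
label is `|Y| - a`, and `|Y| - a ≥ 2 a'` (each of the `a'` labels has at least two elements), so
`2 (|Y| - |image|) = 2 (|Y| - a - a') ≥ 2 (|Y| - a) - (|Y| - a) = |Y| - a`. -/
def S_LBB : Prop :=
  ∀ (n s : ℕ) (x : Fin n → Fin s) (Y : Finset (Fin n)),
    (Y.filter fun u => ∃ u' ∈ Y, u' ≠ u ∧ x u' = x u).card ≤ 2 * (Y.card - (Y.image x).card)

/-- LAB.  Existence of good labels.  Uses `S_LBA`, `S_LBB`.
PROOF.  If `n = 0` there is no nonempty `Y`.  Let `n ≥ 1`; then `L r' ≥ 2`, `r' ≥ 1`, `s ≥ 1`.  Let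
`r = 2 k r'` and call `x` bad for `Y` (nonempty, at most `m` elements) if `k bad_u ≥ r` for all
`u ∈ Y`, where `bad_u` is the cardinality in `Good`; then `bad_u ≥ 2 r'`.  Double counting:
`∑_{u ∈ Y} bad_u = ∑_b |{u ∈ Y : x b u shared}| ≤ 2 ∑_b ρ_b`, `ρ_b = |Y| - |Y.image (x b)|` (LBB).  So
`∑_b ρ_b ≥ r' |Y|`.  With `θ = s / m ≥ 4 ^ k 2 ^ L ≥ 1`: the number of `x` which are bad for `Y` is at most
`θ ^ (- r' |Y|) ∑_x θ ^ (∑_b ρ_b) = θ ^ (- r' |Y|) ∏_b ∑_{x b} θ ^ ρ_b` (`Finset.prod_univ_sum`, or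
`Finset.sum_prod_piFinset`; the sum over functions of a product), and by LBA, since
`1 + (θ - 1) m / s ≤ 2`, this is at most `θ ^ (- r' |Y|) (s ^ n) ^ r 2 ^ (|Y| r)`.  Now
`2 ^ (|Y| r) = (4 ^ k) ^ (r' |Y|)` and `4 ^ k / θ ≤ 2 ^ (- L)`, so it is at most
`(s ^ n) ^ r (2 ^ (- L r')) ^ |Y| ≤ (s ^ n) ^ r (1 / (4 n)) ^ |Y|`.  Sum over all `Y ≠ ∅`
(`Finset.sum_pow_mul_eq_add_pow` with `b = 1`): at most `(s ^ n) ^ r ((1 + 1 / (4 n)) ^ n - 1)`, and
`(1 + 1 / (4 n)) ^ n ≤ exp (1 / 4) < 2` (`Real.add_one_le_exp`; `exp (1 / 4) ^ 4 = exp 1 < 3 < 2 ^ 4`,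
`Real.exp_one_lt_d9`).  So less than the number `(s ^ n) ^ r` of all `x`: some `x` is not bad for
any `Y`. -/
def S_LAB : Prop :=
  ∀ k n m s L r' : ℕ, 0 < k → 0 < m → m * 4 ^ k * 2 ^ L ≤ s → 4 * n ≤ 2 ^ (L * r') →
    ∃ x : Fin (2 * k * r') → Fin n → Fin s, Good x k m

/-- ODD.  Good labels separate: every nonempty set of at most `m` queries has in some block a label
tuple which occurs an odd number of times.
PROOF.  Suppose that all these numbers are even.  Claim for `i ≤ k` (induction on `i`): there are a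
nonempty `T' ⊆ T` such that all `e ∈ T'` have the same first `i` coordinates (`∀ e e' ∈ T', ∀ j, j < i →
e j = e' j`), and a set `B` of blocks with `k |Bᶜ| ≤ i (r - 1)` such that for all `b ∈ B` and all `z` the
number `|{e ∈ T' : lab_b e = z}|` is even.  `i = 0`: `T' = T`, `B = univ`.  Step: let
`Y = T'.image (fun e => e i)`, nonempty with `|Y| ≤ |T| ≤ m`; take `u ∈ Y` from `Good` and remove from
`B` its bad blocks (`k |bad| ≤ r - 1`); let `T'' = {e ∈ T' : e i = u}`, nonempty.  For `b` in the new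
`B` and any `z`: if `z i = x b u`, then for `e ∈ T'` with `lab_b e = z` we have `x b (e i) = x b u`, so
`e i = u` (else `b` is bad): the number for `T''` is the number for `T'`.  If `z i ≠ x b u`, the number
for `T''` is 0.
For `i = k`: `T' = {e}`, `k |Bᶜ| ≤ k (r - 1)`, and `r ≥ 1` (`Good` with `Y = {u}`, `k · 0 < r`;
`m ≥ 1` because `T` is nonempty; an index exists because `k > 0`), so `B` is nonempty; for `b ∈ B` and
`z = lab_b e` the number is 1, which is not even. -/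
def S_ODD : Prop :=
  ∀ (k n s r m : ℕ) (x : Fin r → Fin n → Fin s), 0 < k → Good x k m →
    ∀ T : Finset (Fin k → Fin n), T.Nonempty → T.card ≤ m →
      ∃ (b : Fin r) (z : Fin k → Fin s), Odd (T.filter fun e => (fun j => x b (e j)) = z).card

/-- the parity of the answers in the blocks -/
def yy {k n s r : ℕ} (x : Fin r → Fin n → Fin s) (f : Fin r × (Fin k → Fin s) → Bool)
    (e : Fin k → Fin n) : ℝ := ∏ b, sgn (f (b, fun j => x b (e j)))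

/-- MOM.  The parities have the same moments as independent signs, up to the order `m`.  Uses
`S_ODD`.
PROOF.  Let `T` be the set of the `e` for which `|{i : φ i = e}|` is odd.  If `T = ∅`: both products
are 1 for all `f`, `g` (group the factors: `∏_i h (φ i) = ∏_e h e ^ |{i : φ i = e}|`,
`Finset.prod_comp` or `Finset.prod_fiberwise`; `(± 1) ^ even = 1`; `yy` is `± 1`), so both sides are
the product of the cardinalities.  If `T ≠ ∅`: `|T| ≤ M ≤ m` (`T ⊆ image φ`).  The sum over `g` is 0: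
flip `g` at some `e ∈ T` (an involution `g ↦ update g e (! g e)`, the product changes its sign;
compare `sum_sgn_odd` in `KSW/Signs.lean`).  The sum over `f` is 0: take `b, z` from `S_ODD` and flip
`f` at `(b, z)`: the product is multiplied by `(-1) ^ |{i : lab_b (φ i) = z}|`, and this number is
`∑_{e : lab_b e = z} |{i : φ i = e}|`, congruent modulo 2 to `|{e ∈ T : lab_b e = z}|`, odd. -/
def S_MOM : Prop :=
  ∀ (k n s r m : ℕ) (x : Fin r → Fin n → Fin s), 0 < k → Good x k m →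
    ∀ (M : ℕ), M ≤ m → ∀ φ : Fin M → Fin k → Fin n,
      (∑ f : Fin r × (Fin k → Fin s) → Bool, ∏ i, yy x f (φ i)) *
          (Fintype.card ((Fin k → Fin n) → Bool) : ℝ) =
        (∑ g : (Fin k → Fin n) → Bool, ∏ i, sgn (g (φ i))) *
          (Fintype.card (Fin r × (Fin k → Fin s) → Bool) : ℝ)

/-! ## B. Trace moments -/

/-- TRF.  Equal moments give equal trace moments.
PROOF.  For all `y : E → ℝ`, by induction on `M` (`pow_succ'`, `Finset.sum_mul_sum`,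
`Fin.consEquiv`/`Fin.sum_univ..`, `Fin.prod_univ_succ`):
`(∑_e y e • A e) ^ M = ∑_{φ : Fin M → E} (∏_i y (φ i)) • P φ`, where `P φ` is the product of the
matrices `A (φ 0) ⋯ A (φ (M - 1))` (for instance `(List.ofFn fun i => A (φ i)).prod`).  Take the trace,
sum over `ω`, exchange the sums, and use the hypothesis for each `φ`. -/
def S_TRF : Prop :=
  ∀ (E I Ω Ω' : Type) [Fintype E] [DecidableEq E] [Fintype I] [DecidableEq I] [Fintype Ω]
    [Fintype Ω'] (A : E → Matrix I I ℝ) (y : Ω → E → ℝ) (y' : Ω' → E → ℝ) (c c' : ℝ) (M : ℕ),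
    (∀ φ : Fin M → E, (∑ ω, ∏ i, y ω (φ i)) * c' = (∑ ω, ∏ i, y' ω (φ i)) * c) →
      (∑ ω, ((∑ e, y ω e • A e) ^ M).trace) * c' = (∑ ω, ((∑ e, y' ω e • A e) ^ M).trace) * c

/-- KHA.  A scalar inequality.
PROOF.  Pair `i` with `2 m - i` (`Finset.sum_range_reflect`): twice the sum is
`∑_{i ≤ 2 m} (a ^ i b ^ (2 m - i) + a ^ (2 m - i) b ^ i)`, and each term is at most
`|a| ^ i |b| ^ (2 m - i) + |a| ^ (2 m - i) |b| ^ i ≤ |a| ^ (2 m) + |b| ^ (2 m)`, because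
`(|a| ^ i - |b| ^ i) (|a| ^ (2 m - i) - |b| ^ (2 m - i)) ≥ 0` (both factors have the same sign). -/
def S_KHA : Prop :=
  ∀ (a b : ℝ) (m : ℕ), ∑ i ∈ range (2 * m + 1), a ^ i * b ^ (2 * m - i) ≤
    (2 * m + 1) / 2 * (a ^ (2 * m) + b ^ (2 * m))

/-- KHB.  A trace inequality.  Uses `S_KHA`.
PROOF.  Spectral theorem (`Matrix.IsHermitian.spectral_theorem`, real case): `X = U diag(λ) Uᵀ`,
`Y = V diag(μ) Vᵀ` with orthogonal `U`, `V`; put `C = Uᵀ A V`.  Then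
`tr (A X ^ i A Y ^ j) = tr (C diag(μ) ^ j Cᵀ diag(λ) ^ i) = ∑_{a, b} λ_a ^ i μ_b ^ j C_{ab} ^ 2`,
`tr (A A X ^ (2 m)) = ∑_{a, b} λ_a ^ (2 m) C_{ab} ^ 2` and `tr (A A Y ^ (2 m)) = ∑_{a, b} μ_b ^ (2 m) C_{ab} ^ 2`
(use `V Vᵀ = 1`, `U Uᵀ = 1`).  Now KHA for each `a, b`, times `C_{ab} ^ 2 ≥ 0`. -/
def S_KHB : Prop :=
  ∀ (I : Type) [Fintype I] [DecidableEq I] (A X Y : Matrix I I ℝ) (m : ℕ),
    Aᵀ = A → Xᵀ = X → Yᵀ = Y →
    ∑ i ∈ range (2 * m + 1), (A * X ^ i * A * Y ^ (2 * m - i)).trace ≤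
      (2 * m + 1) / 2 * ((A * A * X ^ (2 * m)).trace + (A * A * Y ^ (2 * m)).trace)

/-- KHC.  Flipping one sign.  Uses `S_KHB`.
PROOF.  Telescoping: `X ^ (n + 1) - Y ^ (n + 1) = ∑_{i ≤ n} X ^ i (X - Y) Y ^ (n - i)` (induction on `n`;
or `Commute`-free version by hand), with `n = 2 m` and `X - Y = 2 A`: so
`tr (A (X ^ (2 m + 1) - Y ^ (2 m + 1))) = 2 ∑_{i ≤ 2 m} tr (A X ^ i A Y ^ (2 m - i))`.  Now KHB. -/
def S_KHC : Prop :=
  ∀ (I : Type) [Fintype I] [DecidableEq I] (A X Y : Matrix I I ℝ) (m : ℕ),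
    Aᵀ = A → Xᵀ = X → Yᵀ = Y → X - Y = (2 : ℝ) • A →
    (A * X ^ (2 * m + 1)).trace - (A * Y ^ (2 * m + 1)).trace ≤
      (2 * m + 1) * ((A * A * X ^ (2 * m)).trace + (A * A * Y ^ (2 * m)).trace)

/-- KHI.  Matrix Khintchine inequality for trace moments.  Uses `S_KHC`.
PROOF.  Write `X g = ∑_e sgn (g e) • A e`, symmetric.  Claim:
`∑_g tr (X g ^ (2 p + 2)) ≤ (2 p + 1) σ ∑_g tr (X g ^ (2 p))`; then by induction on `p` (the right side
for `p = 0` is `2 ^ |E| |I|`; `(2 p + 1) σ (2 p σ) ^ p ≤ (2 (p + 1) σ) ^ (p + 1)`).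
Proof of the claim: `X ^ (2 p + 2) = X X ^ (2 p + 1)`, so
`∑_g tr (X g ^ (2 p + 2)) = ∑_e ∑_g sgn (g e) tr (A_e X g ^ (2 p + 1))`.  For fixed `e` let `g⁺`, `g⁻` be
`g` with the value at `e` replaced by `true`, `false`.  The involution `g ↦ update g e (! g e)` gives
`2 ∑_g sgn (g e) tr (A_e X g ^ (2 p + 1)) = ∑_g (tr (A_e X g⁺ ^ (2 p + 1)) - tr (A_e X g⁻ ^ (2 p + 1)))`, and
`X g⁺ - X g⁻ = 2 A_e`, so by KHC this is at most
`(2 p + 1) ∑_g (tr (A_e A_e X g⁺ ^ (2 p)) + tr (A_e A_e X g⁻ ^ (2 p))) =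
2 (2 p + 1) ∑_g tr (A_e A_e X g ^ (2 p))`.  Sum over `e`: with `Z = X g ^ p` (symmetric, `X ^ (2 p) = Z Z`),
`∑_e tr (A_e A_e Z Z) = ∑_e tr (A_e Z (A_e Z)ᵀ) = ∑_{columns c of Z} ∑_e |A_e c| ^ 2 ≤
σ ∑_c |c| ^ 2 = σ tr (Z Z)`. -/
def S_KHI : Prop :=
  ∀ (E I : Type) [Fintype E] [DecidableEq E] [Fintype I] [DecidableEq I]
    (A : E → Matrix I I ℝ) (σ : ℝ), 0 ≤ σ → (∀ e, (A e)ᵀ = A e) →
    (∀ u : I → ℝ, ∑ e, (A e *ᵥ u) ⬝ᵥ (A e *ᵥ u) ≤ σ * (u ⬝ᵥ u)) → ∀ p : ℕ,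
      ∑ g : E → Bool, ((∑ e, sgn (g e) • A e) ^ (2 * p)).trace ≤
        (Fintype.card (E → Bool) : ℝ) * Fintype.card I * (2 * p * σ) ^ p

/-- TRP.  A quadratic form and the trace of a power.
PROOF.  Spectral theorem: `Y = U diag(λ) Uᵀ`, `c = Uᵀ w`, so `w ⬝ Y w = ∑ c_i ^ 2 λ_i`, `w ⬝ w = ∑ c_i ^ 2`,
`tr (Y ^ (2 p)) = ∑ λ_i ^ (2 p)`.  Let `Λ = max |λ_i|` (if `I` is empty both sides are 0, `p ≥ 1`): the left
side is at most `(Λ ∑ c_i ^ 2) ^ (2 p)` and `Λ ^ (2 p) ≤ ∑ λ_i ^ (2 p)`. -/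
def S_TRP : Prop :=
  ∀ (I : Type) [Fintype I] [DecidableEq I] (Y : Matrix I I ℝ) (w : I → ℝ) (p : ℕ), 1 ≤ p →
    Yᵀ = Y → (w ⬝ᵥ (Y *ᵥ w)) ^ (2 * p) ≤ (w ⬝ᵥ w) ^ (2 * p) * (Y ^ (2 * p)).trace

/-- LIN.  Matrix weights.
PROOF.  Let `W = (1 / q) • ∑_e A_e A_e + D • 1`, symmetric and positive definite:
`u ⬝ W u = (1 / q) ∑_e |A_e u| ^ 2 + D |u| ^ 2 ≥ D |u| ^ 2`.  Write `W = Rᵀ R`
(`Matrix.posSemidef_iff_eq_conjTranspose_mul_self` or its present name; over `ℝ` the conjugate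
transpose is the transpose); `R` is invertible, because `R u = 0` implies `D |u| ^ 2 ≤ 0` (or use the
determinant of the positive definite `W`).  Let `B_e = R⁻¹ᵀ A_e R⁻¹`, symmetric.  Then
`(R z) ⬝ (B_e (R z)) = z ⬝ (A_e z)` and `(R z) ⬝ (R z) = z ⬝ W z`.  For `u` let `v = R⁻¹ u`:
`|B_e u| ^ 2 = |R⁻¹ᵀ (A_e v)| ^ 2`, and `|R⁻¹ᵀ c| ^ 2 ≤ |c| ^ 2 / D` for all `c`: with `d = R⁻¹ (R⁻¹ᵀ c)`,
`|R⁻¹ᵀ c| ^ 2 = c ⬝ d = d ⬝ W d` (`R d = R⁻¹ᵀ c`, `W d = c`), so with `g = |R⁻¹ᵀ c| ^ 2`: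
`D |d| ^ 2 ≤ g = c ⬝ d ≤ |c| |d|`, hence `g ^ 2 ≤ |c| ^ 2 |d| ^ 2 ≤ |c| ^ 2 g / D`.  So
`∑_e |B_e u| ^ 2 ≤ (1 / D) ∑_e |A_e v| ^ 2 ≤ (q / D) (v ⬝ W v) = (q / D) |R v| ^ 2 = (q / D) |u| ^ 2`. -/
def S_LIN : Prop :=
  ∀ (E I : Type) [Fintype E] [Fintype I] [DecidableEq I] (A : E → Matrix I I ℝ) (q D : ℝ),
    0 < q → 0 < D → (∀ e, (A e)ᵀ = A e) →
    ∃ (B : E → Matrix I I ℝ) (R : Matrix I I ℝ), (∀ e, (B e)ᵀ = B e) ∧
      (∀ u : I → ℝ, ∑ e, (B e *ᵥ u) ⬝ᵥ (B e *ᵥ u) ≤ q / D * (u ⬝ᵥ u)) ∧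
      (∀ z : I → ℝ, (R *ᵥ z) ⬝ᵥ (R *ᵥ z) =
        1 / q * (∑ e, (A e *ᵥ z) ⬝ᵥ (A e *ᵥ z)) + D * (z ⬝ᵥ z)) ∧
      ∀ (z : I → ℝ) (e : E), (R *ᵥ z) ⬝ᵥ (B e *ᵥ (R *ᵥ z)) = z ⬝ᵥ (A e *ᵥ z)

/-! ## C. Algorithms -/

/-- addresses and contents of `t` probes -/
abbrev Idx (t S w : ℕ) : Type := (Fin t → Fin S) × (Fin t → Fin (2 ^ w))

/-- the indicator of the pairs (addresses, contents) that agree with the memory -/
def xv (t : ℕ) {S w : ℕ} (M : Fin S → Fin (2 ^ w)) : Idx t S w ⊕ Idx t S w → ℝ :=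
  Sum.elim (fun a => if ∀ i, M (a.1 i) = a.2 i then 1 else 0)
    (fun a => if ∀ i, M (a.1 i) = a.2 i then 1 else 0)

/-- ALG.  The matrix of a query algorithm.
PROOF.  Fix a default cell `c0` (`1 ≤ S`).  For `T` and `v : Fin T → Fin (2 ^ w)` let
`addr T a v : Fin T → Fin S` be the addresses of the first `T` probes if the contents are `v` (`c0` after
an answer; as `addr` in `KSW/Scheme.lean`), `cont T a v : Alg S w` the remaining algorithm
(`cont (T + 1) (probe c next) v = cont T (next (v 0)) (tail v)`, `cont _ (answer b) _ = answer b`) and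
`out T a v` the answer after at most `T` probes.  Facts, by induction on `T`:
(1) for all `a`, `M` there is exactly one `v` with `M (addr T a v i) = v i` for all `i` (as `path` in
`KSW/Scheme.lean`); call it `v_T(a)`; (2) if `a.Within (T + T')`, then `(cont T a v).Within T'`, and
`(cont T a v_T(a)).run M = a.run M`; (3) if `a.Within T`, then `out T a v_T(a) = a.run M`.
Let `m (a1, v1) (a2, v2) = sgn (out t (cont t a v1) v2)` if `a1 = addr t a v1` and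
`a2 = addr t (cont t a v1) v2`, and `0` otherwise, and let `A = fromBlocks 0 m mᵀ 0`.  With `x` the
indicator: `(m x) (a1, v1) = ± 1` if `a1 = addr t a v1` and `0` otherwise (one `v2` by (1)), so
`|m x| ^ 2 = 2 ^ (w t)`; `(mᵀ x) (a2, v2) = ± 1` if `a2 = addr t (cont t a v1*) v2`, `v1* = v_t(a)`, and `0`
otherwise (only `v1 = v1*` contributes), so `|mᵀ x| ^ 2 = 2 ^ (w t)`; and `x ⬝ (m x) = sgn (a.run M)` by
(2), (3).  `xv ⬝ A xv = 2 x ⬝ (m x)`. -/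
def S_ALG : Prop :=
  ∀ (t S w : ℕ), 1 ≤ S → ∀ a : Alg S w, a.Within (t + t) →
    ∃ A : Matrix (Idx t S w ⊕ Idx t S w) (Idx t S w ⊕ Idx t S w) ℝ, Aᵀ = A ∧
      ∀ M : Fin S → Fin (2 ^ w), xv t M ⬝ᵥ (A *ᵥ xv t M) = 2 * sgn (a.run M) ∧
        (A *ᵥ xv t M) ⬝ᵥ (A *ᵥ xv t M) = 2 * ((2 : ℝ) ^ w) ^ t

/-- ALX.  The norm of the indicator.
PROOF.  The number of `(a, v)` with `M (a i) = v i` for all `i` is the number `S ^ t` of the `a`. -/
def S_ALX : Prop :=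
  ∀ (t S w : ℕ) (M : Fin S → Fin (2 ^ w)), xv t M ⬝ᵥ xv t M = 2 * (S : ℝ) ^ t

/-! ## D. Instances -/

/-- INS.  The instances.  (Adapt `fam`, `qry`, `fam_card`, `fam_disj`, `card_slice` in
`KSW/Scheme.lean`.)
PROOF.  Index the sets by an injection `idx : Fin k × Fin n → Fin N` (`k n ≤ N`) and the elements by an
injection `elt : Fin r × (Fin k → Fin s) → Fin N` (`r s ^ k ≤ N`).  The set `idx (j, i)` consists of the
`elt (b, z)` with `f (b, z) = true`, `z j = x b i`; all other sets are empty; at most `r s ^ (k - 1)`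
elements.  `qry e j = idx (j, e j)`.  An element `elt (b, z)` lies in all `k` sets iff `f (b, z) = true` and
`z j = x b (e j)` for all `j`. -/
def S_INS : Prop :=
  ∀ (k n s r N : ℕ) (x : Fin r → Fin n → Fin s), 0 < k → k * n ≤ N → r * s ^ k ≤ N →
    k * n * (r * s ^ (k - 1)) ≤ N →
    ∃ (fam : (Fin r × (Fin k → Fin s) → Bool) → Fin N → Finset (Fin N))
      (qry : (Fin k → Fin n) → Fin k → Fin N),
      (∀ f, ∑ a, (fam f a).card ≤ N) ∧ (∀ e, Function.Injective (qry e)) ∧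
      ∀ f e, (∀ y, ¬ ∀ i, y ∈ fam f (qry e i)) ↔ ∀ b, f (b, fun j => x b (e j)) = false

/-- COR.  The correlation of the parity with the answers.  Uses `S_INS`.
PROOF.  Take `fam`, `qry` from `S_INS`.  For a query `e` let `G f` be `true` iff
`f (b, lab_b e) = false` for all `b`.  (1) `∑_f (-1) ^ r yy x f e sgn (G f) = 2 |Ω| / 2 ^ r`, `Ω` the set of all `f`:
`sgn (G f) = 2 · 1[G f] - 1`; `∑_f yy x f e = 0` (`r ≥ 1`: flip `f` at `(0, lab_0 e)`; the points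
`(b, lab_b e)` are different for different `b`), `yy x f e = (-1) ^ r` if `G f`, and the number of the `f`
with `G f` is `|Ω| / 2 ^ r` (`r` different points are prescribed).  (2) For fixed `f`, `e`, since the number
of the wrong random strings is at most `δ R` (`D.correct`, total size at most `N`, `qry e` injective) and
`|(-1) ^ r yy| = 1`: `∑_ρ (-1) ^ r yy x f e sgn (run_ρ) ≥ R (-1) ^ r yy x f e sgn (G f) - 2 δ R` (the
summand for `ρ` is `(-1) ^ r yy sgn (G f)` if the answer is right, and at least this minus 2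
otherwise).  Sum over `f` and `e` and take the best `ρ` (`Finset.exists_le_of_sum_le`; compare
`exists_string` in `KSW/Final.lean`). -/
def S_COR : Prop :=
  ∀ (k n s r N S w T : ℕ) (x : Fin r → Fin n → Fin s) (δ : ℝ), 0 < k → 0 < r → k * n ≤ N →
    r * s ^ k ≤ N → k * n * (r * s ^ (k - 1)) ≤ N → Scheme k N S w T δ →
    ∃ (mem : (Fin r × (Fin k → Fin s) → Bool) → Fin S → Fin (2 ^ w))
      (alg : (Fin k → Fin n) → Alg S w), (∀ e, (alg e).Within T) ∧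
      (2 / 2 ^ r - 2 * δ) * (Fintype.card (Fin r × (Fin k → Fin s) → Bool) *
          Fintype.card (Fin k → Fin n) : ℝ) ≤
        ∑ f : Fin r × (Fin k → Fin s) → Bool, ∑ e : Fin k → Fin n,
          ((-1) ^ r * yy x f e) * sgn ((alg e).run (mem f))

/-- WIT.  Monotonicity of `Within`.
PROOF.  Induction on `T` (`within_mono` in `KSW/Scheme.lean`). -/
def S_WIT : Prop :=
  ∀ (S w T T' : ℕ) (a : Alg S w), T ≤ T' → a.Within T → a.Within T'

/-! ## E. Assembly -/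

/-- FRM.  The moment of the form.  Uses `S_LIN`, `S_TRP`, `S_KHI`, `S_TRF`, `S_MOM`, `S_ALG`, `S_ALX`.
PROOF.  Let `Q = n ^ k`, `q = (2 ^ w) ^ t`, `D = Q / S ^ t` (positive: `n, S ≥ 1`), `E = Fin k → Fin n`,
`I = Idx ⊕ Idx`, `|I| = 2 (2 ^ w S) ^ t`.  Take `A_e` from ALG for `alg e` and `B_e`, `R` from LIN.  For the
data `f` let `z = xv t (mem f)`, `u = R z`: `u ⬝ u = (1 / q) Q 2 q + D 2 S ^ t = 4 Q` (ALG, ALX), and
`F f := ∑_e ((-1) ^ r yy x f e) sgn (run) = (1 / 2) ∑_e (…) z ⬝ A_e z = (1 / 2) u ⬝ (Y u)` with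
`Y = ∑_e ((-1) ^ r yy x f e) • B_e = (-1) ^ r • ∑_e yy x f e • B_e`, symmetric.  TRP:
`F f ^ (2 p) ≤ (1 / 2) ^ (2 p) (4 Q) ^ (2 p) tr (Y ^ (2 p)) = (2 Q) ^ (2 p) tr ((∑_e yy x f e • B_e) ^ (2 p))`.
Sum over `f`; by MOM (`2 p ≤ m`) and TRF (`c`, `c'` the two cardinalities, `Ω'` the set of the `g : E → Bool`,
`y' g e = sgn (g e)`) and KHI (`σ = q / D`): the sum of the traces is at most
`|Ω| |I| (2 p q / D) ^ p`. -/
def S_FRM : Prop :=
  ∀ (k n s r m p t S w : ℕ) (x : Fin r → Fin n → Fin s), 0 < k → 0 < n → 1 ≤ S → 1 ≤ p →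
    2 * p ≤ m → Good x k m →
    ∀ (mem : (Fin r × (Fin k → Fin s) → Bool) → Fin S → Fin (2 ^ w))
      (alg : (Fin k → Fin n) → Alg S w), (∀ e, (alg e).Within (t + t)) →
      ∑ f : Fin r × (Fin k → Fin s) → Bool, (∑ e : Fin k → Fin n,
          ((-1) ^ r * yy x f e) * sgn ((alg e).run (mem f))) ^ (2 * p) ≤
        (2 * (n : ℝ) ^ k) ^ (2 * p) * (Fintype.card (Fin r × (Fin k → Fin s) → Bool) *
          (2 * ((2 : ℝ) ^ w * S) ^ t) * (2 * p * (((2 : ℝ) ^ w) ^ t * S ^ t / n ^ k)) ^ p)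

/-- PME.  Power mean inequality for an even exponent (see `power_mean` in `KSW/Final.lean`).
PROOF.  `Real.pow_arith_mean_le_arith_mean_pow_of_even`. -/
def S_PME : Prop :=
  ∀ (ι : Type) [Fintype ι] [Nonempty ι] (F : ι → ℝ) (p : ℕ) (a : ℝ), 0 ≤ a →
    a * Fintype.card ι ≤ ∑ i, F i → a ^ (2 * p) * Fintype.card ι ≤ ∑ i, F i ^ (2 * p)

/-- CRE.  The main inequality.  Uses `S_FRM`, `S_PME`, `S_COR`, `S_WIT`.
PROOF.  `r ≥ 1` (`Good` with a one-element `Y`: `0 < r`; `n ≥ 1`, `m ≥ 1`).  COR and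
`δ ≤ 1 / (2 · 2 ^ r)`: `∑_f F f ≥ (1 / 2 ^ r) Q |Ω|`, `F f = ∑_e …`, `Q = n ^ k`.  PME with
`a = Q / 2 ^ r`: `(Q / 2 ^ r) ^ (2 p) |Ω| ≤ ∑_f F f ^ (2 p)`.  FRM (with `alg e` within `t + t` by WIT),
divided by `(2 Q) ^ (2 p) |Ω|`:
`(1 / (2 · 2 ^ r)) ^ (2 p) ≤ 2 (2 ^ w S) ^ t (2 p (2 ^ w S) ^ t / Q) ^ p ≤ (4 p (2 ^ w S) ^ t / Q) ^ p`
(`2 (2 ^ w S) ^ t ≤ 2 ^ p`), so `1 / (4 · 4 ^ r) ≤ 4 p (2 ^ w S) ^ t / Q` (`pow_le_pow_left` contraposed,
`p ≥ 1`), i.e. `Q ≤ 16 p 4 ^ r (2 ^ w S) ^ t`. -/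
def S_CRE : Prop :=
  ∀ (k n s r m p t N S w T : ℕ) (x : Fin r → Fin n → Fin s) (δ : ℝ), 0 < k → 0 < n → 1 ≤ S →
    1 ≤ p → 2 * p ≤ m → Good x k m → T ≤ t + t → k * n ≤ N → r * s ^ k ≤ N →
    k * n * (r * s ^ (k - 1)) ≤ N → 2 * (2 ^ w * S) ^ t ≤ 2 ^ p → 2 * 2 ^ r * δ ≤ 1 →
    Scheme k N S w T δ →
    (n : ℝ) ^ k ≤ 16 * p * 4 ^ r * ((2 : ℝ) ^ w * S) ^ t

/-- PAR.  The parameters, in natural numbers.  Uses `S_CRE`, `S_LAB`.
PROOF.  `ℓ = Nat.log 2 N + 1`, so `N < 2 ^ ℓ`.  Let `p = k ℓ + 1`, `m = 2 p`, `r = 2 k r'`,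
`s = m 4 ^ k 2 ^ L`, `n = N / (k r s ^ (k - 1))` (natural division).  `4 n ≤ 4 N ≤ 2 ^ (ℓ + 2) ≤ 2 ^ (L r')`.
Labels from LAB.  If `n < s`: `N < k r s ^ (k - 1) (n + 1) ≤ k r s ^ k`, and
`N ^ k ≤ (2 k r s ^ k) ^ k ≤` the right side (all other factors are `≥ 1`).  If `n ≥ s`: `n ≥ 1`,
`r s ^ k = r s ^ (k - 1) s ≤ k r s ^ (k - 1) n ≤ N` and the other conditions of CRE hold.  If
`(2 ^ w S) ^ t > N ^ k` the claim is trivial.  Otherwise `2 (2 ^ w S) ^ t ≤ 2 N ^ k ≤ 2 · 2 ^ (k ℓ) = 2 ^ p`,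
and CRE gives `n ^ k ≤ 16 p 4 ^ r (2 ^ w S) ^ t`; `N < k r s ^ (k - 1) (n + 1) ≤ 2 k r s ^ (k - 1) n`. -/
def S_PAR : Prop :=
  ∀ (k N S w T t L r' : ℕ) (δ : ℝ), 0 < k → 1 ≤ N → 1 ≤ S → T ≤ t + t →
    Nat.log 2 N + 3 ≤ L * r' → 2 * 2 ^ (2 * k * r') * δ ≤ 1 → Scheme k N S w T δ →
    (N : ℝ) ^ k ≤ (2 * k * (2 * k * r') *
        (2 * (k * (Nat.log 2 N + 1) + 1) * 4 ^ k * 2 ^ L) ^ k) ^ k *
      (16 * (k * (Nat.log 2 N + 1) + 1)) * 4 ^ (2 * k * r') * ((2 : ℝ) ^ w * S) ^ t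

/-- GRO.  Growth of the parameters.
PROOF.  Real analysis.  Choose `L = ⌈16 k / ε⌉ + 1` (only depends on `k`, `ε`), and for given `N` let
`r' = (Nat.log 2 N + 3) / L + 1` (natural division), so `L r' ≥ Nat.log 2 N + 3` and
`r' ≤ (Nat.log 2 N + 3) / L + 1` (real division).  Since `2 ^ (Nat.log 2 N) ≤ N`:
`2 ^ (2 k r') ≤ 2 ^ (2 k) 2 ^ (2 k · 3 / L) N ^ (2 k / L) ≤ C N ^ (ε / 8)`, and
`4 ^ (2 k r') = (2 ^ (2 k r')) ^ 2 ≤ C N ^ (ε / 4)`.  All other factors are bounded by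
`C (Nat.log 2 N + 1) ^ C' ≤ C'' N ^ (ε / 4)` (`Real.log_le_rpow_div`: `log N ≤ N ^ η / η`, with
`η = ε / (4 C')`; `Nat.log 2 N ≤ log N / log 2`). -/
def S_GRO : Prop :=
  ∀ (k : ℕ) (ε : ℝ), 0 < k → 0 < ε → ∃ (L : ℕ) (C : ℝ), 1 ≤ C ∧ ∀ N : ℕ, 1 ≤ N →
    ∃ r' : ℕ, Nat.log 2 N + 3 ≤ L * r' ∧ (2 : ℝ) * 2 ^ (2 * k * r') ≤ C * (N : ℝ) ^ ε ∧
      (2 * k * (2 * k * r') * (2 * (k * (Nat.log 2 N + 1) + 1) * 4 ^ k * 2 ^ L) ^ k : ℝ) ^ k *
        (16 * (k * (Nat.log 2 N + 1) + 1)) * 4 ^ (2 * k * r') ≤ C * (N : ℝ) ^ ε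

/-- UPP.  The table of all answers (adapt `exists_scheme` in `KSW/Bound.lean`). -/
def S_UPP : Prop := ∀ k N : ℕ, Nonempty (Scheme k N (N ^ k) 1 1 0)

/-- FIN.  The theorem.  Uses `S_PAR`, `S_GRO`.
PROOF.  `L`, `C` from GRO; for given `N` take `r'`; `t = (T + 1) / 2`, `T ≤ t + t`.  If `δ ≤ 0` or in general:
`2 · 2 ^ (2 k r') δ ≤ C N ^ ε δ ≤ 1` if `δ ≥ 0`, and `≤ 0` if `δ < 0`.  PAR and GRO:
`N ^ k ≤ C N ^ ε (2 ^ w S) ^ t`; divide by `N ^ ε` (`Real.rpow_sub`, `Real.rpow_natCast`). -/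
def S_FIN : Prop :=
  ∀ (k : ℕ) (ε : ℝ), 2 ≤ k → 0 < ε → ∃ C : ℝ, ∀ (N S w T : ℕ) (δ : ℝ), 1 ≤ N → 1 ≤ S →
    C * (N : ℝ) ^ ε * δ ≤ 1 → Nonempty (Scheme k N S w T δ) →
      (N : ℝ) ^ ((k : ℝ) - ε) ≤ C * ((2 : ℝ) ^ w * S) ^ ((T + 1) / 2)

end

end Pool.Agent.KSX
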