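import Mathlib
import Pool.Agent.KSX.St

/-!
# KSX, module PAR: the parameters
-/

set_option autoImplicit false

open Finset Matrix

namespace Pool.Agent.KSX

namespace PAR_aux

/-- bound of a power by a product with further factors -/
lemma pow_le_prod (A B k c d e : ℕ) (h : A ≤ B) (hc : 1 ≤ c) (hd : 1 ≤ d) (he : 1 ≤ e) :
    A ^ k ≤ B ^ k * c * d * e := by
  have h1 : A ^ k ≤ B ^ k := Nat.pow_le_pow_left h k
  calc A ^ k ≤ B ^ k := h1
    _ ≤ B ^ k * c := Nat.le_mul_of_pos_right _ hc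
    _ ≤ B ^ k * c * d := Nat.le_mul_of_pos_right _ hd
    _ ≤ B ^ k * c * d * e := Nat.le_mul_of_pos_right _ he

/-- the natural number form -/
lemma key (hCRE : S_CRE) (hLAB : S_LAB) (k N S w T t L r' : ℕ) (δ : ℝ) (hk : 0 < k) (hN : 1 ≤ N)
    (hS : 1 ≤ S) (hT : T ≤ t + t) (hL : Nat.log 2 N + 3 ≤ L * r')
    (hδ : 2 * 2 ^ (2 * k * r') * δ ≤ 1) (D : Scheme k N S w T δ) (p s r : ℕ)
    (hp : p = k * (Nat.log 2 N + 1) + 1) (hs : s = 2 * p * 4 ^ k * 2 ^ L) (hr : r = 2 * k * r') :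
    N ^ k ≤ (2 * k * r * s ^ k) ^ k * (16 * p) * 4 ^ r * (2 ^ w * S) ^ t := by
  have hr'0 : 0 < r' := by
    rcases Nat.eq_zero_or_pos r' with h | h
    · subst h
      simp at hL
    · exact h
  have hr0 : 0 < r := by rw [hr]; positivity
  have hp1 : 1 ≤ p := by rw [hp]; omega
  have hs0 : 0 < s := by rw [hs]; positivity
  have hN2 : N < 2 ^ (Nat.log 2 N + 1) := Nat.lt_pow_succ_log_self (by norm_num) N
  obtain ⟨P, hP⟩ : ∃ P, P = k * (r * s ^ (k - 1)) := ⟨_, rfl⟩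
  have hP0 : 0 < P := by rw [hP]; positivity
  obtain ⟨n, hn⟩ : ∃ n, n = N / P := ⟨_, rfl⟩
  have hnN : n ≤ N := by rw [hn]; exact Nat.div_le_self _ _
  have hPn : P * n ≤ N := by rw [hn]; exact Nat.mul_div_le N P
  have hNP : N < P * (n + 1) := by rw [hn]; exact Nat.lt_mul_div_succ N hP0
  have hsk : s ^ (k - 1) * s = s ^ k := by
    rw [← pow_succ]
    congr 1
    omega
  have hPs : P * s = k * r * s ^ k := by rw [hP, ← hsk]; ring
  have hw1 : 1 ≤ (2 ^ w * S) ^ t := Nat.one_le_pow _ _ (by positivity)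
  have h4r : 1 ≤ 4 ^ r := Nat.one_le_pow _ _ (by norm_num)
  have h16 : 1 ≤ 16 * p := by omega
  have h4n : 4 * n ≤ 2 ^ (L * r') := by
    calc 4 * n ≤ 4 * N := by omega
      _ ≤ 4 * 2 ^ (Nat.log 2 N + 1) := by omega
      _ = 2 ^ (Nat.log 2 N + 3) := by rw [pow_add, pow_add]; ring
      _ ≤ 2 ^ (L * r') := Nat.pow_le_pow_right (by norm_num) hL
  obtain ⟨x, hx⟩ := hLAB k n (2 * p) s L r' hk (by omega) (le_of_eq hs.symm) h4n
  rcases lt_or_ge n s with hns | hns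
  · apply pow_le_prod _ _ _ _ _ _ _ h16 h4r hw1
    have h1 : N < P * s := hNP.trans_le (Nat.mul_le_mul_left P hns)
    rw [hPs] at h1
    calc N ≤ k * r * s ^ k := h1.le
      _ ≤ 2 * (k * r * s ^ k) := Nat.le_mul_of_pos_left _ (by norm_num)
      _ = 2 * k * r * s ^ k := by ring
  · have hn1 : 0 < n := hs0.trans_le hns
    rcases lt_or_ge (N ^ k) ((2 ^ w * S) ^ t) with hbig | hsmall
    · calc N ^ k ≤ (2 ^ w * S) ^ t := hbig.le
        _ ≤ ((2 * k * r * s ^ k) ^ k * (16 * p) * 4 ^ r) * (2 ^ w * S) ^ t :=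
          Nat.le_mul_of_pos_left _ (by positivity)
    · have c1 : k * n ≤ N := by
        calc k * n ≤ (k * n) * (r * s ^ (k - 1)) := Nat.le_mul_of_pos_right _ (by positivity)
          _ = P * n := by rw [hP]; ring
          _ ≤ N := hPn
      have c2 : r * s ^ k ≤ N := by
        calc r * s ^ k = r * s ^ (k - 1) * s := by rw [← hsk]; ring
          _ ≤ r * s ^ (k - 1) * n := Nat.mul_le_mul_left _ hns
          _ ≤ k * (r * s ^ (k - 1) * n) := Nat.le_mul_of_pos_left _ hk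
          _ = P * n := by rw [hP]; ring
          _ ≤ N := hPn
      have c3 : k * n * (r * s ^ (k - 1)) ≤ N := by
        calc k * n * (r * s ^ (k - 1)) = P * n := by rw [hP]; ring
          _ ≤ N := hPn
      have c4 : 2 * (2 ^ w * S) ^ t ≤ 2 ^ p := by
        have h1 : N ^ k ≤ (2 ^ (Nat.log 2 N + 1)) ^ k := Nat.pow_le_pow_left hN2.le k
        calc 2 * (2 ^ w * S) ^ t ≤ 2 * N ^ k := Nat.mul_le_mul_left 2 hsmall
          _ ≤ 2 * (2 ^ (Nat.log 2 N + 1)) ^ k := Nat.mul_le_mul_left 2 h1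
          _ = 2 ^ p := by rw [hp, ← pow_mul, pow_succ]; ring
      have c5 : 2 * 2 ^ r * δ ≤ 1 := by rw [hr]; exact hδ
      have hmain : (n : ℝ) ^ k ≤ 16 * p * 4 ^ r * ((2 : ℝ) ^ w * S) ^ t := by
        subst hr
        exact hCRE k n s (2 * k * r') (2 * p) p t N S w T x δ hk hn1 hS hp1 le_rfl hx hT c1 c2 c3
          c4 c5 D
      have hmain' : n ^ k ≤ 16 * p * 4 ^ r * (2 ^ w * S) ^ t := by exact_mod_cast hmain
      have hN3 : N ≤ 2 * k * r * s ^ k * n := by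
        calc N ≤ P * (n + 1) := hNP.le
          _ ≤ P * (2 * n) := Nat.mul_le_mul_left _ (by omega)
          _ ≤ (P * (2 * n)) * s := Nat.le_mul_of_pos_right _ hs0
          _ = (P * s) * (2 * n) := by ring
          _ = 2 * k * r * s ^ k * n := by rw [hPs]; ring
      calc N ^ k ≤ (2 * k * r * s ^ k * n) ^ k := Nat.pow_le_pow_left hN3 k
        _ = (2 * k * r * s ^ k) ^ k * n ^ k := mul_pow _ _ _
        _ ≤ (2 * k * r * s ^ k) ^ k * (16 * p * 4 ^ r * (2 ^ w * S) ^ t) :=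
          Nat.mul_le_mul_left _ hmain'
        _ = (2 * k * r * s ^ k) ^ k * (16 * p) * 4 ^ r * (2 ^ w * S) ^ t := by ring

end PAR_aux

/-- **PAR** -/
theorem t_PAR (hCRE : S_CRE) (hLAB : S_LAB) : S_PAR := by
  intro k N S w T t L r' δ hk hN hS hT hL hδ D
  have h := PAR_aux.key hCRE hLAB k N S w T t L r' δ hk hN hS hT hL hδ D _ _ _ rfl rfl rfl
  exact_mod_cast h

end Pool.Agent.KSX
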