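import Pool.Agent.KSX.St

/-!
# KSX, module TRF: equal moments give equal trace moments (helper32)
-/

set_option autoImplicit false

open Finset Matrix

namespace Pool.Agent.KSX

namespace TRF_aux

/-- the power of a linear combination of matrices -/
theorem pow_expand {E I : Type} [Fintype E] [Fintype I] [DecidableEq I]
    (A : E → Matrix I I ℝ) (M : ℕ) :
    ∃ P : (Fin M → E) → Matrix I I ℝ, ∀ y : E → ℝ,
      (∑ e, y e • A e) ^ M = ∑ φ : Fin M → E, (∏ i, y (φ i)) • P φ := by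
  induction M with
  | zero =>
    refine ⟨fun _ => 1, fun y => ?_⟩
    simp
  | succ M ih =>
    obtain ⟨P, hP⟩ := ih
    refine ⟨fun φ => A (φ 0) * P (fun i => φ i.succ), fun y => ?_⟩
    rw [pow_succ', hP y, Finset.sum_mul_sum]
    rw [← (Fin.consEquiv (fun _ : Fin (M + 1) => E)).sum_comp]
    rw [Fintype.sum_prod_type]
    refine Finset.sum_congr rfl fun e _ => Finset.sum_congr rfl fun φ _ => ?_
    simp only [Fin.consEquiv, Equiv.coe_fn_mk, Fin.prod_univ_succ, Fin.cons_zero, Fin.cons_succ]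
    rw [smul_mul_smul_comm]

end TRF_aux

theorem t_TRF : S_TRF := by
  intro E I Ω Ω' _ _ _ _ _ _ A y y' c c' M h
  obtain ⟨P, hP⟩ := TRF_aux.pow_expand A M
  have key : ∀ (Z : Type) [Fintype Z] (u : Z → E → ℝ),
      (∑ ω, ((∑ e, u ω e • A e) ^ M).trace) =
        ∑ φ : Fin M → E, (∑ ω, ∏ i, u ω (φ i)) * (P φ).trace := by
    intro Z _ u
    simp_rw [hP, Matrix.trace_sum, Matrix.trace_smul, smul_eq_mul, Finset.sum_mul]
    exact Finset.sum_comm
  rw [key, key, Finset.sum_mul, Finset.sum_mul]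
  refine Finset.sum_congr rfl fun φ _ => ?_
  have := h φ
  calc (∑ ω, ∏ i, y ω (φ i)) * (P φ).trace * c'
      = ((∑ ω, ∏ i, y ω (φ i)) * c') * (P φ).trace := by ring
    _ = ((∑ ω, ∏ i, y' ω (φ i)) * c) * (P φ).trace := by rw [this]
    _ = (∑ ω, ∏ i, y' ω (φ i)) * (P φ).trace * c := by ring

end Pool.Agent.KSX
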