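import Mathlib
import Pool.Agent.KSX.St

/-!
# KSX, module TRP: a quadratic form and the trace of a power
-/

set_option autoImplicit false

namespace Pool.Agent.KSX

open Finset Matrix

namespace TRP_aux

/-- real spectral theorem with transposes -/
theorem spec {I : Type} [Fintype I] [DecidableEq I] (Y : Matrix I I ℝ) (hY : Yᵀ = Y) :
    ∃ (U : Matrix I I ℝ) (d : I → ℝ), Uᵀ * U = 1 ∧ U * Uᵀ = 1 ∧ Y = U * diagonal d * Uᵀ := by
  have hH : Y.IsHermitian := by
    rw [Matrix.IsHermitian, Matrix.conjTranspose_eq_transpose_of_trivial]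
    exact hY
  refine ⟨(hH.eigenvectorUnitary : Matrix I I ℝ), hH.eigenvalues, ?_, ?_, ?_⟩
  · have h := Unitary.coe_star_mul_self hH.eigenvectorUnitary
    rw [Matrix.star_eq_conjTranspose, Matrix.conjTranspose_eq_transpose_of_trivial] at h
    exact h
  · have h := Unitary.coe_mul_star_self hH.eigenvectorUnitary
    rw [Unitary.coe_star, Matrix.star_eq_conjTranspose,
      Matrix.conjTranspose_eq_transpose_of_trivial] at h
    exact h
  · have h := hH.spectral_theorem
    rw [Unitary.conjStarAlgAut_apply] at h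
    rw [Matrix.star_eq_conjTranspose, Matrix.conjTranspose_eq_transpose_of_trivial] at h
    exact h

theorem pow_eq {I : Type} [Fintype I] [DecidableEq I] (U : Matrix I I ℝ) (d : I → ℝ)
    (h1 : Uᵀ * U = 1) (h2 : U * Uᵀ = 1) (n : ℕ) :
    (U * diagonal d * Uᵀ) ^ n = U * diagonal (fun i => d i ^ n) * Uᵀ := by
  induction n with
  | zero =>
    rw [pow_zero]
    have : (fun i : I => d i ^ 0) = fun _ => (1 : ℝ) := by funext i; exact pow_zero _
    rw [this, diagonal_one, Matrix.mul_one, h2]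
  | succ n ih =>
    rw [pow_succ, ih]
    calc U * diagonal (fun i => d i ^ n) * Uᵀ * (U * diagonal d * Uᵀ)
        = U * diagonal (fun i => d i ^ n) * (Uᵀ * U) * diagonal d * Uᵀ := by
          simp only [Matrix.mul_assoc]
      _ = U * (diagonal (fun i => d i ^ n) * diagonal d) * Uᵀ := by
          rw [h1, Matrix.mul_one]
          simp only [Matrix.mul_assoc]
      _ = U * diagonal (fun i => d i ^ (n + 1)) * Uᵀ := by
          rw [diagonal_mul_diagonal]
          have : (fun i : I => d i ^ n * d i) = fun i => d i ^ (n + 1) := by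
            funext i; rw [pow_succ]
          rw [this]

end TRP_aux

open TRP_aux

theorem t_TRP : S_TRP := by
  intro I _ _ Y w p hp hY
  obtain ⟨U, d, h1, h2, h3⟩ := spec Y hY
  have htr : (Y ^ (2 * p)).trace = ∑ i, d i ^ (2 * p) := by
    rw [h3, pow_eq U d h1 h2, Matrix.trace_mul_comm, ← Matrix.mul_assoc, h1, Matrix.one_mul,
      Matrix.trace_diagonal]
  set c : I → ℝ := Uᵀ *ᵥ w with hc
  have hw : w ⬝ᵥ w = ∑ i, c i ^ 2 := by
    have e1 : c ⬝ᵥ c = w ⬝ᵥ w := by
      rw [hc, Matrix.dotProduct_mulVec, Matrix.vecMul_transpose, Matrix.mulVec_mulVec, h2,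
        Matrix.one_mulVec]
    rw [← e1, dotProduct]
    exact Finset.sum_congr rfl (fun i _ => by ring)
  have hq : w ⬝ᵥ (Y *ᵥ w) = ∑ i, d i * c i ^ 2 := by
    have e1 : Y *ᵥ w = U *ᵥ (diagonal d *ᵥ c) := by
      rw [h3, hc, Matrix.mulVec_mulVec, Matrix.mulVec_mulVec]
    have e2 : w ⬝ᵥ (U *ᵥ (diagonal d *ᵥ c)) = c ⬝ᵥ (diagonal d *ᵥ c) := by
      rw [Matrix.dotProduct_mulVec, ← Matrix.mulVec_transpose]
    rw [e1, e2, dotProduct]
    apply Finset.sum_congr rfl
    intro i _
    rw [Matrix.mulVec_diagonal]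
    ring
  rw [htr, hw, hq]
  have hS : 0 ≤ ∑ i, c i ^ 2 := Finset.sum_nonneg (fun i _ => sq_nonneg _)
  rcases isEmpty_or_nonempty I with hI | hI
  · have hp2 : 2 * p ≠ 0 := by omega
    simp [hp2]
  obtain ⟨j, -, hj⟩ := Finset.exists_max_image (Finset.univ : Finset I) (fun i => |d i|)
    Finset.univ_nonempty
  have hab : |∑ i, d i * c i ^ 2| ≤ |d j| * ∑ i, c i ^ 2 := by
    refine (Finset.abs_sum_le_sum_abs _ _).trans ?_
    rw [Finset.mul_sum]
    apply Finset.sum_le_sum
    intro i hi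
    rw [abs_mul, abs_of_nonneg (sq_nonneg (c i))]
    exact mul_le_mul_of_nonneg_right (hj i hi) (sq_nonneg _)
  have hev : Even (2 * p) := even_two_mul p
  calc (∑ i, d i * c i ^ 2) ^ (2 * p) = |∑ i, d i * c i ^ 2| ^ (2 * p) :=
        (hev.pow_abs _).symm
    _ ≤ (|d j| * ∑ i, c i ^ 2) ^ (2 * p) := pow_le_pow_left₀ (abs_nonneg _) hab _
    _ = (∑ i, c i ^ 2) ^ (2 * p) * d j ^ (2 * p) := by
        rw [mul_pow, hev.pow_abs, mul_comm]
    _ ≤ (∑ i, c i ^ 2) ^ (2 * p) * ∑ i, d i ^ (2 * p) := by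
        apply mul_le_mul_of_nonneg_left _ (by positivity)
        exact Finset.single_le_sum (f := fun i => d i ^ (2 * p))
          (fun i _ => hev.pow_nonneg _) (Finset.mem_univ j)

end Pool.Agent.KSX
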