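import Pool.Agent.KSX.St

set_option autoImplicit false

open Finset

namespace Pool.Agent.KSX

theorem t_UPP : S_UPP := by
  classical
  intro k N
  set e : (Fin k → Fin N) ≃ Fin (N ^ k) := finFunctionFinEquiv with he
  refine ⟨{ R := 1
            pos := one_pos
            mem := fun _ F c => if ∀ x, ¬ ∀ i, x ∈ F (e.symm c i) then 1 else 0
            alg := fun _ q => Alg.probe (e q) fun x => Alg.answer (decide (x = 1))
            within := fun _ q => fun _ => trivial
            correct := ?_ }⟩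
  intro F _ q _
  have h : ∀ r : Fin 1, ((Alg.probe (e q) fun x => Alg.answer (decide (x = 1)) :
      Alg (N ^ k) 1).run (fun c => if ∀ x, ¬ ∀ i, x ∈ F (e.symm c i) then 1 else 0) = true ↔
      ∀ x, ¬ ∀ i, x ∈ F (q i)) := by
    intro r
    change (decide ((if ∀ x, ¬ ∀ i, x ∈ F (e.symm (e q) i) then (1 : Fin (2 ^ 1)) else 0) = 1) =
      true) ↔ _
    rw [Equiv.symm_apply_apply]
    by_cases h : ∀ x, ¬ ∀ i, x ∈ F (q i)
    · rw [if_pos h]
      simp [h]
    · rw [if_neg h]
      have h01 : ¬ (0 : Fin (2 ^ 1)) = 1 := by decide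
      exact ⟨fun h' => absurd (of_decide_eq_true h') h01, fun h' => absurd h' h⟩
  have h2 : (univ.filter fun r : Fin 1 => ((Alg.probe (e q) fun x => Alg.answer
      (decide (x = 1)) : Alg (N ^ k) 1).run
        (fun c => if ∀ x, ¬ ∀ i, x ∈ F (e.symm c i) then 1 else 0) = true ↔
      ∀ x, ¬ ∀ i, x ∈ F (q i))).card = 1 := by
    rw [filter_true_of_mem fun r _ => h r]
    rfl
  rw [h2]
  norm_num

end Pool.Agent.KSX
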