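import Pool.Agent.KSX.St

set_option autoImplicit false

namespace Pool.Agent.KSX

theorem t_WIT : S_WIT := by
  intro S w T T' a h ha
  induction T generalizing T' a with
  | zero =>
    cases a with
    | answer b => cases T' <;> trivial
    | probe c next => exact absurd ha id
  | succ T ih =>
    cases a with
    | answer b => cases T' <;> trivial
    | probe c next =>
      cases T' with
      | zero => omega
      | succ T' => exact fun x => ih T' (next x) (by omega) (ha x)

end Pool.Agent.KSX
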