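import Pool.Agent.KSX.LBA
import Pool.Agent.KSX.LBB
import Pool.Agent.KSX.LAB
import Pool.Agent.KSX.ODD
import Pool.Agent.KSX.MOM
import Pool.Agent.KSX.TRF
import Pool.Agent.KSX.KHA
import Pool.Agent.KSX.KHB
import Pool.Agent.KSX.KHC
import Pool.Agent.KSX.KHI
import Pool.Agent.KSX.TRP
import Pool.Agent.KSX.LIN
import Pool.Agent.KSX.ALG
import Pool.Agent.KSX.ALX
import Pool.Agent.KSX.INS
import Pool.Agent.KSX.COR
import Pool.Agent.KSX.WIT
import Pool.Agent.KSX.FRM
import Pool.Agent.KSX.PME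
import Pool.Agent.KSX.CRE
import Pool.Agent.KSX.PAR
import Pool.Agent.KSX.GRO
import Pool.Agent.KSX.UPP
import Pool.Agent.KSX.FIN

/-!
# Project KSX: assembly of the first theorem
-/

set_option autoImplicit false

namespace Pool.Agent.KSX

theorem khc : S_KHC := t_KHC (t_KHB t_KHA)

theorem khi : S_KHI := t_KHI khc

theorem mom : S_MOM := t_MOM t_ODD

theorem lab : S_LAB := t_LAB t_LBA t_LBB

theorem frm : S_FRM := t_FRM t_LIN t_TRP khi t_TRF mom t_ALG t_ALX

theorem cor : S_COR := t_COR t_INS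

theorem cre : S_CRE := t_CRE frm t_PME cor t_WIT

theorem par : S_PAR := t_PAR cre lab

theorem fin : S_FIN := t_FIN par t_GRO

end Pool.Agent.KSX
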