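import Pool.Agent.KSX.St2
import Pool.Agent.KSX.KHI

/-!
# CHA: chaos of order 2, reduction to order 1
-/

set_option autoImplicit false
set_option linter.unusedSectionVars false

open Finset Matrix

namespace Pool.Agent.KSX

noncomputable section

namespace CHA_aux

open KHI_aux

variable {E I : Type} [Fintype E] [DecidableEq E] [Fintype I] [DecidableEq I]

/-- the signed double sum -/
def DD (M : E → E → Matrix I I ℝ) (g : E → Bool) : Matrix I I ℝ :=
  ∑ e, ∑ e', (sgn (g e) * sgn (g e')) • M e e'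

/-- the inner sum -/
def CC (M : E → E → Matrix I I ℝ) (g : E → Bool) (e : E) : Matrix I I ℝ :=
  ∑ e', sgn (g e') • (M e e' + M e' e)

/-- the sum of the squares -/
def VV (M : E → E → Matrix I I ℝ) (g : E → Bool) : Matrix I I ℝ :=
  ∑ e, CC M g e * CC M g e

lemma DD_symm (M : E → E → Matrix I I ℝ) (hM : ∀ e e', (M e e')ᵀ = M e e') (g : E → Bool) :
    (DD M g)ᵀ = DD M g := by
  unfold DD
  rw [Matrix.transpose_sum]
  refine Finset.sum_congr rfl fun e _ => ?_
  rw [Matrix.transpose_sum]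
  refine Finset.sum_congr rfl fun e' _ => ?_
  rw [Matrix.transpose_smul, hM]

lemma CC_symm (M : E → E → Matrix I I ℝ) (hM : ∀ e e', (M e e')ᵀ = M e e') (g : E → Bool)
    (e : E) : (CC M g e)ᵀ = CC M g e := by
  unfold CC
  rw [Matrix.transpose_sum]
  refine Finset.sum_congr rfl fun e' _ => ?_
  rw [Matrix.transpose_smul, Matrix.transpose_add, hM, hM]

lemma VV_symm (M : E → E → Matrix I I ℝ) (hM : ∀ e e', (M e e')ᵀ = M e e') (g : E → Bool) :
    (VV M g)ᵀ = VV M g := by
  unfold VV
  rw [Matrix.transpose_sum]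
  refine Finset.sum_congr rfl fun e _ => ?_
  rw [Matrix.transpose_mul, CC_symm M hM]

lemma VV_nonneg (M : E → E → Matrix I I ℝ) (hM : ∀ e e', (M e e')ᵀ = M e e') (g : E → Bool)
    (u : I → ℝ) : 0 ≤ u ⬝ᵥ (VV M g *ᵥ u) := by
  unfold VV
  rw [Matrix.sum_mulVec, dotProduct_sum]
  refine Finset.sum_nonneg fun e _ => ?_
  have h1 : u ⬝ᵥ ((CC M g e * CC M g e) *ᵥ u) = (CC M g e *ᵥ u) ⬝ᵥ (CC M g e *ᵥ u) := by
    rw [← Matrix.mulVec_mulVec, Matrix.dotProduct_mulVec, ← Matrix.mulVec_transpose,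
      CC_symm M hM]
  rw [h1]
  exact Finset.sum_nonneg fun i _ => mul_self_nonneg _

lemma CC_fl (M : E → E → Matrix I I ℝ) (h0 : ∀ e, M e e = 0) (g : E → Bool) (e : E) :
    CC M (fl e g) e = CC M g e := by
  unfold CC
  refine Finset.sum_congr rfl fun e' _ => ?_
  by_cases h : e' = e
  · subst h
    rw [h0, add_zero, smul_zero, smul_zero]
  · rw [fl_ne _ _ _ h]

/-- the sign after the change -/
lemma sgn_fl (e a : E) (g : E → Bool) :
    sgn (fl e g a) = sgn (g a) - if a = e then 2 * sgn (g e) else 0 := by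
  by_cases h : a = e
  · subst h
    rw [fl_same, sgn_not, if_pos rfl]
    ring
  · rw [fl_ne _ _ _ h, if_neg h, sub_zero]

lemma DD_fl (M : E → E → Matrix I I ℝ) (h0 : ∀ e, M e e = 0) (g : E → Bool) (e : E) :
    DD M g - DD M (fl e g) = (2 * sgn (g e)) • CC M g e := by
  ext i j
  have h1 : ∀ g' : E → Bool, DD M g' i j = ∑ a, ∑ b, (sgn (g' a) * sgn (g' b)) * M a b i j := by
    intro g'
    unfold DD
    rw [Matrix.sum_apply]
    refine Finset.sum_congr rfl fun a _ => ?_
    rw [Matrix.sum_apply]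
    refine Finset.sum_congr rfl fun b _ => ?_
    rw [Matrix.smul_apply, smul_eq_mul]
  have h2 : CC M g e i j = ∑ b, sgn (g b) * (M e b i j + M b e i j) := by
    unfold CC
    rw [Matrix.sum_apply]
    refine Finset.sum_congr rfl fun b _ => ?_
    rw [Matrix.smul_apply, smul_eq_mul, Matrix.add_apply]
  rw [Matrix.sub_apply, h1, h1, Matrix.smul_apply, smul_eq_mul, h2]
  have h3 : ∀ a b : E, sgn (fl e g a) * sgn (fl e g b) * M a b i j =
      sgn (g a) * sgn (g b) * M a b i j
        - (if a = e then 2 * sgn (g e) * (sgn (g b) * M e b i j) else 0)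
        - (if b = e then 2 * sgn (g e) * (sgn (g a) * M a e i j) else 0) := by
    intro a b
    rw [sgn_fl, sgn_fl]
    by_cases ha : a = e
    · subst ha
      by_cases hb : b = a
      · subst hb
        rw [h0]
        simp
      · rw [if_pos rfl, if_neg hb, if_pos rfl, if_neg hb]
        ring
    · by_cases hb : b = e
      · subst hb
        rw [if_neg ha, if_pos rfl, if_neg ha, if_pos rfl]
        ring
      · rw [if_neg ha, if_neg hb, if_neg ha, if_neg hb]
        ring
  have h4 : ∑ a, ∑ b, sgn (fl e g a) * sgn (fl e g b) * M a b i j =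
      ∑ a, ∑ b, sgn (g a) * sgn (g b) * M a b i j
        - 2 * sgn (g e) * ∑ b, sgn (g b) * M e b i j
        - 2 * sgn (g e) * ∑ a, sgn (g a) * M a e i j := by
    rw [Finset.sum_congr rfl fun a _ => Finset.sum_congr rfl fun b _ => h3 a b]
    have h5 : ∀ a : E, ∑ b, (sgn (g a) * sgn (g b) * M a b i j
        - (if a = e then 2 * sgn (g e) * (sgn (g b) * M e b i j) else 0)
        - (if b = e then 2 * sgn (g e) * (sgn (g a) * M a e i j) else 0)) =
        ∑ b, sgn (g a) * sgn (g b) * M a b i j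
          - (if a = e then 2 * sgn (g e) * ∑ b, sgn (g b) * M e b i j else 0)
          - 2 * sgn (g e) * (sgn (g a) * M a e i j) := by
      intro a
      rw [Finset.sum_sub_distrib, Finset.sum_sub_distrib, Finset.sum_ite_eq' Finset.univ e,
        if_pos (Finset.mem_univ e)]
      congr 2
      by_cases ha : a = e
      · simp only [if_pos ha]
        rw [Finset.mul_sum]
      · simp only [if_neg ha]
        rw [Finset.sum_const_zero]
    rw [Finset.sum_congr rfl fun a _ => h5 a, Finset.sum_sub_distrib, Finset.sum_sub_distrib,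
      Finset.sum_ite_eq' Finset.univ e, if_pos (Finset.mem_univ e), ← Finset.mul_sum]
  rw [h4]
  have h6 : ∑ b, sgn (g b) * (M e b i j + M b e i j) =
      ∑ b, sgn (g b) * M e b i j + ∑ a, sgn (g a) * M a e i j := by
    rw [← Finset.sum_add_distrib]
    exact Finset.sum_congr rfl fun b _ => mul_add _ _ _
  rw [h6]
  ring

lemma sum_CC (M : E → E → Matrix I I ℝ) (g : E → Bool) :
    ∑ e, sgn (g e) • CC M g e = (2 : ℝ) • DD M g := by
  have h1 : ∑ e, sgn (g e) • CC M g e =
      DD M g + ∑ e, ∑ e', (sgn (g e) * sgn (g e')) • M e' e := by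
    unfold CC DD
    rw [← Finset.sum_add_distrib]
    refine Finset.sum_congr rfl fun e _ => ?_
    rw [← Finset.sum_add_distrib, Finset.smul_sum]
    refine Finset.sum_congr rfl fun e' _ => ?_
    rw [smul_smul, smul_add]
  have h2 : ∑ e, ∑ e', (sgn (g e) * sgn (g e')) • M e' e = DD M g := by
    unfold DD
    rw [Finset.sum_comm]
    refine Finset.sum_congr rfl fun e _ => Finset.sum_congr rfl fun e' _ => ?_
    rw [mul_comm]
  rw [h1, h2, two_smul]

lemma key (hKHC : S_KHC) (M : E → E → Matrix I I ℝ) (h0 : ∀ e, M e e = 0)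
    (hM : ∀ e e', (M e e')ᵀ = M e e') (P : ℕ) :
    2 * ∑ g : E → Bool, (DD M g ^ (2 * P + 2)).trace ≤
      (2 * P + 1) * ∑ g : E → Bool, (VV M g * DD M g ^ (2 * P)).trace := by
  have h1 : ∀ g : E → Bool, 2 * (DD M g ^ (2 * P + 2)).trace =
      ∑ e, sgn (g e) * (CC M g e * DD M g ^ (2 * P + 1)).trace := by
    intro g
    have h2 : DD M g ^ (2 * P + 2) = DD M g * DD M g ^ (2 * P + 1) := by
      rw [← pow_succ']
    have h3 : (2 : ℝ) • (DD M g * DD M g ^ (2 * P + 1)) =
        ∑ e, sgn (g e) • (CC M g e * DD M g ^ (2 * P + 1)) := by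
      rw [← Matrix.smul_mul, ← sum_CC, Finset.sum_mul]
      refine Finset.sum_congr rfl fun e _ => ?_
      rw [Matrix.smul_mul]
    rw [h2, ← smul_eq_mul, ← Matrix.trace_smul, h3, Matrix.trace_sum]
    refine Finset.sum_congr rfl fun e _ => ?_
    rw [Matrix.trace_smul, smul_eq_mul]
  have h4 : ∀ e : E, ∑ g : E → Bool, sgn (g e) * (CC M g e * DD M g ^ (2 * P + 1)).trace ≤
      (2 * P + 1) * ∑ g : E → Bool, (CC M g e * CC M g e * DD M g ^ (2 * P)).trace := by
    intro e
    set F : (E → Bool) → ℝ := fun g => (CC M g e * DD M g ^ (2 * P + 1)).trace with hF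
    set Gt : (E → Bool) → ℝ := fun g => (CC M g e * CC M g e * DD M g ^ (2 * P)).trace with hGt
    have h5 : ∀ g : E → Bool, sgn (g e) * (F g - F (fl e g)) ≤
        (2 * P + 1) * (Gt g + Gt (fl e g)) := by
      intro g
      have hd := DD_fl M h0 g e
      have hF' : F (fl e g) = (CC M g e * DD M (fl e g) ^ (2 * P + 1)).trace := by
        rw [hF]
        change (CC M (fl e g) e * DD M (fl e g) ^ (2 * P + 1)).trace = _
        rw [CC_fl M h0]
      have hG' : Gt (fl e g) = (CC M g e * CC M g e * DD M (fl e g) ^ (2 * P)).trace := by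
        rw [hGt]
        change (CC M (fl e g) e * CC M (fl e g) e * DD M (fl e g) ^ (2 * P)).trace = _
        rw [CC_fl M h0]
      rw [hF', hG']
      cases hg : g e with
      | true =>
        rw [hg, sgn_true, mul_one] at hd
        have := hKHC I (CC M g e) (DD M g) (DD M (fl e g)) P (CC_symm M hM g e) (DD_symm M hM _)
          (DD_symm M hM _) hd
        rw [sgn_true, one_mul]
        exact this
      | false =>
        rw [hg, sgn_false] at hd
        have hd' : DD M (fl e g) - DD M g = (2 : ℝ) • CC M g e := by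
          rw [← neg_sub, hd, ← neg_smul]
          norm_num
        have := hKHC I (CC M g e) (DD M (fl e g)) (DD M g) P (CC_symm M hM g e) (DD_symm M hM _)
          (DD_symm M hM _) hd'
        rw [sgn_false]
        change (CC M g e * DD M (fl e g) ^ (2 * P + 1)).trace - F g ≤
          (2 * P + 1) * ((CC M g e * CC M g e * DD M (fl e g) ^ (2 * P)).trace + Gt g) at this
        linarith
    have h6 : ∑ g, sgn (g e) * F (fl e g) = - ∑ g, sgn (g e) * F g := by
      rw [← sum_fl e fun g => sgn (g e) * F (fl e g), ← Finset.sum_neg_distrib]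
      apply Finset.sum_congr rfl
      intro g _
      rw [fl_fl, fl_same, sgn_not]
      ring
    have h7 : ∑ g, sgn (g e) * (F g - F (fl e g)) = 2 * ∑ g, sgn (g e) * F g := by
      have : ∀ g : E → Bool, sgn (g e) * (F g - F (fl e g)) =
          sgn (g e) * F g - sgn (g e) * F (fl e g) := fun g => by ring
      rw [Finset.sum_congr rfl fun g _ => this g, Finset.sum_sub_distrib, h6]
      ring
    have h8 : ∑ g, (2 * (P : ℝ) + 1) * (Gt g + Gt (fl e g)) = 2 * ((2 * P + 1) * ∑ g, Gt g) := by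
      rw [← Finset.mul_sum, Finset.sum_add_distrib, sum_fl]
      ring
    have h9 := Finset.sum_le_sum fun g (_ : g ∈ (Finset.univ : Finset (E → Bool))) => h5 g
    rw [h7, h8] at h9
    linarith
  have h10 : ∀ g : E → Bool, (VV M g * DD M g ^ (2 * P)).trace =
      ∑ e, (CC M g e * CC M g e * DD M g ^ (2 * P)).trace := by
    intro g
    unfold VV
    rw [Finset.sum_mul, Matrix.trace_sum]
  calc 2 * ∑ g : E → Bool, (DD M g ^ (2 * P + 2)).trace
      = ∑ e, ∑ g : E → Bool, sgn (g e) * (CC M g e * DD M g ^ (2 * P + 1)).trace := by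
        rw [Finset.mul_sum, Finset.sum_congr rfl fun g _ => h1 g, Finset.sum_comm]
    _ ≤ ∑ e, (2 * P + 1) * ∑ g : E → Bool, (CC M g e * CC M g e * DD M g ^ (2 * P)).trace :=
        Finset.sum_le_sum fun e _ => h4 e
    _ = (2 * P + 1) * ∑ g : E → Bool, ∑ e, (CC M g e * CC M g e * DD M g ^ (2 * P)).trace := by
        rw [← Finset.mul_sum, Finset.sum_comm]
    _ = (2 * P + 1) * ∑ g : E → Bool, (VV M g * DD M g ^ (2 * P)).trace := by
        rw [Finset.sum_congr rfl fun g _ => h10 g]

lemma trace_nonneg (X : Matrix I I ℝ) (hX : Xᵀ = X) (p : ℕ) : 0 ≤ (X ^ (2 * p)).trace := by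
  have hZ : (X ^ p)ᵀ = X ^ p := by rw [Matrix.transpose_pow, hX]
  have h1 : X ^ (2 * p) = (X ^ p)ᵀ * X ^ p := by rw [hZ, two_mul, pow_add]
  rw [h1, trace_sq]
  exact Finset.sum_nonneg fun c _ => Finset.sum_nonneg fun i _ => mul_self_nonneg _

end CHA_aux

open CHA_aux in
theorem t_CHA (hKHC : S_KHC) (hYNG : S_YNG) : S_CHA := by
  intro E I _ _ _ _ M p hp h0 hM
  change ∑ g : E → Bool, (DD M g ^ (2 * p)).trace ≤
    (p : ℝ) ^ p * ∑ g : E → Bool, (VV M g ^ p).trace
  obtain ⟨P, rfl⟩ : ∃ P, p = P + 1 := ⟨p - 1, by omega⟩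
  set a := ∑ g : E → Bool, (DD M g ^ (2 * (P + 1))).trace with ha
  set v := ∑ g : E → Bool, (VV M g ^ (P + 1)).trace with hv
  have hP : (0 : ℝ) ≤ P := Nat.cast_nonneg P
  obtain ⟨κ, hκ⟩ : ∃ κ : ℝ, κ = (2 * P + 1) / 2 := ⟨_, rfl⟩
  have hκ0 : 0 < κ := by rw [hκ]; positivity
  have h1 : 2 * a ≤ (2 * P + 1) * ∑ g : E → Bool, (VV M g * DD M g ^ (2 * P)).trace := by
    have := key hKHC M h0 hM P
    have e1 : 2 * (P + 1) = 2 * P + 2 := by ring
    rw [ha, e1]
    exact this
  have h2 : ∀ g : E → Bool, (VV M g * DD M g ^ (2 * P)).trace ≤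
      κ ^ P / (P + 1) * (VV M g ^ (P + 1)).trace +
        P / ((P + 1) * κ) * (DD M g ^ (2 * (P + 1))).trace := by
    intro g
    have := hYNG I (VV M g) (DD M g) κ (P + 1) hp hκ0 (VV_symm M hM g) (DD_symm M hM g)
      (VV_nonneg M hM g)
    rw [Nat.add_sub_cancel] at this
    push_cast at this
    rw [add_sub_cancel_right] at this
    exact this
  have h3 : ∑ g : E → Bool, (VV M g * DD M g ^ (2 * P)).trace ≤
      κ ^ P / (P + 1) * v + P / ((P + 1) * κ) * a := by
    refine (Finset.sum_le_sum fun g _ => h2 g).trans (le_of_eq ?_)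
    rw [Finset.sum_add_distrib, ← Finset.mul_sum, ← Finset.mul_sum]
  have h4 : a ≤ κ * (κ ^ P / (P + 1) * v + P / ((P + 1) * κ) * a) := by
    have h5 : a ≤ κ * ∑ g : E → Bool, (VV M g * DD M g ^ (2 * P)).trace := by
      rw [hκ]
      linarith
    exact h5.trans (mul_le_mul_of_nonneg_left h3 hκ0.le)
  have h6 : κ * (κ ^ P / (P + 1) * v + P / ((P + 1) * κ) * a) =
      (κ ^ (P + 1) * v + P * a) / (P + 1) := by
    field_simp
    ring
  rw [h6, le_div_iff₀ (by positivity)] at h4
  have h7 : a ≤ κ ^ (P + 1) * v := by linarith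
  have ha0 : 0 ≤ a := Finset.sum_nonneg fun g _ => trace_nonneg (DD M g) (DD_symm M hM g) _
  have hv0 : 0 ≤ v := by
    by_contra hneg
    have h8 : κ ^ (P + 1) * v < 0 := mul_neg_of_pos_of_neg (pow_pos hκ0 _) (not_le.1 hneg)
    linarith
  refine h7.trans (mul_le_mul_of_nonneg_right ?_ hv0)
  apply pow_le_pow_left₀ hκ0.le
  rw [hκ]
  push_cast
  linarith

end

end Pool.Agent.KSX
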