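import Pool.Agent.KSX.St2

/-!
# CHB: order 1 for the column of matrices (helper71)
-/

set_option autoImplicit false
set_option linter.unusedSectionVars false

open Finset Matrix

namespace Pool.Agent.KSX

noncomputable section

namespace CHB_aux

variable {E I : Type} [Fintype E] [DecidableEq E] [Fintype I] [DecidableEq I]

/-- the column -/
def Z (K : E → E → Matrix I I ℝ) (e' : E) : Matrix (E × I) I ℝ := fun x j => K x.1 e' x.2 j

/-- the symmetric matrix of the column -/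
def D (K : E → E → Matrix I I ℝ) (e' : E) : Matrix ((E × I) ⊕ I) ((E × I) ⊕ I) ℝ :=
  Matrix.fromBlocks 0 (Z K e') (Z K e')ᵀ 0

lemma D_symm (K : E → E → Matrix I I ℝ) (e' : E) : (D K e')ᵀ = D K e' := by
  unfold D
  rw [Matrix.fromBlocks_transpose, Matrix.transpose_zero, Matrix.transpose_zero,
    Matrix.transpose_transpose]

lemma Z_mulVec (K : E → E → Matrix I I ℝ) (e' : E) (b : I → ℝ) :
    (Z K e' *ᵥ b) ⬝ᵥ (Z K e' *ᵥ b) = ∑ e, (K e e' *ᵥ b) ⬝ᵥ (K e e' *ᵥ b) := by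
  unfold dotProduct
  rw [Fintype.sum_prod_type]
  rfl

lemma Zt_mulVec (K : E → E → Matrix I I ℝ) (hK : ∀ e e', (K e e')ᵀ = K e e') (e' : E)
    (a : E × I → ℝ) : (Z K e')ᵀ *ᵥ a = ∑ e, K e e' *ᵥ (fun i => a (e, i)) := by
  funext j
  rw [Finset.sum_apply, Matrix.mulVec, dotProduct, Fintype.sum_prod_type]
  refine Finset.sum_congr rfl fun e _ => ?_
  rw [Matrix.mulVec, dotProduct]
  refine Finset.sum_congr rfl fun i _ => ?_
  have h1 : (Z K e')ᵀ j (e, i) = K e e' j i := by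
    rw [Matrix.transpose_apply]
    change K e e' i j = K e e' j i
    rw [← hK e e', Matrix.transpose_apply, hK e e']
  rw [h1]

lemma D_mulVec (K : E → E → Matrix I I ℝ) (hK : ∀ e e', (K e e')ᵀ = K e e') (e' : E)
    (u : (E × I) ⊕ I → ℝ) :
    (D K e' *ᵥ u) ⬝ᵥ (D K e' *ᵥ u) =
      (∑ e, (K e e' *ᵥ (u ∘ Sum.inr)) ⬝ᵥ (K e e' *ᵥ (u ∘ Sum.inr))) +
      (∑ e, K e e' *ᵥ (fun i => u (Sum.inl (e, i)))) ⬝ᵥ
        (∑ e, K e e' *ᵥ (fun i => u (Sum.inl (e, i)))) := by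
  unfold D
  rw [Matrix.fromBlocks_mulVec, Matrix.zero_mulVec, Matrix.zero_mulVec, zero_add, add_zero,
    sumElim_dotProduct_sumElim, Z_mulVec, Zt_mulVec K hK]
  rfl

lemma dot_split (u : (E × I) ⊕ I → ℝ) :
    u ⬝ᵥ u = (∑ e, (fun i => u (Sum.inl (e, i))) ⬝ᵥ (fun i => u (Sum.inl (e, i)))) +
      (u ∘ Sum.inr) ⬝ᵥ (u ∘ Sum.inr) := by
  unfold dotProduct
  rw [Fintype.sum_sum_type, Fintype.sum_prod_type]
  rfl

lemma sum_D (K : E → E → Matrix I I ℝ) (s : E → ℝ) :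
    ∑ e', s e' • D K e' =
      Matrix.fromBlocks 0 (∑ e', s e' • Z K e') (∑ e', s e' • Z K e')ᵀ 0 := by
  ext x y
  rw [Matrix.sum_apply]
  rcases x with x | x <;> rcases y with y | y
  · simp [D]
  · simp [D, Matrix.sum_apply]
  · simp [D, Matrix.sum_apply]
  · simp [D]

lemma pow_block (m : Type) (n : Type) [Fintype m] [Fintype n] [DecidableEq m] [DecidableEq n]
    (A : Matrix m m ℝ) (B : Matrix n n ℝ) (p : ℕ) :
    (Matrix.fromBlocks A 0 0 B) ^ p = Matrix.fromBlocks (A ^ p) 0 0 (B ^ p) := by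
  induction p with
  | zero => simp
  | succ p ih =>
    rw [pow_succ, ih, Matrix.fromBlocks_multiply]
    simp [pow_succ]

lemma trace_pow (m : Type) (n : Type) [Fintype m] [Fintype n] [DecidableEq m] [DecidableEq n]
    (Z : Matrix m n ℝ) (p : ℕ) :
    ((Zᵀ * Z) ^ p).trace ≤ ((Matrix.fromBlocks 0 Z Zᵀ 0) ^ (2 * p)).trace := by
  rw [pow_mul, pow_two, Matrix.fromBlocks_multiply]
  simp only [Matrix.zero_mul, Matrix.mul_zero, zero_add, add_zero]
  rw [pow_block]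
  have h0 : (Matrix.fromBlocks ((Z * Zᵀ) ^ p) 0 0 ((Zᵀ * Z) ^ p)).trace =
      ((Z * Zᵀ) ^ p).trace + ((Zᵀ * Z) ^ p).trace := by
    unfold Matrix.trace
    rw [Fintype.sum_sum_type]
    rfl
  rw [h0]
  have h1 : 0 ≤ ((Z * Zᵀ) ^ p).trace := by
    have h2 : (Z * Zᵀ).PosSemidef := by
      have := Matrix.posSemidef_self_mul_conjTranspose Z
      rwa [Matrix.conjTranspose_eq_transpose_of_trivial] at this
    exact (h2.pow p).trace_nonneg
  linarith

lemma ZtZ (K : E → E → Matrix I I ℝ) (hK : ∀ e e', (K e e')ᵀ = K e e') (s : E → ℝ) :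
    (∑ e', s e' • Z K e')ᵀ * (∑ e', s e' • Z K e') =
      ∑ e, (∑ e', s e' • K e e') * (∑ e', s e' • K e e') := by
  ext i j
  rw [Matrix.mul_apply, Fintype.sum_prod_type, Matrix.sum_apply]
  refine Finset.sum_congr rfl fun e _ => ?_
  rw [Matrix.mul_apply]
  refine Finset.sum_congr rfl fun l _ => ?_
  have h1 : ∀ k, (∑ e', s e' • Z K e') (e, l) k = (∑ e', s e' • K e e') l k := by
    intro k
    rw [Matrix.sum_apply, Matrix.sum_apply]
    rfl
  have h2 : (∑ e', s e' • K e e') i l = (∑ e', s e' • K e e') l i := by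
    rw [Matrix.sum_apply, Matrix.sum_apply]
    refine Finset.sum_congr rfl fun e' _ => ?_
    rw [Matrix.smul_apply, Matrix.smul_apply]
    congr 1
    rw [← hK e e', Matrix.transpose_apply, hK e e']
  rw [Matrix.transpose_apply, h1, h1, h2]

end CHB_aux

open CHB_aux in
theorem t_CHB (hKHI : S_KHI) : S_CHB := by
  intro E I _ _ _ _ K σ p hσ hK hb ha
  have h1 := hKHI E ((E × I) ⊕ I) (D K) σ hσ (D_symm K) (fun u => by
    have e1 : ∑ e', (D K e' *ᵥ u) ⬝ᵥ (D K e' *ᵥ u) =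
        (∑ e', ∑ e, (K e e' *ᵥ (u ∘ Sum.inr)) ⬝ᵥ (K e e' *ᵥ (u ∘ Sum.inr))) +
        ∑ e', (∑ e, K e e' *ᵥ (fun i => u (Sum.inl (e, i)))) ⬝ᵥ
          (∑ e, K e e' *ᵥ (fun i => u (Sum.inl (e, i)))) := by
      rw [← Finset.sum_add_distrib]
      exact Finset.sum_congr rfl fun e' _ => D_mulVec K hK e' u
    have e2 := hb (u ∘ Sum.inr)
    have e3 := ha (fun e i => u (Sum.inl (e, i)))
    rw [Finset.sum_comm] at e2
    rw [e1, dot_split u]
    linarith) p
  refine le_trans ?_ (h1.trans (le_of_eq ?_))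
  · refine Finset.sum_le_sum fun g _ => ?_
    rw [sum_D K (fun e => sgn (g e)), ← ZtZ K hK (fun e => sgn (g e))]
    exact trace_pow _ _ _ _
  · rw [Fintype.card_sum, Fintype.card_prod]
    push_cast
    ring

end

end Pool.Agent.KSX
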