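import Pool.Agent.KSX.St2

set_option autoImplicit false

open Finset Matrix

namespace Pool.Agent.KSX

theorem t_CHK (hCHA : S_CHA) (hCHB : S_CHB) : S_CHK := by
  intro E I _ _ _ _ M σ p hp hσ h0 hs h1 h2
  have a := hCHA E I M p hp h0 hs
  have b := hCHB E I (fun e e' => M e e' + M e' e) σ p hσ
    (fun e e' => by rw [Matrix.transpose_add, hs, hs]) h1 h2
  refine a.trans ((mul_le_mul_of_nonneg_left b (by positivity)).trans (le_of_eq ?_))
  have e : (2 * (p : ℝ) ^ 2 * σ) ^ p = (p : ℝ) ^ p * (2 * p * σ) ^ p := by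
    rw [← mul_pow]
    congr 1
    ring
  rw [e]
  ring

end Pool.Agent.KSX
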