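import Pool.Agent.KSX.St2

/-!
# Project KSX: the main inequality for odd `T` (`S_CR3`)
-/

set_option autoImplicit false

open Finset Matrix

namespace Pool.Agent.KSX

namespace CR3_aux

/-- Flipping all signs. -/
lemma flip_all {E : Type} [Fintype E] [DecidableEq E] (M : ℕ) (φ : Fin M → E) :
    ∑ g : E → Bool, ∏ i, sgn (g (φ i)) =
      (-1) ^ M * ∑ g : E → Bool, ∏ i, sgn (g (φ i)) := by
  calc ∑ g : E → Bool, ∏ i, sgn (g (φ i)) = ∑ g : E → Bool, ∏ i, sgn (!(g (φ i))) := by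
        refine (Equiv.sum_comp (Equiv.piCongrRight fun _ : E => Equiv.boolNot)
          (fun g : E → Bool => ∏ i, sgn (g (φ i)))).symm.trans ?_
        rfl
    _ = ∑ g : E → Bool, (-1) ^ M * ∏ i, sgn (g (φ i)) := by
        refine Finset.sum_congr rfl fun g _ => ?_
        have h : ∀ i, sgn (!(g (φ i))) = (-1) * sgn (g (φ i)) := fun i => by
          rw [sgn_not]; ring
        rw [Finset.prod_congr rfl fun i _ => h i, Finset.prod_mul_distrib, Finset.prod_const,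
          Finset.card_univ, Fintype.card_fin]
    _ = _ := by rw [Finset.mul_sum]

lemma pow_fix {a s : ℝ} (h : s = a * s) (r : ℕ) : a ^ r * s = s := by
  induction r with
  | zero => rw [pow_zero, one_mul]
  | succ r ih => rw [pow_succ, mul_assoc, ← h, ih]

/-- The signed parities have the moments of independent signs. -/
lemma mo_y (hMOM : S_MOM) {k n s r m : ℕ} (x : Fin r → Fin n → Fin s) (hk : 0 < k)
    (hg : Good x k m) :
    Mo (fun (f : Fin r × (Fin k → Fin s) → Bool) (e : Fin k → Fin n) =>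
      (-1) ^ r * yy x f e) m := by
  intro M hM φ
  have h := hMOM k n s r m x hk hg M hM φ
  have h1 : ∀ f : Fin r × (Fin k → Fin s) → Bool,
      ∏ i, ((-1) ^ r * yy x f (φ i)) = ((-1) ^ M) ^ r * ∏ i, yy x f (φ i) := by
    intro f
    rw [Finset.prod_mul_distrib, Finset.prod_const, Finset.card_univ, Fintype.card_fin,
      ← pow_mul, ← pow_mul, mul_comm r M]
  calc (∑ f : Fin r × (Fin k → Fin s) → Bool, ∏ i, ((-1) ^ r * yy x f (φ i))) *
        (Fintype.card ((Fin k → Fin n) → Bool) : ℝ)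
      = ((-1) ^ M) ^ r * ((∑ f : Fin r × (Fin k → Fin s) → Bool, ∏ i, yy x f (φ i)) *
        (Fintype.card ((Fin k → Fin n) → Bool) : ℝ)) := by
        rw [Finset.sum_congr rfl fun f _ => h1 f, ← Finset.mul_sum, mul_assoc]
    _ = (((-1) ^ M) ^ r * ∑ g : (Fin k → Fin n) → Bool, ∏ i, sgn (g (φ i))) *
          (Fintype.card (Fin r × (Fin k → Fin s) → Bool) : ℝ) := by rw [h, mul_assoc]
    _ = _ := by rw [pow_fix (flip_all M φ) r]

lemma yy_sq {k n s r : ℕ} (x : Fin r → Fin n → Fin s)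
    (f : Fin r × (Fin k → Fin s) → Bool) (e : Fin k → Fin n) :
    ((-1) ^ r * yy x f e) * ((-1) ^ r * yy x f e) = 1 := by
  have h1 : yy x f e * yy x f e = 1 := by
    unfold yy
    rw [← Finset.prod_mul_distrib]
    exact Finset.prod_eq_one fun b _ => sgn_mul_self _
  have h2 : ((-1 : ℝ) ^ r) * (-1) ^ r = 1 := by rw [← mul_pow]; norm_num
  calc ((-1) ^ r * yy x f e) * ((-1) ^ r * yy x f e)
      = (((-1 : ℝ) ^ r) * (-1) ^ r) * (yy x f e * yy x f e) := by ring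
    _ = 1 := by rw [h1, h2, mul_one]

/-- The heavy and the light case, for abstract data. -/
lemma core (hDEC : S_DEC) (hHVP : S_HVP) (hLTP : S_LTP)
    (E Γ V I Ω : Type) [Fintype E] [DecidableEq E] [Fintype Γ] [DecidableEq Γ] [Fintype V]
    [DecidableEq V] [Fintype I] [DecidableEq I] [Fintype Ω] [Nonempty Ω]
    (c : E → Γ) (A : E → V → Matrix I I ℝ) (y : Ω → E → ℝ) (z : Ω → I → ℝ) (X : Ω → Γ → V)
    (a b ρ h : ℝ) (m p : ℕ) (hp : 1 ≤ p) (hm : 4 * p ≤ m) (hMo : Mo y m) (ha : 0 < a)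
    (hb : 0 < b) (hρ : 0 < ρ) (hE : 0 < Fintype.card E) (hΓ : 0 < Fintype.card Γ)
    (hV : 0 < Fintype.card V) (hy : ∀ ω e, y ω e * y ω e = 1)
    (hd1 : (Fintype.card ((Γ × V × I) ⊕ I) : ℝ) ≤ 2 ^ p)
    (hd2 : 2 * (Fintype.card E + 1) * (Fintype.card I : ℝ) ^ 2 ≤ 2 ^ p)
    (hA : ∀ e v, (A e v)ᵀ = A e v)
    (hAz : ∀ ω e v, (A e v *ᵥ z ω) ⬝ᵥ (A e v *ᵥ z ω) ≤ a)
    (hzA : ∀ ω e v, (z ω ⬝ᵥ (A e v *ᵥ z ω)) ^ 2 ≤ 4) (hz : ∀ ω, z ω ⬝ᵥ z ω ≤ b)
    (hh : h = 128 * p * a ^ 2 * Fintype.card V / ρ ^ 2)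
    (hsum : 2 * (ρ * Fintype.card E * Fintype.card Ω) ≤
      ∑ ω, ∑ e, y ω e * (z ω ⬝ᵥ (A e (X ω (c e)) *ᵥ z ω))) :
    ρ ^ 2 * Fintype.card E ≤ 100 * p * a * b * Fintype.card V ∨
    ρ ^ 2 * Fintype.card E ≤ 128 * Fintype.card V * Fintype.card Γ ∨
    ρ ^ 4 * (Fintype.card E : ℝ) ^ 2 ≤
        1024 * p ^ 2 * (Fintype.card V : ℝ) ^ 2 * a ^ 2 * (Fintype.card Γ * b ^ 2) ∨
      a ^ 2 * (Fintype.card E : ℝ) ^ 2 ≤ 4 * h ^ 2 * (Fintype.card Γ * b ^ 2) := by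
  have hp0 : (1 : ℝ) ≤ p := by exact_mod_cast hp
  have hp1 : (0 : ℝ) < p := by linarith
  have hE0 : (0 : ℝ) < Fintype.card E := by exact_mod_cast hE
  have hΓ0 : (0 : ℝ) < Fintype.card Γ := by exact_mod_cast hΓ
  have hV0 : (0 : ℝ) < Fintype.card V := by exact_mod_cast hV
  have hV1 : (1 : ℝ) ≤ Fintype.card V := by exact_mod_cast hV
  have hh0 : 0 < h := by rw [hh]; positivity
  have hhρ : ρ ^ 2 * h = 128 * p * a ^ 2 * Fintype.card V := by
    rw [hh]; field_simp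
  obtain ⟨A', B, hA', hB, hh1, hh2, hdec, hh5⟩ := hDEC E Γ V I c A h hh0 hA
  choose u hu1 hu2 hu3 using fun ω => hdec (z ω) (X ω) a b (hAz ω) (hz ω)
  have hsplit : ∑ ω, ∑ e, y ω e * (z ω ⬝ᵥ (A e (X ω (c e)) *ᵥ z ω)) =
      (∑ ω, 1 / 2 * ∑ e, y ω e * (u ω ⬝ᵥ (B e *ᵥ u ω))) +
        ∑ ω, ∑ e, y ω e * (z ω ⬝ᵥ (A' e (X ω (c e)) *ᵥ z ω)) := by
    rw [← Finset.sum_add_distrib]
    refine Finset.sum_congr rfl fun ω _ => ?_
    rw [Finset.mul_sum, ← Finset.sum_add_distrib]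
    refine Finset.sum_congr rfl fun e _ => ?_
    rw [hu1 ω e]
    ring
  rw [hsplit] at hsum
  rcases le_or_gt (ρ * Fintype.card E * Fintype.card Ω)
      (∑ ω, 1 / 2 * ∑ e, y ω e * (u ω ⬝ᵥ (B e *ᵥ u ω))) with hheavy | hlight
  · left
    have hD : 0 < min (h / a) (Fintype.card E / b) := by
      apply lt_min <;> positivity
    have hDa : min (h / a) (Fintype.card E / b) * a ≤ h := by
      calc min (h / a) (Fintype.card E / b) * a ≤ (h / a) * a :=
            mul_le_mul_of_nonneg_right (min_le_left _ _) ha.le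
        _ = h := by field_simp
    have hDb : min (h / a) (Fintype.card E / b) * b ≤ Fintype.card E := by
      calc min (h / a) (Fintype.card E / b) * b ≤ (Fintype.card E / b) * b :=
            mul_le_mul_of_nonneg_right (min_le_right _ _) hb.le
        _ = Fintype.card E := by field_simp
    have hHV := hHVP E ((Γ × V × I) ⊕ I) Ω y B u (Fintype.card V) a b h
      (min (h / a) (Fintype.card E / b)) ρ m p hp (by omega) hMo hV1 ha hh0 hD hρ hE hB hd1
      hDa hDb (fun ω => hu2 ω) (fun ω => hu3 ω) hheavy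
    rcases le_or_gt (h / a) (Fintype.card E / b) with hc | hc
    · exfalso
      rw [min_eq_left hc] at hHV
      have h1 : ρ ^ 2 * (h / a) = 128 * p * a * Fintype.card V := by
        calc ρ ^ 2 * (h / a) = (ρ ^ 2 * h) / a := by ring
          _ = _ := by rw [hhρ]; field_simp
      rw [h1] at hHV
      have h2 : 0 < p * a * (Fintype.card V : ℝ) := by positivity
      nlinarith [hHV, h2]
    · rw [min_eq_right hc.le] at hHV
      have h1 : ρ ^ 2 * Fintype.card E = (ρ ^ 2 * (Fintype.card E / b)) * b := by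
        field_simp
      rw [h1]
      calc (ρ ^ 2 * (Fintype.card E / b)) * b ≤ (100 * p * a * Fintype.card V) * b :=
            mul_le_mul_of_nonneg_right hHV hb.le
        _ = _ := by ring
  · right
    have hli : ρ * Fintype.card E * Fintype.card Ω ≤
        ∑ ω, ∑ e, y ω e * (z ω ⬝ᵥ (A' e (X ω (c e)) *ᵥ z ω)) := by linarith
    have hc2 : ∀ ω γ v, ∑ e ∈ univ.filter (fun e => c e = γ),
        (A' e v *ᵥ z ω) ⬝ᵥ (A' e v *ᵥ z ω) ≤ a * dc c γ := by
      intro ω γ v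
      refine (hh2 γ v (z ω)).trans ?_
      calc ∑ e ∈ univ.filter (fun e => c e = γ), (A e v *ᵥ z ω) ⬝ᵥ (A e v *ᵥ z ω)
          ≤ ∑ e ∈ univ.filter (fun e => c e = γ), a :=
            Finset.sum_le_sum fun e _ => hAz ω e v
        _ = a * dc c γ := by
            rw [Finset.sum_const, nsmul_eq_mul, mul_comm]
            rfl
    have hLT := hLTP E Γ V I Ω c A' y z X h a b ρ m p hp hm hMo hh0 ha hb hρ hE hΓ hV hy hd2
      hA' hh1 hc2 (fun ω => hh5 (z ω) a (hAz ω) (hzA ω)) hz hli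
    rcases hLT with h1 | h2 | h3
    · left
      have e1 : 8 * (Fintype.card V : ℝ) * (8 * a ^ 2 * Fintype.card E / h) * (2 * p) =
          ρ ^ 2 * Fintype.card E := by
        have : ρ ^ 2 = 128 * p * a ^ 2 * Fintype.card V / h := by
          rw [← hhρ]; field_simp
        rw [this]; ring
      have e2 : 8 * (Fintype.card V : ℝ) * (8 * a ^ 2 * Fintype.card E / h) * 2 ≤
          ρ ^ 2 * Fintype.card E := by
        rw [← e1]
        have h0 : 0 ≤ 8 * (Fintype.card V : ℝ) * (8 * a ^ 2 * Fintype.card E / h) := by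
          positivity
        refine mul_le_mul_of_nonneg_left ?_ h0
        linarith
      have e3 : 8 * (Fintype.card V : ℝ) * (8 * Fintype.card Γ + 8 * a ^ 2 * Fintype.card E / h)
          = 64 * Fintype.card V * Fintype.card Γ +
            8 * (Fintype.card V : ℝ) * (8 * a ^ 2 * Fintype.card E / h) := by ring
      rw [e3] at h1
      linarith
    · right; left; exact h2
    · right; right; exact h3

/-- The final arithmetic. -/
lemma arith {Q q S ρ a b h : ℝ} {p r t : ℕ} (hQ : 0 < Q) (hq : 1 ≤ q) (hS : 1 ≤ S) (hp : 1 ≤ p)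
    (ht : 1 ≤ t) (hρ : ρ = 1 / 2 ^ r) (ha : a = 2 * q ^ t) (hb : b = 2 * S ^ t)
    (hh : h = 128 * p * a ^ 2 * q / ρ ^ 2)
    (hc : ρ ^ 2 * Q ≤ 100 * p * a * b * q ∨ ρ ^ 2 * Q ≤ 128 * q * S ∨
      ρ ^ 4 * Q ^ 2 ≤ 1024 * p ^ 2 * q ^ 2 * a ^ 2 * (S * b ^ 2) ∨
      a ^ 2 * Q ^ 2 ≤ 4 * h ^ 2 * (S * b ^ 2)) :
    Q ^ 2 ≤ 2 ^ 20 * p ^ 2 * 16 ^ r * (q ^ (2 * t + 2) * S ^ (2 * t + 1)) := by
  have hp0 : (1 : ℝ) ≤ p := by exact_mod_cast hp
  have hp1 : (0 : ℝ) < p := by linarith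
  have hp2 : (1 : ℝ) ≤ p ^ 2 := one_le_pow₀ hp0
  have hq0 : 0 < q := by linarith
  have hS0 : 0 < S := by linarith
  obtain ⟨g, hg⟩ : ∃ g : ℝ, g = 2 ^ r := ⟨_, rfl⟩
  have hg0 : 0 < g := by rw [hg]; positivity
  have hg4 : (16 : ℝ) ^ r = g ^ 4 := by
    rw [hg, ← pow_mul, mul_comm r 4, pow_mul]; norm_num
  rw [← hg] at hρ
  rw [hg4]
  have hρ2 : ρ ^ 2 * g ^ 2 = 1 := by rw [hρ]; field_simp
  have hρ4 : ρ ^ 4 * g ^ 4 = 1 := by rw [hρ]; field_simp
  have ha0 : 0 < a := by rw [ha]; positivity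
  have hST : S ^ (2 * t) ≤ S ^ (2 * t + 1) := pow_le_pow_right₀ hS (by omega)
  have hS2 : S ^ 2 ≤ S ^ (2 * t + 1) := pow_le_pow_right₀ hS (by omega)
  have hq2 : q ^ 2 ≤ q ^ (2 * t + 2) := pow_le_pow_right₀ hq (by omega)
  rcases hc with h1 | h1 | h1 | h1
  · have e1 : Q ≤ 400 * p * g ^ 2 * (q ^ (t + 1) * S ^ t) := by
      calc Q = (ρ ^ 2 * Q) * g ^ 2 := by
            rw [show (ρ ^ 2 * Q) * g ^ 2 = (ρ ^ 2 * g ^ 2) * Q by ring, hρ2, one_mul]
        _ ≤ (100 * p * a * b * q) * g ^ 2 := mul_le_mul_of_nonneg_right h1 (by positivity)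
        _ = 400 * p * g ^ 2 * (q ^ (t + 1) * S ^ t) := by rw [ha, hb]; ring
    calc Q ^ 2 ≤ (400 * p * g ^ 2 * (q ^ (t + 1) * S ^ t)) ^ 2 :=
          pow_le_pow_left₀ hQ.le e1 2
      _ = 160000 * (p ^ 2 * g ^ 4 * (q ^ (2 * t + 2) * S ^ (2 * t))) := by ring
      _ ≤ 160000 * (p ^ 2 * g ^ 4 * (q ^ (2 * t + 2) * S ^ (2 * t + 1))) := by
          refine mul_le_mul_of_nonneg_left ?_ (by norm_num)
          refine mul_le_mul_of_nonneg_left ?_ (by positivity)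
          exact mul_le_mul_of_nonneg_left hST (by positivity)
      _ ≤ 2 ^ 20 * (p ^ 2 * g ^ 4 * (q ^ (2 * t + 2) * S ^ (2 * t + 1))) :=
          mul_le_mul_of_nonneg_right (by norm_num) (by positivity)
      _ = _ := by ring
  · have e1 : Q ≤ 128 * g ^ 2 * (q * S) := by
      calc Q = (ρ ^ 2 * Q) * g ^ 2 := by
            rw [show (ρ ^ 2 * Q) * g ^ 2 = (ρ ^ 2 * g ^ 2) * Q by ring, hρ2, one_mul]
        _ ≤ (128 * q * S) * g ^ 2 := mul_le_mul_of_nonneg_right h1 (by positivity)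
        _ = 128 * g ^ 2 * (q * S) := by ring
    calc Q ^ 2 ≤ (128 * g ^ 2 * (q * S)) ^ 2 := pow_le_pow_left₀ hQ.le e1 2
      _ = 16384 * (1 * g ^ 4 * (q ^ 2 * S ^ 2)) := by ring
      _ ≤ 16384 * (p ^ 2 * g ^ 4 * (q ^ (2 * t + 2) * S ^ (2 * t + 1))) := by
          gcongr
      _ ≤ 2 ^ 20 * (p ^ 2 * g ^ 4 * (q ^ (2 * t + 2) * S ^ (2 * t + 1))) :=
          mul_le_mul_of_nonneg_right (by norm_num) (by positivity)
      _ = _ := by ring
  · calc Q ^ 2 = (ρ ^ 4 * Q ^ 2) * g ^ 4 := by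
            rw [show (ρ ^ 4 * Q ^ 2) * g ^ 4 = (ρ ^ 4 * g ^ 4) * Q ^ 2 by ring, hρ4, one_mul]
      _ ≤ (1024 * p ^ 2 * q ^ 2 * a ^ 2 * (S * b ^ 2)) * g ^ 4 :=
          mul_le_mul_of_nonneg_right h1 (by positivity)
      _ = 16384 * (p ^ 2 * g ^ 4 * (q ^ (2 * t + 2) * S ^ (2 * t + 1))) := by
          rw [ha, hb]; ring
      _ ≤ 2 ^ 20 * (p ^ 2 * g ^ 4 * (q ^ (2 * t + 2) * S ^ (2 * t + 1))) :=
          mul_le_mul_of_nonneg_right (by norm_num) (by positivity)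
      _ = _ := by ring
  · have eh : h = 128 * p * a ^ 2 * q * g ^ 2 := by
      rw [hh, hρ]; field_simp
    rw [eh] at h1
    have h2 : a ^ 2 * Q ^ 2 ≤
        a ^ 2 * (2 ^ 20 * p ^ 2 * g ^ 4 * (q ^ (2 * t + 2) * S ^ (2 * t + 1))) := by
      refine h1.trans (le_of_eq ?_)
      have : (4 : ℝ) * (128 * p * a ^ 2 * q * g ^ 2) ^ 2 * (S * b ^ 2) =
          a ^ 2 * (65536 * p ^ 2 * g ^ 4 * (a ^ 2 * b ^ 2 * q ^ 2 * S)) := by ring
      rw [this]
      congr 1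
      rw [ha, hb]; ring
    exact le_of_mul_le_mul_left h2 (by positivity)

end CR3_aux

theorem t_CR3 (hDEC : S_DEC) (hHVP : S_HVP) (hLTP : S_LTP) (hFPR : S_FPR) (hALG : S_ALG)
    (hALX : S_ALX) (hMOM : S_MOM) (hCOR : S_COR) (hWIT : S_WIT) : S_CR3 := by
  intro k n s r m p t N S w T x δ hk hn hS ht hp hpm hgood hT hkn hrs hkrs hd1 hd2 hδ sch
  -- `r ≥ 1`
  have hr : 0 < r := by
    obtain ⟨u, _, hu⟩ := hgood {⟨0, hn⟩} (Finset.singleton_nonempty _)
      (by rw [Finset.card_singleton]; omega)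
    omega
  obtain ⟨mem, alg, hwith, hcor⟩ := hCOR k n s r N S w T x δ hk hr hkn hrs hkrs sch
  have hn' : (0 : ℝ) < n := by exact_mod_cast hn
  have hS' : (1 : ℝ) ≤ S := by exact_mod_cast hS
  have hS0 : (0 : ℝ) < S := by linarith
  have hQ : (0 : ℝ) < (n : ℝ) ^ k := by positivity
  have hcE : (Fintype.card (Fin k → Fin n) : ℝ) = (n : ℝ) ^ k := by
    simp
  have hcΓ : (Fintype.card (Fin S) : ℝ) = (S : ℝ) := by simp
  have hcV : (Fintype.card (Fin (2 ^ w)) : ℝ) = (2 : ℝ) ^ w := by simp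
  have hcI : Fintype.card (Idx t S w ⊕ Idx t S w) = 2 * (2 ^ w * S) ^ t := by
    rw [Fintype.card_sum, Fintype.card_prod, Fintype.card_fun, Fintype.card_fun,
      Fintype.card_fin, Fintype.card_fin, Fintype.card_fin, mul_pow]
    ring
  have hq1 : (1 : ℝ) ≤ (2 : ℝ) ^ w := one_le_pow₀ (by norm_num)
  -- the matrices
  have hf : ∀ e : Fin k → Fin n, ∃ (c : Fin S) (next : Fin (2 ^ w) → Alg S w),
      (∀ v, (next v).Within (t + t)) ∧ ∀ M, (alg e).run M = (next (M c)).run M := fun e =>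
    hFPR S w (t + t) (alg e) hS (hWIT S w T (t + t + 1) (alg e) hT (hwith e))
  choose c next hnw hnr using hf
  choose A hA hAx using fun e v => hALG t S w hS (next e v) (hnw e v)
  have hρ0 : (0 : ℝ) < 1 / 2 ^ r := by positivity
  have hδ' : 1 / 2 ^ r ≤ 2 / 2 ^ r - 2 * δ := by
    have h1 : (0 : ℝ) < 2 ^ r := by positivity
    have h2 : 2 * δ ≤ 1 / 2 ^ r := by
      rw [le_div_iff₀ h1]; linarith [hδ]
    have h3 : (2 : ℝ) / 2 ^ r = 1 / 2 ^ r + 1 / 2 ^ r := by ring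
    rw [h3]; linarith
  have hsum : 2 * (1 / 2 ^ r * Fintype.card (Fin k → Fin n) *
        Fintype.card (Fin r × (Fin k → Fin s) → Bool)) ≤
      ∑ f : Fin r × (Fin k → Fin s) → Bool, ∑ e : Fin k → Fin n,
        ((-1) ^ r * yy x f e) *
          (xv t (mem f) ⬝ᵥ (A e (mem f (c e)) *ᵥ xv t (mem f))) := by
    have e1 : ∑ f : Fin r × (Fin k → Fin s) → Bool, ∑ e : Fin k → Fin n,
        ((-1) ^ r * yy x f e) *
          (xv t (mem f) ⬝ᵥ (A e (mem f (c e)) *ᵥ xv t (mem f))) =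
        2 * ∑ f : Fin r × (Fin k → Fin s) → Bool, ∑ e : Fin k → Fin n,
          ((-1) ^ r * yy x f e) * sgn ((alg e).run (mem f)) := by
      rw [Finset.mul_sum]
      refine Finset.sum_congr rfl fun f _ => ?_
      rw [Finset.mul_sum]
      refine Finset.sum_congr rfl fun e _ => ?_
      rw [(hAx e (mem f (c e)) (mem f)).1, hnr e (mem f)]
      ring
    rw [e1]
    refine mul_le_mul_of_nonneg_left ?_ (by norm_num)
    refine le_trans ?_ hcor
    calc 1 / 2 ^ r * (Fintype.card (Fin k → Fin n) : ℝ) *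
          Fintype.card (Fin r × (Fin k → Fin s) → Bool)
        = 1 / 2 ^ r * (Fintype.card (Fin r × (Fin k → Fin s) → Bool) *
            Fintype.card (Fin k → Fin n)) := by ring
      _ ≤ _ := mul_le_mul_of_nonneg_right hδ' (by positivity)
  have hdim1 : (Fintype.card ((Fin S × Fin (2 ^ w) × (Idx t S w ⊕ Idx t S w)) ⊕
      (Idx t S w ⊕ Idx t S w)) : ℝ) ≤ 2 ^ p := by
    have : Fintype.card ((Fin S × Fin (2 ^ w) × (Idx t S w ⊕ Idx t S w)) ⊕
        (Idx t S w ⊕ Idx t S w)) ≤ 2 ^ p := by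
      rw [Fintype.card_sum, Fintype.card_prod, Fintype.card_prod, hcI, Fintype.card_fin,
        Fintype.card_fin]
      refine le_trans (le_of_eq ?_) hd1
      ring
    exact_mod_cast this
  have hdim2 : 2 * ((Fintype.card (Fin k → Fin n) : ℝ) + 1) *
      (Fintype.card (Idx t S w ⊕ Idx t S w) : ℝ) ^ 2 ≤ 2 ^ p := by
    rw [hcI, hcE]
    exact_mod_cast hd2
  have hEpos : 0 < Fintype.card (Fin k → Fin n) := by
    rw [Fintype.card_fun, Fintype.card_fin]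
    exact pow_pos hn _
  have hc := CR3_aux.core hDEC hHVP hLTP (Fin k → Fin n) (Fin S) (Fin (2 ^ w))
    (Idx t S w ⊕ Idx t S w) (Fin r × (Fin k → Fin s) → Bool) c A
    (fun f e => (-1) ^ r * yy x f e) (fun f => xv t (mem f)) mem
    (2 * ((2 : ℝ) ^ w) ^ t) (2 * (S : ℝ) ^ t) (1 / 2 ^ r)
    (128 * p * (2 * ((2 : ℝ) ^ w) ^ t) ^ 2 * Fintype.card (Fin (2 ^ w)) / (1 / 2 ^ r) ^ 2)
    m p hp hpm (CR3_aux.mo_y hMOM x hk hgood) (by positivity) (by positivity) hρ0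
    hEpos (by rw [Fintype.card_fin]; exact hS) (by rw [Fintype.card_fin]; positivity)
    (fun f e => CR3_aux.yy_sq x f e) hdim1 hdim2 hA
    (fun f e v => le_of_eq (hAx e v (mem f)).2)
    (fun f e v => by
      rw [(hAx e v (mem f)).1]
      have := sgn_mul_self ((next e v).run (mem f))
      nlinarith)
    (fun f => le_of_eq (hALX t S w (mem f))) rfl hsum
  rw [hcE, hcΓ, hcV] at hc
  exact CR3_aux.arith hQ hq1 hS' hp ht rfl rfl rfl rfl hc

end Pool.Agent.KSX
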