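import Pool.Agent.KSX.St2

/-!
# Project KSX: module CSL
-/

set_option autoImplicit false

open Finset Matrix

namespace Pool.Agent.KSX

namespace CSL_aux

/-- Weighted Cauchy-Schwarz in Engel form. -/
theorem engel {Γ : Type} [Fintype Γ] (g w : Γ → ℝ) (hw : ∀ γ, 0 < w γ) :
    (∑ γ, g γ) ^ 2 ≤ (∑ γ, w γ) * ∑ γ, g γ ^ 2 / w γ := by
  classical
  refine Finset.sum_sq_le_sum_mul_sum_of_sq_le_mul Finset.univ (fun γ _ => (hw γ).le)
    (fun γ _ => div_nonneg (sq_nonneg _) (hw γ).le) (fun γ _ => le_of_eq ?_)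
  have := (hw γ).ne'
  field_simp

theorem sum_dc {E Γ : Type} [Fintype E] [Fintype Γ] [DecidableEq Γ] (c : E → Γ) :
    ∑ γ, dc c γ = Fintype.card E := by
  unfold dc
  rw [← Nat.cast_sum]
  congr 1
  rw [← Finset.card_univ (α := E)]
  exact (Finset.card_eq_sum_card_fiberwise (fun e _ => Finset.mem_univ (c e))).symm

/-- Splitting a sum over the queries along the first cells. -/
theorem sum_fib {E Γ : Type} [Fintype E] [Fintype Γ] [DecidableEq Γ] (c : E → Γ) (F : E → ℝ) :
    ∑ e, F e = ∑ γ, ∑ e ∈ univ.filter (fun e => c e = γ), F e :=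
  (Finset.sum_fiberwise_of_maps_to (fun e _ => Finset.mem_univ (c e)) F).symm

end CSL_aux

open CSL_aux in
theorem t_CSL : S_CSL := by
  intro E Γ V I _ _ _ _ _ _ _ c A y z x d D hD hy hd
  set f : E → V → ℝ := fun e v => z ⬝ᵥ (A e v *ᵥ z) with hf
  have hw : ∀ γ, 0 < dc c γ + D := fun γ => by
    have : 0 ≤ dc c γ := by unfold dc; positivity
    linarith
  set g : Γ → V → ℝ := fun γ v => ∑ e ∈ univ.filter (fun e => c e = γ), y e * f e v with hg
  have h1 : ∑ e, y e * f e (x (c e)) = ∑ γ, g γ (x γ) := by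
    rw [sum_fib c]
    refine Finset.sum_congr rfl fun γ _ => ?_
    refine Finset.sum_congr rfl fun e he => ?_
    rw [(Finset.mem_filter.1 he).2]
  have hW : ∑ γ, (dc c γ + D) = Fintype.card E + Fintype.card Γ * D := by
    rw [Finset.sum_add_distrib, sum_dc]
    simp
  change (∑ e, y e * f e (x (c e))) ^ 2 ≤ _
  rw [h1]
  refine (engel (fun γ => g γ (x γ)) (fun γ => dc c γ + D) hw).trans ?_
  rw [hW]
  refine mul_le_mul_of_nonneg_left ?_ (by positivity)
  -- the off-diagonal sum
  have hoff : ∑ e, ∑ e', gw c D e e' * (y e * y e') * ∑ v, f e v * f e' v =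
      ∑ γ, ∑ v, (∑ e ∈ univ.filter (fun e => c e = γ),
        ∑ e' ∈ (univ.filter (fun e => c e = γ)).erase e,
          (y e * f e v) * (y e' * f e' v)) / (dc c γ + D) := by
    rw [sum_fib c]
    refine Finset.sum_congr rfl fun γ _ => ?_
    simp only [Finset.sum_div]
    symm
    rw [Finset.sum_comm]
    symm
    refine Finset.sum_congr rfl fun e he => ?_
    have hce := (Finset.mem_filter.1 he).2
    have h2 : ∀ e', gw c D e e' * (y e * y e') * ∑ v, f e v * f e' v =
        if e' ∈ (univ.filter (fun e => c e = γ)).erase e then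
          ∑ v, (y e * f e v) * (y e' * f e' v) / (dc c γ + D) else 0 := by
      intro e'
      by_cases h : c e = c e' ∧ e ≠ e'
      · rw [if_pos]
        · rw [gw, if_pos h, hce, Finset.mul_sum]
          refine Finset.sum_congr rfl fun v _ => ?_
          ring
        · rw [Finset.mem_erase, Finset.mem_filter]
          exact ⟨h.2.symm, Finset.mem_univ _, by rw [← h.1, hce]⟩
      · rw [gw, if_neg h, if_neg, zero_mul, zero_mul]
        rw [Finset.mem_erase, Finset.mem_filter]
        rintro ⟨h3, -, h4⟩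
        exact h ⟨by rw [hce, h4], fun h5 => h3 h5.symm⟩
    rw [Finset.sum_congr rfl fun e' _ => h2 e', ← Finset.sum_filter, Finset.filter_mem_eq_inter,
      Finset.univ_inter, Finset.sum_comm]
  change _ ≤ _ + ∑ e, ∑ e', gw c D e e' * (y e * y e') * ∑ v, f e v * f e' v
  rw [hoff, ← Finset.sum_add_distrib]
  refine Finset.sum_le_sum fun γ _ => ?_
  have h3 : g γ (x γ) ^ 2 / (dc c γ + D) ≤ ∑ v, g γ v ^ 2 / (dc c γ + D) :=
    Finset.single_le_sum (f := fun v => g γ v ^ 2 / (dc c γ + D))
      (fun v _ => div_nonneg (sq_nonneg _) (hw γ).le) (Finset.mem_univ (x γ))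
  refine h3.trans ?_
  have h4 : ∀ v, g γ v ^ 2 = (∑ e ∈ univ.filter (fun e => c e = γ), f e v ^ 2) +
      ∑ e ∈ univ.filter (fun e => c e = γ),
        ∑ e' ∈ (univ.filter (fun e => c e = γ)).erase e,
          (y e * f e v) * (y e' * f e' v) := by
    intro v
    rw [sq, hg, Finset.sum_mul_sum, ← Finset.sum_add_distrib]
    refine Finset.sum_congr rfl fun e he => ?_
    rw [← Finset.add_sum_erase _ _ he]
    congr 1
    have := hy e
    calc y e * f e v * (y e * f e v) = (y e * y e) * f e v ^ 2 := by ring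
      _ = f e v ^ 2 := by rw [this, one_mul]
  have h5 : ∑ v, g γ v ^ 2 / (dc c γ + D) ≤ ∑ v, (d γ + ∑ e ∈ univ.filter (fun e => c e = γ),
        ∑ e' ∈ (univ.filter (fun e => c e = γ)).erase e,
          (y e * f e v) * (y e' * f e' v)) / (dc c γ + D) := by
    refine Finset.sum_le_sum fun v _ => ?_
    refine div_le_div_of_nonneg_right ?_ (hw γ).le
    rw [h4 v]
    have := hd γ v
    simp only [hf] at *
    linarith
  refine h5.trans (le_of_eq ?_)
  simp only [add_div]
  rw [Finset.sum_add_distrib]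
  congr 1
  rw [Finset.sum_const, Finset.card_univ, nsmul_eq_mul]
  ring

end Pool.Agent.KSX
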