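import Pool.Agent.KSX.St2

/-!
# KSX, module DEC: decomposition in heavy and light parts
-/

set_option autoImplicit false

open Finset Matrix

namespace Pool.Agent.KSX

noncomputable section

namespace DEC_aux

section

variable {I : Type} [Fintype I]

theorem sym {M : Matrix I I ℝ} (hM : Mᵀ = M) (x y : I → ℝ) :
    (M *ᵥ x) ⬝ᵥ y = x ⬝ᵥ (M *ᵥ y) := by
  rw [dotProduct_mulVec, ← mulVec_transpose, hM]

theorem nn (x : I → ℝ) : 0 ≤ x ⬝ᵥ x :=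
  Finset.sum_nonneg fun i _ => mul_self_nonneg _

theorem cs (x y : I → ℝ) : (x ⬝ᵥ y) ^ 2 ≤ (x ⬝ᵥ x) * (y ⬝ᵥ y) := by
  have h := Finset.sum_mul_sq_le_sq_mul_sq univ x y
  simp only [pow_two] at h ⊢
  exact h

theorem pp {P : Matrix I I ℝ} (h1 : Pᵀ = P) (h2 : P * P = P) (x y : I → ℝ) :
    (P *ᵥ x) ⬝ᵥ (P *ᵥ y) = x ⬝ᵥ (P *ᵥ y) := by
  rw [sym h1, mulVec_mulVec, h2]

/-- `|P x|² ≤ |x|²` -/
theorem le1 {P : Matrix I I ℝ} (h1 : Pᵀ = P) (h2 : P * P = P) (x : I → ℝ) :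
    (P *ᵥ x) ⬝ᵥ (P *ᵥ x) ≤ x ⬝ᵥ x := by
  have h3 := nn (x - P *ᵥ x)
  have h4 := pp h1 h2 x x
  have h5 : (P *ᵥ x) ⬝ᵥ x = x ⬝ᵥ (P *ᵥ x) := dotProduct_comm _ _
  simp only [sub_dotProduct, dotProduct_sub] at h3
  linarith

/-- `|x - P x|² ≤ |x|²` -/
theorem le2 {P : Matrix I I ℝ} (h1 : Pᵀ = P) (h2 : P * P = P) (x : I → ℝ) :
    (x - P *ᵥ x) ⬝ᵥ (x - P *ᵥ x) ≤ x ⬝ᵥ x := by
  have h3 := nn (P *ᵥ x)
  have h4 := pp h1 h2 x x
  have h5 : (P *ᵥ x) ⬝ᵥ x = x ⬝ᵥ (P *ᵥ x) := dotProduct_comm _ _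
  simp only [sub_dotProduct, dotProduct_sub]
  linarith

/-- `|2 x - P x|² ≤ 4 |x|²` -/
theorem le3 {P : Matrix I I ℝ} (h1 : Pᵀ = P) (h2 : P * P = P) (x : I → ℝ) :
    ((2 : ℝ) • x - P *ᵥ x) ⬝ᵥ ((2 : ℝ) • x - P *ᵥ x) ≤ 4 * (x ⬝ᵥ x) := by
  have h3 := nn (P *ᵥ x)
  have h4 := pp h1 h2 x x
  have h5 : (P *ᵥ x) ⬝ᵥ x = x ⬝ᵥ (P *ᵥ x) := dotProduct_comm _ _
  simp only [sub_dotProduct, dotProduct_sub, smul_dotProduct, dotProduct_smul, smul_eq_mul]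
  linarith

variable [DecidableEq I]

/-- the light part -/
def AA (P A : Matrix I I ℝ) : Matrix I I ℝ := (1 - P) * A * (1 - P)

/-- the heavy part -/
def WW (P A : Matrix I I ℝ) : Matrix I I ℝ := P * A * ((2 : ℝ) • 1 - P)

theorem AA_mul (P A : Matrix I I ℝ) (u : I → ℝ) :
    AA P A *ᵥ u = A *ᵥ (u - P *ᵥ u) - P *ᵥ (A *ᵥ (u - P *ᵥ u)) := by
  unfold AA
  rw [← mulVec_mulVec, ← mulVec_mulVec, sub_mulVec, sub_mulVec, one_mulVec, one_mulVec]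

theorem WW_mul (P A : Matrix I I ℝ) (u : I → ℝ) :
    WW P A *ᵥ u = P *ᵥ (A *ᵥ ((2 : ℝ) • u - P *ᵥ u)) := by
  unfold WW
  rw [← mulVec_mulVec, ← mulVec_mulVec, sub_mulVec, smul_mulVec, one_mulVec]

theorem AA_T {P A : Matrix I I ℝ} (hP : Pᵀ = P) (hA : Aᵀ = A) : (AA P A)ᵀ = AA P A := by
  unfold AA
  rw [transpose_mul, transpose_mul, transpose_sub, transpose_one, hP, hA, Matrix.mul_assoc]

theorem WW_T {P A : Matrix I I ℝ} (hP : Pᵀ = P) (hP2 : P * P = P) (hA : Aᵀ = A) (u : I → ℝ) :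
    (WW P A)ᵀ *ᵥ (P *ᵥ u) = (2 : ℝ) • (A *ᵥ (P *ᵥ u)) - P *ᵥ (A *ᵥ (P *ᵥ u)) := by
  unfold WW
  rw [transpose_mul, transpose_mul, transpose_sub, transpose_smul, transpose_one, hP, hA,
    mulVec_mulVec, Matrix.mul_assoc, Matrix.mul_assoc, hP2, ← mulVec_mulVec, ← mulVec_mulVec,
    sub_mulVec, smul_mulVec, one_mulVec]

/-- the form of the light part -/
theorem AA_form {P A : Matrix I I ℝ} (hP : Pᵀ = P) (hA : Aᵀ = A) (z : I → ℝ) :
    z ⬝ᵥ (A *ᵥ z) = (P *ᵥ z) ⬝ᵥ (A *ᵥ ((2 : ℝ) • z - P *ᵥ z)) + z ⬝ᵥ (AA P A *ᵥ z) := by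
  have h1 : z ⬝ᵥ (P *ᵥ (A *ᵥ (z - P *ᵥ z))) = (P *ᵥ z) ⬝ᵥ (A *ᵥ (z - P *ᵥ z)) := (sym hP _ _).symm
  have h2 : z ⬝ᵥ (A *ᵥ (P *ᵥ z)) = (P *ᵥ z) ⬝ᵥ (A *ᵥ z) := by
    rw [← sym hA, dotProduct_comm]
  rw [AA_mul, dotProduct_sub, h1]
  simp only [mulVec_sub, mulVec_smul, dotProduct_sub, dotProduct_smul, smul_eq_mul, h2]
  ring

end

section

variable {E Γ V I : Type} [Fintype E] [DecidableEq E] [Fintype Γ] [DecidableEq Γ] [Fintype V]
    [DecidableEq V] [Fintype I] [DecidableEq I]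

/-- the Gram matrices -/
def GG (c : E → Γ) (A : E → V → Matrix I I ℝ) (γ : Γ) (v : V) : Matrix I I ℝ :=
  ∑ e ∈ univ.filter (fun e => c e = γ), A e v * A e v

theorem GG_T {c : E → Γ} {A : E → V → Matrix I I ℝ} (hA : ∀ e v, (A e v)ᵀ = A e v) (γ : Γ)
    (v : V) : (GG c A γ v)ᵀ = GG c A γ v := by
  unfold GG
  rw [transpose_sum]
  exact Finset.sum_congr rfl fun e _ => by rw [transpose_mul, hA]

theorem GG_form {c : E → Γ} {A : E → V → Matrix I I ℝ} (hA : ∀ e v, (A e v)ᵀ = A e v) (γ : Γ)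
    (v : V) (u : I → ℝ) : u ⬝ᵥ (GG c A γ v *ᵥ u) =
      ∑ e ∈ univ.filter (fun e => c e = γ), (A e v *ᵥ u) ⬝ᵥ (A e v *ᵥ u) := by
  unfold GG
  rw [sum_mulVec, dotProduct_sum]
  exact Finset.sum_congr rfl fun e _ => by rw [← mulVec_mulVec, sym (hA e v)]

/-- the rows of the bilinear form -/
def ZZ (c : E → Γ) (P : Γ → V → Matrix I I ℝ) (A : E → V → Matrix I I ℝ) (e : E) :
    Matrix (Γ × V × I) I ℝ :=
  fun r j => if r.1 = c e then WW (P (c e) r.2.1) (A e r.2.1) r.2.2 j else 0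

/-- the left vector -/
def xi (P : Γ → V → Matrix I I ℝ) (z : I → ℝ) (x : Γ → V) : Γ × V × I → ℝ :=
  fun r => if r.2.1 = x r.1 then (P r.1 r.2.1 *ᵥ z) r.2.2 else 0

theorem ZZ_mul (c : E → Γ) (P : Γ → V → Matrix I I ℝ) (A : E → V → Matrix I I ℝ) (e : E)
    (z : I → ℝ) (r : Γ × V × I) : (ZZ c P A e *ᵥ z) r =
      if r.1 = c e then (WW (P (c e) r.2.1) (A e r.2.1) *ᵥ z) r.2.2 else 0 := by
  show ∑ j, ZZ c P A e r j * z j = _
  unfold ZZ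
  split_ifs with h
  · rfl
  · simp

/-- Sums over the rows. -/
theorem sum3 (F : Γ → V → I → ℝ) (γ : Γ) (x : Γ → V) :
    ∑ r : Γ × V × I, (if r.1 = γ then (if r.2.1 = x r.1 then F r.1 r.2.1 r.2.2 else 0) else 0) =
      ∑ i, F γ (x γ) i := by
  rw [Fintype.sum_prod_type]
  rw [Finset.sum_eq_single γ]
  · simp only [if_true]
    rw [Fintype.sum_prod_type, Finset.sum_eq_single (x γ)]
    · simp
    · intro v _ hv
      simp [hv]
    · intro h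
      exact absurd (Finset.mem_univ _) h
  · intro γ' _ hγ
    simp [hγ]
  · intro h
    exact absurd (Finset.mem_univ _) h

theorem sum2 (F : Γ → V → I → ℝ) (γ : Γ) :
    ∑ r : Γ × V × I, (if r.1 = γ then F r.1 r.2.1 r.2.2 else 0) =
      ∑ v, ∑ i, F γ v i := by
  rw [Fintype.sum_prod_type]
  rw [Finset.sum_eq_single γ]
  · simp only [if_true]
    rw [Fintype.sum_prod_type]
  · intro γ' _ hγ
    simp [hγ]
  · intro h
    exact absurd (Finset.mem_univ _) h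

theorem sum1 (F : Γ → V → I → ℝ) (x : Γ → V) :
    ∑ r : Γ × V × I, (if r.2.1 = x r.1 then F r.1 r.2.1 r.2.2 else 0) =
      ∑ γ, ∑ i, F γ (x γ) i := by
  rw [Fintype.sum_prod_type]
  refine Finset.sum_congr rfl fun γ _ => ?_
  rw [Fintype.sum_prod_type, Finset.sum_eq_single (x γ)]
  · simp
  · intro v _ hv
    simp [hv]
  · intro h
    exact absurd (Finset.mem_univ _) h

theorem xi_Z (c : E → Γ) (P : Γ → V → Matrix I I ℝ) (A : E → V → Matrix I I ℝ) (e : E)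
    (z : I → ℝ) (x : Γ → V) : xi P z x ⬝ᵥ (ZZ c P A e *ᵥ z) =
      (P (c e) (x (c e)) *ᵥ z) ⬝ᵥ (WW (P (c e) (x (c e))) (A e (x (c e))) *ᵥ z) := by
  have h1 := sum3 (fun γ v i => (P γ v *ᵥ z) i * (WW (P (c e) v) (A e v) *ᵥ z) i) (c e) x
  refine Eq.trans ?_ h1
  show ∑ r, xi P z x r * (ZZ c P A e *ᵥ z) r = _
  refine Finset.sum_congr rfl fun r _ => ?_
  rw [ZZ_mul]
  unfold xi
  split_ifs <;> simp

theorem Z_T (c : E → Γ) (P : Γ → V → Matrix I I ℝ) (A : E → V → Matrix I I ℝ) (e : E)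
    (z : I → ℝ) (x : Γ → V) : (ZZ c P A e)ᵀ *ᵥ xi P z x =
      (WW (P (c e) (x (c e))) (A e (x (c e))))ᵀ *ᵥ (P (c e) (x (c e)) *ᵥ z) := by
  funext j
  have h1 := sum3 (fun γ v i => (WW (P (c e) v) (A e v)) i j * (P γ v *ᵥ z) i) (c e) x
  refine Eq.trans ?_ h1
  show ∑ r, ZZ c P A e r j * xi P z x r = _
  refine Finset.sum_congr rfl fun r _ => ?_
  unfold ZZ xi
  split_ifs <;> simp

theorem Z_norm (c : E → Γ) (P : Γ → V → Matrix I I ℝ) (A : E → V → Matrix I I ℝ) (e : E)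
    (z : I → ℝ) : (ZZ c P A e *ᵥ z) ⬝ᵥ (ZZ c P A e *ᵥ z) =
      ∑ v, (WW (P (c e) v) (A e v) *ᵥ z) ⬝ᵥ (WW (P (c e) v) (A e v) *ᵥ z) := by
  have h1 := sum2 (fun γ v i => (WW (P (c e) v) (A e v) *ᵥ z) i *
    (WW (P (c e) v) (A e v) *ᵥ z) i) (c e)
  refine Eq.trans ?_ h1
  show ∑ r, (ZZ c P A e *ᵥ z) r * (ZZ c P A e *ᵥ z) r = _
  refine Finset.sum_congr rfl fun r _ => ?_
  rw [ZZ_mul]
  split_ifs <;> simp

theorem xi_norm (P : Γ → V → Matrix I I ℝ) (z : I → ℝ) (x : Γ → V) :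
    xi P z x ⬝ᵥ xi P z x = ∑ γ, (P γ (x γ) *ᵥ z) ⬝ᵥ (P γ (x γ) *ᵥ z) := by
  have h1 := sum1 (fun γ v i => (P γ v *ᵥ z) i * (P γ v *ᵥ z) i) x
  refine Eq.trans ?_ h1
  show ∑ r, xi P z x r * xi P z x r = _
  refine Finset.sum_congr rfl fun r _ => ?_
  unfold xi
  split_ifs <;> simp

theorem elim_dot {J K : Type} [Fintype J] [Fintype K] (a a' : J → ℝ) (b b' : K → ℝ) :
    Sum.elim a b ⬝ᵥ Sum.elim a' b' = a ⬝ᵥ a' + b ⬝ᵥ b' := by
  unfold dotProduct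
  rw [Fintype.sum_sum_type]
  rfl

theorem B_mul {J K : Type} [Fintype J] [Fintype K] (Z : Matrix J K ℝ) (a : J → ℝ) (b : K → ℝ) :
    Matrix.fromBlocks 0 Z Zᵀ 0 *ᵥ Sum.elim a b = Sum.elim (Z *ᵥ b) (Zᵀ *ᵥ a) := by
  rw [Matrix.fromBlocks_mulVec]
  simp

end

end DEC_aux

open DEC_aux in
theorem t_DEC (hSPJ : S_SPJ) : S_DEC := by
  classical
  intro E Γ V I _ _ _ _ _ _ _ _ c A h hh hA
  have hG0 : ∀ γ v (u : I → ℝ), 0 ≤ u ⬝ᵥ (GG c A γ v *ᵥ u) := by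
    intro γ v u
    rw [GG_form hA]
    exact Finset.sum_nonneg fun e _ => nn _
  choose P hP1 hP2 hP3 using fun γ v =>
    hSPJ I (GG c A γ v) h hh (GG_T hA γ v) (hG0 γ v)
  refine ⟨fun e v => AA (P (c e) v) (A e v),
    fun e => Matrix.fromBlocks 0 (ZZ c P A e) (ZZ c P A e)ᵀ 0, fun e v => AA_T (hP1 _ _) (hA e v),
    fun e => ?_, fun γ v u => ?_, fun γ v u => ?_, fun z x a b ha hb => ?_,
    fun z a ha ha2 γ v => ?_⟩
  · rw [Matrix.fromBlocks_transpose, Matrix.transpose_zero, Matrix.transpose_zero,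
      Matrix.transpose_transpose]
  · have h1 : ∑ e ∈ univ.filter (fun e => c e = γ),
        (AA (P (c e) v) (A e v) *ᵥ u) ⬝ᵥ (AA (P (c e) v) (A e v) *ᵥ u) ≤
        ∑ e ∈ univ.filter (fun e => c e = γ), (A e v *ᵥ (u - P γ v *ᵥ u)) ⬝ᵥ
          (A e v *ᵥ (u - P γ v *ᵥ u)) := by
      refine Finset.sum_le_sum fun e he => ?_
      rw [(Finset.mem_filter.1 he).2, AA_mul]
      exact le2 (hP1 γ v) (hP2 γ v) _
    rw [← GG_form hA] at h1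
    exact h1.trans (hP3 γ v u).2.2.1
  · have h1 : ∑ e ∈ univ.filter (fun e => c e = γ),
        (AA (P (c e) v) (A e v) *ᵥ u) ⬝ᵥ (AA (P (c e) v) (A e v) *ᵥ u) ≤
        ∑ e ∈ univ.filter (fun e => c e = γ), (A e v *ᵥ (u - P γ v *ᵥ u)) ⬝ᵥ
          (A e v *ᵥ (u - P γ v *ᵥ u)) := by
      refine Finset.sum_le_sum fun e he => ?_
      rw [(Finset.mem_filter.1 he).2, AA_mul]
      exact le2 (hP1 γ v) (hP2 γ v) _
    rw [← GG_form hA] at h1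
    rw [← GG_form hA]
    exact h1.trans (hP3 γ v u).2.2.2.1
  · -- the heavy part
    have hsz : ∀ x' : Γ → V, ∑ γ, z ⬝ᵥ (GG c A γ (x' γ) *ᵥ z) ≤ a * Fintype.card E := by
      intro x'
      calc ∑ γ, z ⬝ᵥ (GG c A γ (x' γ) *ᵥ z)
          = ∑ γ, ∑ e ∈ univ.filter (fun e => c e = γ),
              (A e (x' (c e)) *ᵥ z) ⬝ᵥ (A e (x' (c e)) *ᵥ z) := by
            refine Finset.sum_congr rfl fun γ _ => ?_
            rw [GG_form hA]
            refine Finset.sum_congr rfl fun e he => ?_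
            rw [(Finset.mem_filter.1 he).2]
        _ = ∑ e, (A e (x' (c e)) *ᵥ z) ⬝ᵥ (A e (x' (c e)) *ᵥ z) :=
            Finset.sum_fiberwise univ c _
        _ ≤ ∑ _e : E, a := Finset.sum_le_sum fun e _ => ha e _
        _ = a * Fintype.card E := by
            rw [Finset.sum_const, Finset.card_univ, nsmul_eq_mul, mul_comm]
    refine ⟨Sum.elim (xi P z x) z, fun e => ?_, ?_, ?_⟩
    · rw [B_mul, elim_dot, dotProduct_comm z ((ZZ c P A e)ᵀ *ᵥ xi P z x), mulVec_transpose,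
        ← dotProduct_mulVec, xi_Z, WW_mul, pp (hP1 _ _) (hP2 _ _),
        ← sym (hP1 (c e) (x (c e))) z, AA_form (hP1 (c e) (x (c e))) (hA e (x (c e))) z]
      ring
    · have h1 : ∀ e, (Matrix.fromBlocks 0 (ZZ c P A e) (ZZ c P A e)ᵀ 0 *ᵥ
          Sum.elim (xi P z x) z) ⬝ᵥ (Matrix.fromBlocks 0 (ZZ c P A e) (ZZ c P A e)ᵀ 0 *ᵥ
          Sum.elim (xi P z x) z) ≤
          (∑ v, (A e v *ᵥ ((2 : ℝ) • z - P (c e) v *ᵥ z)) ⬝ᵥ
            (A e v *ᵥ ((2 : ℝ) • z - P (c e) v *ᵥ z))) +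
          4 * ((A e (x (c e)) *ᵥ (P (c e) (x (c e)) *ᵥ z)) ⬝ᵥ
            (A e (x (c e)) *ᵥ (P (c e) (x (c e)) *ᵥ z))) := by
        intro e
        rw [B_mul, elim_dot, Z_norm, Z_T, WW_T (hP1 _ _) (hP2 _ _) (hA _ _)]
        refine add_le_add (Finset.sum_le_sum fun v _ => ?_) (le3 (hP1 _ _) (hP2 _ _) _)
        rw [WW_mul]
        exact le1 (hP1 _ _) (hP2 _ _) _
      have h2 : ∑ e, ∑ v, (A e v *ᵥ ((2 : ℝ) • z - P (c e) v *ᵥ z)) ⬝ᵥ
            (A e v *ᵥ ((2 : ℝ) • z - P (c e) v *ᵥ z)) ≤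
          4 * (Fintype.card V * (a * Fintype.card E)) := by
        rw [Finset.sum_comm]
        calc ∑ v, ∑ e, (A e v *ᵥ ((2 : ℝ) • z - P (c e) v *ᵥ z)) ⬝ᵥ
              (A e v *ᵥ ((2 : ℝ) • z - P (c e) v *ᵥ z))
            ≤ ∑ _v : V, 4 * (a * Fintype.card E) := by
              refine Finset.sum_le_sum fun v _ => ?_
              rw [← Finset.sum_fiberwise univ c]
              calc ∑ γ, ∑ e ∈ univ.filter (fun e => c e = γ),
                    (A e v *ᵥ ((2 : ℝ) • z - P (c e) v *ᵥ z)) ⬝ᵥ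
                      (A e v *ᵥ ((2 : ℝ) • z - P (c e) v *ᵥ z))
                  = ∑ γ, ((2 : ℝ) • z - P γ v *ᵥ z) ⬝ᵥ
                      (GG c A γ v *ᵥ ((2 : ℝ) • z - P γ v *ᵥ z)) := by
                    refine Finset.sum_congr rfl fun γ _ => ?_
                    rw [GG_form hA]
                    refine Finset.sum_congr rfl fun e he => ?_
                    rw [(Finset.mem_filter.1 he).2]
                _ ≤ ∑ γ, 4 * (z ⬝ᵥ (GG c A γ v *ᵥ z)) :=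
                    Finset.sum_le_sum fun γ _ => (hP3 γ v z).2.2.2.2
                _ = 4 * ∑ γ, z ⬝ᵥ (GG c A γ v *ᵥ z) := by rw [Finset.mul_sum]
                _ ≤ 4 * (a * Fintype.card E) :=
                    mul_le_mul_of_nonneg_left (hsz fun _ => v) (by norm_num)
          _ = 4 * (Fintype.card V * (a * Fintype.card E)) := by
              rw [Finset.sum_const, Finset.card_univ, nsmul_eq_mul]
              ring
      have h3 : ∑ e, (A e (x (c e)) *ᵥ (P (c e) (x (c e)) *ᵥ z)) ⬝ᵥ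
            (A e (x (c e)) *ᵥ (P (c e) (x (c e)) *ᵥ z)) ≤ a * Fintype.card E := by
        rw [← Finset.sum_fiberwise univ c]
        calc ∑ γ, ∑ e ∈ univ.filter (fun e => c e = γ),
              (A e (x (c e)) *ᵥ (P (c e) (x (c e)) *ᵥ z)) ⬝ᵥ
                (A e (x (c e)) *ᵥ (P (c e) (x (c e)) *ᵥ z))
            = ∑ γ, (P γ (x γ) *ᵥ z) ⬝ᵥ (GG c A γ (x γ) *ᵥ (P γ (x γ) *ᵥ z)) := by
              refine Finset.sum_congr rfl fun γ _ => ?_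
              rw [GG_form hA]
              refine Finset.sum_congr rfl fun e he => ?_
              rw [(Finset.mem_filter.1 he).2]
          _ ≤ ∑ γ, z ⬝ᵥ (GG c A γ (x γ) *ᵥ z) :=
              Finset.sum_le_sum fun γ _ => (hP3 γ (x γ) z).2.1
          _ ≤ a * Fintype.card E := hsz x
      calc _ ≤ ∑ e, ((∑ v, (A e v *ᵥ ((2 : ℝ) • z - P (c e) v *ᵥ z)) ⬝ᵥ
            (A e v *ᵥ ((2 : ℝ) • z - P (c e) v *ᵥ z))) +
          4 * ((A e (x (c e)) *ᵥ (P (c e) (x (c e)) *ᵥ z)) ⬝ᵥ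
            (A e (x (c e)) *ᵥ (P (c e) (x (c e)) *ᵥ z)))) := Finset.sum_le_sum fun e _ => h1 e
        _ ≤ 4 * (Fintype.card V * (a * Fintype.card E)) + 4 * (a * Fintype.card E) := by
            rw [Finset.sum_add_distrib, ← Finset.mul_sum]
            linarith
        _ = 4 * a * Fintype.card E * (Fintype.card V + 1) := by ring
    · rw [elim_dot, xi_norm]
      refine add_le_add ?_ hb
      rw [le_div_iff₀ hh, Finset.sum_mul]
      refine le_trans (Finset.sum_le_sum fun γ _ => ?_) (hsz x)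
      rw [mul_comm]
      exact (hP3 γ (x γ) z).1.trans (hP3 γ (x γ) z).2.1
  · -- the squares
    have hzG : z ⬝ᵥ (GG c A γ v *ᵥ z) ≤ a * dc c γ := by
      rw [GG_form hA]
      calc ∑ e ∈ univ.filter (fun e => c e = γ), (A e v *ᵥ z) ⬝ᵥ (A e v *ᵥ z)
          ≤ ∑ _e ∈ univ.filter (fun e => c e = γ), a := Finset.sum_le_sum fun e _ => ha e v
        _ = a * dc c γ := by
            rw [Finset.sum_const, nsmul_eq_mul, mul_comm]
            rfl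
    have h1 : (P γ v *ᵥ z) ⬝ᵥ (P γ v *ᵥ z) ≤ a * dc c γ / h := by
      rw [le_div_iff₀ hh, mul_comm]
      exact ((hP3 γ v z).1.trans (hP3 γ v z).2.1).trans hzG
    have h2 : ∑ e ∈ univ.filter (fun e => c e = γ), (A e v *ᵥ ((2 : ℝ) • z - P γ v *ᵥ z)) ⬝ᵥ
        (A e v *ᵥ ((2 : ℝ) • z - P γ v *ᵥ z)) ≤ 4 * (a * dc c γ) := by
      rw [← GG_form hA]
      have h3 := (hP3 γ v z).2.2.2.2
      linarith
    calc ∑ e ∈ univ.filter (fun e => c e = γ), (z ⬝ᵥ (AA (P (c e) v) (A e v) *ᵥ z)) ^ 2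
        ≤ ∑ e ∈ univ.filter (fun e => c e = γ), (8 + 2 * ((P γ v *ᵥ z) ⬝ᵥ (P γ v *ᵥ z)) *
            ((A e v *ᵥ ((2 : ℝ) • z - P γ v *ᵥ z)) ⬝ᵥ
              (A e v *ᵥ ((2 : ℝ) • z - P γ v *ᵥ z)))) := by
          refine Finset.sum_le_sum fun e he => ?_
          rw [(Finset.mem_filter.1 he).2]
          have h3 := AA_form (hP1 γ v) (hA e v) z
          have h4 := cs (P γ v *ᵥ z) (A e v *ᵥ ((2 : ℝ) • z - P γ v *ᵥ z))
          have h5 := ha2 e v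
          obtain ⟨s, hs⟩ : ∃ s, s = z ⬝ᵥ (A e v *ᵥ z) := ⟨_, rfl⟩
          obtain ⟨t, ht⟩ : ∃ t, t = (P γ v *ᵥ z) ⬝ᵥ (A e v *ᵥ ((2 : ℝ) • z - P γ v *ᵥ z)) :=
            ⟨_, rfl⟩
          obtain ⟨w, hw⟩ : ∃ w, w = z ⬝ᵥ (AA (P γ v) (A e v) *ᵥ z) := ⟨_, rfl⟩
          rw [← hs] at h3 h5
          rw [← ht] at h3 h4
          rw [← hw] at h3 ⊢
          have h6 : w = s - t := by linarith
          rw [h6]
          nlinarith [sq_nonneg (s + t)]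
      _ = 8 * dc c γ + 2 * ((P γ v *ᵥ z) ⬝ᵥ (P γ v *ᵥ z)) *
            ∑ e ∈ univ.filter (fun e => c e = γ), ((A e v *ᵥ ((2 : ℝ) • z - P γ v *ᵥ z)) ⬝ᵥ
              (A e v *ᵥ ((2 : ℝ) • z - P γ v *ᵥ z))) := by
          rw [Finset.sum_add_distrib, Finset.sum_const, nsmul_eq_mul, Finset.mul_sum]
          congr 1
          rw [mul_comm]
          rfl
      _ ≤ 8 * dc c γ + 2 * (a * dc c γ / h) * (4 * (a * dc c γ)) := by
          have h3 := nn (P γ v *ᵥ z)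
          have h4 : 0 ≤ ∑ e ∈ univ.filter (fun e => c e = γ),
              ((A e v *ᵥ ((2 : ℝ) • z - P γ v *ᵥ z)) ⬝ᵥ
              (A e v *ᵥ ((2 : ℝ) • z - P γ v *ᵥ z))) := Finset.sum_nonneg fun e _ => nn _
          have h5 := mul_le_mul h1 h2 h4 (h3.trans h1)
          linarith
      _ = 8 * dc c γ + 8 * a ^ 2 * dc c γ ^ 2 / h := by ring

end

end Pool.Agent.KSX
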