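import Pool.Agent.KSX.St2

/-!
# KSX, module DIA (helper44): the diagonal part
-/

set_option autoImplicit false

open Finset Matrix

namespace Pool.Agent.KSX

namespace DIA_aux

lemma dc_nonneg {E Γ : Type} [Fintype E] [DecidableEq Γ] (c : E → Γ) (γ : Γ) : 0 ≤ dc c γ := by
  unfold dc
  positivity

lemma dc_sum {E Γ : Type} [Fintype E] [DecidableEq E] [Fintype Γ] [DecidableEq Γ] (c : E → Γ) :
    ∑ γ, dc c γ = Fintype.card E := by
  unfold dc
  rw [← Nat.cast_sum]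
  congr 1
  rw [← Finset.card_univ (α := E), Finset.card_eq_sum_card_fiberwise (f := c) (t := univ)
    (fun _ _ => mem_univ _)]

lemma term {V x D a h : ℝ} (hV : 0 ≤ V) (hx : 0 ≤ x) (hD : 0 < D) (hh : 0 < h) :
    V * (8 * x + 8 * a ^ 2 * x ^ 2 / h) / (x + D) ≤ V * (8 + 8 * a ^ 2 * x / h) := by
  rw [div_le_iff₀ (by linarith)]
  have h1 : 8 * x + 8 * a ^ 2 * x ^ 2 / h = (8 + 8 * a ^ 2 * x / h) * x := by ring
  rw [h1, ← mul_assoc]
  have h2 : 0 ≤ V * (8 + 8 * a ^ 2 * x / h) := by positivity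
  exact mul_le_mul_of_nonneg_left (by linarith) h2

end DIA_aux

open DIA_aux in
theorem t_DIA : S_DIA := by
  intro E Γ V _ _ _ _ _ c D a h hD hh
  calc ∑ γ, Fintype.card V * (8 * dc c γ + 8 * a ^ 2 * dc c γ ^ 2 / h) / (dc c γ + D)
      ≤ ∑ γ : Γ, (Fintype.card V : ℝ) * (8 + 8 * a ^ 2 * dc c γ / h) :=
        sum_le_sum fun γ _ => term (Nat.cast_nonneg _) (dc_nonneg c γ) hD hh
    _ = Fintype.card V * (8 * Fintype.card Γ + 8 * a ^ 2 * Fintype.card E / h) := by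
        rw [← mul_sum, sum_add_distrib, sum_const, card_univ, nsmul_eq_mul, ← dc_sum c,
          ← sum_div, ← mul_sum, mul_comm (Fintype.card Γ : ℝ) 8]

end Pool.Agent.KSX
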