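import Pool.Agent.KSX.St2

/-!
# Module FLT of project KSX: the flattening
-/

set_option autoImplicit false

open Finset Matrix

namespace Pool.Agent.KSX

noncomputable section

namespace FLT_aux

variable {I : Type} [Fintype I]

/-- the norm square -/
def nn {J : Type} [Fintype J] (x : J → ℝ) : ℝ := ∑ p, x p ^ 2

lemma nn_dot {J : Type} [Fintype J] (x : J → ℝ) : x ⬝ᵥ x = nn x := by
  unfold nn dotProduct
  exact Finset.sum_congr rfl fun p _ => (sq _).symm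

lemma nn_nonneg {J : Type} [Fintype J] (x : J → ℝ) : 0 ≤ nn x :=
  Finset.sum_nonneg fun p _ => sq_nonneg _

/-- the first tensor factor -/
def Lf (M : Matrix I I ℝ) (x : I × I → ℝ) : I × I → ℝ := fun p => ∑ i, M p.1 i * x (i, p.2)

/-- the second tensor factor -/
def Rf (M : Matrix I I ℝ) (x : I × I → ℝ) : I × I → ℝ := fun p => ∑ j, M p.2 j * x (p.1, j)

lemma kr_mulVec (A B : Matrix I I ℝ) (x : I × I → ℝ) : kr A B *ᵥ x = Rf B (Lf A x) := by
  funext p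
  change ∑ q, kr A B p q * x q = ∑ j, B p.2 j * ∑ i, A p.1 i * x (i, j)
  rw [Fintype.sum_prod_type, Finset.sum_comm]
  refine Finset.sum_congr rfl fun j _ => ?_
  rw [Finset.mul_sum]
  refine Finset.sum_congr rfl fun i _ => ?_
  unfold kr
  ring

lemma Rf_sum_arg {ι : Type} (s : Finset ι) (M : Matrix I I ℝ) (x : ι → I × I → ℝ)
    (p : I × I) : Rf M (fun q => ∑ e ∈ s, x e q) p = ∑ e ∈ s, Rf M (x e) p := by
  unfold Rf
  simp only [Finset.mul_sum]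
  rw [Finset.sum_comm]

lemma sum_sq_le {ι J : Type} [Fintype J] (s : Finset ι) (x : ι → J → ℝ) :
    nn (fun p => ∑ v ∈ s, x v p) ≤ s.card * ∑ v ∈ s, nn (x v) := by
  unfold nn
  rw [Finset.sum_comm, Finset.mul_sum]
  exact Finset.sum_le_sum fun p _ => sq_sum_le_card_mul_sum_sq

lemma Rf_le {ι : Type} (s : Finset ι) (B : ι → Matrix I I ℝ) (h : ℝ)
    (H : ∀ u : I → ℝ, ∑ e ∈ s, (B e *ᵥ u) ⬝ᵥ (B e *ᵥ u) ≤ h * (u ⬝ᵥ u)) (x : I × I → ℝ) :
    ∑ e ∈ s, nn (Rf (B e) x) ≤ h * nn x := by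
  unfold nn
  simp only [Fintype.sum_prod_type]
  rw [Finset.sum_comm, Finset.mul_sum]
  refine Finset.sum_le_sum fun i _ => ?_
  have h1 := H (fun j => x (i, j))
  simp only [nn_dot] at h1
  exact h1

lemma Lf_le {ι : Type} (s : Finset ι) (B : ι → Matrix I I ℝ) (h : ℝ)
    (H : ∀ u : I → ℝ, ∑ e ∈ s, (B e *ᵥ u) ⬝ᵥ (B e *ᵥ u) ≤ h * (u ⬝ᵥ u)) (x : I × I → ℝ) :
    ∑ e ∈ s, nn (Lf (B e) x) ≤ h * nn x := by
  unfold nn
  simp only [Fintype.sum_prod_type_right]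
  rw [Finset.sum_comm, Finset.mul_sum]
  refine Finset.sum_le_sum fun j _ => ?_
  have h1 := H (fun i => x (i, j))
  simp only [nn_dot] at h1
  exact h1

lemma Lf_adj (M : Matrix I I ℝ) (hM : Mᵀ = M) (u y : I × I → ℝ) :
    ∑ p, u p * Lf M y p = ∑ p, Lf M u p * y p := by
  unfold Lf
  simp only [Fintype.sum_prod_type_right, Finset.mul_sum, Finset.sum_mul]
  refine Finset.sum_congr rfl fun j _ => ?_
  rw [Finset.sum_comm]
  refine Finset.sum_congr rfl fun k _ => Finset.sum_congr rfl fun i _ => ?_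
  have h : M i k = M k i := by
    conv_lhs => rw [← hM]
    rfl
  rw [h]
  ring

lemma key {ι : Type} (s : Finset ι) (B : ι → Matrix I I ℝ) (hB : ∀ e, (B e)ᵀ = B e) (h : ℝ)
    (h0 : 0 ≤ h) (H : ∀ u : I → ℝ, ∑ e ∈ s, (B e *ᵥ u) ⬝ᵥ (B e *ᵥ u) ≤ h * (u ⬝ᵥ u))
    (w : ι → I × I → ℝ) :
    nn (fun p => ∑ e ∈ s, Lf (B e) (w e) p) ≤ h * ∑ e ∈ s, nn (w e) := by
  obtain ⟨u, hu⟩ : ∃ u : I × I → ℝ, u = fun p => ∑ e ∈ s, Lf (B e) (w e) p := ⟨_, rfl⟩
  rw [← hu]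
  have e1 : nn u = ∑ e ∈ s, ∑ p, Lf (B e) u p * w e p := by
    have : nn u = ∑ p, u p * ∑ e ∈ s, Lf (B e) (w e) p := by
      unfold nn
      refine Finset.sum_congr rfl fun p _ => ?_
      rw [sq]
      conv_lhs => rw [hu]
      simp only [hu]
    rw [this]
    simp only [Finset.mul_sum]
    rw [Finset.sum_comm]
    exact Finset.sum_congr rfl fun e _ => Lf_adj (B e) (hB e) u (w e)
  have e2 : nn u ^ 2 ≤ (∑ e ∈ s, nn (Lf (B e) u)) * ∑ e ∈ s, nn (w e) := by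
    rw [e1, ← Finset.sum_product' s univ fun e p => Lf (B e) u p * w e p]
    unfold nn
    rw [← Finset.sum_product' s univ fun e p => Lf (B e) u p ^ 2,
      ← Finset.sum_product' s univ fun e p => w e p ^ 2]
    exact Finset.sum_mul_sq_le_sq_mul_sq _ _ _
  have e3 := Lf_le s B h H u
  have hW : 0 ≤ ∑ e ∈ s, nn (w e) := Finset.sum_nonneg fun e _ => nn_nonneg _
  rcases (nn_nonneg u).eq_or_lt with h1 | h1
  · rw [← h1]
    positivity
  · have e4 : nn u * nn u ≤ nn u * (h * ∑ e ∈ s, nn (w e)) := by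
      have := mul_le_mul_of_nonneg_right e3 hW
      nlinarith
    exact le_of_mul_le_mul_left e4 h1

variable {E Γ V : Type} [Fintype E] [DecidableEq E] [Fintype Γ] [DecidableEq Γ] [Fintype V]

lemma MM_mulVec (A : E → V → Matrix I I ℝ) (e e' : E) (x : I × I → ℝ) (p : I × I) :
    (MM A e e' *ᵥ x) p = ∑ v, Rf (A e' v) (Lf (A e v) x) p := by
  unfold MM
  rw [Matrix.sum_mulVec, Finset.sum_apply]
  exact Finset.sum_congr rfl fun v _ => by rw [kr_mulVec]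

lemma one_le (c : E → Γ) (A : E → V → Matrix I I ℝ) (h : ℝ)
    (H : ∀ γ v (u : I → ℝ), ∑ e ∈ univ.filter (fun e => c e = γ),
      (A e v *ᵥ u) ⬝ᵥ (A e v *ᵥ u) ≤ h * (u ⬝ᵥ u)) (e : E) (v : V) (u : I → ℝ) :
    ∑ i ∈ {e}, (A i v *ᵥ u) ⬝ᵥ (A i v *ᵥ u) ≤ h * (u ⬝ᵥ u) := by
  refine le_trans (Finset.sum_le_sum_of_subset_of_nonneg (fun i hi => ?_) fun i _ _ => ?_)
    (H (c e) v u)
  · rw [Finset.mem_singleton] at hi
    rw [hi, Finset.mem_filter]
    exact ⟨Finset.mem_univ _, rfl⟩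
  · rw [nn_dot]
    exact nn_nonneg _

/-- the diagonal term -/
lemma diag_le (c : E → Γ) (A : E → V → Matrix I I ℝ) (h : ℝ) (h0 : 0 ≤ h)
    (H : ∀ γ v (u : I → ℝ), ∑ e ∈ univ.filter (fun e => c e = γ),
      (A e v *ᵥ u) ⬝ᵥ (A e v *ᵥ u) ≤ h * (u ⬝ᵥ u)) (e : E) (x : I × I → ℝ) :
    nn (MM A e e *ᵥ x) ≤ (Fintype.card V : ℝ) ^ 2 * h ^ 2 * nn x := by
  have e1 : nn (MM A e e *ᵥ x) ≤ Fintype.card V * ∑ v, nn (Rf (A e v) (Lf (A e v) x)) := by
    have h1 := sum_sq_le (univ : Finset V) fun v => Rf (A e v) (Lf (A e v) x)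
    have h2 : (MM A e e *ᵥ x) = fun p => ∑ v, Rf (A e v) (Lf (A e v) x) p := by
      funext p
      exact MM_mulVec A e e x p
    rw [h2]
    exact h1
  have e2 : ∀ v, nn (Rf (A e v) (Lf (A e v) x)) ≤ h * (h * nn x) := by
    intro v
    have h1 := Rf_le {e} (fun i => A i v) h (one_le c A h H e v) (Lf (A e v) x)
    have h2 := Lf_le {e} (fun i => A i v) h (one_le c A h H e v) x
    rw [Finset.sum_singleton] at h1 h2
    exact h1.trans (mul_le_mul_of_nonneg_left h2 h0)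
  refine e1.trans ((mul_le_mul_of_nonneg_left (Finset.sum_le_sum fun v _ => e2 v)
    (Nat.cast_nonneg _)).trans (le_of_eq ?_))
  rw [Finset.sum_const, Finset.card_univ, nsmul_eq_mul]
  ring

/-- the full sum over one cell -/
lemma cell_le (c : E → Γ) (A : E → V → Matrix I I ℝ) (h : ℝ) (h0 : 0 ≤ h)
    (hA : ∀ e v, (A e v)ᵀ = A e v)
    (H : ∀ γ v (u : I → ℝ), ∑ e ∈ univ.filter (fun e => c e = γ),
      (A e v *ᵥ u) ⬝ᵥ (A e v *ᵥ u) ≤ h * (u ⬝ᵥ u)) (γ : Γ) (w : E → I × I → ℝ) :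
    ∑ e' ∈ univ.filter (fun e => c e = γ),
      nn (fun p => ∑ e ∈ univ.filter (fun e => c e = γ), (MM A e e' *ᵥ w e) p) ≤
      (Fintype.card V : ℝ) ^ 2 * h ^ 2 * ∑ e ∈ univ.filter (fun e => c e = γ), nn (w e) := by
  obtain ⟨s, hs⟩ : ∃ s : Finset E, s = univ.filter (fun e => c e = γ) := ⟨_, rfl⟩
  rw [← hs]
  obtain ⟨S, hS⟩ : ∃ S : V → I × I → ℝ, S = fun v p => ∑ e ∈ s, Lf (A e v) (w e) p := ⟨_, rfl⟩
  have e0 : ∀ e', (fun p => ∑ e ∈ s, (MM A e e' *ᵥ w e) p) =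
      fun p => ∑ v, Rf (A e' v) (S v) p := by
    intro e'
    funext p
    simp only [MM_mulVec]
    rw [Finset.sum_comm]
    refine Finset.sum_congr rfl fun v _ => ?_
    rw [hS, Rf_sum_arg]
  have e1 : ∀ e', nn (fun p => ∑ e ∈ s, (MM A e e' *ᵥ w e) p) ≤
      Fintype.card V * ∑ v, nn (Rf (A e' v) (S v)) := by
    intro e'
    rw [e0 e']
    exact sum_sq_le (univ : Finset V) fun v => Rf (A e' v) (S v)
  have H' : ∀ v (u : I → ℝ), ∑ e ∈ s, (A e v *ᵥ u) ⬝ᵥ (A e v *ᵥ u) ≤ h * (u ⬝ᵥ u) := by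
    rw [hs]
    exact H γ
  have e2 : ∀ v, ∑ e' ∈ s, nn (Rf (A e' v) (S v)) ≤ h * (h * ∑ e ∈ s, nn (w e)) := by
    intro v
    refine (Rf_le s (fun e => A e v) h (H' v) (S v)).trans (mul_le_mul_of_nonneg_left ?_ h0)
    rw [hS]
    exact key s (fun e => A e v) (fun e => hA e v) h h0 (H' v) w
  calc ∑ e' ∈ s, nn (fun p => ∑ e ∈ s, (MM A e e' *ᵥ w e) p)
      ≤ ∑ e' ∈ s, Fintype.card V * ∑ v, nn (Rf (A e' v) (S v)) :=
        Finset.sum_le_sum fun e' _ => e1 e'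
    _ = Fintype.card V * ∑ v, ∑ e' ∈ s, nn (Rf (A e' v) (S v)) := by
        rw [← Finset.mul_sum, Finset.sum_comm]
    _ ≤ Fintype.card V * ∑ _v : V, h * (h * ∑ e ∈ s, nn (w e)) :=
        mul_le_mul_of_nonneg_left (Finset.sum_le_sum fun v _ => e2 v) (Nat.cast_nonneg _)
    _ = (Fintype.card V : ℝ) ^ 2 * h ^ 2 * ∑ e ∈ s, nn (w e) := by
        rw [Finset.sum_const, Finset.card_univ, nsmul_eq_mul]
        ring

/-- the weighted sum -/
lemma row_le (c : E → Γ) (A : E → V → Matrix I I ℝ) (D : ℝ) (hD : 0 < D) (e' : E)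
    (w : E → I × I → ℝ) :
    nn (fun p => ∑ e, gw c D e e' * (MM A e e' *ᵥ w e) p) ≤
      2 / D ^ 2 * (nn (fun p => ∑ e ∈ univ.filter (fun e => c e = c e'), (MM A e e' *ᵥ w e) p) +
        nn (MM A e' e' *ᵥ w e')) := by
  have hdc : 0 ≤ dc c (c e') := Nat.cast_nonneg _
  have e1 : ∀ p, ∑ e, gw c D e e' * (MM A e e' *ᵥ w e) p = 1 / (dc c (c e') + D) *
      (∑ e ∈ univ.filter (fun e => c e = c e'), (MM A e e' *ᵥ w e) p -
        (MM A e' e' *ᵥ w e') p) := by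
    intro p
    have h1 : ∑ e ∈ univ.filter (fun e => c e = c e'), (MM A e e' *ᵥ w e) p -
        (MM A e' e' *ᵥ w e') p =
        ∑ e, if c e = c e' ∧ e ≠ e' then (MM A e e' *ᵥ w e) p else 0 := by
      rw [← Finset.sum_filter]
      have h2 : e' ∈ univ.filter (fun e => c e = c e') :=
        Finset.mem_filter.2 ⟨Finset.mem_univ _, rfl⟩
      rw [← Finset.sum_erase_add _ _ h2, add_sub_cancel_right]
      refine Finset.sum_congr ?_ fun _ _ => rfl
      ext e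
      simp only [Finset.mem_erase, Finset.mem_filter, Finset.mem_univ, true_and]
      tauto
    rw [h1, Finset.mul_sum]
    refine Finset.sum_congr rfl fun e _ => ?_
    unfold gw
    split_ifs with h
    · rw [h.1]
    · rw [zero_mul, mul_zero]
  have e2 : ∀ a b : ℝ, (1 / (dc c (c e') + D) * (a - b)) ^ 2 ≤ 2 / D ^ 2 * (a ^ 2 + b ^ 2) := by
    intro a b
    have h1 : (1 / (dc c (c e') + D)) ^ 2 ≤ 1 / D ^ 2 := by
      rw [div_pow, one_pow]
      apply one_div_le_one_div_of_le (by positivity)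
      apply pow_le_pow_left₀ hD.le
      linarith
    have h2 : (a - b) ^ 2 ≤ 2 * (a ^ 2 + b ^ 2) := by nlinarith [sq_nonneg (a + b)]
    rw [mul_pow]
    calc (1 / (dc c (c e') + D)) ^ 2 * (a - b) ^ 2 ≤ 1 / D ^ 2 * (2 * (a ^ 2 + b ^ 2)) :=
          mul_le_mul h1 h2 (sq_nonneg _) (by positivity)
      _ = 2 / D ^ 2 * (a ^ 2 + b ^ 2) := by ring
  unfold nn
  rw [← Finset.sum_add_distrib, Finset.mul_sum]
  refine Finset.sum_le_sum fun p _ => ?_
  simp only [e1]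
  exact e2 _ _

/-- the first inequality -/
lemma first (c : E → Γ) (A : E → V → Matrix I I ℝ) (D h : ℝ) (hD : 0 < D) (h0 : 0 ≤ h)
    (hA : ∀ e v, (A e v)ᵀ = A e v)
    (H : ∀ γ v (u : I → ℝ), ∑ e ∈ univ.filter (fun e => c e = γ),
      (A e v *ᵥ u) ⬝ᵥ (A e v *ᵥ u) ≤ h * (u ⬝ᵥ u)) (w : E → I × I → ℝ) :
    ∑ e', nn (fun p => ∑ e, gw c D e e' * (MM A e e' *ᵥ w e) p) ≤
      4 * (Fintype.card V : ℝ) ^ 2 * h ^ 2 / D ^ 2 * ∑ e, nn (w e) := by
  have e1 : ∑ e', nn (fun p => ∑ e ∈ univ.filter (fun e => c e = c e'),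
      (MM A e e' *ᵥ w e) p) ≤ (Fintype.card V : ℝ) ^ 2 * h ^ 2 * ∑ e, nn (w e) := by
    rw [← Finset.sum_fiberwise univ c fun e' => nn (fun p =>
      ∑ e ∈ univ.filter (fun e => c e = c e'), (MM A e e' *ᵥ w e) p),
      ← Finset.sum_fiberwise univ c fun e => nn (w e), Finset.mul_sum]
    refine Finset.sum_le_sum fun γ _ => ?_
    refine le_trans (le_of_eq ?_) (cell_le c A h h0 hA H γ w)
    refine Finset.sum_congr rfl fun e' he' => ?_
    rw [(Finset.mem_filter.1 he').2]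
  have e2 : ∑ e', nn (MM A e' e' *ᵥ w e') ≤
      (Fintype.card V : ℝ) ^ 2 * h ^ 2 * ∑ e, nn (w e) := by
    rw [Finset.mul_sum]
    exact Finset.sum_le_sum fun e' _ => diag_le c A h h0 H e' (w e')
  calc ∑ e', nn (fun p => ∑ e, gw c D e e' * (MM A e e' *ᵥ w e) p)
      ≤ ∑ e', 2 / D ^ 2 * (nn (fun p => ∑ e ∈ univ.filter (fun e => c e = c e'),
        (MM A e e' *ᵥ w e) p) + nn (MM A e' e' *ᵥ w e')) :=
        Finset.sum_le_sum fun e' _ => row_le c A D hD e' w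
    _ = 2 / D ^ 2 * (∑ e', nn (fun p => ∑ e ∈ univ.filter (fun e => c e = c e'),
        (MM A e e' *ᵥ w e) p) + ∑ e', nn (MM A e' e' *ᵥ w e')) := by
        rw [← Finset.mul_sum, Finset.sum_add_distrib]
    _ ≤ 2 / D ^ 2 * ((Fintype.card V : ℝ) ^ 2 * h ^ 2 * ∑ e, nn (w e) +
        (Fintype.card V : ℝ) ^ 2 * h ^ 2 * ∑ e, nn (w e)) :=
        mul_le_mul_of_nonneg_left (add_le_add e1 e2) (by positivity)
    _ = 4 * (Fintype.card V : ℝ) ^ 2 * h ^ 2 / D ^ 2 * ∑ e, nn (w e) := by ring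

lemma gw_comm (c : E → Γ) (D : ℝ) (e e' : E) : gw c D e' e = gw c D e e' := by
  unfold gw
  by_cases h : c e = c e' ∧ e ≠ e'
  · rw [if_pos h, if_pos ⟨h.1.symm, h.2.symm⟩, h.1]
  · rw [if_neg h, if_neg fun h' => h ⟨h'.1.symm, h'.2.symm⟩]

lemma MM_swap (A : E → V → Matrix I I ℝ) (e e' : E) (x : I × I → ℝ) (p : I × I) :
    (MM A e' e *ᵥ x) p = (MM A e e' *ᵥ fun q => x q.swap) p.swap := by
  rw [MM_mulVec, MM_mulVec]
  refine Finset.sum_congr rfl fun v _ => ?_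
  unfold Rf Lf
  simp only [Prod.fst_swap, Prod.snd_swap, Prod.swap_prod_mk, Finset.mul_sum]
  rw [Finset.sum_comm]
  refine Finset.sum_congr rfl fun i _ => Finset.sum_congr rfl fun j _ => ?_
  ring

lemma nn_swap (x : I × I → ℝ) : nn (fun p : I × I => x p.swap) = nn x := by
  unfold nn
  exact Equiv.sum_comp (Equiv.prodComm I I) fun p => x p ^ 2

end FLT_aux

open FLT_aux

theorem t_FLT : S_FLT := by
  intro E Γ V I _ _ _ _ _ _ _ c A D h hD h0 hA H w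
  have conv1 : ∀ (g : E → ℝ) (m : E → I × I → ℝ),
      (∑ e, g e • m e) ⬝ᵥ (∑ e, g e • m e) = nn (fun p => ∑ e, g e * m e p) := by
    intro g m
    rw [nn_dot]
    congr 1
    funext p
    rw [Finset.sum_apply]
    rfl
  have conv2 : ∑ e, w e ⬝ᵥ w e = ∑ e, nn (w e) := Finset.sum_congr rfl fun e _ => nn_dot _
  constructor
  · rw [conv2]
    refine le_trans (le_of_eq ?_) (first c A D h hD h0 hA H w)
    refine Finset.sum_congr rfl fun e' _ => ?_
    exact conv1 (fun e => gw c D e e') (fun e => MM A e e' *ᵥ w e)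
  · rw [conv2]
    have h1 := first c A D h hD h0 hA H (fun e q => w e q.swap)
    have h2 : ∑ e, nn (fun q : I × I => w e q.swap) = ∑ e, nn (w e) :=
      Finset.sum_congr rfl fun e _ => nn_swap _
    rw [h2] at h1
    refine le_trans (le_of_eq ?_) h1
    refine Finset.sum_congr rfl fun e' _ => ?_
    rw [conv1 (fun e => gw c D e' e) (fun e => MM A e' e *ᵥ w e), ← nn_swap]
    congr 1
    funext p
    refine Finset.sum_congr rfl fun e _ => ?_
    rw [gw_comm, MM_swap, Prod.swap_swap]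

end

end Pool.Agent.KSX
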