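import Pool.Agent.KSX.St2

set_option autoImplicit false

open Finset Matrix

namespace Pool.Agent.KSX

theorem t_FPR : S_FPR := by
  intro S w T a hS ha
  cases a with
  | answer b =>
    refine ⟨⟨0, by omega⟩, fun _ => Alg.answer b, fun v => ?_, fun M => ?_⟩
    · cases T <;> simp [Alg.Within]
    · simp [Alg.run]
  | probe c next =>
    exact ⟨c, next, fun v => ha v, fun M => by simp [Alg.run]⟩

end Pool.Agent.KSX
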