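import Pool.Agent.KSX.St2
import Pool.Agent.KSX.FRM

/-!
# Project KSX, module GEN: moments of a form, with weights
-/

set_option autoImplicit false

open Finset Matrix

namespace Pool.Agent.KSX

namespace GEN_aux

/-- the trace of an even power of a symmetric matrix is nonnegative -/
theorem trace_nonneg {I : Type} [Fintype I] [DecidableEq I] (Y : Matrix I I ℝ) (hY : Yᵀ = Y)
    (p : ℕ) : 0 ≤ (Y ^ (2 * p)).trace := by
  have h1 : (Y ^ p)ᵀ = Y ^ p := by rw [Matrix.transpose_pow, hY]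
  have h2 : Y ^ (2 * p) = (Y ^ p)ᴴ * (Y ^ p) := by
    rw [Matrix.conjTranspose_eq_transpose_of_trivial, h1, ← pow_add]
    congr 1
    ring
  rw [h2]
  exact (Matrix.posSemidef_conjTranspose_mul_self (Y ^ p)).trace_nonneg

end GEN_aux

theorem t_GEN (hLIN : S_LIN) (hTRP : S_TRP) (hKHI : S_KHI) (hTRF : S_TRF) : S_GEN := by
  intro E J Ω _ _ _ _ _ y A u α D κ m p hp hpm hMo hα hD hA hκ
  obtain ⟨B, R, hBs, hB, hR, hRB⟩ := hLIN E J A α D hα hD hA
  -- one point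
  have hone : ∀ ω, (∑ e, y ω e * (u ω ⬝ᵥ (A e *ᵥ u ω))) ^ (2 * p) ≤
      κ ^ (2 * p) * ((∑ e, y ω e • B e) ^ (2 * p)).trace := by
    intro ω
    have h1 : ∑ e, y ω e * (u ω ⬝ᵥ (A e *ᵥ u ω)) =
        (R *ᵥ u ω) ⬝ᵥ ((∑ e, y ω e • B e) *ᵥ (R *ᵥ u ω)) := by
      rw [← FRM_aux.quad]
      refine sum_congr rfl fun e _ => ?_
      rw [hRB]
    have hY := FRM_aux.symm_sum B hBs (y ω)
    have h2 := hTRP J (∑ e, y ω e • B e) (R *ᵥ u ω) p hp hY
    have h3 : (R *ᵥ u ω) ⬝ᵥ (R *ᵥ u ω) ≤ κ := by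
      rw [hR]
      exact hκ ω
    have h4 : 0 ≤ (R *ᵥ u ω) ⬝ᵥ (R *ᵥ u ω) := by
      unfold dotProduct
      exact sum_nonneg fun i _ => mul_self_nonneg _
    rw [h1]
    exact h2.trans (mul_le_mul_of_nonneg_right (pow_le_pow_left₀ h4 h3 _)
      (GEN_aux.trace_nonneg _ hY p))
  -- the moments
  have hmom := hTRF E J Ω (E → Bool) B y (fun g e => sgn (g e)) (Fintype.card Ω : ℝ)
    (Fintype.card (E → Bool) : ℝ) (2 * p) (fun φ => hMo (2 * p) hpm φ)
  have hkh := hKHI E J B (α / D) (by positivity) hBs hB p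
  have hc : (0 : ℝ) < (Fintype.card (E → Bool) : ℝ) := by
    exact_mod_cast Fintype.card_pos
  have htr : ∑ ω, ((∑ e, y ω e • B e) ^ (2 * p)).trace ≤
      Fintype.card Ω * Fintype.card J * (2 * p * (α / D)) ^ p := by
    refine le_of_mul_le_mul_right ?_ hc
    rw [hmom]
    calc _ ≤ ((Fintype.card (E → Bool) : ℝ) * Fintype.card J * (2 * p * (α / D)) ^ p) *
            (Fintype.card Ω : ℝ) :=
          mul_le_mul_of_nonneg_right hkh (Nat.cast_nonneg _)
      _ = _ := by ring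
  calc _ ≤ ∑ ω, κ ^ (2 * p) * ((∑ e, y ω e • B e) ^ (2 * p)).trace :=
        sum_le_sum fun ω _ => hone ω
    _ = κ ^ (2 * p) * ∑ ω, ((∑ e, y ω e • B e) ^ (2 * p)).trace := by rw [mul_sum]
    _ ≤ _ := by
        refine mul_le_mul_of_nonneg_left htr ?_
        exact (even_two_mul p).pow_nonneg κ

end Pool.Agent.KSX
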