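import Pool.Agent.KSX.St2
import Pool.Agent.KSX.GRO

/-!
# KSX, module GR3: growth of the parameters for odd `T`
-/

set_option autoImplicit false

namespace Pool.Agent.KSX

open GRO_aux in
theorem t_GR3 : S_GR3 := by
  intro k ε hk hε
  have hk1 : (1 : ℝ) ≤ k := by exact_mod_cast hk
  obtain ⟨L, hLdef⟩ : ∃ L : ℕ, L = ⌈64 * (k : ℝ) / ε⌉₊ + 1 := ⟨_, rfl⟩
  have hL1 : 1 ≤ L := by omega
  have hL0 : (1 : ℝ) ≤ L := by exact_mod_cast hL1
  have hL : 64 * (k : ℝ) / ε ≤ L := (Nat.le_ceil _).trans (by rw [hLdef]; push_cast; linarith)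
  have hkL : 2 * (k : ℝ) / L ≤ ε / 16 := by
    rw [div_le_iff₀ hε] at hL
    rw [div_le_iff₀ (by linarith)]
    linarith
  obtain ⟨c, hc⟩ : ∃ c : ℕ, c = (k + 1) * (2 * k) + 2 := ⟨_, rfl⟩
  have hc0 : (0 : ℝ) < c := by
    rw [hc]
    positivity
  obtain ⟨η, hηd⟩ : ∃ η : ℝ, η = ε / (4 * c) := ⟨_, rfl⟩
  have hη : 0 < η := by
    rw [hηd]
    positivity
  obtain ⟨D, hD⟩ : ∃ D : ℝ, D = (1 / (η * Real.log 2) + 1) ^ c := ⟨_, rfl⟩
  have hlog2 : 0 < Real.log 2 := Real.log_pos (by norm_num)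
  have hD0 : 0 < D := by
    rw [hD]
    positivity
  obtain ⟨B, hB⟩ : ∃ B : ℝ, B = (16 * (k : ℝ) ^ 2 * (64 * k * 4 ^ k * 2 ^ L) ^ k) ^ (2 * k) *
      (2 ^ 20 * (16 * k) ^ 2) := ⟨_, rfl⟩
  have hB0 : 0 < B := by
    rw [hB]
    positivity
  obtain ⟨A, hA⟩ : ∃ A : ℝ, A = 2 ^ (8 * k) := ⟨_, rfl⟩
  have hA0 : 0 < A := by
    rw [hA]
    positivity
  refine ⟨L, 2 * A + B * D * A ^ 4 + 1, ?_, fun N hN => ⟨(Nat.log 2 N + 3) / L + 1, ?_, ?_, ?_⟩⟩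
  · have : 0 < 2 * A + B * D * A ^ 4 := by positivity
    linarith
  · have h1 := Nat.div_add_mod (Nat.log 2 N + 3) L
    have h2 := Nat.mod_lt (Nat.log 2 N + 3) (by omega : 0 < L)
    rw [mul_add, mul_one]
    omega
  · have hN1 : (1 : ℝ) ≤ N := by exact_mod_cast hN
    have h1 := pow_bound (k := k) hL1 hN hkL
    rw [← hA] at h1
    have h2 : (N : ℝ) ^ (ε / 16) ≤ (N : ℝ) ^ ε :=
      Real.rpow_le_rpow_of_exponent_le hN1 (by linarith)
    have h3 : 0 < (N : ℝ) ^ ε := Real.rpow_pos_of_pos (by linarith) _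
    calc (2 : ℝ) * 2 ^ (2 * k * ((Nat.log 2 N + 3) / L + 1)) ≤ 2 * (A * (N : ℝ) ^ ε) := by
          have := mul_le_mul_of_nonneg_left h2 hA0.le
          linarith
      _ ≤ (2 * A + B * D * A ^ 4 + 1) * (N : ℝ) ^ ε := by
          have : 0 < (B * D * A ^ 4 + 1) * (N : ℝ) ^ ε := by positivity
          linarith
  · have hN1 : (1 : ℝ) ≤ N := by exact_mod_cast hN
    have h1 := pow_bound (k := k) hL1 hN hkL
    rw [← hA] at h1
    obtain ⟨r, hr⟩ : ∃ r : ℕ, r = (Nat.log 2 N + 3) / L + 1 := ⟨_, rfl⟩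
    rw [← hr] at h1 ⊢
    obtain ⟨X, hX⟩ : ∃ X : ℝ, X = (Nat.log 2 N : ℝ) + 1 := ⟨_, rfl⟩
    have hX1 : 1 ≤ X := by
      rw [hX]
      have : (0 : ℝ) ≤ Nat.log 2 N := Nat.cast_nonneg _
      linarith
    have hrX : (r : ℝ) ≤ 4 * X := by
      have h2 : r ≤ Nat.log 2 N + 4 := by
        rw [hr]
        have := Nat.div_le_self (Nat.log 2 N + 3) L
        omega
      have h3 : (r : ℝ) ≤ Nat.log 2 N + 4 := by exact_mod_cast h2
      have : (0 : ℝ) ≤ Nat.log 2 N := Nat.cast_nonneg _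
      rw [hX]
      linarith
    have hkX : 8 * (k : ℝ) * X + 8 ≤ 16 * k * X := by nlinarith
    rw [← hX]
    have e1 : 2 * (k : ℝ) * (2 * k * r) ≤ 16 * (k : ℝ) ^ 2 * X := by
      have := mul_le_mul_of_nonneg_left hrX (by positivity : (0 : ℝ) ≤ 4 * (k : ℝ) ^ 2)
      linarith
    have e2 : (4 * (8 * (k : ℝ) * X + 8) * 4 ^ k * 2 ^ L) ^ k ≤
        (64 * k * 4 ^ k * 2 ^ L) ^ k * X ^ k := by
      rw [← mul_pow]
      apply pow_le_pow_left₀ (by positivity)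
      have := mul_le_mul_of_nonneg_right hkX (by positivity : (0 : ℝ) ≤ 4 * 4 ^ k * 2 ^ L)
      linarith
    have e3 : 2 * (k : ℝ) * (2 * k * r) * (4 * (8 * (k : ℝ) * X + 8) * 4 ^ k * 2 ^ L) ^ k ≤
        16 * (k : ℝ) ^ 2 * (64 * k * 4 ^ k * 2 ^ L) ^ k * X ^ (k + 1) := by
      calc _ ≤ 16 * (k : ℝ) ^ 2 * X * ((64 * k * 4 ^ k * 2 ^ L) ^ k * X ^ k) :=
            mul_le_mul e1 e2 (by positivity) (by positivity)
        _ = _ := by ring
    have e3' : (2 : ℝ) ^ 20 * (8 * (k : ℝ) * X + 8) ^ 2 ≤ 2 ^ 20 * (16 * k) ^ 2 * X ^ 2 := by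
      have h2 : (8 * (k : ℝ) * X + 8) ^ 2 ≤ (16 * k * X) ^ 2 :=
        pow_le_pow_left₀ (by positivity) hkX 2
      have h3 : (16 * (k : ℝ) * X) ^ 2 = (16 * k) ^ 2 * X ^ 2 := by ring
      rw [h3] at h2
      have h4 := mul_le_mul_of_nonneg_left h2 (by positivity : (0 : ℝ) ≤ 2 ^ 20)
      rw [← mul_assoc] at h4
      exact h4
    have e4 : (2 * (k : ℝ) * (2 * k * r) * (4 * (8 * (k : ℝ) * X + 8) * 4 ^ k * 2 ^ L) ^ k) ^
        (2 * k) * (2 ^ 20 * (8 * (k : ℝ) * X + 8) ^ 2) ≤ B * X ^ c := by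
      calc _ ≤ (16 * (k : ℝ) ^ 2 * (64 * k * 4 ^ k * 2 ^ L) ^ k * X ^ (k + 1)) ^ (2 * k) *
            (2 ^ 20 * (16 * k) ^ 2 * X ^ 2) := by
            apply mul_le_mul (pow_le_pow_left₀ (by positivity) e3 _) e3' (by positivity)
              (by positivity)
        _ = B * X ^ c := by
            rw [hB, hc, mul_pow (16 * (k : ℝ) ^ 2 * (64 * k * 4 ^ k * 2 ^ L) ^ k), ← pow_mul,
              pow_add X ((k + 1) * (2 * k)) 2]
            ring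
    have e5 : X ^ c ≤ D * (N : ℝ) ^ (ε / 4) := by
      have h2 := pow_le_pow_left₀ (by linarith) (hX ▸ log_bound hN hη : X ≤ _) c
      refine h2.trans (le_of_eq ?_)
      rw [mul_pow, ← hD, ← Real.rpow_natCast ((N : ℝ) ^ η) c, ← Real.rpow_mul (by linarith), hηd]
      congr 2
      field_simp
    have e6 : (16 : ℝ) ^ (2 * k * r) ≤ A ^ 4 * (N : ℝ) ^ (ε / 4) := by
      have h2 : (16 : ℝ) ^ (2 * k * r) = (2 ^ (2 * k * r)) ^ 4 := by
        rw [← pow_mul, mul_comm (2 * k * r) 4, pow_mul 2 4 (2 * k * r)]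
        norm_num
      rw [h2]
      have h3 := pow_le_pow_left₀ (by positivity) h1 4
      refine h3.trans (le_of_eq ?_)
      rw [mul_pow, ← Real.rpow_natCast ((N : ℝ) ^ (ε / 16)) 4, ← Real.rpow_mul (by linarith)]
      congr 2
      push_cast
      ring
    have hNe : (N : ℝ) ^ (ε / 4) * (N : ℝ) ^ (ε / 4) ≤ (N : ℝ) ^ ε := by
      rw [← Real.rpow_add (by linarith)]
      exact Real.rpow_le_rpow_of_exponent_le hN1 (by linarith)
    have hN0 : 0 < (N : ℝ) ^ ε := Real.rpow_pos_of_pos (by linarith) _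
    have hN4 : 0 < (N : ℝ) ^ (ε / 4) := Real.rpow_pos_of_pos (by linarith) _
    calc _ ≤ (B * (D * (N : ℝ) ^ (ε / 4))) * (A ^ 4 * (N : ℝ) ^ (ε / 4)) := by
          apply mul_le_mul (e4.trans (mul_le_mul_of_nonneg_left e5 hB0.le)) e6 (by positivity)
            (by positivity)
      _ = B * D * A ^ 4 * ((N : ℝ) ^ (ε / 4) * (N : ℝ) ^ (ε / 4)) := by ring
      _ ≤ B * D * A ^ 4 * (N : ℝ) ^ ε := mul_le_mul_of_nonneg_left hNe (by positivity)
      _ ≤ (2 * A + B * D * A ^ 4 + 1) * (N : ℝ) ^ ε := by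
          have : 0 < (2 * A + 1) * (N : ℝ) ^ ε := by positivity
          linarith

end Pool.Agent.KSX
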