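import Pool.Agent.KSX.St2

set_option autoImplicit false

open Finset Matrix

namespace Pool.Agent.KSX

theorem KRN_aux.mv {I : Type} [Fintype I] (A B : Matrix I I ℝ) (z : I → ℝ) (i : I × I) :
    (kr A B *ᵥ tz z) i = (A *ᵥ z) i.1 * (B *ᵥ z) i.2 := by
  simp only [Matrix.mulVec, dotProduct, kr, tz, Fintype.sum_prod_type, Finset.sum_mul_sum]
  exact Finset.sum_congr rfl fun a _ => Finset.sum_congr rfl fun b _ => by ring

theorem KRN_aux.dp {I : Type} [Fintype I] (a b c d : I → ℝ) :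
    (fun i : I × I => a i.1 * b i.2) ⬝ᵥ (fun i : I × I => c i.1 * d i.2) =
      (a ⬝ᵥ c) * (b ⬝ᵥ d) := by
  simp only [dotProduct, Fintype.sum_prod_type, Finset.sum_mul_sum]
  exact Finset.sum_congr rfl fun a _ => Finset.sum_congr rfl fun b _ => by ring

theorem t_KRN : S_KRN := by
  intro I _ _ A B z
  have h : kr A B *ᵥ tz z = fun i : I × I => (A *ᵥ z) i.1 * (B *ᵥ z) i.2 :=
    funext fun i => KRN_aux.mv A B z i
  refine ⟨rfl, ?_, ?_, ?_⟩
  · rw [h]
    exact KRN_aux.dp z z _ _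
  · rw [h]
    exact KRN_aux.dp _ _ _ _
  · rw [sq]
    exact KRN_aux.dp z z z z

end Pool.Agent.KSX
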