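import Pool.Agent.KSX.St2
import Pool.Agent.KSX.LIN

/-!
# Module LI2 of project KSX: matrix weights, with the transformation
-/

set_option autoImplicit false

open Finset Matrix

namespace Pool.Agent.KSX

noncomputable section

open LIN_aux in
theorem t_LI2 : S_LI2 := by
  intro E I _ _ _ A q D hq hD hA
  set W : Matrix I I ℝ := (1 / q) • (∑ e, A e * A e) + D • (1 : Matrix I I ℝ) with hW
  -- the quadratic form of `W`
  have hform : ∀ z : I → ℝ, z ⬝ᵥ (W *ᵥ z) =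
      1 / q * (∑ e, (A e *ᵥ z) ⬝ᵥ (A e *ᵥ z)) + D * (z ⬝ᵥ z) := by
    intro z
    rw [hW, add_mulVec, smul_mulVec, smul_mulVec, one_mulVec, dotProduct_add, dotProduct_smul,
      dotProduct_smul, smul_eq_mul, smul_eq_mul, Matrix.sum_mulVec, dotProduct_sum]
    congr 2
    refine Finset.sum_congr rfl fun e _ => ?_
    rw [← mulVec_mulVec, transpose_dot (A e) z (A e *ᵥ z), hA]
  have hWt : Wᵀ = W := by
    rw [hW, transpose_add, transpose_smul, transpose_smul, transpose_one, transpose_sum]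
    congr 2
    refine Finset.sum_congr rfl fun e _ => ?_
    rw [transpose_mul, hA]
  have hsum : ∀ z : I → ℝ, 0 ≤ ∑ e, (A e *ᵥ z) ⬝ᵥ (A e *ᵥ z) := fun z =>
    Finset.sum_nonneg fun e _ => dot_self_nonneg _
  have hge : ∀ z : I → ℝ, D * (z ⬝ᵥ z) ≤ z ⬝ᵥ (W *ᵥ z) := by
    intro z
    rw [hform]
    have := mul_nonneg (one_div_pos.2 hq).le (hsum z)
    linarith
  obtain ⟨R, hR⟩ := root hWt fun u => (mul_nonneg hD.le (dot_self_nonneg u)).trans (hge u)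
  have hRR : ∀ z : I → ℝ, (R *ᵥ z) ⬝ᵥ (R *ᵥ z) = z ⬝ᵥ (W *ᵥ z) := by
    intro z
    rw [transpose_dot, mulVec_mulVec, ← hR]
  -- `R` is invertible
  have hdet : IsUnit R.det := by
    rw [isUnit_iff_ne_zero]
    intro h0
    obtain ⟨v, hv, hv0⟩ := Matrix.exists_mulVec_eq_zero_iff.2 h0
    have h1 := hge v
    rw [← hRR, hv0, dotProduct_zero] at h1
    have h2 : v ⬝ᵥ v = 0 := by
      have := dot_self_nonneg v
      nlinarith
    exact hv (dotProduct_self_eq_zero.1 h2)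
  set S := R⁻¹ with hS
  have hRS : R * S = 1 := Matrix.mul_nonsing_inv R hdet
  have hSR : S * R = 1 := Matrix.nonsing_inv_mul R hdet
  have hRSv : ∀ z : I → ℝ, R *ᵥ (S *ᵥ z) = z := fun z => by
    rw [mulVec_mulVec, hRS, one_mulVec]
  have hSRv : ∀ z : I → ℝ, S *ᵥ (R *ᵥ z) = z := fun z => by
    rw [mulVec_mulVec, hSR, one_mulVec]
  have hB : ∀ (e : E) (z : I → ℝ), (Sᵀ * A e * S) *ᵥ z = Sᵀ *ᵥ (A e *ᵥ (S *ᵥ z)) := by
    intro e z
    rw [← mulVec_mulVec, ← mulVec_mulVec]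
  -- the bound for `Sᵀ`
  have hc : ∀ c : I → ℝ, (Sᵀ *ᵥ c) ⬝ᵥ (Sᵀ *ᵥ c) ≤ 1 / D * (c ⬝ᵥ c) := by
    intro c
    set g := (Sᵀ *ᵥ c) ⬝ᵥ (Sᵀ *ᵥ c) with hg
    set d := S *ᵥ (Sᵀ *ᵥ c) with hd
    have h1 : g = c ⬝ᵥ d := by
      rw [hg, transpose_dot, transpose_transpose]
    have h2 : R *ᵥ d = Sᵀ *ᵥ c := hRSv _
    have h3 : D * (d ⬝ᵥ d) ≤ g := by
      have := hge d
      rwa [← hRR, h2] at this
    have h4 := cauchy c d
    rw [← h1] at h4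
    have h5 : 0 ≤ g := dot_self_nonneg _
    have h6 : 0 ≤ c ⬝ᵥ c := dot_self_nonneg _
    rcases h5.eq_or_lt with h7 | h7
    · rw [← h7]
      exact mul_nonneg (one_div_pos.2 hD).le h6
    · have h8 : D * g ^ 2 ≤ (c ⬝ᵥ c) * g := by
        calc D * g ^ 2 ≤ D * ((c ⬝ᵥ c) * (d ⬝ᵥ d)) := mul_le_mul_of_nonneg_left h4 hD.le
          _ = (c ⬝ᵥ c) * (D * (d ⬝ᵥ d)) := by ring
          _ ≤ (c ⬝ᵥ c) * g := mul_le_mul_of_nonneg_left h3 h6
      have h9 : g * D ≤ c ⬝ᵥ c := by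
        refine le_of_mul_le_mul_right ?_ h7
        calc g * D * g = D * g ^ 2 := by ring
          _ ≤ _ := h8
      rw [one_div, inv_mul_eq_div, le_div_iff₀ hD]
      exact h9
  refine ⟨R, S, fun u => ?_, hc, fun u => ?_, fun z => ?_, fun z X => ?_⟩
  · have h1 := hge (S *ᵥ u)
    rw [← hRR, hRSv] at h1
    rw [one_div, inv_mul_eq_div, le_div_iff₀ hD, mul_comm]
    exact h1
  · show ∑ e, ((Sᵀ * A e * S) *ᵥ u) ⬝ᵥ ((Sᵀ * A e * S) *ᵥ u) ≤ q / D * (u ⬝ᵥ u)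
    set v := S *ᵥ u with hv
    have h1 : u ⬝ᵥ u = 1 / q * (∑ e, (A e *ᵥ v) ⬝ᵥ (A e *ᵥ v)) + D * (v ⬝ᵥ v) := by
      rw [← hform, ← hRR, hv, hRSv]
    have h2 : ∑ e, ((Sᵀ * A e * S) *ᵥ u) ⬝ᵥ ((Sᵀ * A e * S) *ᵥ u) ≤
        ∑ e, 1 / D * ((A e *ᵥ v) ⬝ᵥ (A e *ᵥ v)) :=
      Finset.sum_le_sum fun e _ => by
        rw [hB]
        exact hc _
    refine h2.trans ?_
    rw [← Finset.mul_sum, h1, mul_add]
    have h3 : q / D * (1 / q * ∑ e, (A e *ᵥ v) ⬝ᵥ (A e *ᵥ v)) =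
        1 / D * ∑ e, (A e *ᵥ v) ⬝ᵥ (A e *ᵥ v) := by
      field_simp
    rw [h3]
    have h4 : 0 ≤ q / D * (D * (v ⬝ᵥ v)) := by
      have := dot_self_nonneg v
      positivity
    linarith
  · rw [hRR, hform]
  · rw [← mulVec_mulVec, ← mulVec_mulVec, hSRv, dotProduct_comm, transpose_dot,
      transpose_transpose, hSRv, dotProduct_comm]

end

end Pool.Agent.KSX
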