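import Pool.Agent.KSX.St2

set_option autoImplicit false

/-!
# KSX, second part, LTP: the light case (helper62)
-/

open Finset Matrix

namespace Pool.Agent.KSX

namespace LTP_aux

theorem pow_le_imp {a b : ℝ} {n : ℕ} (hn : 1 ≤ n) (hb : 0 ≤ b) (h : a ^ n ≤ b ^ n) : a ≤ b := by
  by_contra h1
  push Not at h1
  have h2 := pow_lt_pow_left₀ h1 hb (by omega : n ≠ 0)
  linarith

/-- The final alternative, for real numbers. -/
theorem alt {Q q S a b h ρ W : ℝ} {p : ℕ} (hp : 1 ≤ p) (hQ : 0 < Q) (hq : 0 < q) (hS : 0 < S)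
    (ha : 0 < a) (hb : 0 < b) (hh : 0 < h) (_ : 0 < ρ) (hW : 2 * W ≤ 2 ^ p)
    (H : (ρ * Q) ^ (2 * (2 * p)) ≤
      (4 * Q) ^ (2 * p) * (q * (8 * S + 8 * a ^ 2 * Q / h)) ^ (2 * p) +
        (4 * Q) ^ (2 * p) * ((2 * Q) ^ (2 * p) *
          (W * (2 * p ^ 2 * (4 * (q ^ 2 * a ^ 2) * (S * b ^ 2) / Q ^ 2)) ^ p))) :
    ρ ^ 2 * Q ≤ 8 * q * (8 * S + 8 * a ^ 2 * Q / h) ∨
      ρ ^ 4 * Q ^ 2 ≤ 1024 * p ^ 2 * q ^ 2 * a ^ 2 * (S * b ^ 2) := by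
  have hp0 : (0 : ℝ) < p := by exact_mod_cast hp
  set Δ : ℝ := q * (8 * S + 8 * a ^ 2 * Q / h) with hΔ
  have hΔ0 : 0 < Δ := by positivity
  by_cases h1 : (ρ * Q) ^ (2 * (2 * p)) ≤ 2 * ((4 * Q) ^ (2 * p) * Δ ^ (2 * p))
  · left
    have h2 : ((ρ * Q) ^ 2) ^ (2 * p) ≤ (8 * Q * Δ) ^ (2 * p) := by
      rw [← pow_mul]
      refine h1.trans ?_
      have h3 : (2 : ℝ) ≤ 2 ^ (2 * p) := by
        calc (2 : ℝ) = 2 ^ 1 := (pow_one _).symm
          _ ≤ 2 ^ (2 * p) := pow_le_pow_right₀ one_le_two (by omega)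
      calc 2 * ((4 * Q) ^ (2 * p) * Δ ^ (2 * p)) ≤ 2 ^ (2 * p) * ((4 * Q) ^ (2 * p) * Δ ^ (2 * p)) :=
            mul_le_mul_of_nonneg_right h3 (by positivity)
        _ = (8 * Q * Δ) ^ (2 * p) := by
            rw [← mul_pow, ← mul_pow]
            congr 1
            ring
    have h3 := pow_le_imp (by omega) (by positivity) h2
    have h4 : Q * (ρ ^ 2 * Q) ≤ Q * (8 * Δ) := by nlinarith
    have h5 := le_of_mul_le_mul_left h4 hQ
    rw [hΔ] at h5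
    linarith
  · right
    push Not at h1
    have h2 : (ρ * Q) ^ (2 * (2 * p)) ≤ 2 * ((4 * Q) ^ (2 * p) * ((2 * Q) ^ (2 * p) *
          (W * (2 * p ^ 2 * (4 * (q ^ 2 * a ^ 2) * (S * b ^ 2) / Q ^ 2)) ^ p))) := by linarith
    set σ : ℝ := 4 * (q ^ 2 * a ^ 2) * (S * b ^ 2) / Q ^ 2 with hσ
    have hσ0 : 0 < σ := by positivity
    have h3 : ((ρ * Q) ^ 4) ^ p ≤ (256 * Q ^ 4 * p ^ 2 * σ) ^ p := by
      have e1 : ((ρ * Q) ^ 4) ^ p = (ρ * Q) ^ (2 * (2 * p)) := by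
        rw [← pow_mul]
        congr 1
        ring
      rw [e1]
      refine h2.trans ?_
      calc 2 * ((4 * Q) ^ (2 * p) * ((2 * Q) ^ (2 * p) * (W * (2 * p ^ 2 * σ) ^ p)))
          = (2 * W) * ((4 * Q) ^ (2 * p) * (2 * Q) ^ (2 * p) * (2 * p ^ 2 * σ) ^ p) := by ring
        _ ≤ 2 ^ p * ((4 * Q) ^ (2 * p) * (2 * Q) ^ (2 * p) * (2 * p ^ 2 * σ) ^ p) :=
            mul_le_mul_of_nonneg_right hW (by positivity)
        _ = (256 * Q ^ 4 * p ^ 2 * σ) ^ p := by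
            rw [pow_mul, pow_mul, ← mul_pow, ← mul_pow, ← mul_pow]
            congr 1
            ring
    have h4 := pow_le_imp hp (by positivity) h3
    have h5 : Q ^ 2 * (ρ ^ 4 * Q ^ 2) ≤ Q ^ 2 * (1024 * p ^ 2 * q ^ 2 * a ^ 2 * (S * b ^ 2)) := by
      have e2 : 256 * Q ^ 4 * (p : ℝ) ^ 2 * σ =
          Q ^ 2 * (1024 * p ^ 2 * q ^ 2 * a ^ 2 * (S * b ^ 2)) := by
        rw [hσ]
        field_simp
        ring
      rw [← e2]
      calc Q ^ 2 * (ρ ^ 4 * Q ^ 2) = (ρ * Q) ^ 4 := by ring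
        _ ≤ _ := h4
    exact le_of_mul_le_mul_left h5 (by positivity)

end LTP_aux

open LTP_aux in
theorem t_LTP (hOFF : S_OFF) (hCSL : S_CSL) (hDIA : S_DIA) (hPME : S_PME) : S_LTP := by
  intro E Γ V I Ω _ _ _ _ _ _ _ _ _ _ c A y z x h a b ρ m p hp hpm hMo hh ha hb hρ hE hΓ hV hy
    hdim hA hh1 hh2 hh3 hz hF
  set Q : ℝ := (Fintype.card E : ℝ) with hQdef
  set q : ℝ := (Fintype.card V : ℝ) with hqdef
  set S : ℝ := (Fintype.card Γ : ℝ) with hSdef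
  have hQ : 0 < Q := by rw [hQdef]; exact_mod_cast hE
  have hS : 0 < S := by rw [hSdef]; exact_mod_cast hΓ
  have hq : 0 < q := by rw [hqdef]; exact_mod_cast hV
  by_cases hT : a ^ 2 * Q ^ 2 ≤ 4 * h ^ 2 * (S * b ^ 2)
  · exact Or.inr (Or.inr hT)
  push Not at hT
  rw [← or_assoc]
  left
  have hO := hOFF E Γ V I Ω c A y z h (Q / S) (Q / b ^ 2) a b (q ^ 2 * a ^ 2) (2 * Q)
    (4 * (q ^ 2 * a ^ 2) * (S * b ^ 2) / Q ^ 2) m p hp hpm hMo hh.le (by positivity)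
    (by positivity) ha.le (by positivity) hA hh1 hh2 hz (by
      rw [← hQdef, ← hqdef]
      have e1 : q ^ 2 * a ^ 2 * Q / (q ^ 2 * a ^ 2) = Q := by field_simp
      have e2 : Q / b ^ 2 * b ^ 2 = Q := by field_simp
      rw [e1, e2]
      linarith) (by
      refine le_of_eq ?_
      field_simp) (by
      rw [← hqdef]
      have e1 : 16 * q ^ 2 * h ^ 2 / (Q / S * (Q / b ^ 2)) ^ 2 =
          (4 * q ^ 2 * (S * b ^ 2) / Q ^ 4) * (4 * h ^ 2 * (S * b ^ 2)) := by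
        field_simp
        ring
      have e2 : 4 * (q ^ 2 * a ^ 2) * (S * b ^ 2) / Q ^ 2 =
          (4 * q ^ 2 * (S * b ^ 2) / Q ^ 4) * (a ^ 2 * Q ^ 2) := by
        field_simp
      rw [e1, e2]
      exact mul_le_mul_of_nonneg_left hT.le (by positivity))
  have hD := hDIA E Γ V c (Q / S) a h (by positivity) hh
  rw [← hQdef, ← hqdef, ← hSdef] at hD
  set O : Ω → ℝ := fun ω => ∑ e, ∑ e', gw c (Q / S) e e' * (y ω e * y ω e') *
        ∑ v, (z ω ⬝ᵥ (A e v *ᵥ z ω)) * (z ω ⬝ᵥ (A e' v *ᵥ z ω)) with hOdef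
  set F : Ω → ℝ := fun ω => ∑ e, y ω e * (z ω ⬝ᵥ (A e (x ω (c e)) *ᵥ z ω)) with hFdef
  set Δ : ℝ := q * (8 * S + 8 * a ^ 2 * Q / h) with hΔ
  have hsq : ∀ ω, F ω ^ 2 ≤ 2 * Q * (Δ + O ω) := by
    intro ω
    have h1 := hCSL E Γ V I c A (y ω) (z ω) (x ω)
      (fun γ => 8 * dc c γ + 8 * a ^ 2 * dc c γ ^ 2 / h) (Q / S) (by positivity) (hy ω) (hh3 ω)
    rw [← hQdef, ← hSdef] at h1
    have e1 : Q + S * (Q / S) = 2 * Q := by
      field_simp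
      ring
    rw [e1] at h1
    refine h1.trans ?_
    refine mul_le_mul_of_nonneg_left ?_ (by positivity)
    exact add_le_add_left hD _
  have h4 : ∀ ω, F ω ^ (2 * (2 * p)) ≤ (4 * Q) ^ (2 * p) * (Δ ^ (2 * p) + O ω ^ (2 * p)) := by
    intro ω
    have h5 : F ω ^ (2 * (2 * p)) ≤ (2 * Q * (Δ + O ω)) ^ (2 * p) := by
      rw [pow_mul]
      exact pow_le_pow_left₀ (sq_nonneg _) (hsq ω) _
    refine h5.trans ?_
    rw [mul_pow]
    have h6 : (Δ + O ω) ^ (2 * p) ≤ 2 ^ (2 * p) * (Δ ^ (2 * p) + O ω ^ (2 * p)) := by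
      have he : Even (2 * p) := even_two_mul p
      refine (Even.add_pow_le he).trans ?_
      refine mul_le_mul_of_nonneg_right (pow_le_pow_right₀ one_le_two (Nat.sub_le _ _)) ?_
      exact add_nonneg (he.pow_nonneg _) (he.pow_nonneg _)
    calc (2 * Q) ^ (2 * p) * (Δ + O ω) ^ (2 * p)
        ≤ (2 * Q) ^ (2 * p) * (2 ^ (2 * p) * (Δ ^ (2 * p) + O ω ^ (2 * p))) :=
          mul_le_mul_of_nonneg_left h6 (by positivity)
      _ = (4 * Q) ^ (2 * p) * (Δ ^ (2 * p) + O ω ^ (2 * p)) := by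
          rw [← mul_assoc, ← mul_pow]
          congr 2
          ring
  have h5 := hPME Ω F (2 * p) (ρ * Q) (by positivity) hF
  have hΩ : (0 : ℝ) < Fintype.card Ω := by exact_mod_cast Fintype.card_pos
  have h6 : ∑ ω, F ω ^ (2 * (2 * p)) ≤ (4 * Q) ^ (2 * p) * (Fintype.card Ω * Δ ^ (2 * p) +
      (2 * Q) ^ (2 * p) * (Fintype.card Ω * ((Q + 1) * (Fintype.card I : ℝ) ^ 2) *
        (2 * p ^ 2 * (4 * (q ^ 2 * a ^ 2) * (S * b ^ 2) / Q ^ 2)) ^ p)) := by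
    calc ∑ ω, F ω ^ (2 * (2 * p)) ≤ ∑ ω, (4 * Q) ^ (2 * p) * (Δ ^ (2 * p) + O ω ^ (2 * p)) :=
          sum_le_sum fun ω _ => h4 ω
      _ = (4 * Q) ^ (2 * p) * (Fintype.card Ω * Δ ^ (2 * p) + ∑ ω, O ω ^ (2 * p)) := by
          rw [← mul_sum, sum_add_distrib, sum_const, card_univ, nsmul_eq_mul]
      _ ≤ _ := by
          refine mul_le_mul_of_nonneg_left ?_ (by positivity)
          exact add_le_add_right hO _
  have h7 := h5.trans h6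
  refine alt (W := (Q + 1) * (Fintype.card I : ℝ) ^ 2) hp hQ hq hS ha hb hh hρ (by
    rw [← mul_assoc]
    exact hdim) ?_
  refine le_of_mul_le_mul_right ?_ hΩ
  refine h7.trans (le_of_eq ?_)
  ring

end Pool.Agent.KSX
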