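import Pool.Agent.KSX.St2

set_option autoImplicit false

open Finset Matrix

namespace Pool.Agent.KSX

theorem MPR_aux.split {E : Type} (M : ℕ) (h : E → ℝ) (φ : Fin M → E × E) :
    ∏ i, (h (φ i).1 * h (φ i).2) =
      ∏ i : Fin (M + M), h (Fin.append (fun i => (φ i).1) (fun i => (φ i).2) i) := by
  rw [Fin.prod_univ_add, Finset.prod_mul_distrib]
  simp only [Fin.append_left, Fin.append_right]

theorem t_MPR : S_MPR := by
  intro Ω E _ _ _ y M m hM hy φ
  have h := hy (M + M) (by omega) (Fin.append (fun i => (φ i).1) (fun i => (φ i).2))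
  have e1 : ∀ ω, ∏ i, (y ω (φ i).1 * y ω (φ i).2) =
      ∏ i : Fin (M + M), y ω (Fin.append (fun i => (φ i).1) (fun i => (φ i).2) i) :=
    fun ω => MPR_aux.split M (y ω) φ
  have e2 : ∀ g : E → Bool, ∏ i, (sgn (g (φ i).1) * sgn (g (φ i).2)) =
      ∏ i : Fin (M + M), sgn (g (Fin.append (fun i => (φ i).1) (fun i => (φ i).2) i)) :=
    fun g => MPR_aux.split M (fun e => sgn (g e)) φ
  simp_rw [e1, e2]
  exact h

end Pool.Agent.KSX
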