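import Pool.Agent.KSX.St2

/-!
# Project KSX, module OFF: the off-diagonal part
-/

set_option autoImplicit false

open Finset Matrix

namespace Pool.Agent.KSX

namespace OFF_aux

lemma nsq_nonneg {J : Type} [Fintype J] (u : J → ℝ) : 0 ≤ u ⬝ᵥ u :=
  Finset.sum_nonneg fun i _ => mul_self_nonneg (u i)

lemma nsq_add {J : Type} [Fintype J] (u v : J → ℝ) :
    (u + v) ⬝ᵥ (u + v) ≤ 2 * (u ⬝ᵥ u) + 2 * (v ⬝ᵥ v) := by
  have h := nsq_nonneg (u - v)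
  have e1 : (u - v) ⬝ᵥ (u - v) = u ⬝ᵥ u - 2 * (u ⬝ᵥ v) + v ⬝ᵥ v := by
    rw [sub_dotProduct, dotProduct_sub, dotProduct_sub, dotProduct_comm v u]
    ring
  have e2 : (u + v) ⬝ᵥ (u + v) = u ⬝ᵥ u + 2 * (u ⬝ᵥ v) + v ⬝ᵥ v := by
    rw [add_dotProduct, dotProduct_add, dotProduct_add, dotProduct_comm v u]
    ring
  linarith

lemma nsq_smul {J : Type} [Fintype J] (c : ℝ) (u : J → ℝ) :
    (c • u) ⬝ᵥ (c • u) = c ^ 2 * (u ⬝ᵥ u) := by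
  rw [smul_dotProduct, dotProduct_smul, smul_eq_mul, smul_eq_mul]
  ring

lemma dc_nonneg {E Γ : Type} [Fintype E] [DecidableEq Γ] (c : E → Γ) (γ : Γ) : 0 ≤ dc c γ :=
  Nat.cast_nonneg _

lemma gw_nonneg {E Γ : Type} [Fintype E] [DecidableEq E] [DecidableEq Γ] (c : E → Γ) {D : ℝ}
    (hD : 0 < D) (e e' : E) : 0 ≤ gw c D e e' := by
  unfold gw
  split_ifs
  · have := dc_nonneg c (c e)
    positivity
  · exact le_rfl

lemma gw_le {E Γ : Type} [Fintype E] [DecidableEq E] [DecidableEq Γ] (c : E → Γ) {D : ℝ}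
    (hD : 0 < D) (e e' : E) : gw c D e e' ≤ 1 / D := by
  unfold gw
  split_ifs
  · have := dc_nonneg c (c e)
    exact one_div_le_one_div_of_le hD (by linarith)
  · positivity

lemma gw_self {E Γ : Type} [Fintype E] [DecidableEq E] [DecidableEq Γ] (c : E → Γ) (D : ℝ)
    (e : E) : gw c D e e = 0 := by
  unfold gw
  rw [if_neg fun h => h.2 rfl]

lemma MM_symm (hKRN : S_KRN) {E V I : Type} [Fintype V] [Fintype I] [DecidableEq I]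
    (A : E → V → Matrix I I ℝ) (hA : ∀ e v, (A e v)ᵀ = A e v) (e e' : E) :
    (MM A e e')ᵀ = MM A e e' := by
  unfold MM
  rw [Matrix.transpose_sum]
  refine sum_congr rfl fun v _ => ?_
  rw [(hKRN I (A e v) (A e' v) 0).1, hA, hA]

lemma MM_quad (hKRN : S_KRN) {E V I : Type} [Fintype V] [Fintype I] [DecidableEq I]
    (A : E → V → Matrix I I ℝ) (e e' : E) (z : I → ℝ) :
    tz z ⬝ᵥ (MM A e e' *ᵥ tz z) = ∑ v, (z ⬝ᵥ (A e v *ᵥ z)) * (z ⬝ᵥ (A e' v *ᵥ z)) := by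
  unfold MM
  rw [Matrix.sum_mulVec, dotProduct_sum]
  exact sum_congr rfl fun v _ => (hKRN I (A e v) (A e' v) z).2.1

lemma trace_even_nonneg {J : Type} [Fintype J] [DecidableEq J] (X : Matrix J J ℝ) (hX : Xᵀ = X)
    (p : ℕ) : 0 ≤ (X ^ (2 * p)).trace := by
  have h1 : X ^ (2 * p) = X ^ p * (X ^ p)ᵀ := by
    rw [Matrix.transpose_pow, hX, two_mul, pow_add]
  rw [h1, Matrix.trace]
  refine sum_nonneg fun i _ => ?_
  rw [Matrix.diag_apply, Matrix.mul_apply]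
  refine sum_nonneg fun j _ => ?_
  rw [Matrix.transpose_apply]
  exact mul_self_nonneg _

/-- a double sum of a symmetrised function -/
lemma sum_sym {E : Type} [Fintype E] (F : E → E → ℝ) :
    ∑ e, ∑ e', (2 * F e e' + 2 * F e' e) = 4 * ∑ e, ∑ e', F e e' := by
  have h1 : ∑ e, ∑ e', F e' e = ∑ e, ∑ e', F e e' := sum_comm
  have h2 : ∑ e, ∑ e', (2 * F e e' + 2 * F e' e) =
      2 * ∑ e, ∑ e', F e e' + 2 * ∑ e, ∑ e', F e' e := by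
    simp only [sum_add_distrib, mul_sum]
  rw [h2, h1]
  ring

end OFF_aux

/-- The off-diagonal part. -/
theorem t_OFF (hLI2 : S_LI2) (hKRN : S_KRN) (hPWT : S_PWT) (hFLT : S_FLT) (hCHK : S_CHK)
    (hMPR : S_MPR) (hTRF : S_TRF) (hTRP : S_TRP) : S_OFF := by
  intro E Γ V I Ω _ _ _ _ _ _ _ _ c A y z h D1 D2 a b α κ σ m p hp hpm hMo hh hD1 hD2 ha hα hA
    hAh hAz hz hκ hσ1 hσ2
  have hσ0 : 0 ≤ σ := le_trans (by positivity) hσ1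
  obtain ⟨g, hg⟩ : ∃ g : E → E → ℝ, g = gw c D1 := ⟨_, rfl⟩
  have hg0 : ∀ e e', 0 ≤ g e e' := fun e e' => by
    rw [hg]
    exact OFF_aux.gw_nonneg c hD1 e e'
  have hg1 : ∀ e e', g e e' ≤ 1 / D1 := fun e e' => by
    rw [hg]
    exact OFF_aux.gw_le c hD1 e e'
  have hMs : ∀ e e', (MM A e e')ᵀ = MM A e e' := OFF_aux.MM_symm hKRN A hA
  obtain ⟨R, T, hT1, hT2, hTT, hRR, hRX⟩ := hLI2 (E × E) (I × I)
    (fun P => √(g P.1 P.2) • MM A P.1 P.2) α D2 hα hD2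
    (fun P => by rw [Matrix.transpose_smul, hMs])
  obtain ⟨K, hK⟩ : ∃ K : E → E → Matrix (I × I) (I × I) ℝ,
      ∀ e e', K e e' = g e e' • (Tᵀ * MM A e e' * T) := ⟨_, fun _ _ => rfl⟩
  have hKs : ∀ e e', (K e e')ᵀ = K e e' := fun e e' => by
    rw [hK]
    simp only [Matrix.transpose_smul, Matrix.transpose_mul, Matrix.transpose_transpose, hMs,
      Matrix.mul_assoc]
  have hK0 : ∀ e, K e e = 0 := fun e => by
    rw [hK, hg, OFF_aux.gw_self, zero_smul]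
  -- first condition
  have hKb : ∀ b' : I × I → ℝ, ∑ e, ∑ e', (K e e' *ᵥ b') ⬝ᵥ (K e e' *ᵥ b') ≤
      α / (D1 * D2) * (b' ⬝ᵥ b') := by
    intro b'
    have e1 : ∀ e e', (K e e' *ᵥ b') ⬝ᵥ (K e e' *ᵥ b') ≤ 1 / D1 *
        (((Tᵀ * (√(g e e') • MM A e e') * T) *ᵥ b') ⬝ᵥ
          ((Tᵀ * (√(g e e') • MM A e e') * T) *ᵥ b')) := by
      intro e e'
      have e2 : K e e' = √(g e e') • (Tᵀ * (√(g e e') • MM A e e') * T) := by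
        rw [hK, Matrix.mul_smul, Matrix.smul_mul, smul_smul, Real.mul_self_sqrt (hg0 e e')]
      rw [e2, Matrix.smul_mulVec, OFF_aux.nsq_smul, Real.sq_sqrt (hg0 e e')]
      exact mul_le_mul_of_nonneg_right (hg1 e e') (OFF_aux.nsq_nonneg _)
    have e3 := hTT b'
    rw [Fintype.sum_prod_type] at e3
    calc ∑ e, ∑ e', (K e e' *ᵥ b') ⬝ᵥ (K e e' *ᵥ b')
        ≤ ∑ e, ∑ e', 1 / D1 * (((Tᵀ * (√(g e e') • MM A e e') * T) *ᵥ b') ⬝ᵥ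
          ((Tᵀ * (√(g e e') • MM A e e') * T) *ᵥ b')) :=
          sum_le_sum fun e _ => sum_le_sum fun e' _ => e1 e e'
      _ = 1 / D1 * ∑ e, ∑ e', (((Tᵀ * (√(g e e') • MM A e e') * T) *ᵥ b') ⬝ᵥ
          ((Tᵀ * (√(g e e') • MM A e e') * T) *ᵥ b')) := by simp only [mul_sum]
      _ ≤ 1 / D1 * (α / D2 * (b' ⬝ᵥ b')) := mul_le_mul_of_nonneg_left e3 (by positivity)
      _ = α / (D1 * D2) * (b' ⬝ᵥ b') := by
          field_simp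
  have c1 : ∀ b' : I × I → ℝ, ∑ e, ∑ e', ((K e e' + K e' e) *ᵥ b') ⬝ᵥ
      ((K e e' + K e' e) *ᵥ b') ≤ σ * (b' ⬝ᵥ b') := by
    intro b'
    have e1 : ∀ e e', ((K e e' + K e' e) *ᵥ b') ⬝ᵥ ((K e e' + K e' e) *ᵥ b') ≤
        2 * ((K e e' *ᵥ b') ⬝ᵥ (K e e' *ᵥ b')) + 2 * ((K e' e *ᵥ b') ⬝ᵥ (K e' e *ᵥ b')) := by
      intro e e'
      rw [Matrix.add_mulVec]
      exact OFF_aux.nsq_add _ _
    calc ∑ e, ∑ e', ((K e e' + K e' e) *ᵥ b') ⬝ᵥ ((K e e' + K e' e) *ᵥ b')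
        ≤ ∑ e, ∑ e', (2 * ((K e e' *ᵥ b') ⬝ᵥ (K e e' *ᵥ b')) +
            2 * ((K e' e *ᵥ b') ⬝ᵥ (K e' e *ᵥ b'))) :=
          sum_le_sum fun e _ => sum_le_sum fun e' _ => e1 e e'
      _ = 4 * ∑ e, ∑ e', (K e e' *ᵥ b') ⬝ᵥ (K e e' *ᵥ b') :=
          OFF_aux.sum_sym fun e e' => (K e e' *ᵥ b') ⬝ᵥ (K e e' *ᵥ b')
      _ ≤ 4 * (α / (D1 * D2) * (b' ⬝ᵥ b')) := mul_le_mul_of_nonneg_left (hKb b') (by norm_num)
      _ = 4 * α / (D1 * D2) * (b' ⬝ᵥ b') := by ring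
      _ ≤ σ * (b' ⬝ᵥ b') := mul_le_mul_of_nonneg_right hσ1 (OFF_aux.nsq_nonneg _)
  -- second condition
  have c2 : ∀ a' : E → I × I → ℝ, ∑ e', (∑ e, (K e e' + K e' e) *ᵥ a' e) ⬝ᵥ
      (∑ e, (K e e' + K e' e) *ᵥ a' e) ≤ σ * ∑ e, a' e ⬝ᵥ a' e := by
    intro a'
    have hfl := hFLT E Γ V I c A D1 h hD1 hh hA hAh (fun e => T *ᵥ a' e)
    rw [← hg] at hfl
    obtain ⟨f1, f2⟩ := hfl
    have hw : ∑ e, (T *ᵥ a' e) ⬝ᵥ (T *ᵥ a' e) ≤ 1 / D2 * ∑ e, a' e ⬝ᵥ a' e := by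
      rw [mul_sum]
      exact sum_le_sum fun e _ => hT1 (a' e)
    obtain ⟨S1, hS1⟩ : ∃ S1 : E → I × I → ℝ,
        ∀ e', S1 e' = ∑ e, g e e' • (MM A e e' *ᵥ (T *ᵥ a' e)) := ⟨_, fun _ => rfl⟩
    obtain ⟨S2, hS2⟩ : ∃ S2 : E → I × I → ℝ,
        ∀ e', S2 e' = ∑ e, g e' e • (MM A e' e *ᵥ (T *ᵥ a' e)) := ⟨_, fun _ => rfl⟩
    have hsum : ∀ e', ∑ e, (K e e' + K e' e) *ᵥ a' e = Tᵀ *ᵥ S1 e' + Tᵀ *ᵥ S2 e' := by
      intro e'
      have e1 : ∀ e₁ e₂ e, K e₁ e₂ *ᵥ a' e = Tᵀ *ᵥ (g e₁ e₂ • (MM A e₁ e₂ *ᵥ (T *ᵥ a' e))) := by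
        intro e₁ e₂ e
        rw [hK, Matrix.smul_mulVec, Matrix.mulVec_smul, Matrix.mulVec_mulVec,
          Matrix.mulVec_mulVec, Matrix.mul_assoc]
      rw [hS1, hS2, ← Matrix.mulVec_add, ← sum_add_distrib, Matrix.mulVec_sum]
      refine sum_congr rfl fun e _ => ?_
      rw [Matrix.add_mulVec, e1, e1, Matrix.mulVec_add]
    have e2 : ∀ e', (∑ e, (K e e' + K e' e) *ᵥ a' e) ⬝ᵥ (∑ e, (K e e' + K e' e) *ᵥ a' e) ≤
        2 / D2 * (S1 e' ⬝ᵥ S1 e') + 2 / D2 * (S2 e' ⬝ᵥ S2 e') := by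
      intro e'
      rw [hsum]
      have h1 := OFF_aux.nsq_add (Tᵀ *ᵥ S1 e') (Tᵀ *ᵥ S2 e')
      have h2 := hT2 (S1 e')
      have h3 := hT2 (S2 e')
      have h4 : 2 / D2 * (S1 e' ⬝ᵥ S1 e') + 2 / D2 * (S2 e' ⬝ᵥ S2 e') =
          2 * (1 / D2 * (S1 e' ⬝ᵥ S1 e')) + 2 * (1 / D2 * (S2 e' ⬝ᵥ S2 e')) := by ring
      rw [h4]
      linarith
    have f1' : ∑ e', S1 e' ⬝ᵥ S1 e' ≤
        4 * (Fintype.card V : ℝ) ^ 2 * h ^ 2 / D1 ^ 2 * (1 / D2 * ∑ e, a' e ⬝ᵥ a' e) := by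
      have h1 : ∑ e', S1 e' ⬝ᵥ S1 e' = ∑ e', (∑ e, g e e' • (MM A e e' *ᵥ (T *ᵥ a' e))) ⬝ᵥ
          (∑ e, g e e' • (MM A e e' *ᵥ (T *ᵥ a' e))) :=
        sum_congr rfl fun e' _ => by rw [hS1]
      rw [h1]
      exact f1.trans (mul_le_mul_of_nonneg_left hw (by positivity))
    have f2' : ∑ e', S2 e' ⬝ᵥ S2 e' ≤
        4 * (Fintype.card V : ℝ) ^ 2 * h ^ 2 / D1 ^ 2 * (1 / D2 * ∑ e, a' e ⬝ᵥ a' e) := by
      have h1 : ∑ e', S2 e' ⬝ᵥ S2 e' = ∑ e', (∑ e, g e' e • (MM A e' e *ᵥ (T *ᵥ a' e))) ⬝ᵥ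
          (∑ e, g e' e • (MM A e' e *ᵥ (T *ᵥ a' e))) :=
        sum_congr rfl fun e' _ => by rw [hS2]
      rw [h1]
      exact f2.trans (mul_le_mul_of_nonneg_left hw (by positivity))
    have ha0 : 0 ≤ ∑ e, a' e ⬝ᵥ a' e := sum_nonneg fun e _ => OFF_aux.nsq_nonneg _
    calc ∑ e', (∑ e, (K e e' + K e' e) *ᵥ a' e) ⬝ᵥ (∑ e, (K e e' + K e' e) *ᵥ a' e)
        ≤ ∑ e', (2 / D2 * (S1 e' ⬝ᵥ S1 e') + 2 / D2 * (S2 e' ⬝ᵥ S2 e')) :=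
          sum_le_sum fun e' _ => e2 e'
      _ = 2 / D2 * ∑ e', S1 e' ⬝ᵥ S1 e' + 2 / D2 * ∑ e', S2 e' ⬝ᵥ S2 e' := by
          rw [sum_add_distrib, mul_sum, mul_sum]
      _ ≤ 2 / D2 * (4 * (Fintype.card V : ℝ) ^ 2 * h ^ 2 / D1 ^ 2 *
            (1 / D2 * ∑ e, a' e ⬝ᵥ a' e)) +
          2 / D2 * (4 * (Fintype.card V : ℝ) ^ 2 * h ^ 2 / D1 ^ 2 *
            (1 / D2 * ∑ e, a' e ⬝ᵥ a' e)) :=
          add_le_add (mul_le_mul_of_nonneg_left f1' (by positivity))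
            (mul_le_mul_of_nonneg_left f2' (by positivity))
      _ = 16 * (Fintype.card V : ℝ) ^ 2 * h ^ 2 / (D1 * D2) ^ 2 * ∑ e, a' e ⬝ᵥ a' e := by
          field_simp
          ring
      _ ≤ σ * ∑ e, a' e ⬝ᵥ a' e := mul_le_mul_of_nonneg_right hσ2 ha0
  have hchk := hCHK E (I × I) K σ p hp hσ0 hK0 hKs c1 c2
  -- the norm of the vector
  have hu : ∀ ω, (R *ᵥ tz (z ω)) ⬝ᵥ (R *ᵥ tz (z ω)) ≤ κ := by
    intro ω
    rw [hRR, Fintype.sum_prod_type]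
    have e1 : ∀ e e', ((√(g e e') • MM A e e') *ᵥ tz (z ω)) ⬝ᵥ
        ((√(g e e') • MM A e e') *ᵥ tz (z ω)) =
        g e e' * ((MM A e e' *ᵥ tz (z ω)) ⬝ᵥ (MM A e e' *ᵥ tz (z ω))) := by
      intro e e'
      rw [Matrix.smul_mulVec, OFF_aux.nsq_smul, Real.sq_sqrt (hg0 e e')]
    have e2 := hPWT E Γ V I c A D1 a (z ω) hD1 ha (hAz ω)
    rw [← hg] at e2
    have e3 : ∑ e, ∑ e', ((√(g e e') • MM A e e') *ᵥ tz (z ω)) ⬝ᵥ
        ((√(g e e') • MM A e e') *ᵥ tz (z ω)) ≤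
        (Fintype.card V : ℝ) ^ 2 * a ^ 2 * Fintype.card E := by
      refine le_trans (le_of_eq ?_) e2
      exact sum_congr rfl fun e _ => sum_congr rfl fun e' _ => e1 e e'
    have e4 : tz (z ω) ⬝ᵥ tz (z ω) ≤ b ^ 2 := by
      rw [(hKRN I 0 0 (z ω)).2.2.2]
      exact pow_le_pow_left₀ (OFF_aux.nsq_nonneg _) (hz ω) 2
    refine le_trans (add_le_add (mul_le_mul_of_nonneg_left e3 (by positivity))
      (mul_le_mul_of_nonneg_left e4 hD2.le)) ?_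
    refine le_trans (le_of_eq ?_) hκ
    ring
  -- one point
  have hone : ∀ ω, (∑ e, ∑ e', gw c D1 e e' * (y ω e * y ω e') *
      ∑ v, (z ω ⬝ᵥ (A e v *ᵥ z ω)) * (z ω ⬝ᵥ (A e' v *ᵥ z ω))) ^ (2 * p) ≤
      κ ^ (2 * p) * ((∑ P : E × E, (y ω P.1 * y ω P.2) • K P.1 P.2) ^ (2 * p)).trace := by
    intro ω
    have hsym : (∑ P : E × E, (y ω P.1 * y ω P.2) • K P.1 P.2)ᵀ =
        ∑ P : E × E, (y ω P.1 * y ω P.2) • K P.1 P.2 := by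
      rw [Matrix.transpose_sum]
      refine sum_congr rfl fun P _ => ?_
      rw [Matrix.transpose_smul, hKs]
    have e1 : ∑ e, ∑ e', gw c D1 e e' * (y ω e * y ω e') *
        ∑ v, (z ω ⬝ᵥ (A e v *ᵥ z ω)) * (z ω ⬝ᵥ (A e' v *ᵥ z ω)) =
        (R *ᵥ tz (z ω)) ⬝ᵥ ((∑ P : E × E, (y ω P.1 * y ω P.2) • K P.1 P.2) *ᵥ
          (R *ᵥ tz (z ω))) := by
      rw [Matrix.sum_mulVec, dotProduct_sum, Fintype.sum_prod_type]
      refine sum_congr rfl fun e _ => sum_congr rfl fun e' _ => ?_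
      rw [← OFF_aux.MM_quad hKRN, ← hg, Matrix.smul_mulVec, dotProduct_smul, smul_eq_mul, hK,
        Matrix.smul_mulVec, dotProduct_smul, smul_eq_mul, hRX]
      ring
    rw [e1]
    refine (hTRP (I × I) _ (R *ᵥ tz (z ω)) p hp hsym).trans ?_
    exact mul_le_mul_of_nonneg_right (pow_le_pow_left₀ (OFF_aux.nsq_nonneg _) (hu ω) _)
      (OFF_aux.trace_even_nonneg _ hsym p)
  -- the moments
  have hmom := hTRF (E × E) (I × I) Ω (E → Bool) (fun P => K P.1 P.2)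
    (fun ω P => y ω P.1 * y ω P.2) (fun g P => sgn (g P.1) * sgn (g P.2))
    (Fintype.card Ω : ℝ) (Fintype.card (E → Bool) : ℝ) (2 * p)
    (fun φ => hMPR Ω E y (2 * p) m (by omega) hMo φ)
  have hc : (0 : ℝ) < (Fintype.card (E → Bool) : ℝ) := by
    exact_mod_cast Fintype.card_pos
  have htr : ∑ ω, ((∑ P : E × E, (y ω P.1 * y ω P.2) • K P.1 P.2) ^ (2 * p)).trace ≤
      Fintype.card Ω * ((Fintype.card E + 1) * (Fintype.card I : ℝ) ^ 2) *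
        (2 * p ^ 2 * σ) ^ p := by
    refine le_of_mul_le_mul_right ?_ hc
    rw [hmom]
    have e1 : ∑ g : E → Bool,
        ((∑ P : E × E, (sgn (g P.1) * sgn (g P.2)) • K P.1 P.2) ^ (2 * p)).trace ≤
        (Fintype.card (E → Bool) : ℝ) * ((Fintype.card E + 1) * (Fintype.card I : ℝ) ^ 2) *
          (2 * p ^ 2 * σ) ^ p := by
      have e2 : ∀ g : E → Bool, ∑ P : E × E, (sgn (g P.1) * sgn (g P.2)) • K P.1 P.2 =
          ∑ e, ∑ e', (sgn (g e) * sgn (g e')) • K e e' := fun g => Fintype.sum_prod_type _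
      have e3 : ((Fintype.card (I × I) : ℕ) : ℝ) = (Fintype.card I : ℝ) ^ 2 := by
        rw [Fintype.card_prod]
        push_cast
        ring
      rw [e3] at hchk
      refine le_trans (le_of_eq ?_) hchk
      exact sum_congr rfl fun g _ => by rw [e2]
    calc _ ≤ ((Fintype.card (E → Bool) : ℝ) *
          ((Fintype.card E + 1) * (Fintype.card I : ℝ) ^ 2) * (2 * p ^ 2 * σ) ^ p) *
            (Fintype.card Ω : ℝ) := mul_le_mul_of_nonneg_right e1 (Nat.cast_nonneg _)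
      _ = _ := by ring
  have hκ0 : 0 ≤ κ := le_trans (by positivity) hκ
  calc _ ≤ ∑ ω, κ ^ (2 * p) *
        ((∑ P : E × E, (y ω P.1 * y ω P.2) • K P.1 P.2) ^ (2 * p)).trace :=
        sum_le_sum fun ω _ => hone ω
    _ = κ ^ (2 * p) * ∑ ω,
        ((∑ P : E × E, (y ω P.1 * y ω P.2) • K P.1 P.2) ^ (2 * p)).trace := by rw [mul_sum]
    _ ≤ _ := mul_le_mul_of_nonneg_left htr (by positivity)

end Pool.Agent.KSX
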