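import Pool.Agent.KSX.St2

/-!
# KSX, module PR3: the parameters for odd `T`
-/

set_option autoImplicit false

open Finset Matrix

namespace Pool.Agent.KSX

namespace PR3_aux

/-- bound of a power by a product with further factors -/
lemma pow_le_prod (A B k c d e : ℕ) (h : A ≤ B) (hc : 1 ≤ c) (hd : 1 ≤ d) (he : 1 ≤ e) :
    A ^ k ≤ B ^ k * c * d * e := by
  have h1 : A ^ k ≤ B ^ k := Nat.pow_le_pow_left h k
  calc A ^ k ≤ B ^ k := h1
    _ ≤ B ^ k * c := Nat.le_mul_of_pos_right _ hc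
    _ ≤ B ^ k * c * d := Nat.le_mul_of_pos_right _ hd
    _ ≤ B ^ k * c * d * e := Nat.le_mul_of_pos_right _ he

/-- the two conditions on the dimensions -/
lemma dims (k ℓ N n q S t p : ℕ) (hN : 1 ≤ N) (hN2 : N ≤ 2 ^ ℓ) (hnN : n ≤ N) (hq : 1 ≤ q)
    (hS : 1 ≤ S) (hp : p = 8 * k * ℓ + 8)
    (hW : q ^ (2 * t + 2) * S ^ (2 * t + 1) ≤ N ^ (2 * k)) :
    (S * q + 1) * (2 * (q * S) ^ t) ≤ 2 ^ p ∧
      2 * (n ^ k + 1) * (2 * (q * S) ^ t) ^ 2 ≤ 2 ^ p := by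
  have hNk : 1 ≤ N ^ k := Nat.one_le_pow _ _ hN
  have h1 : (q * S) ^ t ≤ N ^ k := by
    have h2 : ((q * S) ^ t) ^ 2 ≤ (N ^ k) ^ 2 := by
      calc ((q * S) ^ t) ^ 2 = q ^ (2 * t) * S ^ (2 * t) := by rw [← pow_mul, mul_pow, mul_comm t]
        _ ≤ q ^ (2 * t + 2) * S ^ (2 * t + 1) :=
          Nat.mul_le_mul (Nat.pow_le_pow_right hq (by omega)) (Nat.pow_le_pow_right hS (by omega))
        _ ≤ N ^ (2 * k) := hW
        _ = (N ^ k) ^ 2 := by rw [← pow_mul, mul_comm]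
    exact (Nat.pow_le_pow_iff_left (by norm_num)).1 h2
  have h2 : S * q ≤ N ^ (2 * k) := by
    calc S * q = q ^ 1 * S ^ 1 := by rw [pow_one, pow_one, mul_comm]
      _ ≤ q ^ (2 * t + 2) * S ^ (2 * t + 1) :=
          Nat.mul_le_mul (Nat.pow_le_pow_right hq (by omega)) (Nat.pow_le_pow_right hS (by omega))
      _ ≤ N ^ (2 * k) := hW
  have hN2k : 1 ≤ N ^ (2 * k) := Nat.one_le_pow _ _ hN
  have h3 : N ^ (3 * k) ≤ 2 ^ (3 * k * ℓ) := by
    calc N ^ (3 * k) ≤ (2 ^ ℓ) ^ (3 * k) := Nat.pow_le_pow_left hN2 _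
      _ = 2 ^ (3 * k * ℓ) := by rw [← pow_mul, mul_comm]
  have h4 : 3 * k * ℓ + 4 ≤ p := by
    rw [hp]
    have : 3 * k * ℓ ≤ 8 * k * ℓ := by
      rw [mul_assoc, mul_assoc]
      exact Nat.mul_le_mul_right _ (by norm_num)
    omega
  have h5 : 16 * N ^ (3 * k) ≤ 2 ^ p := by
    calc 16 * N ^ (3 * k) ≤ 16 * 2 ^ (3 * k * ℓ) := Nat.mul_le_mul_left _ h3
      _ = 2 ^ (3 * k * ℓ + 4) := by rw [pow_add]; ring
      _ ≤ 2 ^ p := Nat.pow_le_pow_right (by norm_num) h4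
  refine ⟨?_, ?_⟩
  · calc (S * q + 1) * (2 * (q * S) ^ t) ≤ (2 * N ^ (2 * k)) * (2 * N ^ k) :=
          Nat.mul_le_mul (by omega) (Nat.mul_le_mul_left 2 h1)
      _ = 4 * N ^ (3 * k) := by
          rw [show 3 * k = 2 * k + k by ring, pow_add]
          ring
      _ ≤ 16 * N ^ (3 * k) := Nat.mul_le_mul_right _ (by norm_num)
      _ ≤ 2 ^ p := h5
  · have h6 : n ^ k ≤ N ^ k := Nat.pow_le_pow_left hnN k
    calc 2 * (n ^ k + 1) * (2 * (q * S) ^ t) ^ 2 ≤ 2 * (2 * N ^ k) * (2 * N ^ k) ^ 2 :=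
          Nat.mul_le_mul (Nat.mul_le_mul_left 2 (by omega))
            (Nat.pow_le_pow_left (Nat.mul_le_mul_left 2 h1) 2)
      _ = 16 * N ^ (3 * k) := by
          rw [show 3 * k = k + k + k by ring, pow_add, pow_add]
          ring
      _ ≤ 2 ^ p := h5

/-- the natural number form -/
lemma key (hCR3 : S_CR3) (hLAB : S_LAB) (k N S w T t L r' : ℕ) (δ : ℝ) (hk : 0 < k) (hN : 1 ≤ N)
    (hS : 1 ≤ S) (ht : 1 ≤ t) (hT : T ≤ t + t + 1) (hL : Nat.log 2 N + 3 ≤ L * r')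
    (hδ : 2 * 2 ^ (2 * k * r') * δ ≤ 1) (D : Scheme k N S w T δ) (p s r W : ℕ)
    (hp : p = 8 * k * (Nat.log 2 N + 1) + 8) (hs : s = 4 * p * 4 ^ k * 2 ^ L)
    (hr : r = 2 * k * r') (hWd : W = (2 ^ w) ^ (2 * t + 2) * S ^ (2 * t + 1)) :
    N ^ (2 * k) ≤ (2 * k * r * s ^ k) ^ (2 * k) * (2 ^ 20 * p ^ 2) * 16 ^ r * W := by
  have hr'0 : 0 < r' := by
    rcases Nat.eq_zero_or_pos r' with h | h
    · subst h
      simp at hL
    · exact h
  have hr0 : 0 < r := by rw [hr]; positivity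
  have hp1 : 1 ≤ p := by rw [hp]; omega
  have hs0 : 0 < s := by rw [hs]; positivity
  have hN2 : N < 2 ^ (Nat.log 2 N + 1) := Nat.lt_pow_succ_log_self (by norm_num) N
  obtain ⟨P, hP⟩ : ∃ P, P = k * (r * s ^ (k - 1)) := ⟨_, rfl⟩
  have hP0 : 0 < P := by rw [hP]; positivity
  obtain ⟨n, hn⟩ : ∃ n, n = N / P := ⟨_, rfl⟩
  have hnN : n ≤ N := by rw [hn]; exact Nat.div_le_self _ _
  have hPn : P * n ≤ N := by rw [hn]; exact Nat.mul_div_le N P
  have hNP : N < P * (n + 1) := by rw [hn]; exact Nat.lt_mul_div_succ N hP0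
  have hsk : s ^ (k - 1) * s = s ^ k := by
    rw [← pow_succ]
    congr 1
    omega
  have hPs : P * s = k * r * s ^ k := by rw [hP, ← hsk]; ring
  have hw1 : 1 ≤ W := by
    rw [hWd]
    exact Nat.mul_pos (Nat.pow_pos (by positivity)) (Nat.pow_pos hS)
  have h4r : 1 ≤ 16 ^ r := Nat.one_le_pow _ _ (by norm_num)
  have h16 : 1 ≤ 2 ^ 20 * p ^ 2 := Nat.mul_pos (by norm_num) (Nat.pow_pos hp1)
  have h4n : 4 * n ≤ 2 ^ (L * r') := by
    calc 4 * n ≤ 4 * N := by omega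
      _ ≤ 4 * 2 ^ (Nat.log 2 N + 1) := by omega
      _ = 2 ^ (Nat.log 2 N + 3) := by rw [pow_add, pow_add]; ring
      _ ≤ 2 ^ (L * r') := Nat.pow_le_pow_right (by norm_num) hL
  obtain ⟨x, hx⟩ := hLAB k n (4 * p) s L r' hk (by omega) (le_of_eq hs.symm) h4n
  rcases lt_or_ge n s with hns | hns
  · apply pow_le_prod _ _ _ _ _ _ _ h16 h4r hw1
    have h1 : N < P * s := hNP.trans_le (Nat.mul_le_mul_left P hns)
    rw [hPs] at h1
    calc N ≤ k * r * s ^ k := h1.le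
      _ ≤ 2 * (k * r * s ^ k) := Nat.le_mul_of_pos_left _ (by norm_num)
      _ = 2 * k * r * s ^ k := by ring
  · have hn1 : 0 < n := hs0.trans_le hns
    rcases lt_or_ge (N ^ (2 * k)) W with hbig | hsmall
    · calc N ^ (2 * k) ≤ W := hbig.le
        _ ≤ ((2 * k * r * s ^ k) ^ (2 * k) * (2 ^ 20 * p ^ 2) * 16 ^ r) * W :=
          Nat.le_mul_of_pos_left _ (by positivity)
    · have c1 : k * n ≤ N := by
        calc k * n ≤ (k * n) * (r * s ^ (k - 1)) := Nat.le_mul_of_pos_right _ (by positivity)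
          _ = P * n := by rw [hP]; ring
          _ ≤ N := hPn
      have c2 : r * s ^ k ≤ N := by
        calc r * s ^ k = r * s ^ (k - 1) * s := by rw [← hsk]; ring
          _ ≤ r * s ^ (k - 1) * n := Nat.mul_le_mul_left _ hns
          _ ≤ k * (r * s ^ (k - 1) * n) := Nat.le_mul_of_pos_left _ hk
          _ = P * n := by rw [hP]; ring
          _ ≤ N := hPn
      have c3 : k * n * (r * s ^ (k - 1)) ≤ N := by
        calc k * n * (r * s ^ (k - 1)) = P * n := by rw [hP]; ring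
          _ ≤ N := hPn
      obtain ⟨c4, c4'⟩ := dims k (Nat.log 2 N + 1) N n (2 ^ w) S t p hN hN2.le hnN
        (Nat.one_le_pow _ _ (by norm_num)) hS hp (by rw [← hWd]; exact hsmall)
      have c5 : 2 * 2 ^ r * δ ≤ 1 := by rw [hr]; exact hδ
      have hmain : ((n : ℝ) ^ k) ^ 2 ≤
          2 ^ 20 * p ^ 2 * 16 ^ r * (((2 : ℝ) ^ w) ^ (2 * t + 2) * (S : ℝ) ^ (2 * t + 1)) := by
        subst hr
        exact hCR3 k n s (2 * k * r') (4 * p) p t N S w T x δ hk hn1 hS ht hp1 le_rfl hx hT c1 c2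
          c3 c4 c4' c5 D
      have hmain' : (n ^ k) ^ 2 ≤ 2 ^ 20 * p ^ 2 * 16 ^ r * W := by
        rw [hWd]
        exact_mod_cast hmain
      have hN3 : N ≤ 2 * k * r * s ^ k * n := by
        calc N ≤ P * (n + 1) := hNP.le
          _ ≤ P * (2 * n) := Nat.mul_le_mul_left _ (by omega)
          _ ≤ (P * (2 * n)) * s := Nat.le_mul_of_pos_right _ hs0
          _ = (P * s) * (2 * n) := by ring
          _ = 2 * k * r * s ^ k * n := by rw [hPs]; ring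
      calc N ^ (2 * k) ≤ (2 * k * r * s ^ k * n) ^ (2 * k) := Nat.pow_le_pow_left hN3 _
        _ = (2 * k * r * s ^ k) ^ (2 * k) * (n ^ k) ^ 2 := by
          rw [mul_pow, ← pow_mul n, mul_comm k 2]
        _ ≤ (2 * k * r * s ^ k) ^ (2 * k) * (2 ^ 20 * p ^ 2 * 16 ^ r * W) :=
          Nat.mul_le_mul_left _ hmain'
        _ = (2 * k * r * s ^ k) ^ (2 * k) * (2 ^ 20 * p ^ 2) * 16 ^ r * W := by ring

end PR3_aux

/-- **PR3** -/
theorem t_PR3 (hCR3 : S_CR3) (hLAB : S_LAB) : S_PR3 := by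
  intro k N S w T t L r' δ hk hN hS ht hT hL hδ D
  have h := PR3_aux.key hCR3 hLAB k N S w T t L r' δ hk hN hS ht hT hL hδ D _ _ _ _ rfl rfl rfl rfl
  exact_mod_cast h

end Pool.Agent.KSX
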