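import Pool.Agent.KSX.St2

/-!
# PWT: the weights of the pairs
-/

set_option autoImplicit false

open Finset Matrix

namespace Pool.Agent.KSX

namespace PWT_aux

/-- Cauchy-Schwarz for a sum of vectors -/
theorem cs {V J : Type} [Fintype V] [Fintype J] (f : V → J → ℝ) :
    (∑ v, f v) ⬝ᵥ (∑ v, f v) ≤ (Fintype.card V : ℝ) * ∑ v, f v ⬝ᵥ f v := by
  have h1 : (∑ v, f v) ⬝ᵥ (∑ v, f v) = ∑ j, (∑ v, f v j) ^ 2 := by
    simp only [dotProduct, Finset.sum_apply, sq]
  have h2 : ∑ v, f v ⬝ᵥ f v = ∑ j, ∑ v, f v j ^ 2 := by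
    simp only [dotProduct, sq]
    exact Finset.sum_comm
  rw [h1, h2, Finset.mul_sum]
  refine Finset.sum_le_sum fun j _ => ?_
  exact sq_sum_le_card_mul_sum_sq

theorem dot_nonneg {J : Type} [Fintype J] (u : J → ℝ) : 0 ≤ u ⬝ᵥ u :=
  Finset.sum_nonneg fun j _ => mul_self_nonneg (u j)

theorem sum_dc {E Γ : Type} [Fintype E] [Fintype Γ] [DecidableEq Γ] (c : E → Γ) :
    ∑ γ, dc c γ = Fintype.card E := by
  unfold dc
  have h := Finset.sum_fiberwise (s := (univ : Finset E)) (g := c) (f := fun _ => (1 : ℝ))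
  simp only [Finset.sum_const, nsmul_eq_mul, mul_one] at h
  rw [h, Finset.card_univ]

end PWT_aux

open PWT_aux in
theorem t_PWT (hKRN : S_KRN) : S_PWT := by
  intro E Γ V I _ _ _ _ _ _ _ c A D a z hD ha hle
  set al : E → V → ℝ := fun e v => (A e v *ᵥ z) ⬝ᵥ (A e v *ᵥ z) with hal
  have hal0 : ∀ e v, 0 ≤ al e v := fun e v => dot_nonneg _
  have hdc0 : ∀ γ, 0 ≤ dc c γ := fun γ => by
    unfold dc
    positivity
  have hgw0 : ∀ e e', 0 ≤ gw c D e e' := by
    intro e e'
    unfold gw
    split_ifs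
    · have := hdc0 (c e)
      positivity
    · exact le_rfl
  have hMM : ∀ e e', (MM A e e' *ᵥ tz z) ⬝ᵥ (MM A e e' *ᵥ tz z) ≤
      (Fintype.card V : ℝ) * ∑ v, al e v * al e' v := by
    intro e e'
    have h1 : MM A e e' *ᵥ tz z = ∑ v, kr (A e v) (A e' v) *ᵥ tz z := by
      unfold MM
      rw [Matrix.sum_mulVec]
    rw [h1]
    refine (cs _).trans ?_
    refine mul_le_mul_of_nonneg_left ?_ (by positivity)
    refine Finset.sum_le_sum fun v _ => ?_
    rw [(hKRN I (A e v) (A e' v) z).2.2.1]
  have hgw : ∀ e e', gw c D e e' ≤ if c e' = c e then 1 / (dc c (c e) + D) else 0 := by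
    intro e e'
    unfold gw
    have hpos : 0 ≤ 1 / (dc c (c e) + D) := by
      have := hdc0 (c e)
      positivity
    split_ifs with h1 h2 h2
    · exact le_rfl
    · exact absurd h1.1.symm h2
    · exact hpos
    · exact le_rfl
  have hstep : ∀ e, ∑ e', gw c D e e' * ((MM A e e' *ᵥ tz z) ⬝ᵥ (MM A e e' *ᵥ tz z)) ≤
      (Fintype.card V : ℝ) * ∑ v, al e v * a := by
    intro e
    have hpos : 0 < dc c (c e) + D := by
      have := hdc0 (c e)
      linarith
    calc ∑ e', gw c D e e' * ((MM A e e' *ᵥ tz z) ⬝ᵥ (MM A e e' *ᵥ tz z))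
        ≤ ∑ e', (if c e' = c e then 1 / (dc c (c e) + D) else 0) *
            ((Fintype.card V : ℝ) * ∑ v, al e v * al e' v) := by
          refine Finset.sum_le_sum fun e' _ => ?_
          refine mul_le_mul (hgw e e') (hMM e e') (dot_nonneg _) ?_
          split_ifs
          · positivity
          · exact le_rfl
      _ = ∑ e' ∈ univ.filter (fun e' => c e' = c e), 1 / (dc c (c e) + D) *
            ((Fintype.card V : ℝ) * ∑ v, al e v * al e' v) := by
          rw [Finset.sum_filter]
          refine Finset.sum_congr rfl fun e' _ => ?_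
          split_ifs
          · rfl
          · rw [zero_mul]
      _ = (Fintype.card V : ℝ) * ∑ v, al e v * (1 / (dc c (c e) + D) *
            ∑ e' ∈ univ.filter (fun e' => c e' = c e), al e' v) := by
          simp only [Finset.mul_sum]
          rw [Finset.sum_comm]
          refine Finset.sum_congr rfl fun v _ => Finset.sum_congr rfl fun e' _ => ?_
          ring
      _ ≤ (Fintype.card V : ℝ) * ∑ v, al e v * a := by
          refine mul_le_mul_of_nonneg_left ?_ (by positivity)
          refine Finset.sum_le_sum fun v _ => ?_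
          refine mul_le_mul_of_nonneg_left ?_ (hal0 e v)
          have h1 := hle (c e) v
          have h2 : 1 / (dc c (c e) + D) * ∑ e' ∈ univ.filter (fun e' => c e' = c e), al e' v ≤
              1 / (dc c (c e) + D) * (a * dc c (c e)) :=
            mul_le_mul_of_nonneg_left h1 (by positivity)
          refine h2.trans ?_
          rw [one_div, inv_mul_le_iff₀ hpos]
          have := mul_nonneg ha hD.le
          nlinarith
  calc ∑ e, ∑ e', gw c D e e' * ((MM A e e' *ᵥ tz z) ⬝ᵥ (MM A e e' *ᵥ tz z))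
      ≤ ∑ e, (Fintype.card V : ℝ) * ∑ v, al e v * a := Finset.sum_le_sum fun e _ => hstep e
    _ = (Fintype.card V : ℝ) * a * ∑ v, ∑ γ, ∑ e ∈ univ.filter (fun e => c e = γ), al e v := by
        have h1 : ∀ v, ∑ γ, ∑ e ∈ univ.filter (fun e => c e = γ), al e v = ∑ e, al e v :=
          fun v => Finset.sum_fiberwise _ _ _
        simp only [h1]
        rw [← Finset.mul_sum, mul_assoc]
        congr 1
        rw [Finset.sum_comm, Finset.mul_sum]
        refine Finset.sum_congr rfl fun v _ => ?_
        rw [Finset.mul_sum]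
        exact Finset.sum_congr rfl fun e _ => mul_comm _ _
    _ ≤ (Fintype.card V : ℝ) * a * ∑ _v : V, ∑ γ, a * dc c γ := by
        refine mul_le_mul_of_nonneg_left ?_ (by positivity)
        exact Finset.sum_le_sum fun v _ => Finset.sum_le_sum fun γ _ => hle γ v
    _ = (Fintype.card V : ℝ) ^ 2 * a ^ 2 * Fintype.card E := by
        rw [← Finset.mul_sum, sum_dc, Finset.sum_const, Finset.card_univ, nsmul_eq_mul]
        ring

end Pool.Agent.KSX
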