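import Pool.Agent.KSX.St2

/-!
# Module SPJ: spectral projection
-/

set_option autoImplicit false

open Finset Matrix

namespace Pool.Agent.KSX

namespace SPJ_aux

variable {I : Type} [Fintype I] [DecidableEq I]

/-- diagonalization of a symmetric real matrix -/
theorem spec (G : Matrix I I ℝ) (hG : Gᵀ = G) : ∃ (U : Matrix I I ℝ) (g : I → ℝ),
    Uᵀ * U = 1 ∧ U * Uᵀ = 1 ∧ G = U * diagonal g * Uᵀ := by
  have h1 : G.IsHermitian := by
    rw [Matrix.IsHermitian, conjTranspose_eq_transpose_of_trivial]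
    exact hG
  have h2 := h1.spectral_theorem
  rw [Unitary.conjStarAlgAut_apply] at h2
  have hs : star (h1.eigenvectorUnitary : Matrix I I ℝ) =
      (h1.eigenvectorUnitary : Matrix I I ℝ)ᵀ := by
    rw [star_eq_conjTranspose, conjTranspose_eq_transpose_of_trivial]
  refine ⟨(h1.eigenvectorUnitary : Matrix I I ℝ), h1.eigenvalues, ?_, ?_, ?_⟩
  · rw [← hs]
    exact Unitary.coe_star_mul_self h1.eigenvectorUnitary
  · rw [← hs]
    exact Unitary.coe_mul_star_self h1.eigenvectorUnitary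
  · rw [← hs]
    exact h2

/-- the quadratic form in the eigenbasis -/
theorem quad (U : Matrix I I ℝ) (g : I → ℝ) (x : I → ℝ) :
    x ⬝ᵥ ((U * diagonal g * Uᵀ) *ᵥ x) = ∑ i, g i * (Uᵀ *ᵥ x) i ^ 2 := by
  rw [← mulVec_mulVec, ← mulVec_mulVec, dotProduct_mulVec, ← mulVec_transpose]
  unfold dotProduct
  refine Finset.sum_congr rfl fun i _ => ?_
  rw [mulVec_diagonal]
  ring

/-- the square of the norm in the eigenbasis -/
theorem nrm (U : Matrix I I ℝ) (hU : U * Uᵀ = 1) (x : I → ℝ) :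
    x ⬝ᵥ x = ∑ i, (Uᵀ *ᵥ x) i ^ 2 := by
  have h := quad U (fun _ => 1) x
  rw [diagonal_one, Matrix.mul_one, hU, one_mulVec] at h
  rw [h]
  refine Finset.sum_congr rfl fun i _ => ?_
  rw [one_mul]

end SPJ_aux

open SPJ_aux in
theorem t_SPJ : S_SPJ := by
  intro I _ _ G h hh hG hpos
  obtain ⟨U, g, hU1, hU2, rfl⟩ := spec G hG
  -- the eigenvalues are not negative
  have hg : ∀ i, 0 ≤ g i := by
    intro i
    have h1 := hpos (U *ᵥ (Pi.single i 1))
    rw [quad, mulVec_mulVec, hU1, one_mulVec] at h1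
    have h2 : ∑ j, g j * (Pi.single i (1 : ℝ) : I → ℝ) j ^ 2 = g i := by
      rw [Finset.sum_eq_single i]
      · rw [Pi.single_eq_same]
        ring
      · intro j _ hj
        rw [Pi.single_eq_of_ne hj]
        ring
      · intro hi
        exact absurd (Finset.mem_univ i) hi
    rwa [h2] at h1
  obtain ⟨a, ha⟩ : ∃ a : I → ℝ, a = fun i => if h < g i then 1 else 0 := ⟨_, rfl⟩
  have haa : ∀ i, a i * a i = a i := by
    intro i
    rw [ha]
    by_cases hi : h < g i
    · simp [hi]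
    · simp [hi]
  have hproj : ∀ u : I → ℝ, Uᵀ *ᵥ ((U * diagonal a * Uᵀ) *ᵥ u) = diagonal a *ᵥ (Uᵀ *ᵥ u) := by
    intro u
    rw [mulVec_mulVec, mulVec_mulVec]
    congr 1
    rw [← Matrix.mul_assoc, ← Matrix.mul_assoc, hU1, Matrix.one_mul]
  refine ⟨U * diagonal a * Uᵀ, ?_, ?_, ?_⟩
  · rw [transpose_mul, transpose_mul, transpose_transpose, diagonal_transpose, Matrix.mul_assoc]
  · have e : U * diagonal a * Uᵀ * (U * diagonal a * Uᵀ) =
        U * (diagonal a * (Uᵀ * U) * diagonal a) * Uᵀ := by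
      simp only [Matrix.mul_assoc]
    rw [e, hU1, Matrix.mul_one, diagonal_mul_diagonal]
    congr 3
    funext i
    exact haa i
  · intro u
    obtain ⟨d, hd⟩ : ∃ d : I → ℝ, d = Uᵀ *ᵥ u := ⟨_, rfl⟩
    have hP : ∀ i, (Uᵀ *ᵥ ((U * diagonal a * Uᵀ) *ᵥ u)) i = a i * d i := by
      intro i
      rw [hproj, mulVec_diagonal, hd]
    have hQ : ∀ i, (Uᵀ *ᵥ (u - (U * diagonal a * Uᵀ) *ᵥ u)) i = (1 - a i) * d i := by
      intro i
      rw [mulVec_sub, Pi.sub_apply, hP, ← hd]
      ring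
    have hR : ∀ i, (Uᵀ *ᵥ ((2 : ℝ) • u - (U * diagonal a * Uᵀ) *ᵥ u)) i = (2 - a i) * d i := by
      intro i
      rw [mulVec_sub, mulVec_smul, Pi.sub_apply, Pi.smul_apply, hP, ← hd, smul_eq_mul]
      ring
    have key : ∀ i, (h < g i ∧ a i = 1) ∨ (g i ≤ h ∧ a i = 0) := by
      intro i
      by_cases hi : h < g i
      · left
        refine ⟨hi, ?_⟩
        rw [ha]
        simp [hi]
      · right
        refine ⟨not_lt.1 hi, ?_⟩
        rw [ha]
        simp [hi]
    rw [quad, quad, quad, quad, nrm U hU2 ((U * diagonal a * Uᵀ) *ᵥ u), nrm U hU2 u, ← hd]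
    simp only [hP, hQ, hR]
    rw [Finset.mul_sum, Finset.mul_sum, Finset.mul_sum]
    refine ⟨?_, ?_, ?_, ?_, ?_⟩
    · refine Finset.sum_le_sum fun i _ => ?_
      rcases key i with ⟨h1, h2⟩ | ⟨h1, h2⟩
      · rw [h2]
        exact mul_le_mul_of_nonneg_right h1.le (sq_nonneg _)
      · rw [h2]
        simp
    · refine Finset.sum_le_sum fun i _ => ?_
      rcases key i with ⟨h1, h2⟩ | ⟨h1, h2⟩
      · rw [h2, one_mul]
      · rw [h2]
        have := mul_nonneg (hg i) (sq_nonneg (d i))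
        simpa using this
    · refine Finset.sum_le_sum fun i _ => ?_
      rcases key i with ⟨h1, h2⟩ | ⟨h1, h2⟩
      · rw [h2]
        have := mul_nonneg hh.le (sq_nonneg (d i))
        simpa using this
      · rw [h2, sub_zero, one_mul]
        exact mul_le_mul_of_nonneg_right h1 (sq_nonneg _)
    · refine Finset.sum_le_sum fun i _ => ?_
      rcases key i with ⟨h1, h2⟩ | ⟨h1, h2⟩
      · rw [h2]
        have := mul_nonneg (hg i) (sq_nonneg (d i))
        simpa using this
      · rw [h2, sub_zero, one_mul]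
    · refine Finset.sum_le_sum fun i _ => ?_
      have h3 := mul_nonneg (hg i) (sq_nonneg (d i))
      rcases key i with ⟨h1, h2⟩ | ⟨h1, h2⟩
      · rw [h2]
        have e : g i * ((2 - 1) * d i) ^ 2 = g i * d i ^ 2 := by ring
        rw [e]
        linarith
      · rw [h2]
        have e : g i * ((2 - 0) * d i) ^ 2 = 4 * (g i * d i ^ 2) := by ring
        rw [e]

end Pool.Agent.KSX
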