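import Pool.Agent.KSX.St

/-!
# Project KSX, second part (MP_d985bf_lc, architect helper81): odd `T`

THEOREM.  For `k ≥ 2`, `ε > 0` there is `C` such that for all `T ≥ 2` every data structure as in the
first part satisfies `N ^ (2 k - ε) ≤ C (4 ^ w) ^ ⌈T / 2⌉ S ^ T`.

IDEA for `T = 2 t + 1`, `q = 2 ^ w`.  The first probe of the query `e` goes to the cell `c e`; for each
content `v` of it the other `2 t` probes have a matrix `A e v` (`S_ALG`).  With `z` the indicator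
vector, `|A e v z| ^ 2 = 2 q ^ t` for EVERY `v`, `|z| ^ 2 = 2 S ^ t`.  Heavy directions (large
eigenvalues of `∑_{c e = γ} (A e v) ^ 2`) are split off by a spectral projection: they give a
bilinear form with a short left vector (`S_DEC`).  For the rest: Cauchy-Schwarz over the pairs
(cell, content), and the off-diagonal part is a matrix chaos of order 2 in the signs (`S_OFF`), bounded
by a Khintchine inequality of order 2 (`S_CHK`), again with matrix weights.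

As before: each `S_X` is a module with its complete proof in the doc string, file
`Pool/Agent/KSX/X.lean`, `theorem t_X (hY : S_Y) … : S_X` with the used statements as hypotheses.  You
may also import the proved modules of the first part (`Pool.Agent.KSX.Asm` and its imports).
-/

set_option autoImplicit false

open Finset Matrix

namespace Pool.Agent.KSX

noncomputable section

/-- The signs `y ω e` have the moments of independent signs, up to the order `m`. -/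
def Mo {Ω E : Type} [Fintype Ω] [Fintype E] [DecidableEq E] (y : Ω → E → ℝ) (m : ℕ) : Prop :=
  ∀ M : ℕ, M ≤ m → ∀ φ : Fin M → E,
    (∑ ω, ∏ i, y ω (φ i)) * (Fintype.card (E → Bool) : ℝ) =
      (∑ g : E → Bool, ∏ i, sgn (g (φ i))) * (Fintype.card Ω : ℝ)

/-- the number of the queries with first cell `γ` -/
def dc {E Γ : Type} [Fintype E] [DecidableEq Γ] (c : E → Γ) (γ : Γ) : ℝ :=
  ((univ.filter fun e => c e = γ).card : ℝ)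

/-- the weights of the pairs of different queries with the same first cell -/
def gw {E Γ : Type} [Fintype E] [DecidableEq E] [DecidableEq Γ] (c : E → Γ) (D : ℝ) (e e' : E) :
    ℝ := if c e = c e' ∧ e ≠ e' then 1 / (dc c (c e) + D) else 0

/-- the tensor product of two matrices -/
def kr {I : Type} (A B : Matrix I I ℝ) : Matrix (I × I) (I × I) ℝ :=
  fun i j => A i.1 j.1 * B i.2 j.2

/-- the tensor square of a vector -/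
def tz {I : Type} (z : I → ℝ) : I × I → ℝ := fun i => z i.1 * z i.2

/-- the matrix of a pair of queries -/
def MM {E V I : Type} [Fintype V] (A : E → V → Matrix I I ℝ) (e e' : E) :
    Matrix (I × I) (I × I) ℝ := ∑ v, kr (A e v) (A e' v)

/-! ## F. Order 1 -/

/-- GEN.  Moments of a form, with weights.  Uses `S_LIN`, `S_TRP`, `S_KHI`, `S_TRF`.
PROOF.  As in `FRM`.  Take `B`, `R` from LIN (`q = α`).  Let `Y ω = ∑_e y ω e • B e`, symmetric, and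
`v = R (u ω)`: `v ⬝ v ≤ κ`, and the inner sum is `v ⬝ (Y ω v)`.  TRP: its power `2 p` is at most
`(v ⬝ v) ^ (2 p) tr (Y ω ^ (2 p)) ≤ κ ^ (2 p) tr (Y ω ^ (2 p))` (the trace of an even power of a symmetric
matrix is `≥ 0`).  Sum over `ω`; TRF with `M = 2 p`, `y' g e = sgn (g e)`, `c = |Ω|`,
`c' = |{g}|` (`Mo`), and KHI with `σ = α / D`. -/
def S_GEN : Prop :=
  ∀ (E J Ω : Type) [Fintype E] [DecidableEq E] [Fintype J] [DecidableEq J] [Fintype Ω]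
    (y : Ω → E → ℝ) (A : E → Matrix J J ℝ) (u : Ω → J → ℝ) (α D κ : ℝ) (m p : ℕ),
    1 ≤ p → 2 * p ≤ m → Mo y m → 0 < α → 0 < D → (∀ e, (A e)ᵀ = A e) →
    (∀ ω, 1 / α * (∑ e, (A e *ᵥ u ω) ⬝ᵥ (A e *ᵥ u ω)) + D * (u ω ⬝ᵥ u ω) ≤ κ) →
    ∑ ω, (∑ e, y ω e * (u ω ⬝ᵥ (A e *ᵥ u ω))) ^ (2 * p) ≤
      κ ^ (2 * p) * (Fintype.card Ω * Fintype.card J * (2 * p * (α / D)) ^ p)

/-- SPJ.  Spectral projection.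
PROOF.  `G = U diag(g) Uᵀ` (spectral theorem), `P = U diag(1[g > h]) Uᵀ`.  With `d = Uᵀ u`,
`a i = 1[g i > h]`: `P u = U (a d)`, `u - P u = U ((1 - a) d)`, `2 u - P u = U ((2 - a) d)`, and
`x ⬝ (G x) = ∑ g i (Uᵀ x) i ^ 2`, `g i ≥ 0`.  The five inequalities hold term by term. -/
def S_SPJ : Prop :=
  ∀ (I : Type) [Fintype I] [DecidableEq I] (G : Matrix I I ℝ) (h : ℝ), 0 < h → Gᵀ = G →
    (∀ u : I → ℝ, 0 ≤ u ⬝ᵥ (G *ᵥ u)) →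
    ∃ P : Matrix I I ℝ, Pᵀ = P ∧ P * P = P ∧ ∀ u : I → ℝ,
      h * ((P *ᵥ u) ⬝ᵥ (P *ᵥ u)) ≤ (P *ᵥ u) ⬝ᵥ (G *ᵥ (P *ᵥ u)) ∧
      (P *ᵥ u) ⬝ᵥ (G *ᵥ (P *ᵥ u)) ≤ u ⬝ᵥ (G *ᵥ u) ∧
      (u - P *ᵥ u) ⬝ᵥ (G *ᵥ (u - P *ᵥ u)) ≤ h * (u ⬝ᵥ u) ∧
      (u - P *ᵥ u) ⬝ᵥ (G *ᵥ (u - P *ᵥ u)) ≤ u ⬝ᵥ (G *ᵥ u) ∧
      ((2 : ℝ) • u - P *ᵥ u) ⬝ᵥ (G *ᵥ ((2 : ℝ) • u - P *ᵥ u)) ≤ 4 * (u ⬝ᵥ (G *ᵥ u))

/-- DEC.  Decomposition in heavy and light parts.  Uses `S_SPJ`.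
PROOF.  Let `G γ v = ∑_{c e = γ} A e v * A e v`, symmetric, `u ⬝ (G γ v u) = ∑_{c e = γ} |A e v u| ^ 2 ≥ 0`.
Take `P γ v` from SPJ, `P' = 1 - P`.  Let `A' e v = P' * A e v * P'` (`P'` for `γ = c e`, `v`).
(1) symmetric.  (2), (3): `|A' e v u| ^ 2 ≤ |A e v (P' u)| ^ 2` (`P'` is a symmetric projection, so
`|P' x| ^ 2 ≤ |x| ^ 2`); sum over `c e = γ`: `(P' u) ⬝ (G (P' u))`, SPJ.
Let `Z e : Matrix (Γ × V × I) I ℝ` have the rows `(γ, v, i)`: row `i` of `P γ v * A e v * (2 - P γ v)` if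
`γ = c e`, and `0` otherwise; `B e = fromBlocks 0 (Z e) (Z e)ᵀ 0` (symmetric).  For `z`, `x` let
`ξ (γ, v, i) = (P γ v z) i` if `v = x γ` and `0` otherwise; `u = Sum.elim ξ z`.
(4a) With `P = P (c e) (x (c e))`, `A = A e (x (c e))`:
`u ⬝ (B e u) = 2 ξ ⬝ (Z e z) = 2 (P z) ⬝ (P A (2 - P) z) = 2 (P z) ⬝ (A (2 z - P z))`, and
`z ⬝ A z = (P z) ⬝ (A (P z)) + 2 (P z) ⬝ (A (P' z)) + (P' z) ⬝ (A (P' z)) = (P z) ⬝ (A (2 z - P z)) + z ⬝ (A' z)`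
(`A` symmetric, `2 z - P z = P z + 2 P' z`).
(4b) `|B e u| ^ 2 = |Z e z| ^ 2 + |(Z e)ᵀ ξ| ^ 2`.  `|Z e z| ^ 2 ≤ ∑_v |A e v (2 z - P z)| ^ 2`, sum over `e`:
`∑_{γ, v} (2 z - P z) ⬝ G (2 z - P z) ≤ 4 ∑_{γ, v} z ⬝ G z = 4 ∑_v ∑_e |A e v z| ^ 2 ≤ 4 a |E| |V|`.
`(Z e)ᵀ ξ = (2 - P) A (P z)` for `P = P (c e) (x (c e))`, `|(2 - P) y| ^ 2 ≤ 4 |y| ^ 2`, sum over `e`:
`4 ∑_γ (P z) ⬝ G (P z) ≤ 4 ∑_γ z ⬝ G z ≤ 4 a |E|`.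
(4c) `|u| ^ 2 = ∑_γ |P z| ^ 2 + |z| ^ 2 ≤ ∑_γ (z ⬝ G z) / h + b ≤ a |E| / h + b`.
(5) For `c e = γ`, `P = P γ v`: `z ⬝ A' z = z ⬝ A z - (P z) ⬝ (A (2 z - P z))`, so
`(z ⬝ A' z) ^ 2 ≤ 2 · 4 + 2 |P z| ^ 2 |A (2 z - P z)| ^ 2`; sum over `c e = γ`:
`8 dc γ + 2 |P z| ^ 2 (2 z - P z) ⬝ G (2 z - P z) ≤ 8 dc γ + 2 (a dc γ / h) (4 a dc γ)`. -/
def S_DEC : Prop :=
  ∀ (E Γ V I : Type) [Fintype E] [DecidableEq E] [Fintype Γ] [DecidableEq Γ] [Fintype V]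
    [DecidableEq V] [Fintype I] [DecidableEq I] (c : E → Γ) (A : E → V → Matrix I I ℝ) (h : ℝ),
    0 < h → (∀ e v, (A e v)ᵀ = A e v) →
    ∃ (A' : E → V → Matrix I I ℝ)
      (B : E → Matrix ((Γ × V × I) ⊕ I) ((Γ × V × I) ⊕ I) ℝ),
      (∀ e v, (A' e v)ᵀ = A' e v) ∧ (∀ e, (B e)ᵀ = B e) ∧
      (∀ γ v (u : I → ℝ), ∑ e ∈ univ.filter (fun e => c e = γ),
        (A' e v *ᵥ u) ⬝ᵥ (A' e v *ᵥ u) ≤ h * (u ⬝ᵥ u)) ∧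
      (∀ γ v (u : I → ℝ), ∑ e ∈ univ.filter (fun e => c e = γ),
        (A' e v *ᵥ u) ⬝ᵥ (A' e v *ᵥ u) ≤
          ∑ e ∈ univ.filter (fun e => c e = γ), (A e v *ᵥ u) ⬝ᵥ (A e v *ᵥ u)) ∧
      (∀ (z : I → ℝ) (x : Γ → V) (a b : ℝ), (∀ e v, (A e v *ᵥ z) ⬝ᵥ (A e v *ᵥ z) ≤ a) →
        z ⬝ᵥ z ≤ b → ∃ u : (Γ × V × I) ⊕ I → ℝ,
        (∀ e, z ⬝ᵥ (A e (x (c e)) *ᵥ z) =
          1 / 2 * (u ⬝ᵥ (B e *ᵥ u)) + z ⬝ᵥ (A' e (x (c e)) *ᵥ z)) ∧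
        ∑ e, (B e *ᵥ u) ⬝ᵥ (B e *ᵥ u) ≤ 4 * a * Fintype.card E * (Fintype.card V + 1) ∧
        u ⬝ᵥ u ≤ a * Fintype.card E / h + b) ∧
      ∀ (z : I → ℝ) (a : ℝ), (∀ e v, (A e v *ᵥ z) ⬝ᵥ (A e v *ᵥ z) ≤ a) →
        (∀ e v, (z ⬝ᵥ (A e v *ᵥ z)) ^ 2 ≤ 4) →
        ∀ γ v, ∑ e ∈ univ.filter (fun e => c e = γ), (z ⬝ᵥ (A' e v *ᵥ z)) ^ 2 ≤
          8 * dc c γ + 8 * a ^ 2 * dc c γ ^ 2 / h

/-! ## G. Order 2 -/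

/-- YNG.  A trace inequality of Young type.
PROOF.  Spectral theorem for `V = U diag(v) Uᵀ` (`v ≥ 0`) and `X = O diag(λ) Oᵀ`, `C = Uᵀ O`:
`tr (V X ^ (2 (p - 1))) = ∑ v_a λ_b ^ (2 (p - 1)) C_{ab} ^ 2`, `tr (V ^ p) = ∑ v_a ^ p C_{ab} ^ 2`,
`tr (X ^ (2 p)) = ∑ λ_b ^ (2 p) C_{ab} ^ 2`.  For `x, y ≥ 0`, `p ≥ 1`:
`p x y ^ (p - 1) ≤ x ^ p + (p - 1) y ^ p` (for `y > 0` Bernoulli, `one_add_mul_le_pow`, for `x / y`),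
with `x = v_a`, `y = λ_b ^ 2 / κ`, times `κ ^ (p - 1)`. -/
def S_YNG : Prop :=
  ∀ (I : Type) [Fintype I] [DecidableEq I] (V X : Matrix I I ℝ) (κ : ℝ) (p : ℕ), 1 ≤ p →
    0 < κ → Vᵀ = V → Xᵀ = X → (∀ u : I → ℝ, 0 ≤ u ⬝ᵥ (V *ᵥ u)) →
    (V * X ^ (2 * (p - 1))).trace ≤
      κ ^ (p - 1) / p * (V ^ p).trace + (p - 1) / (p * κ) * (X ^ (2 * p)).trace

/-- CHA.  Chaos of order 2: reduction to order 1.  Uses `S_KHC`, `S_YNG`.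
PROOF.  `X g` the matrix on the left, `C g e` the inner sum on the right, `V g = ∑_e C g e * C g e`.
Since `M e e = 0`, `C g e` does not depend on `g e`, and `∑_e sgn (g e) • C g e = 2 X g`.  So
`∑_g tr (X ^ (2 p)) = (1 / 2) ∑_e ∑_g sgn (g e) tr (C g e X g ^ (2 p - 1))`.  If `g⁺`, `g⁻` are `g` with the
value `true`, `false` at `e`, then `X g⁺ - X g⁻ = 2 C g e`, and as in KHI, with KHC (`m = p - 1`):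
`∑_g sgn (g e) tr (C g e X g ^ (2 p - 1)) ≤ (2 p - 1) ∑_g tr (C g e C g e X g ^ (2 (p - 1)))`.  So with
`κ = (2 p - 1) / 2 > 0`: `∑_g tr (X ^ (2 p)) ≤ κ ∑_g tr (V g X g ^ (2 (p - 1)))`, by YNG at most
`κ ^ p / p ∑_g tr (V g ^ p) + (p - 1) / p ∑_g tr (X g ^ (2 p))`.  Subtract: `∑ tr (X ^ (2 p)) ≤
κ ^ p ∑ tr (V ^ p) ≤ p ^ p ∑ tr (V ^ p)` (`tr (V ^ p) ≥ 0`: `V` positive semidefinite). -/
def S_CHA : Prop :=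
  ∀ (E I : Type) [Fintype E] [DecidableEq E] [Fintype I] [DecidableEq I]
    (M : E → E → Matrix I I ℝ) (p : ℕ), 1 ≤ p → (∀ e, M e e = 0) →
    (∀ e e', (M e e')ᵀ = M e e') →
    ∑ g : E → Bool, ((∑ e, ∑ e', (sgn (g e) * sgn (g e')) • M e e') ^ (2 * p)).trace ≤
      (p : ℝ) ^ p * ∑ g : E → Bool,
        ((∑ e, (∑ e', sgn (g e') • (M e e' + M e' e)) * (∑ e', sgn (g e') • (M e e' + M e' e))) ^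
          p).trace

/-- CHB.  Order 1 for the column of matrices.  Uses `S_KHI`.
PROOF.  Let `Z e' : Matrix (E × I) I ℝ` be the column of the `K e e'` (row `(e, i)`: row `i` of `K e e'`),
`D e' = fromBlocks 0 (Z e') (Z e')ᵀ 0`, symmetric on `(E × I) ⊕ I`.  For `u = Sum.elim a b`:
`|D e' u| ^ 2 = |Z e' b| ^ 2 + |(Z e')ᵀ a| ^ 2`, `|Z e' b| ^ 2 = ∑_e |K e e' b| ^ 2`,
`(Z e')ᵀ a = ∑_e K e e' a_e` (`K` symmetric), so the two hypotheses give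
`∑_{e'} |D e' u| ^ 2 ≤ σ |u| ^ 2`, and KHI applies, `|(E × I) ⊕ I| = (|E| + 1) |I|`.  For
`D = ∑_{e'} sgn (g e') • D e'` and `Z = ∑_{e'} sgn (g e') • Z e'`:
`D * D = fromBlocks (Z * Zᵀ) 0 0 (Zᵀ * Z)`, so `tr (D ^ (2 p)) = tr ((Z Zᵀ) ^ p) + tr ((Zᵀ Z) ^ p)`, both
`≥ 0` (positive semidefinite), and `Zᵀ Z = ∑_e C_e * C_e`, `C_e = ∑_{e'} sgn (g e') • K e e'`
symmetric. -/
def S_CHB : Prop :=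
  ∀ (E I : Type) [Fintype E] [DecidableEq E] [Fintype I] [DecidableEq I]
    (K : E → E → Matrix I I ℝ) (σ : ℝ) (p : ℕ), 0 ≤ σ → (∀ e e', (K e e')ᵀ = K e e') →
    (∀ b : I → ℝ, ∑ e, ∑ e', (K e e' *ᵥ b) ⬝ᵥ (K e e' *ᵥ b) ≤ σ * (b ⬝ᵥ b)) →
    (∀ a : E → I → ℝ, ∑ e', (∑ e, K e e' *ᵥ a e) ⬝ᵥ (∑ e, K e e' *ᵥ a e) ≤
      σ * ∑ e, a e ⬝ᵥ a e) →
    ∑ g : E → Bool, ((∑ e, (∑ e', sgn (g e') • K e e') * (∑ e', sgn (g e') • K e e')) ^ p).trace ≤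
      (Fintype.card (E → Bool) : ℝ) * ((Fintype.card E + 1) * Fintype.card I) * (2 * p * σ) ^ p

/-- CHK.  Khintchine inequality of order 2.  Uses `S_CHA`, `S_CHB`.
PROOF.  CHB for `K e e' = M e e' + M e' e`; `p ^ p (2 p σ) ^ p = (2 p ^ 2 σ) ^ p`. -/
def S_CHK : Prop :=
  ∀ (E I : Type) [Fintype E] [DecidableEq E] [Fintype I] [DecidableEq I]
    (M : E → E → Matrix I I ℝ) (σ : ℝ) (p : ℕ), 1 ≤ p → 0 ≤ σ → (∀ e, M e e = 0) →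
    (∀ e e', (M e e')ᵀ = M e e') →
    (∀ b : I → ℝ, ∑ e, ∑ e', ((M e e' + M e' e) *ᵥ b) ⬝ᵥ ((M e e' + M e' e) *ᵥ b) ≤
      σ * (b ⬝ᵥ b)) →
    (∀ a : E → I → ℝ, ∑ e', (∑ e, (M e e' + M e' e) *ᵥ a e) ⬝ᵥ (∑ e, (M e e' + M e' e) *ᵥ a e) ≤
      σ * ∑ e, a e ⬝ᵥ a e) →
    ∑ g : E → Bool, ((∑ e, ∑ e', (sgn (g e) * sgn (g e')) • M e e') ^ (2 * p)).trace ≤
      (Fintype.card (E → Bool) : ℝ) * ((Fintype.card E + 1) * Fintype.card I) *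
        (2 * p ^ 2 * σ) ^ p

/-- LI2.  Matrix weights, with the transformation.
PROOF.  As `S_LIN` (see the proof in `Pool/Agent/KSX/LIN.lean`): `W = (1 / q) • ∑ A_e A_e + D • 1 = Rᵀ R`,
`T = R⁻¹`, `B e = Tᵀ * A e * T`.  `|T u| ^ 2 ≤ |u| ^ 2 / D` because `D |x| ^ 2 ≤ x ⬝ W x = |R x| ^ 2` for
`x = T u`; `|Tᵀ u| ^ 2 ≤ |u| ^ 2 / D` is proved in the doc string of `S_LIN`. -/
def S_LI2 : Prop :=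
  ∀ (E I : Type) [Fintype E] [Fintype I] [DecidableEq I] (A : E → Matrix I I ℝ) (q D : ℝ),
    0 < q → 0 < D → (∀ e, (A e)ᵀ = A e) →
    ∃ (R T : Matrix I I ℝ), (∀ u : I → ℝ, (T *ᵥ u) ⬝ᵥ (T *ᵥ u) ≤ 1 / D * (u ⬝ᵥ u)) ∧
      (∀ u : I → ℝ, (Tᵀ *ᵥ u) ⬝ᵥ (Tᵀ *ᵥ u) ≤ 1 / D * (u ⬝ᵥ u)) ∧
      (∀ u : I → ℝ, ∑ e, ((Tᵀ * A e * T) *ᵥ u) ⬝ᵥ ((Tᵀ * A e * T) *ᵥ u) ≤ q / D * (u ⬝ᵥ u)) ∧
      (∀ z : I → ℝ, (R *ᵥ z) ⬝ᵥ (R *ᵥ z) =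
        1 / q * (∑ e, (A e *ᵥ z) ⬝ᵥ (A e *ᵥ z)) + D * (z ⬝ᵥ z)) ∧
      ∀ (z : I → ℝ) (X : Matrix I I ℝ),
        (R *ᵥ z) ⬝ᵥ ((Tᵀ * X * T) *ᵥ (R *ᵥ z)) = z ⬝ᵥ (X *ᵥ z)

/-- KRN.  Tensor products.
PROOF.  Direct computation (`Fintype.sum_prod_type`, `Finset.sum_mul_sum`). -/
def S_KRN : Prop :=
  ∀ (I : Type) [Fintype I] [DecidableEq I] (A B : Matrix I I ℝ) (z : I → ℝ),
    (kr A B)ᵀ = kr Aᵀ Bᵀ ∧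
    tz z ⬝ᵥ (kr A B *ᵥ tz z) = (z ⬝ᵥ (A *ᵥ z)) * (z ⬝ᵥ (B *ᵥ z)) ∧
    (kr A B *ᵥ tz z) ⬝ᵥ (kr A B *ᵥ tz z) =
      ((A *ᵥ z) ⬝ᵥ (A *ᵥ z)) * ((B *ᵥ z) ⬝ᵥ (B *ᵥ z)) ∧
    tz z ⬝ᵥ tz z = (z ⬝ᵥ z) ^ 2

/-- PWT.  The weights of the pairs.  Uses `S_KRN`.
PROOF.  `|MM A e e' (tz z)| ^ 2 = |∑_v kr (A e v) (A e' v) (tz z)| ^ 2 ≤
|V| ∑_v |A e v z| ^ 2 |A e' v z| ^ 2` (Cauchy-Schwarz, KRN).  For the pairs with `c e = c e' = γ` (drop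
`e ≠ e'`), weight `1 / (dc γ + D)`: the sum is at most
`|V| ∑_v (∑_{c e = γ} |A e v z| ^ 2) ^ 2 / (dc γ + D) ≤ |V| ^ 2 a ^ 2 dc γ ^ 2 / (dc γ + D) ≤
|V| ^ 2 a ^ 2 dc γ`.  Sum over `γ` (`∑_γ dc γ = |E|`). -/
def S_PWT : Prop :=
  ∀ (E Γ V I : Type) [Fintype E] [DecidableEq E] [Fintype Γ] [DecidableEq Γ] [Fintype V]
    [Fintype I] [DecidableEq I] (c : E → Γ) (A : E → V → Matrix I I ℝ) (D a : ℝ)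
    (z : I → ℝ), 0 < D → 0 ≤ a →
    (∀ γ v, ∑ e ∈ univ.filter (fun e => c e = γ), (A e v *ᵥ z) ⬝ᵥ (A e v *ᵥ z) ≤ a * dc c γ) →
    ∑ e, ∑ e', gw c D e e' * ((MM A e e' *ᵥ tz z) ⬝ᵥ (MM A e e' *ᵥ tz z)) ≤
      (Fintype.card V : ℝ) ^ 2 * a ^ 2 * Fintype.card E

/-- FLT.  The flattening.
PROOF.  First inequality.  Fix `γ`; let `Sγ` be the set of the `e` with `c e = γ`.  For `e' ∈ Sγ` the inner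
sum is `(1 / (dc γ + D)) (∑_{e ∈ Sγ} MM e e' w_e - MM e' e' w_{e'})`, norm square at most
`(2 / D ^ 2) (|∑_{e ∈ Sγ} MM e e' w_e| ^ 2 + |MM e' e' w_{e'}| ^ 2)`.
(a) `∑_{e ∈ Sγ} MM e e' w_e = ∑_v kr 1 (A e' v) s_v`, `s_v = ∑_{e ∈ Sγ} kr (A e v) 1 w_e`
(`kr A B = kr 1 B * kr A 1`).  Cauchy-Schwarz over `v`, and `∑_{e' ∈ Sγ} |kr 1 (A e' v) s| ^ 2 ≤ h |s| ^ 2`
(hypothesis for each vector `s (i, ·)`), and `|s_v| ^ 2 ≤ h ∑_{e ∈ Sγ} |w_e| ^ 2`: for `u = s_v`,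
`|u| ^ 2 = ∑_e (kr (A e v) 1 u) ⬝ w_e ≤ (∑_e |kr (A e v) 1 u| ^ 2) ^ (1/2) (∑_e |w_e| ^ 2) ^ (1/2) ≤
(h |u| ^ 2) ^ (1/2) (∑ |w_e| ^ 2) ^ (1/2)` (`A` symmetric; avoid roots by squaring).  So
`∑_{e' ∈ Sγ} |…| ^ 2 ≤ |V| · |V| h · h ∑_{e ∈ Sγ} |w_e| ^ 2`.
(b) `|A e v u| ^ 2 ≤ h |u| ^ 2`, so `|kr (A e v) (A e v) w| ^ 2 ≤ h ^ 2 |w| ^ 2` and
`|MM e e w| ^ 2 ≤ |V| ^ 2 h ^ 2 |w| ^ 2`.  Total `(2 / D ^ 2) · 2 |V| ^ 2 h ^ 2 ∑_{e ∈ Sγ} |w_e| ^ 2`; sum over `γ`.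
The second inequality is the same with the tensor factors exchanged (`gw` is symmetric). -/
def S_FLT : Prop :=
  ∀ (E Γ V I : Type) [Fintype E] [DecidableEq E] [Fintype Γ] [DecidableEq Γ] [Fintype V]
    [Fintype I] [DecidableEq I] (c : E → Γ) (A : E → V → Matrix I I ℝ) (D h : ℝ),
    0 < D → 0 ≤ h → (∀ e v, (A e v)ᵀ = A e v) →
    (∀ γ v (u : I → ℝ), ∑ e ∈ univ.filter (fun e => c e = γ),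
      (A e v *ᵥ u) ⬝ᵥ (A e v *ᵥ u) ≤ h * (u ⬝ᵥ u)) →
    ∀ w : E → I × I → ℝ,
      ∑ e', (∑ e, gw c D e e' • (MM A e e' *ᵥ w e)) ⬝ᵥ
          (∑ e, gw c D e e' • (MM A e e' *ᵥ w e)) ≤
        4 * (Fintype.card V : ℝ) ^ 2 * h ^ 2 / D ^ 2 * ∑ e, w e ⬝ᵥ w e ∧
      ∑ e', (∑ e, gw c D e' e • (MM A e' e *ᵥ w e)) ⬝ᵥ
          (∑ e, gw c D e' e • (MM A e' e *ᵥ w e)) ≤
        4 * (Fintype.card V : ℝ) ^ 2 * h ^ 2 / D ^ 2 * ∑ e, w e ⬝ᵥ w e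

/-- MPR.  Moments for pairs.
PROOF.  `∏_{i < M} y (φ i).1 y (φ i).2 = ∏_{i < M + M} y (ψ i)` with `ψ = Fin.append (fst ∘ φ) (snd ∘ φ)`
(`Fin.prod_univ_add`), and the same for `sgn`. -/
def S_MPR : Prop :=
  ∀ (Ω E : Type) [Fintype Ω] [Fintype E] [DecidableEq E] (y : Ω → E → ℝ) (M m : ℕ),
    2 * M ≤ m → Mo y m → ∀ φ : Fin M → E × E,
      (∑ ω, ∏ i, (y ω (φ i).1 * y ω (φ i).2)) * (Fintype.card (E → Bool) : ℝ) =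
        (∑ g : E → Bool, ∏ i, (sgn (g (φ i).1) * sgn (g (φ i).2))) * (Fintype.card Ω : ℝ)

/-- OFF.  The off-diagonal part.  Uses `S_LI2`, `S_KRN`, `S_PWT`, `S_FLT`, `S_CHK`, `S_MPR`, `S_TRF`,
`S_TRP`.
PROOF.  `g = gw c D1 e e' ≤ 1 / D1`, `g = 0` for `e = e'`.  LI2 for the pairs `(e, e')` with the matrices
`√g • MM A e e'` (symmetric by KRN), `q = α`, `D = D2`: `R`, `T`.  Let `K e e' = g • (Tᵀ * MM A e e' * T)`,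
symmetric, `K e e = 0`, and `X ω = ∑_{e, e'} (y ω e y ω e') • K e e'`.  By the last clause of LI2 and KRN the
inner sum of the claim is `(R (tz z)) ⬝ (X ω (R (tz z)))`, and
`|R (tz z)| ^ 2 = (1 / α) ∑ g |MM (tz z)| ^ 2 + D2 |tz z| ^ 2 ≤ |V| ^ 2 a ^ 2 |E| / α + D2 b ^ 2 ≤ κ` (PWT, KRN).
TRP: the `2 p`-th power is at most `κ ^ (2 p) tr (X ω ^ (2 p))`.  TRF for `E × E` with
`y ω e * y ω e'`, `sgn (g e) * sgn (g e')` (MPR, `M = 2 p`, `2 M = 4 p ≤ m`).  CHK with `σ`: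
first condition: `K e e' = √g • (Tᵀ * (√g • MM) * T)`, so
`∑_{e, e'} |K e e' b| ^ 2 ≤ (1 / D1) ∑ |Tᵀ (√g MM) T b| ^ 2 ≤ α / (D1 D2) |b| ^ 2`, and
`|(K e e' + K e' e) b| ^ 2 ≤ 2 |K e e' b| ^ 2 + 2 |K e' e b| ^ 2`: at most `4 α / (D1 D2) ≤ σ`.
Second condition: `∑_e K e e' a_e = Tᵀ (∑_e g MM e e' (T a_e))`, norm square at most
`(1 / D2) |∑_e g MM e e' w_e| ^ 2`, `w_e = T a_e`, `|w_e| ^ 2 ≤ |a_e| ^ 2 / D2`; FLT: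
`∑_{e'} |∑_e K e e' a_e| ^ 2 ≤ 4 |V| ^ 2 h ^ 2 / (D1 D2) ^ 2 ∑ |a_e| ^ 2`, the same for `K e' e`; together
`16 |V| ^ 2 h ^ 2 / (D1 D2) ^ 2 ≤ σ`.  `|I × I| = |I| ^ 2`. -/
def S_OFF : Prop :=
  ∀ (E Γ V I Ω : Type) [Fintype E] [DecidableEq E] [Fintype Γ] [DecidableEq Γ] [Fintype V]
    [Fintype I] [DecidableEq I] [Fintype Ω] (c : E → Γ)
    (A : E → V → Matrix I I ℝ) (y : Ω → E → ℝ) (z : Ω → I → ℝ) (h D1 D2 a b α κ σ : ℝ)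
    (m p : ℕ), 1 ≤ p → 4 * p ≤ m → Mo y m → 0 ≤ h → 0 < D1 → 0 < D2 → 0 ≤ a → 0 < α →
    (∀ e v, (A e v)ᵀ = A e v) →
    (∀ γ v (u : I → ℝ), ∑ e ∈ univ.filter (fun e => c e = γ),
      (A e v *ᵥ u) ⬝ᵥ (A e v *ᵥ u) ≤ h * (u ⬝ᵥ u)) →
    (∀ ω γ v, ∑ e ∈ univ.filter (fun e => c e = γ),
      (A e v *ᵥ z ω) ⬝ᵥ (A e v *ᵥ z ω) ≤ a * dc c γ) →
    (∀ ω, z ω ⬝ᵥ z ω ≤ b) →
    (Fintype.card V : ℝ) ^ 2 * a ^ 2 * Fintype.card E / α + D2 * b ^ 2 ≤ κ →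
    4 * α / (D1 * D2) ≤ σ → 16 * (Fintype.card V : ℝ) ^ 2 * h ^ 2 / (D1 * D2) ^ 2 ≤ σ →
    ∑ ω, (∑ e, ∑ e', gw c D1 e e' * (y ω e * y ω e') *
        ∑ v, (z ω ⬝ᵥ (A e v *ᵥ z ω)) * (z ω ⬝ᵥ (A e' v *ᵥ z ω))) ^ (2 * p) ≤
      κ ^ (2 * p) * (Fintype.card Ω * ((Fintype.card E + 1) * (Fintype.card I : ℝ) ^ 2) *
        (2 * p ^ 2 * σ) ^ p)

/-- CSL.  Cauchy-Schwarz over the cells and contents.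
PROOF.  Let `w γ = dc γ + D`, `f e v = z ⬝ (A e v z)`, `g γ v = ∑_{c e = γ} y e f e v`.  The left side is
`(∑_γ g γ (x γ)) ^ 2 ≤ (∑_γ w γ) (∑_γ g γ (x γ) ^ 2 / w γ) ≤ (|E| + |Γ| D) ∑_γ ∑_v g γ v ^ 2 / w γ`.
`g γ v ^ 2 = ∑_{c e = c e' = γ} y e y e' f e v f e' v`; the terms `e = e'` (`y e ^ 2 = 1`) give at most
`∑_γ |V| d γ / w γ`, the others are the last sum. -/
def S_CSL : Prop :=
  ∀ (E Γ V I : Type) [Fintype E] [DecidableEq E] [Fintype Γ] [DecidableEq Γ] [Fintype V]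
    [DecidableEq V] [Fintype I] (c : E → Γ) (A : E → V → Matrix I I ℝ) (y : E → ℝ)
    (z : I → ℝ) (x : Γ → V) (d : Γ → ℝ) (D : ℝ), 0 < D → (∀ e, y e * y e = 1) →
    (∀ γ v, ∑ e ∈ univ.filter (fun e => c e = γ), (z ⬝ᵥ (A e v *ᵥ z)) ^ 2 ≤ d γ) →
    (∑ e, y e * (z ⬝ᵥ (A e (x (c e)) *ᵥ z))) ^ 2 ≤
      (Fintype.card E + Fintype.card Γ * D) *
        ((∑ γ, Fintype.card V * d γ / (dc c γ + D)) +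
          ∑ e, ∑ e', gw c D e e' * (y e * y e') *
            ∑ v, (z ⬝ᵥ (A e v *ᵥ z)) * (z ⬝ᵥ (A e' v *ᵥ z)))

/-- DIA.  The diagonal part.
PROOF.  `8 |V| dc γ / (dc γ + D) ≤ 8 |V|` and `8 |V| a ^ 2 dc γ ^ 2 / (h (dc γ + D)) ≤ 8 |V| a ^ 2 dc γ / h`;
sum over `γ`, `∑_γ dc γ = |E|`. -/
def S_DIA : Prop :=
  ∀ (E Γ V : Type) [Fintype E] [DecidableEq E] [Fintype Γ] [DecidableEq Γ] [Fintype V]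
    (c : E → Γ) (D a h : ℝ), 0 < D → 0 < h →
    ∑ γ, Fintype.card V * (8 * dc c γ + 8 * a ^ 2 * dc c γ ^ 2 / h) / (dc c γ + D) ≤
      Fintype.card V * (8 * Fintype.card Γ + 8 * a ^ 2 * Fintype.card E / h)

/-! ## H. Assembly for odd `T` -/

/-- FPR.  The first probe.
PROOF.  `a = probe c next`: clear.  `a = answer b`: any cell, `next v = answer b`. -/
def S_FPR : Prop :=
  ∀ (S w T : ℕ) (a : Alg S w), 1 ≤ S → a.Within (T + 1) →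
    ∃ (c : Fin S) (next : Fin (2 ^ w) → Alg S w), (∀ v, (next v).Within T) ∧
      ∀ M, a.run M = (next (M c)).run M

/-- HVP.  The heavy case.  Uses `S_GEN`, `S_PME`.
PROOF.  `F ω = (1 / 2) ∑_e y ω e (u ω ⬝ B e u ω)`.  PME (`a = ρ Q`) and GEN (`A = B`, `α = a q`,
`κ = 10 Q`: `(1 / (a q)) 4 a Q (q + 1) ≤ 8 Q`, `D (a Q / h + b) ≤ 2 Q`):
`(ρ Q) ^ (2 p) |Ω| ≤ (1 / 2) ^ (2 p) (10 Q) ^ (2 p) |Ω| |J| (2 p a q / D) ^ p`, so with `|J| ≤ 2 ^ p`: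
`(ρ ^ 2) ^ p ≤ (25 · 2 · 2 p a q / D) ^ p`. -/
def S_HVP : Prop :=
  ∀ (E J Ω : Type) [Fintype E] [DecidableEq E] [Fintype J] [DecidableEq J] [Fintype Ω]
    [Nonempty Ω] (y : Ω → E → ℝ) (B : E → Matrix J J ℝ) (u : Ω → J → ℝ)
    (q a b h D ρ : ℝ) (m p : ℕ), 1 ≤ p → 2 * p ≤ m → Mo y m → 1 ≤ q → 0 < a → 0 < h → 0 < D →
    0 < ρ → 0 < Fintype.card E → (∀ e, (B e)ᵀ = B e) → (Fintype.card J : ℝ) ≤ 2 ^ p →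
    D * a ≤ h → D * b ≤ Fintype.card E →
    (∀ ω, ∑ e, (B e *ᵥ u ω) ⬝ᵥ (B e *ᵥ u ω) ≤ 4 * a * Fintype.card E * (q + 1)) →
    (∀ ω, u ω ⬝ᵥ u ω ≤ a * Fintype.card E / h + b) →
    ρ * Fintype.card E * Fintype.card Ω ≤ ∑ ω, 1 / 2 * ∑ e, y ω e * (u ω ⬝ᵥ (B e *ᵥ u ω)) →
    ρ ^ 2 * D ≤ 100 * p * a * q

/-- LTP.  The light case.  Uses `S_OFF`, `S_CSL`, `S_DIA`, `S_PME`.
PROOF.  `Q = |E|`, `q = |V|`, `S = |Γ|`, `D1 = Q / S`, `D2 = Q / b ^ 2`, `Θ = D1 D2 = Q ^ 2 / (S b ^ 2)`,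
`α = q ^ 2 a ^ 2`, `κ = 2 Q`.  Suppose `4 h ^ 2 ≤ a ^ 2 Θ` (otherwise the third case holds).  Then with
`σ = 4 q ^ 2 a ^ 2 / Θ` the conditions of OFF hold.  CSL (`d γ = 8 dc γ + 8 a ^ 2 dc γ ^ 2 / h`), DIA:
`F ω ^ 2 ≤ 2 Q (Δ + O ω)`, `Δ = q (8 S + 8 a ^ 2 Q / h)`, `O ω` the off-diagonal sum.  PME with `2 p`
(exponent `2 (2 p)`): `(ρ Q) ^ (4 p) |Ω| ≤ ∑ F ω ^ (4 p) ≤ (2 Q) ^ (2 p) ∑ (Δ + O ω) ^ (2 p) ≤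
(2 Q) ^ (2 p) 2 ^ (2 p) (|Ω| Δ ^ (2 p) + ∑ O ω ^ (2 p))` (`(x + y) ^ (2 p) ≤ 2 ^ (2 p) (x ^ (2 p) + y ^ (2 p))`,
`add_pow_le_pow_mul_pow_add_pow` or by cases on `|x| ≤ |y|`; note `F ^ 2 ≤ 2 Q (Δ + O)` implies
`0 ≤ Δ + O`).  OFF.  So either
`(ρ Q) ^ (4 p) ≤ 2 (4 Q) ^ (2 p) Δ ^ (2 p)`, hence `ρ ^ 2 Q ≤ 8 Δ` (`2 ≤ 2 ^ (2 p)`): first case; or
`(ρ Q) ^ (4 p) ≤ 2 (4 Q) ^ (2 p) (2 Q) ^ (2 p) (Q + 1) |I| ^ 2 (2 p ^ 2 σ) ^ p`, with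
`2 (Q + 1) |I| ^ 2 ≤ 2 ^ p`: `(ρ ^ 4) ^ p ≤ (64 · 2 · 8 p ^ 2 q ^ 2 a ^ 2 / Θ) ^ p`: second. -/
def S_LTP : Prop :=
  ∀ (E Γ V I Ω : Type) [Fintype E] [DecidableEq E] [Fintype Γ] [DecidableEq Γ] [Fintype V]
    [DecidableEq V] [Fintype I] [DecidableEq I] [Fintype Ω] [Nonempty Ω]
    (c : E → Γ) (A : E → V → Matrix I I ℝ) (y : Ω → E → ℝ) (z : Ω → I → ℝ) (x : Ω → Γ → V)
    (h a b ρ : ℝ) (m p : ℕ), 1 ≤ p → 4 * p ≤ m → Mo y m → 0 < h → 0 < a → 0 < b → 0 < ρ →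
    0 < Fintype.card E → 0 < Fintype.card Γ → 0 < Fintype.card V → (∀ ω e, y ω e * y ω e = 1) →
    (2 * (Fintype.card E + 1) * (Fintype.card I : ℝ) ^ 2) ≤ 2 ^ p →
    (∀ e v, (A e v)ᵀ = A e v) →
    (∀ γ v (u : I → ℝ), ∑ e ∈ univ.filter (fun e => c e = γ),
      (A e v *ᵥ u) ⬝ᵥ (A e v *ᵥ u) ≤ h * (u ⬝ᵥ u)) →
    (∀ ω γ v, ∑ e ∈ univ.filter (fun e => c e = γ),
      (A e v *ᵥ z ω) ⬝ᵥ (A e v *ᵥ z ω) ≤ a * dc c γ) →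
    (∀ ω γ v, ∑ e ∈ univ.filter (fun e => c e = γ), (z ω ⬝ᵥ (A e v *ᵥ z ω)) ^ 2 ≤
      8 * dc c γ + 8 * a ^ 2 * dc c γ ^ 2 / h) →
    (∀ ω, z ω ⬝ᵥ z ω ≤ b) →
    ρ * Fintype.card E * Fintype.card Ω ≤
      ∑ ω, ∑ e, y ω e * (z ω ⬝ᵥ (A e (x ω (c e)) *ᵥ z ω)) →
    ρ ^ 2 * Fintype.card E ≤
        8 * Fintype.card V * (8 * Fintype.card Γ + 8 * a ^ 2 * Fintype.card E / h) ∨
      ρ ^ 4 * (Fintype.card E : ℝ) ^ 2 ≤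
        1024 * p ^ 2 * (Fintype.card V : ℝ) ^ 2 * a ^ 2 * (Fintype.card Γ * b ^ 2) ∨
      a ^ 2 * (Fintype.card E : ℝ) ^ 2 ≤ 4 * h ^ 2 * (Fintype.card Γ * b ^ 2)

/-- CR3.  The main inequality for odd `T`.  Uses `S_DEC`, `S_HVP`, `S_LTP`, `S_FPR`, `S_ALG`, `S_ALX`,
`S_MOM`, `S_COR`, `S_WIT`.
PROOF.  `E = Fin k → Fin n`, `Γ = Fin S`, `V = Fin (2 ^ w)`, `I = Idx t S w ⊕ Idx t S w`, `Ω` the set of the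
data `f`; `Q = |E| = n ^ k`, `q = |V| = 2 ^ w`, `|I| = 2 (2 ^ w S) ^ t`, `r ≥ 1` (as in CRE).  COR: `mem`, `alg`, and with `2 · 2 ^ r δ ≤ 1`:
`∑_f ∑_e y f e sgn (run) ≥ Q |Ω| / 2 ^ r`, `y f e = (-1) ^ r yy x f e` (`y * y = 1`; `Mo y m` from MOM: the
factor `((-1) ^ r) ^ M` is `± 1`, and if it is `-1` then `M` is odd and both sides of MOM are 0: flip all
signs `g ↦ ! g`, so the `g` side is 0 for odd `M`, and then also the other side).  WIT, FPR: cells `c e` and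
`next e v` within `t + t`; `A e v` from ALG, `z f = xv t (mem f)`, `x f γ = mem f γ`:
`z ⬝ A e (x (c e)) z = 2 sgn (run)`, `|A e v z| ^ 2 = 2 q ^ t =: a`, `(z ⬝ A e v z) ^ 2 = 4`,
`z ⬝ z = 2 S ^ t =: b`.  `ρ = 1 / 2 ^ r`, `h = 128 p a ^ 2 q / ρ ^ 2`.  DEC: `A'`, `B`, `u f`.  So
`∑_f ∑_e y z ⬝ A z = ∑_f (1 / 2) ∑_e y u ⬝ B u + ∑_f ∑_e y z ⬝ A' z ≥ 2 ρ Q |Ω|`: one of the two sums is
`≥ ρ Q |Ω|`.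
Heavy: HVP with `D = min (h / a) (Q / b)`: `ρ ^ 2 D ≤ 100 p a q`.  `D = h / a` would give
`128 ≤ 100`; so `ρ ^ 2 Q ≤ 100 p a b q`, `Q ^ 2 ≤ 10 ^ 4 p ^ 2 a ^ 2 b ^ 2 q ^ 2 16 ^ r`, and
`a ^ 2 b ^ 2 q ^ 2 = 16 q ^ (2 t + 2) S ^ (2 t)`.
Light: LTP (conditions: DEC (2), (3) with `∑_{c e = γ} |A e v z| ^ 2 ≤ a dc γ`, (5)).  First case:
`8 q · 8 a ^ 2 Q / h = ρ ^ 2 Q / (2 p) ≤ ρ ^ 2 Q / 2`, so `ρ ^ 2 Q ≤ 128 q S`,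
`Q ^ 2 ≤ 2 ^ 14 16 ^ r q ^ 2 S ^ 2` and `S ^ 2 ≤ S ^ (2 t + 1)`, `q ^ 2 ≤ q ^ (2 t + 2)` (`t ≥ 1`).  Second:
`Q ^ 2 ≤ 1024 · 16 p ^ 2 16 ^ r q ^ (2 t + 2) S ^ (2 t + 1)`.  Third:
`Q ^ 2 ≤ 4 h ^ 2 S b ^ 2 / a ^ 2 = 4 · 128 ^ 2 p ^ 2 a ^ 2 q ^ 2 16 ^ r S b ^ 2 = 2 ^ 20 p ^ 2 16 ^ r q ^ (2 t + 2) S ^ (2 t + 1)`. -/
def S_CR3 : Prop :=
  ∀ (k n s r m p t N S w T : ℕ) (x : Fin r → Fin n → Fin s) (δ : ℝ), 0 < k → 0 < n → 1 ≤ S →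
    1 ≤ t → 1 ≤ p → 4 * p ≤ m → Good x k m → T ≤ t + t + 1 → k * n ≤ N → r * s ^ k ≤ N →
    k * n * (r * s ^ (k - 1)) ≤ N → (S * 2 ^ w + 1) * (2 * (2 ^ w * S) ^ t) ≤ 2 ^ p →
    2 * (n ^ k + 1) * (2 * (2 ^ w * S) ^ t) ^ 2 ≤ 2 ^ p → 2 * 2 ^ r * δ ≤ 1 →
    Scheme k N S w T δ →
    ((n : ℝ) ^ k) ^ 2 ≤
      2 ^ 20 * p ^ 2 * 16 ^ r * (((2 : ℝ) ^ w) ^ (2 * t + 2) * (S : ℝ) ^ (2 * t + 1))

/-- PR3.  The parameters for odd `T`.  Uses `S_CR3`, `S_LAB`.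
PROOF.  As PAR, with `ℓ = Nat.log 2 N + 1`, `p = 8 k ℓ + 8`, `m = 4 p`, `r = 2 k r'`, `s = m 4 ^ k 2 ^ L`,
`n = N / (k r s ^ (k - 1))`.  If `N ^ (2 k) ≤ (2 ^ w) ^ (2 t + 2) S ^ (2 t + 1)` the claim is trivial.
Otherwise `(2 ^ w S) ^ (2 t) < N ^ (2 k)`, so `(2 ^ w S) ^ t < N ^ k`, and `S, 2 ^ w < N ^ (2 k)`; the two
dimension conditions: `(N ^ (4 k) + 1) 2 N ^ k ≤ 4 N ^ (5 k) ≤ 2 ^ (5 k ℓ + 2)` and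
`2 (N ^ k + 1) 4 N ^ (2 k) ≤ 16 N ^ (3 k) ≤ 2 ^ (3 k ℓ + 4)`.  Case `n < s` as in PAR. -/
def S_PR3 : Prop :=
  ∀ (k N S w T t L r' : ℕ) (δ : ℝ), 0 < k → 1 ≤ N → 1 ≤ S → 1 ≤ t → T ≤ t + t + 1 →
    Nat.log 2 N + 3 ≤ L * r' → 2 * 2 ^ (2 * k * r') * δ ≤ 1 → Scheme k N S w T δ →
    (N : ℝ) ^ (2 * k) ≤ (2 * k * (2 * k * r') *
        (4 * (8 * k * (Nat.log 2 N + 1) + 8) * 4 ^ k * 2 ^ L) ^ k) ^ (2 * k) *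
      (2 ^ 20 * (8 * k * (Nat.log 2 N + 1) + 8) ^ 2) * 16 ^ (2 * k * r') *
      (((2 : ℝ) ^ w) ^ (2 * t + 2) * (S : ℝ) ^ (2 * t + 1))

/-- GR3.  Growth of the parameters for odd `T`.
PROOF.  As GRO (see `Pool/Agent/KSX/GRO.lean`): `L = ⌈64 k / ε⌉ + 1`, `16 ^ (2 k r') = (2 ^ (2 k r')) ^ 4`. -/
def S_GR3 : Prop :=
  ∀ (k : ℕ) (ε : ℝ), 0 < k → 0 < ε → ∃ (L : ℕ) (C : ℝ), 1 ≤ C ∧ ∀ N : ℕ, 1 ≤ N →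
    ∃ r' : ℕ, Nat.log 2 N + 3 ≤ L * r' ∧ (2 : ℝ) * 2 ^ (2 * k * r') ≤ C * (N : ℝ) ^ ε ∧
      (2 * k * (2 * k * r') *
          (4 * (8 * k * (Nat.log 2 N + 1) + 8) * 4 ^ k * 2 ^ L) ^ k : ℝ) ^ (2 * k) *
        (2 ^ 20 * (8 * k * (Nat.log 2 N + 1) + 8) ^ 2) * 16 ^ (2 * k * r') ≤ C * (N : ℝ) ^ ε

/-- ALL.  The theorem for all `T ≥ 2`.  Uses `S_FIN`, `S_PR3`, `S_GR3`.
PROOF.  `C` = the maximum of `C1 ^ 2`, `C1` (from FIN for `ε / 2`; replace `C1` by `max C1 1`), and `C3` (GR3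
for `ε`).  `δ ≥ 0` without loss (a scheme for `δ < 0` is a scheme for `0`).  `T = 2 t`: FIN (the
condition `C1 N ^ (ε / 2) δ ≤ C N ^ ε δ ≤ 1`), squared: `N ^ (2 k - ε) = (N ^ (k - ε / 2)) ^ 2 ≤
C1 ^ 2 (2 ^ w S) ^ (2 t) = C1 ^ 2 (4 ^ w) ^ t S ^ T` and `(T + 1) / 2 = t`.  `T = 2 t + 1`, `t ≥ 1`: PR3 and
GR3: `N ^ (2 k) ≤ C N ^ ε (2 ^ w) ^ (2 t + 2) S ^ (2 t + 1)`, `(2 ^ w) ^ (2 t + 2) = (4 ^ w) ^ (t + 1)`. -/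
def S_ALL : Prop :=
  ∀ (k : ℕ) (ε : ℝ), 2 ≤ k → 0 < ε → ∃ C : ℝ, ∀ (N S w T : ℕ) (δ : ℝ), 1 ≤ N → 1 ≤ S → 2 ≤ T →
    C * (N : ℝ) ^ ε * δ ≤ 1 → Nonempty (Scheme k N S w T δ) →
      (N : ℝ) ^ (2 * (k : ℝ) - ε) ≤ C * (((4 : ℝ) ^ w) ^ ((T + 1) / 2) * (S : ℝ) ^ T)

end

end Pool.Agent.KSX
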