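import Mathlib
import Pool.Agent.KSX.St2

/-!
# YNG: a trace inequality of Young type
-/

set_option autoImplicit false

open Finset Matrix

namespace Pool.Agent.KSX

namespace YNG_aux

/-- the spectral theorem for real symmetric matrices, in coordinates -/
theorem spec {I : Type} [Fintype I] [DecidableEq I] (A : Matrix I I ℝ) (hA : Aᵀ = A) :
    ∃ (U : Matrix I I ℝ) (v : I → ℝ), U * Uᵀ = 1 ∧ Uᵀ * U = 1 ∧ A = U * diagonal v * Uᵀ := by
  have hH : A.IsHermitian := by
    change Aᴴ = A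
    rw [conjTranspose_eq_transpose_of_trivial, hA]
  refine ⟨(hH.eigenvectorUnitary : Matrix I I ℝ), hH.eigenvalues, ?_, ?_, ?_⟩
  · have h := Unitary.mul_star_self_of_mem hH.eigenvectorUnitary.2
    rw [star_eq_conjTranspose, conjTranspose_eq_transpose_of_trivial] at h
    exact h
  · have h := Unitary.star_mul_self_of_mem hH.eigenvectorUnitary.2
    rw [star_eq_conjTranspose, conjTranspose_eq_transpose_of_trivial] at h
    exact h
  · have h := hH.spectral_theorem
    rw [Unitary.conjStarAlgAut_apply, star_eq_conjTranspose,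
      conjTranspose_eq_transpose_of_trivial] at h
    exact h

theorem pow_spec {I : Type} [Fintype I] [DecidableEq I] (A U : Matrix I I ℝ) (v : I → ℝ)
    (h1 : U * Uᵀ = 1) (h2 : Uᵀ * U = 1) (h : A = U * diagonal v * Uᵀ) (k : ℕ) :
    A ^ k = U * diagonal (fun i => v i ^ k) * Uᵀ := by
  induction k with
  | zero => simp [h1]
  | succ k ih =>
    have h3 : diagonal (fun i => v i ^ (k + 1)) =
        diagonal (fun i => v i ^ k) * diagonal v := by
      rw [diagonal_mul_diagonal]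
      congr 1
    rw [pow_succ, ih, h3]
    nth_rewrite 1 [h]
    calc U * diagonal (fun i => v i ^ k) * Uᵀ * (U * diagonal v * Uᵀ) =
        U * diagonal (fun i => v i ^ k) * (Uᵀ * U) * diagonal v * Uᵀ := by
          simp only [Matrix.mul_assoc]
      _ = _ := by rw [h2, Matrix.mul_one]; simp only [Matrix.mul_assoc]

theorem nonneg {I : Type} [Fintype I] [DecidableEq I] (A U : Matrix I I ℝ) (v : I → ℝ)
    (h2 : Uᵀ * U = 1) (h : A = U * diagonal v * Uᵀ)
    (hn : ∀ u : I → ℝ, 0 ≤ u ⬝ᵥ (A *ᵥ u)) (a : I) : 0 ≤ v a := by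
  have h3 : Uᵀ * A * U = diagonal v := by
    rw [h]
    calc Uᵀ * (U * diagonal v * Uᵀ) * U = (Uᵀ * U) * diagonal v * (Uᵀ * U) := by
          simp only [Matrix.mul_assoc]
      _ = _ := by rw [h2, Matrix.one_mul, Matrix.mul_one]
  have h4 := hn (fun i => U i a)
  have h5 : (fun i => U i a) ⬝ᵥ (A *ᵥ fun i => U i a) = (Uᵀ * A * U) a a := by
    rw [Matrix.mul_assoc, Matrix.mul_apply]
    rfl
  rw [h5, h3, diagonal_apply_eq] at h4
  exact h4

theorem double {I : Type} [Fintype I] [DecidableEq I] (U O : Matrix I I ℝ) (v w : I → ℝ) :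
    (U * diagonal v * Uᵀ * (O * diagonal w * Oᵀ)).trace =
      ∑ a, ∑ b, v a * w b * ((Uᵀ * O) a b) ^ 2 := by
  have h1 : U * diagonal v * Uᵀ * (O * diagonal w * Oᵀ) =
      U * (diagonal v * (Uᵀ * O) * diagonal w * Oᵀ) := by
    simp only [Matrix.mul_assoc]
  rw [h1, Matrix.trace_mul_comm]
  have h2 : diagonal v * (Uᵀ * O) * diagonal w * Oᵀ * U =
      diagonal v * ((Uᵀ * O) * (diagonal w * (Uᵀ * O)ᵀ)) := by
    rw [Matrix.transpose_mul, Matrix.transpose_transpose]
    simp only [Matrix.mul_assoc]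
  rw [h2, Matrix.trace]
  refine Finset.sum_congr rfl fun a _ => ?_
  rw [Matrix.diag_apply, Matrix.diagonal_mul, Matrix.mul_apply, Finset.mul_sum]
  refine Finset.sum_congr rfl fun b _ => ?_
  rw [Matrix.diagonal_mul, Matrix.transpose_apply]
  ring

/-- the scalar inequality -/
theorem young (x y : ℝ) (hx : 0 ≤ x) (hy : 0 ≤ y) (p : ℕ) (hp : 1 ≤ p) :
    p * x * y ^ (p - 1) ≤ x ^ p + (p - 1) * y ^ p := by
  rcases hy.eq_or_lt with rfl | hy
  · rcases Nat.eq_or_lt_of_le hp with rfl | hp2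
    · simp
    · have h1 : p - 1 ≠ 0 := by omega
      have h2 : p ≠ 0 := by omega
      rw [zero_pow h1, zero_pow h2]
      have := pow_nonneg hx p
      simpa using this
  · have h1 := one_add_mul_le_pow (a := x / y - 1) (by
      have : 0 ≤ x / y := div_nonneg hx hy.le
      linarith) p
    have h2 : 1 + (x / y - 1) = x / y := by ring
    rw [h2, div_pow] at h1
    have h3 : 0 < y ^ p := pow_pos hy p
    have h4 := mul_le_mul_of_nonneg_right h1 h3.le
    rw [div_mul_cancel₀ _ h3.ne'] at h4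
    have h5 : y ^ p = y ^ (p - 1) * y := by
      rw [← pow_succ]
      congr 1
      omega
    have h6 : (1 + (p : ℝ) * (x / y - 1)) * y ^ p =
        p * x * y ^ (p - 1) - (p - 1) * y ^ p := by
      rw [h5]
      field_simp
      ring
    rw [h6] at h4
    linarith

end YNG_aux

open YNG_aux in
theorem t_YNG : S_YNG := by
  intro I _ _ V X κ p hp hκ hV hX hn
  obtain ⟨U, v, hU1, hU2, hVU⟩ := spec V hV
  obtain ⟨O, w, hO1, hO2, hXO⟩ := spec X hX
  have hv := nonneg V U v hU2 hVU hn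
  have key : ∀ i j : ℕ, (V ^ i * X ^ j).trace =
      ∑ a, ∑ b, v a ^ i * w b ^ j * ((Uᵀ * O) a b) ^ 2 := by
    intro i j
    rw [pow_spec V U v hU1 hU2 hVU i, pow_spec X O w hO1 hO2 hXO j, double]
  have k1 := key 1 (2 * (p - 1))
  have k2 := key p 0
  have k3 := key 0 (2 * p)
  rw [pow_one] at k1
  rw [pow_zero, Matrix.mul_one] at k2
  rw [pow_zero, Matrix.one_mul] at k3
  rw [k1, k2, k3, Finset.mul_sum, Finset.mul_sum, ← Finset.sum_add_distrib]
  refine Finset.sum_le_sum fun a _ => ?_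
  rw [Finset.mul_sum, Finset.mul_sum, ← Finset.sum_add_distrib]
  refine Finset.sum_le_sum fun b _ => ?_
  have hp0 : (0 : ℝ) < p := by exact_mod_cast hp
  have hy : 0 ≤ w b ^ 2 / κ := div_nonneg (sq_nonneg _) hκ.le
  have h1 := young (v a) (w b ^ 2 / κ) (hv a) hy p hp
  have h2 : κ ^ (p - 1) * (w b ^ 2 / κ) ^ (p - 1) = w b ^ (2 * (p - 1)) := by
    rw [← mul_pow, mul_div_cancel₀ _ hκ.ne', pow_mul]
  have h3 : κ ^ (p - 1) * (w b ^ 2 / κ) ^ p = w b ^ (2 * p) / κ := by
    have h4 : (w b ^ 2 / κ) ^ p = (w b ^ 2 / κ) ^ (p - 1) * (w b ^ 2 / κ) := by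
      rw [← pow_succ]
      congr 1
      omega
    rw [h4, ← mul_assoc, h2, pow_mul (w b) 2 p]
    have h5 : (w b ^ 2) ^ p = w b ^ (2 * (p - 1)) * w b ^ 2 := by
      rw [← pow_mul, ← pow_add]
      congr 1
      omega
    rw [h5]
    ring
  have h6 : v a * w b ^ (2 * (p - 1)) ≤
      κ ^ (p - 1) / p * v a ^ p + (p - 1) / (p * κ) * w b ^ (2 * p) := by
    have h7 := mul_le_mul_of_nonneg_left h1 (pow_nonneg hκ.le (p - 1))
    have h8 : κ ^ (p - 1) * (p * v a * (w b ^ 2 / κ) ^ (p - 1)) =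
        p * (v a * w b ^ (2 * (p - 1))) := by
      rw [← h2]; ring
    have h9 : κ ^ (p - 1) * (v a ^ p + (p - 1) * (w b ^ 2 / κ) ^ p) =
        p * (κ ^ (p - 1) / p * v a ^ p + (p - 1) / (p * κ) * w b ^ (2 * p)) := by
      have h10 : κ ^ (p - 1) * (v a ^ p + (p - 1) * (w b ^ 2 / κ) ^ p) =
          κ ^ (p - 1) * v a ^ p + (p - 1) * (κ ^ (p - 1) * (w b ^ 2 / κ) ^ p) := by ring
      rw [h10, h3]
      field_simp
    rw [h8, h9] at h7
    exact le_of_mul_le_mul_left h7 hp0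
  have h11 := mul_le_mul_of_nonneg_right h6 (sq_nonneg ((Uᵀ * O) a b))
  calc v a ^ 1 * w b ^ (2 * (p - 1)) * (Uᵀ * O) a b ^ 2 =
      v a * w b ^ (2 * (p - 1)) * (Uᵀ * O) a b ^ 2 := by rw [pow_one]
    _ ≤ _ := h11
    _ = _ := by ring

end Pool.Agent.KSX
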