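import Pool.Agent.KSX.Asm
import Pool.Agent.KSX.GEN
import Pool.Agent.KSX.SPJ
import Pool.Agent.KSX.DEC
import Pool.Agent.KSX.YNG
import Pool.Agent.KSX.CHA
import Pool.Agent.KSX.CHB
import Pool.Agent.KSX.CHK
import Pool.Agent.KSX.LI2
import Pool.Agent.KSX.KRN
import Pool.Agent.KSX.PWT
import Pool.Agent.KSX.FLT
import Pool.Agent.KSX.MPR
import Pool.Agent.KSX.OFF
import Pool.Agent.KSX.CSL
import Pool.Agent.KSX.DIA
import Pool.Agent.KSX.FPR
import Pool.Agent.KSX.HVP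
import Pool.Agent.KSX.LTP
import Pool.Agent.KSX.CR3
import Pool.Agent.KSX.PR3
import Pool.Agent.KSX.GR3
import Pool.Agent.KSX.ALL

/-!
# Project KSX: assembly of the second theorem
-/

set_option autoImplicit false

namespace Pool.Agent.KSX

theorem gen : S_GEN := t_GEN t_LIN t_TRP khi t_TRF

theorem dec : S_DEC := t_DEC t_SPJ

theorem cha : S_CHA := t_CHA khc t_YNG

theorem chb : S_CHB := t_CHB khi

theorem chk : S_CHK := t_CHK cha chb

theorem pwt : S_PWT := t_PWT t_KRN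

theorem off : S_OFF := t_OFF t_LI2 t_KRN pwt t_FLT chk t_MPR t_TRF t_TRP

theorem hvp : S_HVP := t_HVP gen t_PME

theorem ltp : S_LTP := t_LTP off t_CSL t_DIA t_PME

theorem cr3 : S_CR3 := t_CR3 dec hvp ltp t_FPR t_ALG t_ALX mom cor t_WIT

theorem pr3 : S_PR3 := t_PR3 cr3 lab

theorem all : S_ALL := t_ALL fin pr3 t_GR3

end Pool.Agent.KSX
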