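import Pool.Agent.KSX.Defs
import Pool.Agent.Lib_helper81.KSW.Bound

/-!
# Project KSX: bounded error (from the project KSW)
-/

set_option autoImplicit false

namespace Pool.Agent.KSX

open Finset

/-- the same algorithm in the notation of the project KSW -/
def toW {S w : ℕ} : Alg S w → Pool.Agent.Lib_helper81.KSW.Alg S w
  | .answer b => .answer b
  | .probe c next => .probe c (fun x => toW (next x))

lemma toW_run {S w : ℕ} (M : Fin S → Fin (2 ^ w)) (a : Alg S w) :
    (toW a).run M = a.run M := by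
  induction a with
  | answer b => rfl
  | probe c next ih => exact ih (M c)

lemma toW_within {S w : ℕ} (a : Alg S w) : ∀ T : ℕ, a.Within T → (toW a).Within T := by
  induction a with
  | answer b => intro T _; cases T <;> trivial
  | probe c next ih =>
    intro T h
    cases T with
    | zero => exact h
    | succ T => exact fun x => ih x T (h x)

/-- a scheme with error `δ` in the notation of the project KSW -/
def toWS {k N S w T : ℕ} {δ : ℝ} (D : Scheme k N S w T δ) :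
    Pool.Agent.Lib_helper81.KSW.Scheme k N S w T (1 / 2 - δ) where
  R := D.R
  pos := D.pos
  mem := D.mem
  alg := fun r q => toW (D.alg r q)
  within := fun r q => toW_within _ _ (D.within r q)
  correct := fun F hF q hq => by
    have h := D.correct F hF q hq
    have e : (1 / 2 + (1 / 2 - δ)) = 1 - δ := by ring
    rw [e]
    simpa only [toW_run] using h

theorem bounded_error {k N S w T : ℕ} {δ : ℝ} (hk : 2 ≤ k) (hS : 1 ≤ S) (hδ0 : 0 ≤ δ)
    (hδ : δ < 1 / 2) (D : Scheme k N S w T δ) :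
    (N : ℝ) ^ k ≤ ((66 * k ^ 2 : ℕ) * (2 ^ (w * T) * (Nat.log 2 N + 1) / (1 / 2 - δ))) ^
      (66 * k ^ 2) * S ^ ((T + 1) / 2) := by
  have hγ : 0 < 1 / 2 - δ := by linarith
  have h := Pool.Agent.Lib_helper81.KSW.main_bound (by omega) hS hγ (by linarith) (toWS D)
  set Γ : ℝ := 2 ^ (w * T) * (Nat.log 2 N + 1) / (1 / 2 - δ) with hΓ
  have hk1 : (2 : ℝ) ≤ k := by exact_mod_cast hk
  have hΓ1 : 1 ≤ Γ := by
    have h1 : (1 : ℝ) ≤ 2 ^ (w * T) := one_le_pow₀ (by norm_num)
    have h2 : (0 : ℝ) ≤ (Nat.log 2 N : ℝ) := Nat.cast_nonneg _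
    rw [hΓ, le_div_iff₀ hγ]
    nlinarith
  have h1 : 66 * (k : ℝ) * Γ ≤ ((66 * k ^ 2 : ℕ) : ℝ) * Γ := by
    push_cast
    have h2 : (k : ℝ) ≤ k ^ 2 := by nlinarith
    nlinarith
  have h2 : 1 ≤ ((66 * k ^ 2 : ℕ) : ℝ) * Γ := by
    refine le_trans ?_ h1
    nlinarith
  have h3 : 7 * k ^ 2 + 2 * k + 7 ≤ 66 * k ^ 2 := by nlinarith
  refine h.trans ?_
  refine mul_le_mul_of_nonneg_right ?_ (by positivity)
  calc (66 * (k : ℝ) * Γ) ^ (7 * k ^ 2 + 2 * k + 7)
      ≤ (((66 * k ^ 2 : ℕ) : ℝ) * Γ) ^ (7 * k ^ 2 + 2 * k + 7) :=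
        pow_le_pow_left₀ (by positivity) h1 _
    _ ≤ (((66 * k ^ 2 : ℕ) : ℝ) * Γ) ^ (66 * k ^ 2) := pow_le_pow_right₀ h2 h3

end Pool.Agent.KSX
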