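import Mathlib

/-!
# Cell-probe data structures for `k`-set disjointness
-/

set_option autoImplicit false

namespace Pool.Agent.KSX

open Finset

/-- An adaptive query algorithm: it answers, or it probes a cell and continues with the content. -/
inductive Alg (S w : ℕ) : Type
  | answer (b : Bool) : Alg S w
  | probe (c : Fin S) (next : Fin (2 ^ w) → Alg S w) : Alg S w

/-- the answer on the memory `M` -/
def Alg.run {S w : ℕ} (M : Fin S → Fin (2 ^ w)) : Alg S w → Bool
  | .answer b => b
  | .probe c next => (next (M c)).run M

/-- at most `T` probes -/
def Alg.Within {S w : ℕ} : ℕ → Alg S w → Prop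
  | _, .answer _ => True
  | 0, .probe _ _ => False
  | T + 1, .probe _ next => ∀ x, (next x).Within T

/-- A data structure for `k`-set disjointness on families of `N` sets (maybe empty) in a universe
of `N` elements, of total size at most `N`: `R` equally likely random strings; `S` cells of `w`
bits, an arbitrary function of the random string and the family; for `k` different indices an
adaptive algorithm with at most `T` probes that decides with probability at least `1 - δ` whether
no element lies in all `k` sets. (`R = 1`, `δ = 0`: deterministic.) -/
structure Scheme (k N S w T : ℕ) (δ : ℝ) where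
  R : ℕ
  pos : 0 < R
  mem : Fin R → (Fin N → Finset (Fin N)) → Fin S → Fin (2 ^ w)
  alg : Fin R → (Fin k → Fin N) → Alg S w
  within : ∀ r q, (alg r q).Within T
  correct : ∀ F : Fin N → Finset (Fin N), ∑ i, (F i).card ≤ N →
    ∀ q : Fin k → Fin N, Function.Injective q →
      (1 - δ) * R ≤ (univ.filter fun r =>
        ((alg r q).run (mem r F) = true ↔ ∀ x, ¬ ∀ i, x ∈ F (q i))).card

end Pool.Agent.KSX
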