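import Pool.Agent.KSX.St2

set_option autoImplicit false

open Finset Matrix

namespace Pool.Agent.KSX

namespace HVP_aux

theorem kappa (a b h D q Q s t : ℝ) (hq : 1 ≤ q) (ha : 0 < a) (hh : 0 < h) (hD : 0 < D)
    (hQ : 0 < Q) (h1 : D * a ≤ h) (h2 : D * b ≤ Q) (h3 : s ≤ 4 * a * Q * (q + 1))
    (h4 : t ≤ a * Q / h + b) : 1 / (a * q) * s + D * t ≤ 10 * Q := by
  have hq0 : 0 < q := by linarith
  have haq : 0 < a * q := mul_pos ha hq0
  have e1 : 1 / (a * q) * s ≤ 8 * Q := by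
    rw [one_div, inv_mul_eq_div, div_le_iff₀ haq]
    have h5 : a * Q * (q + 1) ≤ a * Q * (2 * q) := by
      apply mul_le_mul_of_nonneg_left (by linarith) (by positivity)
    nlinarith
  have e2 : D * t ≤ 2 * Q := by
    have h5 : D * t ≤ D * (a * Q / h + b) := mul_le_mul_of_nonneg_left h4 hD.le
    have h6 : D * (a * Q / h) ≤ Q := by
      rw [← mul_div_assoc, div_le_iff₀ hh]
      calc D * (a * Q) = (D * a) * Q := by ring
        _ ≤ h * Q := mul_le_mul_of_nonneg_right h1 hQ.le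
        _ = Q * h := by ring
    rw [mul_add] at h5
    linarith
  linarith

theorem fin (ρ Q W J a q D : ℝ) (p : ℕ) (hp : 1 ≤ p) (hρ : 0 < ρ) (hQ : 0 < Q) (hW : 0 < W)
    (ha : 0 < a) (hq : 0 < q) (hD : 0 < D) (hJ : J ≤ 2 ^ p)
    (h : (ρ * Q) ^ (2 * p) * W ≤
      (1 / 2) ^ (2 * p) * ((10 * Q) ^ (2 * p) * (W * J * (2 * p * (a * q / D)) ^ p))) :
    ρ ^ 2 * D ≤ 100 * p * a * q := by
  have hp0 : (0 : ℝ) < p := by exact_mod_cast hp
  have h1 : (ρ ^ 2) ^ p * (Q ^ (2 * p) * W) ≤ (100 * p * a * q / D) ^ p * (Q ^ (2 * p) * W) := by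
    calc (ρ ^ 2) ^ p * (Q ^ (2 * p) * W) = (ρ * Q) ^ (2 * p) * W := by
          rw [mul_pow, ← pow_mul]; ring
      _ ≤ (1 / 2) ^ (2 * p) * ((10 * Q) ^ (2 * p) * (W * J * (2 * p * (a * q / D)) ^ p)) := h
      _ ≤ (1 / 2) ^ (2 * p) * ((10 * Q) ^ (2 * p) * (W * 2 ^ p * (2 * p * (a * q / D)) ^ p)) := by
          have h2 : W * J ≤ W * 2 ^ p := mul_le_mul_of_nonneg_left hJ hW.le
          have h3 : W * J * (2 * p * (a * q / D)) ^ p ≤ W * 2 ^ p * (2 * p * (a * q / D)) ^ p :=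
            mul_le_mul_of_nonneg_right h2 (by positivity)
          have h4 : (10 * Q) ^ (2 * p) * (W * J * (2 * p * (a * q / D)) ^ p) ≤
              (10 * Q) ^ (2 * p) * (W * 2 ^ p * (2 * p * (a * q / D)) ^ p) :=
            mul_le_mul_of_nonneg_left h3 (by positivity)
          exact mul_le_mul_of_nonneg_left h4 (by positivity)
      _ = (100 * p * a * q / D) ^ p * (Q ^ (2 * p) * W) := by
          have e1 : (1 / 2 : ℝ) ^ (2 * p) = (1 / 4) ^ p := by
            rw [pow_mul]; norm_num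
          have e2 : (10 * Q) ^ (2 * p) = 100 ^ p * Q ^ (2 * p) := by
            rw [mul_pow, pow_mul (10 : ℝ) 2 p]; norm_num
          have e3 : (100 * p * a * q / D) ^ p =
              (1 / 4) ^ p * 100 ^ p * 2 ^ p * (2 * p * (a * q / D)) ^ p := by
            rw [← mul_pow, ← mul_pow, ← mul_pow]
            congr 1
            ring
          rw [e1, e2, e3]
          ring
  have h2 : (ρ ^ 2) ^ p ≤ (100 * p * a * q / D) ^ p :=
    le_of_mul_le_mul_right h1 (by positivity)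
  have h3 : ρ ^ 2 ≤ 100 * p * a * q / D :=
    le_of_pow_le_pow_left₀ (by omega) (by positivity) h2
  rwa [le_div_iff₀ hD] at h3

end HVP_aux

theorem t_HVP (hGEN : S_GEN) (hPME : S_PME) : S_HVP := by
  intro E J Ω _ _ _ _ _ _ y B u q a b h D ρ m p hp hm hMo hq ha hh hD hρ hE hB hJ h1 h2 h3 h4 h5
  have hQ : (0 : ℝ) < Fintype.card E := by exact_mod_cast hE
  have hW : (0 : ℝ) < Fintype.card Ω := by exact_mod_cast Fintype.card_pos
  have hq0 : 0 < q := by linarith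
  have g1 := hPME Ω (fun ω => 1 / 2 * ∑ e, y ω e * (u ω ⬝ᵥ (B e *ᵥ u ω))) p
    (ρ * Fintype.card E) (by positivity) h5
  have g2 := hGEN E J Ω y B u (a * q) D (10 * Fintype.card E) m p hp hm hMo (mul_pos ha hq0) hD hB
    (fun ω => HVP_aux.kappa a b h D q (Fintype.card E) _ _ hq ha hh hD hQ h1 h2 (h3 ω) (h4 ω))
  apply HVP_aux.fin ρ (Fintype.card E) (Fintype.card Ω) (Fintype.card J) a q D p hp hρ hQ hW ha hq0
    hD hJ
  refine g1.trans ?_
  have g3 : ∑ ω, (1 / 2 * ∑ e, y ω e * (u ω ⬝ᵥ (B e *ᵥ u ω))) ^ (2 * p) =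
      (1 / 2) ^ (2 * p) * ∑ ω, (∑ e, y ω e * (u ω ⬝ᵥ (B e *ᵥ u ω))) ^ (2 * p) := by
    rw [mul_sum]
    exact sum_congr rfl fun ω _ => mul_pow _ _ _
  rw [g3]
  exact mul_le_mul_of_nonneg_left g2 (by positivity)

end Pool.Agent.KSX
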