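import Pool.Agent.KSX.St

/-!
# LBA: one block, few labels coincide
-/

set_option autoImplicit false

open Finset

namespace Pool.Agent.KSX

namespace LBA_aux

variable {n s : ℕ}

theorem sum_resample (y : Fin n) (F : (Fin n → Fin s) → ℝ) :
    ∑ x : Fin n → Fin s, ∑ a : Fin s, F (Function.update x y a) =
      s * ∑ x : Fin n → Fin s, F x := by
  rw [← Fintype.sum_prod_type']
  have h : ∑ p : (Fin n → Fin s) × Fin s, F (Function.update p.1 y p.2) =
      ∑ p : (Fin n → Fin s) × Fin s, F p.1 := by
    have hinv : Function.Involutive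
        (fun p : (Fin n → Fin s) × Fin s => (Function.update p.1 y p.2, p.1 y)) := by
      intro p
      simp
    exact Equiv.sum_comp hinv.toPerm fun p : (Fin n → Fin s) × Fin s => F p.1
  rw [h, Fintype.sum_prod_type]
  simp only [sum_const, card_univ, Fintype.card_fin, nsmul_eq_mul]
  rw [mul_sum]

theorem step {θ : ℝ} (hθ : 1 ≤ θ) (hs : 0 < s) (m : ℕ) (Y : Finset (Fin n)) (u : Fin n)
    (hu : u ∉ Y) (hY : Y.card ≤ m) :
    ∑ x : Fin n → Fin s, θ ^ ((insert u Y).card - ((insert u Y).image x).card) ≤
      (1 + (θ - 1) * (m / s)) * ∑ x : Fin n → Fin s, θ ^ (Y.card - (Y.image x).card) := by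
  classical
  have hs' : (0 : ℝ) < s := by exact_mod_cast hs
  have hθ0 : 0 ≤ θ := zero_le_one.trans hθ
  obtain ⟨g, hg⟩ : ∃ g : (Fin n → Fin s) → ℝ, ∀ x, g x = θ ^ (Y.card - (Y.image x).card) :=
    ⟨_, fun _ => rfl⟩
  have hg0 : ∀ x, 0 ≤ g x := fun x => by
    rw [hg]
    exact pow_nonneg hθ0 _
  have himg : ∀ (x : Fin n → Fin s) (a : Fin s),
      Y.image (Function.update x u a) = Y.image x := by
    intro x a
    refine Finset.image_congr fun v hv => ?_
    rw [Function.update_of_ne]
    rintro rfl
    exact hu hv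
  have hterm : ∀ x : Fin n → Fin s,
      θ ^ ((insert u Y).card - ((insert u Y).image x).card) =
        g x + (θ - 1) * (g x * if x u ∈ Y.image x then 1 else 0) := by
    intro x
    have hle : (Y.image x).card ≤ Y.card := Finset.card_image_le
    rw [Finset.card_insert_of_notMem hu, Finset.image_insert, hg]
    by_cases hx : x u ∈ Y.image x
    · rw [if_pos hx, Finset.insert_eq_of_mem hx,
        show Y.card + 1 - (Y.image x).card = (Y.card - (Y.image x).card) + 1 by omega, pow_succ]
      ring
    · rw [if_neg hx, Finset.card_insert_of_notMem hx,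
        show Y.card + 1 - ((Y.image x).card + 1) = Y.card - (Y.image x).card by omega]
      ring
  have hind : s * ∑ x : Fin n → Fin s, g x * (if x u ∈ Y.image x then 1 else 0) ≤
      m * ∑ x : Fin n → Fin s, g x := by
    rw [← sum_resample u, mul_sum]
    refine sum_le_sum fun x _ => ?_
    have h1 : ∀ a : Fin s, g (Function.update x u a) *
        (if Function.update x u a u ∈ Y.image (Function.update x u a) then (1 : ℝ) else 0) =
        g x * (if a ∈ Y.image x then 1 else 0) := by
      intro a
      rw [hg, hg, himg, Function.update_self]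
    rw [sum_congr rfl fun a _ => h1 a, ← mul_sum]
    have h2 : ∑ a : Fin s, (if a ∈ Y.image x then (1 : ℝ) else 0) = (Y.image x).card := by
      rw [← Finset.sum_filter, Finset.sum_const, nsmul_eq_mul, mul_one]
      congr 2
      ext a
      simp
    rw [h2, mul_comm]
    refine mul_le_mul_of_nonneg_right ?_ (hg0 x)
    exact_mod_cast (Finset.card_image_le.trans hY)
  have hind' : ∑ x : Fin n → Fin s, g x * (if x u ∈ Y.image x then 1 else 0) ≤
      (m / s) * ∑ x : Fin n → Fin s, g x := by
    rw [div_mul_eq_mul_div, le_div_iff₀ hs', mul_comm]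
    exact hind
  calc ∑ x : Fin n → Fin s, θ ^ ((insert u Y).card - ((insert u Y).image x).card)
      = ∑ x : Fin n → Fin s, g x +
        (θ - 1) * ∑ x : Fin n → Fin s, g x * (if x u ∈ Y.image x then 1 else 0) := by
        rw [mul_sum, ← sum_add_distrib]
        exact sum_congr rfl fun x _ => hterm x
    _ ≤ ∑ x : Fin n → Fin s, g x + (θ - 1) * ((m / s) * ∑ x : Fin n → Fin s, g x) := by
        have := mul_le_mul_of_nonneg_left hind' (show 0 ≤ θ - 1 by linarith)
        linarith
    _ = (1 + (θ - 1) * (m / s)) * ∑ x : Fin n → Fin s, θ ^ (Y.card - (Y.image x).card) := by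
        rw [← sum_congr rfl fun x _ => hg x]
        ring

end LBA_aux

open LBA_aux in
/-- LBA -/
theorem t_LBA : S_LBA := by
  classical
  intro n s m θ hθ hs Y
  have hs' : (0 : ℝ) < s := by exact_mod_cast hs
  have hc : 0 ≤ 1 + (θ - 1) * ((m : ℝ) / s) := by
    have h1 : (0 : ℝ) ≤ (m : ℝ) / s := by positivity
    have h2 : 0 ≤ (θ - 1) * ((m : ℝ) / s) := mul_nonneg (by linarith) h1
    linarith
  induction Y using Finset.induction_on with
  | empty =>
    intro _
    simp
  | insert u Y hu ih =>
    intro hY
    rw [Finset.card_insert_of_notMem hu] at hY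
    have h1 := step hθ hs m Y u hu (by omega)
    have h2 := ih (by omega)
    rw [show (insert u Y).card = Y.card + 1 from Finset.card_insert_of_notMem hu] at h1 ⊢
    refine h1.trans ?_
    rw [pow_succ, ← mul_assoc, mul_comm _ (1 + (θ - 1) * ((m : ℝ) / s))]
    exact mul_le_mul_of_nonneg_left h2 hc

end Pool.Agent.KSX
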