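import Pool.Agent.KSX.St

set_option autoImplicit false

open Finset

namespace Pool.Agent.KSX

theorem t_PME : S_PME := by
  intro ι _ _ F p a ha h
  have hc : (0 : ℝ) < Fintype.card ι := by exact_mod_cast Fintype.card_pos
  have h1 := Real.pow_arith_mean_le_arith_mean_pow_of_even univ
    (fun _ : ι => 1 / (Fintype.card ι : ℝ)) F (fun _ _ => by positivity) (by
      rw [sum_const, card_univ, nsmul_eq_mul, mul_one_div, div_self hc.ne'])
      (n := 2 * p) ⟨p, by ring⟩
  rw [← mul_sum, ← mul_sum] at h1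
  have h2 : a ≤ 1 / (Fintype.card ι : ℝ) * ∑ i, F i := by
    rw [one_div, inv_mul_eq_div, le_div_iff₀ hc]
    exact h
  have h3 := (pow_le_pow_left₀ ha h2 (2 * p)).trans h1
  rw [one_div, inv_mul_eq_div, le_div_iff₀ hc] at h3
  exact h3

end Pool.Agent.KSX
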